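import Pool.Agent.H43.MA.Stm3

/-!
# Project MA, stub ALL (helper69): the primes with good `2 ^ i (p + 1) - 1`, from Siegel-Walfisz
-/

set_option autoImplicit false

namespace Pool.Agent.H43.MA

open Finset

namespace ALL

lemma one_le_V (y : ℕ) : 1 ≤ V y * (max 1 y : ℕ) := by
  induction y with
  | zero => simp [V]
  | succ y ih =>
    have hset : (Icc 1 (y + 1)).filter Nat.Prime =
        if (y + 1).Prime then insert (y + 1) ((Icc 1 y).filter Nat.Prime)
        else (Icc 1 y).filter Nat.Prime := by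
      rw [← Finset.insert_Icc_right_eq_Icc_add_one (by omega : 1 ≤ y + 1), filter_insert]
    have hV0 : 0 ≤ V y := by
      unfold V
      apply prod_nonneg
      intro q hq
      rw [mem_filter, mem_Icc] at hq
      have : (1 : ℝ) ≤ q := by exact_mod_cast hq.1.1
      have : 1 / (q : ℝ) ≤ 1 := by
        rw [div_le_one (by linarith)]; exact this
      linarith
    by_cases hp : (y + 1).Prime
    · have hy1 : 1 ≤ y := by
        have := hp.two_le; omega
      have h1 : V (y + 1) = (1 - 1 / ((y + 1 : ℕ) : ℝ)) * V y := by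
        unfold V
        rw [hset, if_pos hp, prod_insert]
        simp
      have h2 : max 1 y = y := max_eq_right hy1
      have h3 : max 1 (y + 1) = y + 1 := max_eq_right (by omega)
      rw [h2] at ih
      rw [h3, h1]
      have h4 : ((y + 1 : ℕ) : ℝ) ≠ 0 := by positivity
      have h5 : (1 - 1 / ((y + 1 : ℕ) : ℝ)) * V y * ((y + 1 : ℕ) : ℝ) = V y * y := by
        field_simp
        push_cast
        ring
      rw [h5]
      exact ih
    · have h1 : V (y + 1) = V y := by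
        unfold V
        rw [hset, if_neg hp]
      rw [h1]
      refine ih.trans ?_
      apply mul_le_mul_of_nonneg_left _ hV0
      have : max 1 y ≤ max 1 (y + 1) := max_le_max le_rfl (by omega)
      exact_mod_cast this

lemma good_of_modEq {k y c p M : ℕ} (hM : ∀ q : ℕ, q.Prime → q ≤ y → q ∣ M) (h : p ≡ c [MOD M])
    (hc : GoodC k y c) : ∀ q : ℕ, q.Prime → q ≤ y → ∀ i ∈ Icc 1 k, ¬ q ∣ 2 ^ i * (p + 1) - 1 := by
  intro q hq hqy i hi hd
  have h1 : p ≡ c [MOD q] := h.of_dvd (hM q hq hqy)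
  have h2 : 2 ^ i * (p + 1) ≡ 2 ^ i * (c + 1) [MOD q] := (h1.add_right 1).mul_left _
  have h3 : 1 ≤ 2 ^ i * (p + 1) := Nat.one_le_iff_ne_zero.2 (by positivity)
  have h4 : 1 ≤ 2 ^ i * (c + 1) := Nat.one_le_iff_ne_zero.2 (by positivity)
  have h5 : 1 ≡ 2 ^ i * (p + 1) [MOD q] := (Nat.modEq_iff_dvd' h3).2 hd
  exact (hc q hq hqy).2 i hi ((Nat.modEq_iff_dvd' h4).1 (h5.trans h2))

lemma coprime_primorial {k y c : ℕ} (hc : GoodC k y c) : c.Coprime (primorial y) := by
  unfold primorial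
  apply Nat.Coprime.prod_right
  intro q hq
  rw [mem_filter, mem_range] at hq
  rw [Nat.coprime_comm, hq.2.coprime_iff_not_dvd]
  exact (hc q hq.2 (by omega)).1

open Classical in
/-- the sum over the good classes -/
lemma count (k x y : ℕ) : ∑ c ∈ (range (primorial y)).filter (fun c => GoodC k y c),
      ((Icc 1 x).filter (fun p => p.Prime ∧ p ≡ c [MOD primorial y])).card ≤
    ((Icc 1 x).filter (fun p => p.Prime ∧ ∀ q : ℕ, q.Prime → q ≤ y → ∀ i ∈ Icc 1 k, ¬ q ∣ 2 ^ i * (p + 1) - 1)).card := by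
  rw [← card_biUnion]
  · apply card_le_card
    intro p hp
    rw [mem_biUnion] at hp
    obtain ⟨c, hc, hp⟩ := hp
    rw [mem_filter] at hc hp ⊢
    refine ⟨hp.1, hp.2.1, ?_⟩
    exact good_of_modEq (fun q hq hqy => hq.dvd_primorial_iff.2 hqy) hp.2.2 hc.2
  · intro c hc c' hc' hne
    rw [mem_coe, mem_filter, mem_range] at hc hc'
    rw [Function.onFun, Finset.disjoint_left]
    intro p hp hp'
    rw [mem_filter] at hp hp'
    apply hne
    have h1 : c ≡ c' [MOD primorial y] := hp.2.2.symm.trans hp'.2.2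
    unfold Nat.ModEq at h1
    rwa [Nat.mod_eq_of_lt hc.1, Nat.mod_eq_of_lt hc'.1] at h1

open Classical in
theorem core (hCRT : S_CRT) (hPRD : S_PRD)
    (hsw : ∀ U K : ℕ, ∃ y0 : ℕ, ∀ y : ℕ, y0 ≤ y → ∀ q : ℕ, 1 ≤ q → (q : ℝ) ≤ Real.log y ^ K →
      ∀ c : ℕ, c < q → c.Coprime q →
      |(((Icc 1 y).filter (fun p => p.Prime ∧ p ≡ c [MOD q])).card : ℝ) -
        (((Icc 1 y).filter (fun p => p.Prime)).card : ℝ) / (Nat.totient q : ℝ)| ≤ y / Real.log y ^ U)
    (hpi : ∃ x0 : ℕ, ∀ x : ℕ, x0 ≤ x → (x : ℝ) / (2 * Real.log x) ≤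
      (((Icc 1 x).filter (fun p => p.Prime)).card : ℝ))
    (hpr : ∀ (K1 y : ℕ) (L : ℝ), Real.exp 1 ≤ L → (y : ℝ) ≤ K1 * Real.log L →
      ((primorial y : ℕ) : ℝ) ≤ L ^ (2 * K1)) : S_ALL := by
  intro k K₁
  obtain ⟨c, hc0, hc⟩ := hPRD k
  obtain ⟨x1, h1⟩ := hsw (2 * K₁ + 2 * k + 6) (2 * K₁)
  obtain ⟨x2, h2⟩ := hpi
  have hlog : Filter.Tendsto (fun n : ℕ => Real.log (n : ℝ)) Filter.atTop Filter.atTop :=
    Real.tendsto_log_atTop.comp tendsto_natCast_atTop_atTop
  have ev1 : ∀ᶠ n : ℕ in Filter.atTop, max (4 / c) 3 ≤ Real.log (n : ℝ) :=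
    hlog.eventually_ge_atTop _
  have ev2 : ∀ᶠ n : ℕ in Filter.atTop, ‖Real.log (Real.log (n : ℝ))‖ ≤
      1 / ((K₁ : ℝ) + 1) * ‖id (Real.log (n : ℝ))‖ :=
    hlog.eventually (Real.isLittleO_log_id_atTop.def (by positivity))
  obtain ⟨x3, h3⟩ := Filter.eventually_atTop.1 (ev1.and ev2)
  refine ⟨max (max x1 x2) x3, fun x hx y hy => ?_⟩
  have b1 : x1 ≤ x := ((le_max_left _ _).trans (le_max_left _ _)).trans hx
  have b2 : x2 ≤ x := ((le_max_right _ _).trans (le_max_left _ _)).trans hx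
  have b3 : x3 ≤ x := (le_max_right _ _).trans hx
  obtain ⟨e1, e2⟩ := h3 x b3
  set L : ℝ := Real.log x with hLdef
  have hL4c : 4 / c ≤ L := (le_max_left _ _).trans e1
  have hL3 : 3 ≤ L := (le_max_right _ _).trans e1
  have hL0 : 0 < L := by linarith
  have hLe : Real.exp 1 ≤ L := by
    have := Real.exp_one_lt_d9
    linarith
  have hlL0 : 0 ≤ Real.log L := Real.log_nonneg (by linarith)
  have hyL : (y : ℝ) ≤ L := by
    rw [id, Real.norm_of_nonneg hlL0, Real.norm_of_nonneg hL0.le] at e2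
    have hK : (0 : ℝ) < (K₁ : ℝ) + 1 := by positivity
    calc (y : ℝ) ≤ K₁ * Real.log L := hy
      _ ≤ ((K₁ : ℝ) + 1) * Real.log L := by
          apply mul_le_mul_of_nonneg_right _ hlL0
          linarith
      _ ≤ ((K₁ : ℝ) + 1) * (1 / ((K₁ : ℝ) + 1) * L) := mul_le_mul_of_nonneg_left e2 hK.le
      _ = L := by field_simp
  set M : ℕ := primorial y with hMdef
  have hM0 : 0 < M := primorial_pos y
  have hM0R : (0 : ℝ) < M := by exact_mod_cast hM0
  have hML : (M : ℝ) ≤ L ^ (2 * K₁) := hpr K₁ y L hLe hy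
  have hx0 : (0 : ℝ) ≤ x := by positivity
  set G : Finset ℕ := (range M).filter (fun c => GoodC k y c) with hG
  have hGM : (G.card : ℝ) ≤ M := by
    have : G.card ≤ (range M).card := card_le_card (filter_subset _ _)
    rw [card_range] at this
    exact_mod_cast this
  have hGc : c * V y ^ (2 * k + 2) * M ≤ G.card := by
    refine (hc y).trans ?_
    have := hCRT k y
    exact_mod_cast this
  -- the classes
  have hcl : ∀ a ∈ G, (x : ℝ) / (2 * L) / M - x / L ^ (2 * K₁ + 2 * k + 6) ≤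
      (((Icc 1 x).filter (fun p => p.Prime ∧ p ≡ a [MOD M])).card : ℝ) := by
    intro a ha
    rw [hG, mem_filter, mem_range] at ha
    have h4 := h1 x b1 M hM0 hML a ha.1 (coprime_primorial ha.2)
    have h5 := h2 x b2
    have h6 : (x : ℝ) / (2 * L) / M ≤
        (((Icc 1 x).filter (fun p => p.Prime)).card : ℝ) / (Nat.totient M : ℝ) := by
      have ht0 : (0 : ℝ) < Nat.totient M := by exact_mod_cast Nat.totient_pos.2 hM0
      have ht1 : (Nat.totient M : ℝ) ≤ M := by exact_mod_cast Nat.totient_le M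
      exact div_le_div₀ (by positivity) h5 ht0 ht1
    have h7 := (abs_le.1 h4).1
    linarith
  have hsum : (G.card : ℝ) * ((x : ℝ) / (2 * L) / M - x / L ^ (2 * K₁ + 2 * k + 6)) ≤
      (((Icc 1 x).filter (fun p => p.Prime ∧ ∀ q : ℕ, q.Prime → q ≤ y → ∀ i ∈ Icc 1 k, ¬ q ∣ 2 ^ i * (p + 1) - 1)).card : ℝ) := by
    have h4 := count k x y
    calc (G.card : ℝ) * ((x : ℝ) / (2 * L) / M - x / L ^ (2 * K₁ + 2 * k + 6))
        = ∑ a ∈ G, ((x : ℝ) / (2 * L) / M - x / L ^ (2 * K₁ + 2 * k + 6)) := by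
          rw [sum_const, nsmul_eq_mul]
      _ ≤ ∑ a ∈ G, (((Icc 1 x).filter (fun p => p.Prime ∧ p ≡ a [MOD M])).card : ℝ) :=
          sum_le_sum hcl
      _ ≤ _ := by exact_mod_cast h4
  set A : ℝ := (((Icc 1 x).filter (fun p => p.Prime ∧ ∀ q : ℕ, q.Prime → q ≤ y → ∀ i ∈ Icc 1 k, ¬ q ∣ 2 ^ i * (p + 1) - 1)).card : ℝ) with hA
  -- the main term
  have hV : 1 / L ≤ V y := by
    have h4 := one_le_V y
    have h5 : ((max 1 y : ℕ) : ℝ) ≤ L := by
      rw [Nat.cast_max]
      apply max_le _ hyL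
      push_cast
      linarith
    have hV0 : 0 ≤ V y := by
      by_contra hneg
      push Not at hneg
      have h6 : (0 : ℝ) ≤ ((max 1 y : ℕ) : ℝ) := by positivity
      nlinarith
    rw [div_le_iff₀ hL0]
    exact h4.trans (mul_le_mul_of_nonneg_left h5 hV0)
  have hVp : 1 / L ^ (2 * k + 2) ≤ V y ^ (2 * k + 2) := by
    rw [← one_div_pow]
    exact pow_le_pow_left₀ (by positivity) hV _
  have hmain : c * (x / (2 * L ^ (2 * k + 3))) ≤ (G.card : ℝ) * ((x : ℝ) / (2 * L) / M) := by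
    calc c * (x / (2 * L ^ (2 * k + 3))) = (c * (1 / L ^ (2 * k + 2)) * M) * ((x : ℝ) / (2 * L) / M) := by
          rw [show 2 * k + 3 = (2 * k + 2) + 1 by ring, pow_succ]
          field_simp
      _ ≤ (c * V y ^ (2 * k + 2) * M) * ((x : ℝ) / (2 * L) / M) := by
          apply mul_le_mul_of_nonneg_right _ (by positivity)
          apply mul_le_mul_of_nonneg_right _ hM0R.le
          exact mul_le_mul_of_nonneg_left hVp hc0.le
      _ ≤ _ := mul_le_mul_of_nonneg_right hGc (by positivity)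
  have herr : (G.card : ℝ) * (x / L ^ (2 * K₁ + 2 * k + 6)) ≤ x / L ^ (2 * k + 6) := by
    calc (G.card : ℝ) * (x / L ^ (2 * K₁ + 2 * k + 6)) ≤ L ^ (2 * K₁) * (x / L ^ (2 * K₁ + 2 * k + 6)) :=
          mul_le_mul_of_nonneg_right (hGM.trans hML) (by positivity)
      _ = x / L ^ (2 * k + 6) := by
          rw [show 2 * K₁ + 2 * k + 6 = 2 * K₁ + (2 * k + 6) by ring, pow_add]
          field_simp
  have hlow : c * (x / (2 * L ^ (2 * k + 3))) - x / L ^ (2 * k + 6) ≤ A := by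
    rw [mul_sub] at hsum
    linarith
  have hLp : 0 < L ^ (2 * k + 4) := by positivity
  calc (x : ℝ) = x * 1 := (mul_one _).symm
    _ ≤ x * (c / 2 * L - 1 / L ^ 2) := by
        apply mul_le_mul_of_nonneg_left _ hx0
        have h4 : 4 ≤ L * c := by
          rwa [div_le_iff₀ hc0] at hL4c
        have h5 : 1 / L ^ 2 ≤ 1 := by
          rw [div_le_one (by positivity)]
          nlinarith
        nlinarith
    _ = (c * (x / (2 * L ^ (2 * k + 3))) - x / L ^ (2 * k + 6)) * L ^ (2 * k + 4) := by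
        have h4 : L ^ (2 * k + 4) = L ^ (2 * k + 3) * L := by
          rw [show 2 * k + 4 = (2 * k + 3) + 1 by ring, pow_succ]
        have h5 : L ^ (2 * k + 6) = L ^ (2 * k + 3) * L ^ 3 := by
          rw [show 2 * k + 6 = (2 * k + 3) + 3 by ring, pow_add]
        have h6 : L ^ (2 * k + 3) ≠ 0 := by positivity
        rw [h4, h5]
        generalize L ^ (2 * k + 3) = P at h6 ⊢
        field_simp
    _ ≤ A * L ^ (2 * k + 4) := mul_le_mul_of_nonneg_right hlow hLp.le

lemma primes_card (x : ℕ) : (Nat.primeCounting x : ℝ) = (((Icc 1 x).filter (fun p => p.Prime)).card : ℝ) := by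
  congr 1
  unfold Nat.primeCounting Nat.primeCounting'
  rw [Nat.count_eq_card_filter_range]
  congr 1
  ext p
  simp only [mem_filter, mem_range, mem_Icc]
  constructor
  · rintro ⟨h1, h2⟩
    exact ⟨⟨h2.one_le, by omega⟩, h2⟩
  · rintro ⟨⟨_, h1⟩, h2⟩
    exact ⟨by omega, h2⟩

/-- as `Pool.Agent.Y877.SX.primorial_le_log` -/
lemma primorial_le_log (K1 y : ℕ) (L : ℝ) (hL : Real.exp 1 ≤ L) (hy : (y : ℝ) ≤ K1 * Real.log L) :
    ((primorial y : ℕ) : ℝ) ≤ L ^ (2 * K1) := by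
  have hL0 : 0 < L := (Real.exp_pos 1).trans_le hL
  have h1 : ((primorial y : ℕ) : ℝ) ≤ (4 : ℝ) ^ y := by exact_mod_cast primorial_le_four_pow y
  refine h1.trans ?_
  rw [← Real.log_le_log_iff (by positivity) (by positivity), Real.log_pow, Real.log_pow]
  have h7 : Real.log 4 ≤ 2 := by
    have : Real.log 4 = 2 * Real.log 2 := by
      rw [show (4 : ℝ) = 2 ^ 2 by norm_num, Real.log_pow]
      norm_num
    rw [this]
    have := Real.log_two_lt_d9
    linarith
  have h8 : 0 ≤ Real.log 4 := Real.log_nonneg (by norm_num)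
  have hlL : 0 ≤ Real.log L := Real.log_nonneg ((Real.one_le_exp (by norm_num)).trans hL)
  push_cast
  calc (y : ℝ) * Real.log 4 ≤ y * 2 := by gcongr
    _ ≤ (K1 * Real.log L) * 2 := by gcongr
    _ = _ := by ring

theorem main : S_CRT → S_PRD → S_ALL := by
  classical
  intro hCRT hPRD
  refine core hCRT hPRD ?_ ?_ ?_
  · intro U K
    obtain ⟨y0, h⟩ := Pool.Agent.H442R2.EHI.Four8.sw U K
    refine ⟨y0, fun y hy q hq hqK c hc hcop => ?_⟩
    have h1 := h y hy q hq hqK c hc hcop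
    unfold H343E.piAP H343E.pi1 at h1
    convert h1
  · obtain ⟨x0, h⟩ := Fin.pi_low
    refine ⟨x0, fun x hx => ?_⟩
    have h1 := h x hx
    rw [primes_card] at h1
    convert h1
  · intro K1 y L hL hy
    exact primorial_le_log K1 y L hL hy

end ALL

end Pool.Agent.H43.MA
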