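import Pool.Agent.H43.MA.MAJ

/-! # Project MA: the bilinear form -/

set_option autoImplicit false

namespace Pool.Agent.H43.MA.BIL

open Finset Filter
open Pool.Agent.helper24_UT (NN Ed)
open Pool.Agent.H373R2.T7 (lamI lamzI lamz Vz Vz_inv_small Vz_pos)
open Pool.Agent.H442R2.EHI (evt_log_pow evt_log_ge)
open Pool.Agent.H43.MA.MAJ (ee_add ee_norm split Ed_le)

theorem ee_cont : Continuous ee := by
  unfold ee
  fun_prop

/-- the function cut to the window -/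
noncomputable def Ew (f : ℤ → ℝ) (s : ℤ) (H : ℕ) (m : ℤ) : ℂ := if s < m ∧ m ≤ s + H then ((f m : ℝ) : ℂ) else 0

/-- the sum over `v` -/
noncomputable def Ds (f : ℤ → ℝ) (c : ℕ → ℂ) (Y H : ℕ) (τ s w : ℤ) : ℂ :=
  ∑ v ∈ Icc 1 Y, c v * Ew f s H (w + τ * v)

/-- the transform of `c` -/
noncomputable def ch (c : ℕ → ℂ) (Y : ℕ) (τ : ℤ) (β : ℝ) : ℂ := ∑ v ∈ Icc 1 Y, c v * ee (β * ((-(τ * v) : ℤ) : ℝ))

theorem ch_cont (c : ℕ → ℂ) (Y : ℕ) (τ : ℤ) : Continuous (ch c Y τ) := by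
  unfold ch
  apply continuous_finset_sum
  intro v _
  exact continuous_const.mul (ee_cont.comp (continuous_id.mul continuous_const))

/-- the transform of the window -/
noncomputable def wh (f : ℤ → ℝ) (H : ℕ) (s : ℤ) (β : ℝ) : ℂ := ∑ m ∈ Ioc s (s + H), ((f m : ℝ) : ℂ) * ee (β * m)

theorem wh_cont (f : ℤ → ℝ) (H : ℕ) (s : ℤ) : Continuous (wh f H s) := by
  unfold wh
  apply continuous_finset_sum
  intro v _
  exact continuous_const.mul (ee_cont.comp (continuous_id.mul continuous_const))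

theorem corr (f : ℤ → ℝ) (c : ℕ → ℂ) (Y H : ℕ) (τ s N : ℤ) (hτ : τ = 1 ∨ τ = -1) (h1 : -N ≤ s - Y)
    (h2 : s + H + Y ≤ N) (β : ℝ) :
    ∑ w ∈ Icc (-N) N, Ds f c Y H τ s w * ee (β * w) = ch c Y τ β * wh f H s β := by
  unfold Ds ch wh
  simp_rw [sum_mul]
  rw [sum_comm]
  refine sum_congr rfl fun v hv => ?_
  rw [mem_Icc] at hv
  have hv1 : (1 : ℤ) ≤ v := by exact_mod_cast hv.1
  have hv2 : (v : ℤ) ≤ Y := by exact_mod_cast hv.2
  rw [mul_sum]
  have h3 : ∀ w ∈ Icc (-N) N, c v * Ew f s H (w + τ * v) * ee (β * w) =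
      if (s < w + τ * v ∧ w + τ * v ≤ s + H) then c v * ((f (w + τ * v) : ℝ) : ℂ) * ee (β * w) else 0 := by
    intro w _
    unfold Ew
    split_ifs <;> ring
  rw [sum_congr rfl h3, ← sum_filter]
  refine sum_nbij' (fun w => w + τ * v) (fun m => m - τ * v) ?_ ?_ ?_ ?_ ?_
  · intro w hw
    rw [mem_filter] at hw
    rw [mem_Ioc]
    exact hw.2
  · intro m hm
    rw [mem_Ioc] at hm
    rw [mem_filter, mem_Icc]
    rcases hτ with rfl | rfl
    · refine ⟨⟨by linarith, by linarith⟩, by linarith, by linarith⟩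
    · refine ⟨⟨by linarith, by linarith⟩, by linarith, by linarith⟩
  · intro w _
    ring
  · intro m _
    ring
  · intro w _
    have h4 : ee (β * w) = ee (β * ((-(τ * v) : ℤ) : ℝ)) * ee (β * ((w + τ * v : ℤ) : ℝ)) := by
      rw [← ee_add]
      congr 1
      push_cast
      ring
    rw [h4]
    ring

theorem parc (hP : S_PARZ) (f : ℤ → ℝ) (c : ℕ → ℂ) (Y H : ℕ) (τ s N : ℤ) (hτ : τ = 1 ∨ τ = -1) (h1 : -N ≤ s - Y)
    (h2 : s + H + Y ≤ N) :
    ∑ w ∈ Icc (-N) N, ‖Ds f c Y H τ s w‖ ^ 2 = ∫ β in (0 : ℝ)..1, ‖ch c Y τ β‖ ^ 2 * ‖wh f H s β‖ ^ 2 := by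
  rw [← hP (Icc (-N) N) (fun w => Ds f c Y H τ s w)]
  apply intervalIntegral.integral_congr
  intro β _
  simp only
  rw [corr f c Y H τ s N hτ h1 h2 β, norm_mul, mul_pow]

theorem chn (hP : S_PARZ) (c : ℕ → ℂ) (hc : ∀ v, ‖c v‖ ≤ 1) (Y : ℕ) (τ : ℤ) (hτ : τ = 1 ∨ τ = -1) :
    ∫ β in (0 : ℝ)..1, ‖ch c Y τ β‖ ^ 2 ≤ Y := by
  have hinj : Set.InjOn (fun v : ℕ => -(τ * (v : ℤ))) (Icc 1 Y : Finset ℕ) := by
    intro a _ b _ hab
    simp only at hab
    rcases hτ with rfl | rfl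
    · omega
    · omega
  have h1 : ∀ β : ℝ, ch c Y τ β = ∑ n ∈ (Icc 1 Y).image (fun v : ℕ => -(τ * (v : ℤ))), c n.natAbs * ee (β * n) := by
    intro β
    rw [sum_image hinj]
    unfold ch
    refine sum_congr rfl fun v _ => ?_
    have : (-(τ * (v : ℤ))).natAbs = v := by
      rcases hτ with rfl | rfl
      · omega
      · omega
    rw [this]
  simp_rw [h1]
  rw [hP ((Icc 1 Y).image (fun v : ℕ => -(τ * (v : ℤ)))) (fun n => c n.natAbs)]
  calc ∑ n ∈ (Icc 1 Y).image (fun v : ℕ => -(τ * (v : ℤ))), ‖c n.natAbs‖ ^ 2 ≤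
        ∑ n ∈ (Icc 1 Y).image (fun v : ℕ => -(τ * (v : ℤ))), (1 : ℝ) := by
        refine sum_le_sum fun n _ => ?_
        have := hc n.natAbs
        exact pow_le_one₀ (norm_nonneg _) this
    _ ≤ Y := by
        rw [sum_const, nsmul_eq_mul, mul_one]
        have h2 := card_image_le (s := Icc 1 Y) (f := fun v : ℕ => -(τ * (v : ℤ)))
        rw [Nat.card_Icc, Nat.add_sub_cancel] at h2
        exact_mod_cast h2

/-- all windows -/
theorem allw (z X Y : ℕ) (L Bd : ℝ) (hL : 0 ≤ L) (hY : 2 * Y ≤ 2 * X) (hf : ∀ m : ℤ, m ≤ ((2 * X : ℕ) : ℤ) → |Ed z m| ≤ 3 * L)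
    (β : ℝ) (hB : ∑ u ∈ range (8 * X), ‖We z (2 * Y) β (u : ℤ)‖ ^ 2 ≤ Bd) :
    ∑ s ∈ Ico (-(8 * X : ℤ)) (8 * X), ‖wh (Ed z) (2 * Y) s β‖ ^ 2 ≤ Bd + 2 * Y * (6 * Y * L) ^ 2 := by
  have e : ∀ s : ℤ, wh (Ed z) (2 * Y) s β = We z (2 * Y) β s := fun s => rfl
  have hd : Ico (-(8 * X : ℤ)) (8 * X) = Ico (-(8 * X : ℤ)) 0 ∪ Ico (0 : ℤ) (8 * X) := by
    rw [Ico_union_Ico_eq_Ico (by omega) (by omega)]
  rw [hd, sum_union (Ico_disjoint_Ico_consecutive _ _ _), add_comm]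
  apply add_le_add
  · refine le_trans (le_of_eq ?_) hB
    have h1 : Ico (0 : ℤ) (8 * X) = (range (8 * X)).image (fun u : ℕ => (u : ℤ)) := by
      ext m
      rw [mem_Ico, mem_image]
      constructor
      · rintro ⟨h1, h2⟩
        exact ⟨m.toNat, by rw [mem_range]; omega, by omega⟩
      · rintro ⟨u, hu, rfl⟩
        rw [mem_range] at hu
        omega
    rw [h1, sum_image (fun a _ b _ hab => by simpa using hab)]
    rfl
  · have h1 : ∀ s ∈ Ico (-(8 * X : ℤ)) 0, ‖wh (Ed z) (2 * Y) s β‖ ^ 2 ≤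
        if (-(2 * Y : ℤ) ≤ s) then (6 * Y * L) ^ 2 else 0 := by
      intro s hs
      rw [mem_Ico] at hs
      split_ifs with h
      · apply pow_le_pow_left₀ (norm_nonneg _)
        unfold wh
        have h2 : ∀ m ∈ Ioc s (s + (2 * Y : ℕ)), ‖((Ed z m : ℝ) : ℂ) * ee (β * m)‖ ≤ 3 * L := by
          intro m hm
          rw [mem_Ioc] at hm
          rw [norm_mul, ee_norm, mul_one, Complex.norm_real, Real.norm_eq_abs]
          apply hf
          push_cast at hm ⊢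
          omega
        refine (norm_sum_le _ _).trans ((sum_le_sum h2).trans (le_of_eq ?_))
        rw [sum_const, Int.card_Ioc, nsmul_eq_mul]
        have : ((s + (2 * Y : ℕ) - s).toNat : ℝ) = 2 * Y := by
          have : (s + (2 * Y : ℕ) - s).toNat = 2 * Y := by omega
          rw [this]; push_cast; rfl
        rw [this]
        ring
      · have : wh (Ed z) (2 * Y) s β = 0 := by
          unfold wh
          apply sum_eq_zero
          intro m hm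
          rw [mem_Ioc] at hm
          have hm0 : ¬ (1 ≤ m) := by push_cast at hm; omega
          have : Ed z m = 0 := by
            unfold Ed lamI lamzI
            rw [if_neg hm0, if_neg hm0, sub_zero]
          rw [this]; simp
        rw [this]; simp
    refine (sum_le_sum h1).trans ?_
    rw [← sum_filter, sum_const, nsmul_eq_mul]
    apply mul_le_mul_of_nonneg_right _ (sq_nonneg _)
    have h3 : (Ico (-(8 * X : ℤ)) 0).filter (fun s => -(2 * Y : ℤ) ≤ s) ⊆ Ico (-(2 * Y : ℤ)) 0 := by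
      intro s hs
      rw [mem_filter, mem_Ico] at hs
      rw [mem_Ico]
      exact ⟨hs.2, hs.1.2⟩
    have h4 := card_le_card h3
    rw [Int.card_Ico] at h4
    have h5 : (0 - -(2 * Y : ℤ)).toNat = 2 * Y := by omega
    rw [h5] at h4
    exact_mod_cast h4

/-- the mean square of the sums over `v` -/
theorem msq (hP : S_PARZ) (z X Y : ℕ) (B' : ℝ) (c : ℕ → ℂ) (hc : ∀ v, ‖c v‖ ≤ 1) (τ : ℤ) (hτ : τ = 1 ∨ τ = -1)
    (hY : 1 ≤ Y) (hY2 : 2 * Y + 1 ≤ 2 * X)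
    (hB : ∀ β : ℝ, ∑ s ∈ Ico (-(8 * X : ℤ)) (8 * X), ‖wh (Ed z) (2 * Y) s β‖ ^ 2 ≤ B') :
    ∑ w ∈ Icc (-(6 * X : ℤ)) (6 * X), ‖∑ v ∈ Icc 1 Y, c v * ((Ed z (w + τ * v) : ℝ) : ℂ)‖ ^ 2 ≤ B' := by
  have hYr : (0 : ℝ) < Y := by exact_mod_cast hY
  set D : ℤ → ℂ := fun w => ∑ v ∈ Icc 1 Y, c v * ((Ed z (w + τ * v) : ℝ) : ℂ) with hD
  set bs : ℤ → ℤ := fun w => if τ = 1 then w - Y else w - 2 * Y - 1 with hbs
  have h1 : ∀ w ∈ Icc (-(6 * X : ℤ)) (6 * X), (Y : ℝ) * ‖D w‖ ^ 2 ≤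
      ∑ s ∈ Ico (-(8 * X : ℤ)) (8 * X), ‖Ds (Ed z) c Y (2 * Y) τ s w‖ ^ 2 := by
    intro w hw
    rw [mem_Icc] at hw
    have h2 : ∀ s ∈ Ioc (bs w) (bs w + Y), Ds (Ed z) c Y (2 * Y) τ s w = D w := by
      intro s hs
      rw [mem_Ioc] at hs
      rw [hD]
      unfold Ds
      refine sum_congr rfl fun v hv => ?_
      rw [mem_Icc] at hv
      congr 1
      unfold Ew
      rw [if_pos]
      rcases hτ with h | h
      · subst h
        simp only [hbs, if_true] at hs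
        push_cast
        omega
      · subst h
        have h' : ¬ ((-1 : ℤ) = 1) := by norm_num
        simp only [hbs, if_neg h'] at hs
        push_cast
        omega
    have h3 : Ioc (bs w) (bs w + Y) ⊆ Ico (-(8 * X : ℤ)) (8 * X) := by
      intro s hs
      rw [mem_Ioc] at hs
      rw [mem_Ico]
      by_cases h : τ = 1
      · simp only [hbs, if_pos h] at hs
        omega
      · simp only [hbs, if_neg h] at hs
        omega
    calc (Y : ℝ) * ‖D w‖ ^ 2 = ∑ s ∈ Ioc (bs w) (bs w + Y), ‖Ds (Ed z) c Y (2 * Y) τ s w‖ ^ 2 := by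
          rw [sum_congr rfl fun s hs => by rw [h2 s hs], sum_const, Int.card_Ioc, nsmul_eq_mul]
          congr 1
          have : (bs w + Y - bs w).toNat = Y := by omega
          rw [this]
      _ ≤ _ := sum_le_sum_of_subset_of_nonneg h3 fun _ _ _ => sq_nonneg _
  have h2 : (Y : ℝ) * ∑ w ∈ Icc (-(6 * X : ℤ)) (6 * X), ‖D w‖ ^ 2 ≤
      ∑ s ∈ Ico (-(8 * X : ℤ)) (8 * X), ∑ w ∈ Icc (-(20 * X : ℤ)) (20 * X), ‖Ds (Ed z) c Y (2 * Y) τ s w‖ ^ 2 := by
    rw [mul_sum]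
    refine (sum_le_sum h1).trans ?_
    rw [sum_comm]
    refine sum_le_sum fun s _ => sum_le_sum_of_subset_of_nonneg ?_ fun _ _ _ => sq_nonneg _
    apply Icc_subset_Icc
    · omega
    · omega
  have h3 : ∑ s ∈ Ico (-(8 * X : ℤ)) (8 * X), ∑ w ∈ Icc (-(20 * X : ℤ)) (20 * X), ‖Ds (Ed z) c Y (2 * Y) τ s w‖ ^ 2 =
      ∫ β in (0 : ℝ)..1, ∑ s ∈ Ico (-(8 * X : ℤ)) (8 * X), ‖ch c Y τ β‖ ^ 2 * ‖wh (Ed z) (2 * Y) s β‖ ^ 2 := by
    rw [intervalIntegral.integral_finset_sum]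
    · refine sum_congr rfl fun s hs => ?_
      rw [mem_Ico] at hs
      exact parc hP (Ed z) c Y (2 * Y) τ s (20 * X) hτ (by omega) (by push_cast; omega)
    · intro s _
      apply Continuous.intervalIntegrable
      exact ((ch_cont c Y τ).norm.pow 2).mul ((wh_cont _ _ _).norm.pow 2)
  have h4 : ∫ β in (0 : ℝ)..1, ∑ s ∈ Ico (-(8 * X : ℤ)) (8 * X), ‖ch c Y τ β‖ ^ 2 * ‖wh (Ed z) (2 * Y) s β‖ ^ 2 ≤
      ∫ β in (0 : ℝ)..1, ‖ch c Y τ β‖ ^ 2 * B' := by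
    apply intervalIntegral.integral_mono_on (by norm_num)
    · apply Continuous.intervalIntegrable
      apply continuous_finset_sum
      intro s _
      exact ((ch_cont c Y τ).norm.pow 2).mul ((wh_cont _ _ _).norm.pow 2)
    · apply Continuous.intervalIntegrable
      exact ((ch_cont c Y τ).norm.pow 2).mul continuous_const
    · intro β _
      rw [← mul_sum]
      exact mul_le_mul_of_nonneg_left (hB β) (sq_nonneg _)
  have hB0 : 0 ≤ B' := (sum_nonneg fun _ _ => sq_nonneg _).trans (hB 0)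
  have h5 : ∫ β in (0 : ℝ)..1, ‖ch c Y τ β‖ ^ 2 * B' ≤ Y * B' := by
    rw [intervalIntegral.integral_mul_const]
    exact mul_le_mul_of_nonneg_right (chn hP c hc Y τ hτ) hB0
  have h6 : (Y : ℝ) * ∑ w ∈ Icc (-(6 * X : ℤ)) (6 * X), ‖D w‖ ^ 2 ≤ Y * B' := by
    rw [h3] at h2
    exact h2.trans (h4.trans h5)
  exact le_of_mul_le_mul_left h6 hYr

theorem main : S_PARZ → S_SU → S_BIL := by
  intro hP hS θ hθ U
  set θ' := (θ + 1 / 3) / 2 with hθ'
  have hθ1 : 1 / 3 < θ' := by rw [hθ']; linarith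
  have hθ2 : 0 < θ - θ' := by rw [hθ']; linarith
  obtain ⟨E₀, h1⟩ := hS θ' hθ1 (2 * U + 1)
  refine ⟨E₀ + 1, fun E₁ => ?_⟩
  obtain ⟨X₀, h2⟩ := h1 E₁
  obtain ⟨X₁, h3⟩ := Vz_inv_small E₁
  obtain ⟨X₂, hX₂⟩ := eventually_atTop.mp ((evt_log_pow 1 (θ - θ') hθ2).and
    ((evt_log_pow (2 * U + 3) (1 / 10) (by norm_num)).and
    ((evt_log_ge (1000 + 2 ^ E₀ + 8 ^ θ')).and (eventually_ge_atTop 8))))
  refine ⟨max (max X₀ X₁) X₂, fun X hX z hz1 hz2 Y hY1 hY2 k σ τ hk hσ hτ G c hG hc => ?_⟩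
  have hXX₀ : X₀ ≤ X := (le_max_left _ _).trans ((le_max_left _ _).trans hX)
  have hXX₁ : X₁ ≤ X := (le_max_right _ _).trans ((le_max_left _ _).trans hX)
  obtain ⟨hp, hp2, hL, hX2⟩ := hX₂ X ((le_max_right _ _).trans hX)
  have hXr : (8 : ℝ) ≤ X := by exact_mod_cast hX2
  have hX0 : (0 : ℝ) < X := by linarith
  set L := Real.log X with hLd
  have h2E : (0 : ℝ) < 2 ^ E₀ := by positivity
  have h2θ : (0 : ℝ) < (8 : ℝ) ^ θ' := by positivity
  have hL48 : 1000 ≤ L := by linarith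
  have hLE : (2 : ℝ) ^ E₀ ≤ L := by linarith
  have hLθ : (8 : ℝ) ^ θ' ≤ L := by linarith
  have hL0 : 0 < L := by linarith
  have hL1 : 1 ≤ L := by linarith
  have hlog8 : Real.log ((8 * X : ℕ) : ℝ) ≤ 2 * L := by
    push_cast
    rw [Real.log_mul (by norm_num) (by positivity)]
    have := Real.log_le_log (by norm_num) hXr
    linarith
  have hlog2 : Real.log ((2 * X : ℕ) : ℝ) ≤ 2 * L := by
    refine le_trans ?_ hlog8
    apply Real.log_le_log
    · push_cast; linarith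
    · push_cast; linarith
  have hlog8' : L ≤ Real.log ((8 * X : ℕ) : ℝ) := by
    apply Real.log_le_log hX0
    push_cast; linarith
  have hXθ1 : 1 ≤ (X : ℝ) ^ θ := Real.one_le_rpow (by linarith) (by linarith)
  have hYr : (1 : ℝ) ≤ Y := hXθ1.trans hY1
  have hY0 : 1 ≤ Y := by exact_mod_cast hYr
  have hX9 : (X : ℝ) ^ (9 / 10 : ℝ) * (X : ℝ) ^ (1 / 10 : ℝ) = X := by
    rw [← Real.rpow_add hX0]; norm_num
  have hX1 : L ≤ (X : ℝ) ^ (1 / 10 : ℝ) := by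
    refine le_trans ?_ hp2
    calc L = L ^ 1 := (pow_one L).symm
      _ ≤ L ^ (2 * U + 3) := pow_le_pow_right₀ hL1 (by omega)
  have hX90 : 0 ≤ (X : ℝ) ^ (9 / 10 : ℝ) := by positivity
  have hYX : 1000 * (Y : ℝ) ≤ X := by
    calc 1000 * (Y : ℝ) ≤ (X : ℝ) ^ (1 / 10 : ℝ) * (X : ℝ) ^ (9 / 10 : ℝ) := by
          apply mul_le_mul (hL48.trans hX1) hY2 (by positivity) (by positivity)
      _ = X := by rw [mul_comm]; exact hX9
  have hYXn : 1000 * Y ≤ X := by exact_mod_cast hYX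
  have hz0 : 1 ≤ z := by
    have h5 : (1 : ℝ) ≤ z := (one_le_pow₀ hL1).trans hz1
    exact_mod_cast h5
  have hV : (Vz z)⁻¹ ≤ L := h3 X hXX₁ z hz0 hz2
  have hf : ∀ m : ℤ, m ≤ ((2 * X : ℕ) : ℤ) → |Ed z m| ≤ 3 * L := by
    intro m hm
    have := Ed_le z (2 * X) L hV m hm
    linarith
  -- the input
  have hSU := h2 (8 * X) (by omega) z (by
      calc Real.log ((8 * X : ℕ) : ℝ) ^ E₀ ≤ (2 * L) ^ E₀ := by gcongr
        _ = 2 ^ E₀ * L ^ E₀ := by rw [mul_pow]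
        _ ≤ L * L ^ E₀ := by gcongr
        _ = L ^ (E₀ + 1) := by ring
        _ ≤ z := hz1) (hz2.trans (pow_le_pow_left₀ hL0.le hlog8' _)) (2 * Y) (by
      push_cast
      rw [Real.mul_rpow (by norm_num) hX0.le]
      have e : (X : ℝ) ^ θ = (X : ℝ) ^ (θ - θ') * (X : ℝ) ^ θ' := by
        rw [← Real.rpow_add hX0]; congr 1; ring
      calc (8 : ℝ) ^ θ' * (X : ℝ) ^ θ' ≤ (X : ℝ) ^ (θ - θ') * (X : ℝ) ^ θ' := by
            apply mul_le_mul_of_nonneg_right _ (by positivity)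
            rw [pow_one] at hp
            linarith
        _ = (X : ℝ) ^ θ := e.symm
        _ ≤ Y := hY1
        _ ≤ 2 * Y := by linarith) (by omega)
  set Bd : ℝ := X * (Y : ℝ) ^ 2 / L ^ (2 * U) / 4 with hBd
  have hBd1 : ∀ β : ℝ, ∑ u ∈ range (8 * X), ‖We z (2 * Y) β (u : ℤ)‖ ^ 2 ≤ Bd := by
    intro β
    refine (hSU β).trans ?_
    calc ((8 * X : ℕ) : ℝ) * ((2 * Y : ℕ) : ℝ) ^ 2 / Real.log ((8 * X : ℕ) : ℝ) ^ (2 * U + 1) ≤
          ((8 * X : ℕ) : ℝ) * ((2 * Y : ℕ) : ℝ) ^ 2 / L ^ (2 * U + 1) := by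
          apply div_le_div_of_nonneg_left (by positivity) (by positivity)
          exact pow_le_pow_left₀ hL0.le hlog8' _
      _ = X * (Y : ℝ) ^ 2 / L ^ (2 * U) * (32 / L) := by
          push_cast
          rw [pow_succ]
          field_simp
          ring
      _ ≤ X * (Y : ℝ) ^ 2 / L ^ (2 * U) * (1 / 4) := by
          apply mul_le_mul_of_nonneg_left _ (by positivity)
          rw [div_le_div_iff₀ hL0 (by norm_num)]
          linarith
      _ = Bd := by rw [hBd]; ring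
  have hBd2 : 2 * (Y : ℝ) * (6 * Y * L) ^ 2 ≤ Bd := by
    have h5 : (Y : ℝ) * L ^ (2 * U + 3) ≤ X := by
      calc (Y : ℝ) * L ^ (2 * U + 3) ≤ (X : ℝ) ^ (9 / 10 : ℝ) * (X : ℝ) ^ (1 / 10 : ℝ) := by gcongr
        _ = X := hX9
    rw [hBd, div_div, le_div_iff₀ (by positivity)]
    calc 2 * (Y : ℝ) * (6 * Y * L) ^ 2 * (L ^ (2 * U) * 4) = (Y : ℝ) ^ 2 * (Y * (288 * L ^ (2 * U + 2))) := by ring
      _ ≤ (Y : ℝ) ^ 2 * (Y * (L * L ^ (2 * U + 2))) := by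
          gcongr
          linarith
      _ = (Y : ℝ) ^ 2 * (Y * L ^ (2 * U + 3)) := by ring
      _ ≤ (Y : ℝ) ^ 2 * X := by gcongr
      _ = X * (Y : ℝ) ^ 2 := by ring
  have hall : ∀ β : ℝ, ∑ s ∈ Ico (-(8 * X : ℤ)) (8 * X), ‖wh (Ed z) (2 * Y) s β‖ ^ 2 ≤ 2 * Bd := by
    intro β
    have := allw z X Y L Bd hL0.le (by omega) hf β (hBd1 β)
    linarith
  have hT := msq hP z X Y (2 * Bd) c hc τ hτ hY0 (by omega) hall
  set D : ℤ → ℂ := fun w => ∑ v ∈ Icc 1 Y, c v * ((Ed z (w + τ * v) : ℝ) : ℂ) with hD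
  have h6 : ‖∑ u ∈ Icc 1 (2 * X), ∑ v ∈ Icc 1 Y, G u * c v * ((Ed z (k + σ * u + τ * v) : ℝ) : ℂ)‖ ≤
      ∑ u ∈ Icc 1 (2 * X), ‖D (k + σ * u)‖ := by
    refine (norm_sum_le _ _).trans (sum_le_sum fun u _ => ?_)
    have : ∑ v ∈ Icc 1 Y, G u * c v * ((Ed z (k + σ * u + τ * v) : ℝ) : ℂ) = G u * D (k + σ * u) := by
      rw [hD, mul_sum]
      exact sum_congr rfl fun v _ => by ring
    rw [this, norm_mul]
    have h7 := hG u
    have h8 := norm_nonneg (D (k + σ * u))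
    nlinarith
  have h7 : (∑ u ∈ Icc 1 (2 * X), ‖D (k + σ * u)‖) ^ 2 ≤ (2 * X) * (2 * Bd) := by
    refine (sq_sum_le_card_mul_sum_sq).trans ?_
    rw [Nat.card_Icc, Nat.add_sub_cancel]
    push_cast
    apply mul_le_mul_of_nonneg_left _ (by positivity)
    refine le_trans ?_ hT
    have hinj : Set.InjOn (fun u : ℕ => k + σ * (u : ℤ)) (Icc 1 (2 * X) : Finset ℕ) := by
      intro a _ b _ hab
      simp only at hab
      rcases hσ with rfl | rfl
      · omega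
      · omega
    have h8 : ∑ u ∈ Icc 1 (2 * X), ‖D (k + σ * u)‖ ^ 2 =
        ∑ w ∈ (Icc 1 (2 * X)).image (fun u : ℕ => k + σ * (u : ℤ)), ‖D w‖ ^ 2 := by
      rw [sum_image hinj]
    rw [h8]
    refine sum_le_sum_of_subset_of_nonneg ?_ fun _ _ _ => sq_nonneg _
    intro w hw
    rw [mem_image] at hw
    obtain ⟨u, hu, rfl⟩ := hw
    rw [mem_Icc] at hu ⊢
    rw [abs_le] at hk
    rcases hσ with rfl | rfl
    · omega
    · omega
  refine h6.trans ?_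
  apply le_of_sq_le_sq _ (by positivity)
  refine h7.trans (le_of_eq ?_)
  rw [hBd, div_pow, ← pow_mul, mul_comm U 2]
  ring

end Pool.Agent.H43.MA.BIL
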