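import Pool.Agent.H43.MA.Stm

/-!
# Project MA, stub BOX: one box on the minor arcs (helper37)
-/

set_option autoImplicit false

namespace Pool.Agent.H43.MA.BOX

open Finset Filter

lemma big {δ : ℝ} (hδ : 0 < δ) (K : ℝ) (m : ℕ) :
    ∀ᶠ X : ℕ in atTop, K * Real.log X ^ m ≤ (X : ℝ) ^ δ := by
  have h := (isLittleO_log_rpow_rpow_atTop (m : ℝ) hδ)
  have h2 := h.comp_tendsto tendsto_natCast_atTop_atTop
  have h3 := h2.bound (show (0 : ℝ) < 1 / (|K| + 1) by positivity)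
  filter_upwards [h3, eventually_ge_atTop 2] with X hX hX2
  simp only [Function.comp_apply, Real.rpow_natCast] at hX
  have hX1 : (1 : ℝ) ≤ X := by exact_mod_cast (by omega : 1 ≤ X)
  have hl : 0 ≤ Real.log X := Real.log_nonneg hX1
  have hp : 0 ≤ (X : ℝ) ^ δ := Real.rpow_nonneg (by linarith) _
  rw [Real.norm_of_nonneg (pow_nonneg hl m), Real.norm_of_nonneg hp] at hX
  have hK : 0 < |K| + 1 := by positivity
  have h4 : (|K| + 1) * Real.log X ^ m ≤ (X : ℝ) ^ δ := by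
    calc (|K| + 1) * Real.log X ^ m ≤ (|K| + 1) * (1 / (|K| + 1) * (X : ℝ) ^ δ) := by gcongr
      _ = (X : ℝ) ^ δ := by field_simp
  have h5 : K * Real.log X ^ m ≤ (|K| + 1) * Real.log X ^ m := by
    apply mul_le_mul_of_nonneg_right _ (pow_nonneg hl m)
    linarith [le_abs_self K]
  linarith

lemma logbig (K : ℝ) : ∀ᶠ X : ℕ in atTop, K ≤ Real.log X :=
  (Real.tendsto_log_atTop.comp tendsto_natCast_atTop_atTop).eventually_ge_atTop K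

/-- final step -/
lemma fin {A E0 : ℕ} {L l P1 Kc Z : ℝ} (hL : 1 ≤ L) (hl0 : 0 ≤ l) (hl : l ≤ 3 * L) (hZ : 0 ≤ Z)
    (hK0 : 0 ≤ Kc) (hK : Kc * 3 ^ E0 ≤ L) (hP : L ^ (A + E0 + 1) ≤ P1) :
    Kc * l ^ E0 * Z / P1 ≤ Z / L ^ A := by
  have hL0 : 0 < L := by linarith
  have hP0 : 0 < P1 := lt_of_lt_of_le (by positivity) hP
  rw [div_le_div_iff₀ hP0 (by positivity)]
  have h1 : Kc * l ^ E0 ≤ Kc * (3 * L) ^ E0 := by gcongr
  have h2 : Kc * (3 * L) ^ E0 = (Kc * 3 ^ E0) * L ^ E0 := by rw [mul_pow]; ring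
  have h3 : (Kc * 3 ^ E0) * L ^ E0 ≤ L * L ^ E0 := by gcongr
  have h4 : Kc * l ^ E0 * L ^ A ≤ P1 := by
    calc Kc * l ^ E0 * L ^ A ≤ L * L ^ E0 * L ^ A := by
          apply mul_le_mul_of_nonneg_right _ (by positivity)
          linarith
      _ = L ^ (A + E0 + 1) := by rw [pow_add, pow_add]; ring
      _ ≤ P1 := hP
  calc Kc * l ^ E0 * Z * L ^ A = Z * (Kc * l ^ E0 * L ^ A) := by ring
    _ ≤ Z * P1 := by gcongr

/-- the part of NB used here -/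
def NBp (C : ℝ) (E : ℕ) : Prop := ∀ (T : Finset (Fin 8)) (d : Fin 8 → ℕ),
  (∀ n, (∏ i ∈ T, fc i (d i)) n ≠ 0 → ∏ i ∈ T, 2 ^ (d i) ≤ n ∧ n ≤ 2 ^ T.card * ∏ i ∈ T, 2 ^ (d i)) ∧
  ∀ N : ℕ, 1 ≤ N → ∑ n ∈ Icc 1 N, ((∏ i ∈ T, fc i (d i)) n) ^ 2 ≤ C * N * (1 + Real.log N) ^ E ∧
    ∑ n ∈ Icc 1 N, |(∏ i ∈ T, fc i (d i)) n| ≤ C * N * (1 + Real.log N) ^ E

lemma prodT (d : Fin 8 → ℕ) (T : Finset (Fin 8)) :
    (∏ i ∈ T, 2 ^ (d i)) * (∏ i ∈ Tᶜ, 2 ^ (d i)) = 2 ^ (∑ i, d i) := by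
  rw [Finset.prod_mul_prod_compl, Finset.prod_pow_eq_pow_sum]

lemma cardT (T : Finset (Fin 8)) : 2 ^ T.card * 2 ^ (Tᶜ).card = 256 := by
  have h := Finset.card_add_card_compl T
  rw [← pow_add, h]; norm_num

lemma bxT (d : Fin 8 → ℕ) (T : Finset (Fin 8)) :
    bx d = (∏ i ∈ T, fc i (d i)) * (∏ i ∈ Tᶜ, fc i (d i)) := by
  rw [bx, Finset.prod_mul_prod_compl]

lemma log_le_l {m X : ℕ} (hm : 1 ≤ m) (h : m ≤ 256 * X) : Real.log m ≤ Real.log (256 * X) := by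
  apply Real.log_le_log
  · exact_mod_cast hm
  · exact_mod_cast h

lemma caseT (hTII : S_TII) {C1 C3 : ℝ} {E : ℕ} (hC1 : 1 ≤ C1) (hC3 : 1 ≤ C3)
    (hS : ∀ (α : ℝ) (a : ℤ) (q : ℕ), 1 ≤ q → IsCoprime a (q : ℤ) → |α - a / q| ≤ 1 / (q : ℝ) ^ 2 →
      ∀ K M : ℕ, ∑ k ∈ range (K + 1), mn M (α * k) ≤ C1 * (K / q + 1) * (M + q * (1 + Real.log q)))
    (hNB : NBp C3 E) (X H q P1 : ℕ) (α : ℝ) (a : ℤ) (d : Fin 8 → ℕ) (T : Finset (Fin 8))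
    (hX : 1 ≤ X) (hHX : H ≤ X) (hP1 : 1 ≤ P1) (hqP : P1 ≤ q) (hqH : q * P1 ≤ H)
    (hq2 : |α - a / q| ≤ 1 / (q : ℝ) ^ 2) (hco : IsCoprime a (q : ℤ))
    (hM1 : P1 ≤ ∏ i ∈ T, 2 ^ (d i)) (hM2 : (∏ i ∈ T, 2 ^ (d i)) * P1 ≤ H)
    (hd : 2 ^ (∑ i, d i) ≤ X) :
    WS H (256 * X) α (fun n => bx d n) ≤
      (4 * 514 * 256 * C3 ^ 2 * C1) * (1 + Real.log (256 * X)) ^ (2 * E + 1) * (X * (H : ℝ) ^ 2) / P1 := by
  set M := ∏ i ∈ T, 2 ^ (d i) with hM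
  set R0 := ∏ i ∈ Tᶜ, 2 ^ (d i) with hR0
  have hMR : M * R0 = 2 ^ (∑ i, d i) := prodT d T
  have hMpos : 1 ≤ M := le_trans hP1 hM1
  have hR0pos : 1 ≤ R0 := Nat.succ_le_of_lt (Finset.prod_pos (fun i _ => pow_pos (by norm_num) _))
  set M' := 2 ^ T.card * M with hM'
  set R := 2 ^ (Tᶜ).card * R0 with hR
  have hcT := cardT T
  have hM'R : M' * R ≤ 256 * X := by
    calc M' * R = (2 ^ T.card * 2 ^ (Tᶜ).card) * (M * R0) := by rw [hM', hR]; ring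
      _ ≤ 256 * X := by rw [hcT, hMR]; exact Nat.mul_le_mul_left _ hd
  have h2T : 2 ^ T.card ≤ 256 := by
    have : 1 ≤ 2 ^ (Tᶜ).card := Nat.one_le_two_pow
    calc 2 ^ T.card ≤ 2 ^ T.card * 2 ^ (Tᶜ).card := Nat.le_mul_of_pos_right _ this
      _ = 256 := hcT
  have hM'pos : 1 ≤ M' := Nat.mul_pos (by positivity) hMpos
  have hRpos : 1 ≤ R := Nat.mul_pos (by positivity) hR0pos
  have hM'N : M' ≤ 256 * X := le_trans (Nat.le_mul_of_pos_right _ hRpos) hM'R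
  have hRN : R ≤ 256 * X := le_trans (Nat.le_mul_of_pos_left _ hM'pos) hM'R
  have hf := hNB T d
  have hg := hNB Tᶜ d
  have hsup := hTII H (256 * X) M M' R α (∏ i ∈ T, fc i (d i)) (∏ i ∈ Tᶜ, fc i (d i)) hMpos hf.1
    (fun n hn => (hg.1 n hn).2) hM'R
  rw [← bxT] at hsup
  set l := 1 + Real.log (256 * X) with hl
  have hX1 : (1 : ℝ) ≤ X := by exact_mod_cast hX
  have hl1 : 1 ≤ l := by
    have : 0 ≤ Real.log (256 * (X : ℝ)) := Real.log_nonneg (by linarith)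
    linarith
  have hlM : 1 + Real.log M' ≤ l := by
    have := log_le_l hM'pos hM'N; rw [hl]; linarith
  have hlR : 1 + Real.log R ≤ l := by
    have := log_le_l hRpos hRN; rw [hl]; linarith
  have hq1 : 1 ≤ q := le_trans hP1 hqP
  have hqN : q ≤ 256 * X := by
    have : q ≤ H := le_trans (Nat.le_mul_of_pos_right _ hP1) hqH
    omega
  have hlq : 1 + Real.log q ≤ l := by
    have := log_le_l hq1 hqN; rw [hl]; linarith
  have hF : ∑ n ∈ Icc 1 M', ((∏ i ∈ T, fc i (d i)) n) ^ 2 ≤ C3 * M' * l ^ E := by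
    refine le_trans (hf.2 M' hM'pos).1 ?_
    have : 0 ≤ 1 + Real.log (M' : ℝ) := by
      have := Real.log_nonneg (show (1 : ℝ) ≤ M' by exact_mod_cast hM'pos); linarith
    gcongr
  have hG : ∑ n ∈ Icc 1 R, ((∏ i ∈ Tᶜ, fc i (d i)) n) ^ 2 ≤ C3 * R * l ^ E := by
    refine le_trans (hg.2 R hRpos).1 ?_
    have : 0 ≤ 1 + Real.log (R : ℝ) := by
      have := Real.log_nonneg (show (1 : ℝ) ≤ R by exact_mod_cast hRpos); linarith
    gcongr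
  have hSS : ∑ k ∈ range (H / M + 1), mn M' (α * k) ≤ C1 * 514 * l * (H / P1) := by
    refine le_trans (hS α a q hq1 hco hq2 (H / M) M') ?_
    have hMr : (0 : ℝ) < M := by exact_mod_cast hMpos
    have hqr : (0 : ℝ) < q := by exact_mod_cast hq1
    have hPr : (0 : ℝ) < P1 := by exact_mod_cast hP1
    have hHr : (0 : ℝ) ≤ H := by positivity
    have e1 : ((H / M : ℕ) : ℝ) ≤ H / M := Nat.cast_div_le
    have e2 : (M' : ℝ) ≤ 256 * M := by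
      rw [hM']; push_cast
      have : (2 : ℝ) ^ T.card ≤ 256 := by exact_mod_cast h2T
      gcongr
    have e3 : (H : ℝ) / q ≤ H / P1 := by
      apply div_le_div_of_nonneg_left hHr hPr; exact_mod_cast hqP
    have e4 : (H : ℝ) / M ≤ H / P1 := by
      apply div_le_div_of_nonneg_left hHr hPr; exact_mod_cast hM1
    have e5 : (M : ℝ) ≤ H / P1 := by
      rw [le_div_iff₀ hPr]; exact_mod_cast hM2
    have e6 : (q : ℝ) ≤ H / P1 := by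
      rw [le_div_iff₀ hPr]; exact_mod_cast hqH
    have hHP : 0 ≤ (H : ℝ) / P1 := by positivity
    have key : (((H / M : ℕ) : ℝ) / q + 1) * (M' + q * (1 + Real.log q)) ≤ 514 * l * (H / P1) := by
      calc (((H / M : ℕ) : ℝ) / q + 1) * (M' + q * (1 + Real.log q))
          ≤ ((H / M : ℝ) / q + 1) * (256 * M + q * l) := by
            have : 0 ≤ 1 + Real.log (q : ℝ) := by
              have := Real.log_nonneg (show (1 : ℝ) ≤ q by exact_mod_cast hq1); linarith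
            gcongr
        _ = 256 * (H / q) + l * (H / M) + 256 * M + q * l := by field_simp; ring
        _ ≤ 256 * (H / P1) + l * (H / P1) + 256 * (H / P1) + (H / P1) * l := by gcongr
        _ = (512 + 2 * l) * (H / P1) := by ring
        _ ≤ (514 * l) * (H / P1) := by
            apply mul_le_mul_of_nonneg_right _ hHP
            linarith
    calc C1 * (((H / M : ℕ) : ℝ) / q + 1) * (M' + q * (1 + Real.log q))
        = C1 * ((((H / M : ℕ) : ℝ) / q + 1) * (M' + q * (1 + Real.log q))) := by ring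
      _ ≤ C1 * (514 * l * (H / P1)) := by gcongr
      _ = C1 * 514 * l * (H / P1) := by ring
  have hP1r : (0 : ℝ) < P1 := by exact_mod_cast hP1
  have hF0 : 0 ≤ ∑ n ∈ Icc 1 M', ((∏ i ∈ T, fc i (d i)) n) ^ 2 := Finset.sum_nonneg (fun _ _ => sq_nonneg _)
  have hG0 : 0 ≤ ∑ n ∈ Icc 1 R, ((∏ i ∈ Tᶜ, fc i (d i)) n) ^ 2 := Finset.sum_nonneg (fun _ _ => sq_nonneg _)
  have hMRr : (M' : ℝ) * R ≤ 256 * X := by exact_mod_cast hM'R
  have hl0 : 0 ≤ l := by linarith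
  calc WS H (256 * X) α (fun n => bx d n)
      ≤ 4 * H * (∑ n ∈ Icc 1 M', ((∏ i ∈ T, fc i (d i)) n) ^ 2) *
        (∑ n ∈ Icc 1 R, ((∏ i ∈ Tᶜ, fc i (d i)) n) ^ 2) * ∑ k ∈ range (H / M + 1), mn M' (α * k) := hsup
    _ ≤ 4 * H * (∑ n ∈ Icc 1 M', ((∏ i ∈ T, fc i (d i)) n) ^ 2) *
        (∑ n ∈ Icc 1 R, ((∏ i ∈ Tᶜ, fc i (d i)) n) ^ 2) * (C1 * 514 * l * (H / P1)) := by
          gcongr
    _ ≤ 4 * H * (C3 * M' * l ^ E) * (C3 * R * l ^ E) * (C1 * 514 * l * (H / P1)) := by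
          gcongr
    _ = (4 * 514 * C3 ^ 2 * C1 * l ^ (2 * E + 1) * (H : ℝ) ^ 2 / P1) * (M' * R) := by
          rw [pow_succ, two_mul, pow_add]; ring
    _ ≤ (4 * 514 * C3 ^ 2 * C1 * l ^ (2 * E + 1) * (H : ℝ) ^ 2 / P1) * (256 * X) := by
          gcongr
    _ = _ := by ring

lemma fc_sm (i : Fin 8) (hi : 4 ≤ i.val) : ∃ v : ℕ, ∀ e, fc i e = sm v e := by
  by_cases h : i.val < 7
  · exact ⟨0, fun e => by rw [fc, if_neg (by omega), if_pos h]⟩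
  · exact ⟨1, fun e => by rw [fc, if_neg (by omega), if_neg h]⟩

/-- sums over `[1, N]` of functions supported up to `K` -/
lemma sum_supp (f : ℕ → ℝ) (K N : ℕ) (h : ∀ n, f n ≠ 0 → n ≤ K) (h0 : ∀ n, 0 ≤ f n) :
    ∑ n ∈ Icc 1 N, f n ≤ ∑ n ∈ Icc 1 K, f n := by
  rw [← Finset.sum_filter_of_ne (s := Icc 1 N) (p := fun n => n ≤ K) (fun n _ hn => h n hn)]
  apply Finset.sum_le_sum_of_subset_of_nonneg
  · intro n hn
    simp only [mem_filter, mem_Icc] at hn ⊢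
    exact ⟨hn.1.1, hn.2⟩
  · intro n _ _; exact h0 n

lemma caseA (hWSB : S_WSB) {C3 : ℝ} {E : ℕ} (hC3 : 1 ≤ C3) (hNB : NBp C3 E) (X H P1 : ℕ) (α : ℝ)
    (d : Fin 8 → ℕ) (_hX : 1 ≤ X) (hP1 : 1 ≤ P1) (hPX : P1 ≤ X) (T : Finset (Fin 8)) (hT : Tᶜ = ∅)
    (hM : ∏ i ∈ T, 2 ^ (d i) < P1) :
    WS H (256 * X) α (fun n => bx d n) ≤
      (256 * C3 * P1 * (1 + Real.log (256 * X)) ^ E) * (H : ℝ) ^ 2 := by
  have hTu : T = Finset.univ := by rw [← compl_compl T, hT, Finset.compl_empty]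
  subst hTu
  have hbx : bx d = ∏ i ∈ (Finset.univ : Finset (Fin 8)), fc i (d i) := rfl
  have h1 := hWSB.2.1 H (256 * X) α (fun n => bx d n)
  have hnb := hNB Finset.univ d
  have hs : ∀ n, ((bx d n) ^ 2 : ℝ) ≠ 0 → n ≤ 256 * P1 := by
    intro n hn
    have h2 : (∏ i ∈ (Finset.univ : Finset (Fin 8)), fc i (d i)) n ≠ 0 := by
      intro h0; apply hn; rw [hbx, h0]; norm_num
    have h3 := (hnb.1 n h2).2
    have h4 : 2 ^ (Finset.univ : Finset (Fin 8)).card = 256 := by norm_num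
    rw [h4] at h3
    exact le_trans h3 (Nat.mul_le_mul_left _ hM.le)
  have h5 := sum_supp (fun n => ((bx d n) ^ 2 : ℝ)) (256 * P1) (256 * X) hs (fun n => sq_nonneg _)
  have h6 := (hnb.2 (256 * P1) (by omega)).1
  rw [← hbx] at h6
  have hl : 1 + Real.log ((256 * P1 : ℕ) : ℝ) ≤ 1 + Real.log (256 * X) := by
    have := log_le_l (m := 256 * P1) (X := X) (by omega) (by omega)
    linarith
  have hl0 : 0 ≤ 1 + Real.log ((256 * P1 : ℕ) : ℝ) := by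
    have := Real.log_nonneg (show (1 : ℝ) ≤ ((256 * P1 : ℕ) : ℝ) by exact_mod_cast (by omega : 1 ≤ 256 * P1))
    linarith
  have h7 : ∑ n ∈ Icc 1 (256 * X), ((bx d n) ^ 2 : ℝ) ≤ 256 * C3 * P1 * (1 + Real.log (256 * X)) ^ E := by
    calc ∑ n ∈ Icc 1 (256 * X), ((bx d n) ^ 2 : ℝ) ≤ ∑ n ∈ Icc 1 (256 * P1), ((bx d n) ^ 2 : ℝ) := h5
      _ ≤ C3 * ((256 * P1 : ℕ) : ℝ) * (1 + Real.log ((256 * P1 : ℕ) : ℝ)) ^ E := h6
      _ ≤ C3 * ((256 * P1 : ℕ) : ℝ) * (1 + Real.log (256 * X)) ^ E := by gcongr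
      _ = _ := by push_cast; ring
  calc WS H (256 * X) α (fun n => bx d n) ≤ (H : ℝ) ^ 2 * ∑ n ∈ Icc 1 (256 * X), ((bx d n) ^ 2 : ℝ) := h1
    _ ≤ (H : ℝ) ^ 2 * (256 * C3 * P1 * (1 + Real.log (256 * X)) ^ E) := by gcongr
    _ = _ := by ring

lemma caseB (hTIS : S_TIS) {C3 : ℝ} {E : ℕ} (hC3 : 1 ≤ C3) (hNB : NBp C3 E) (X H q P1 : ℕ) (α : ℝ)
    (a : ℤ) (d : Fin 8 → ℕ) (T : Finset (Fin 8)) (i : Fin 8) (hTi : Tᶜ = {i}) (hi : 4 ≤ i.val)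
    (hX : 1 ≤ X) (hHX : H ≤ X) (hP5 : 5 ≤ P1) (hqP : P1 ^ 8 ≤ q) (hqH : q * P1 ^ 8 ≤ H)
    (hq2 : |α - a / q| ≤ 1 / (q : ℝ) ^ 2) (hco : IsCoprime a (q : ℤ))
    (hM : ∏ i ∈ T, 2 ^ (d i) < P1) (hd : 2 ^ (∑ i, d i) ≤ X) :
    WS H (256 * X) α (fun n => bx d n) ≤
      (257 * 4 * 65536 * C3 ^ 2) * (1 + Real.log (256 * X)) ^ (2 * E + 2) * (X * (H : ℝ) ^ 2) / P1 := by
  obtain ⟨v, hv⟩ := fc_sm i hi
  set M := ∏ i ∈ T, 2 ^ (d i) with hMdef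
  have hMpos : 1 ≤ M := Nat.succ_le_of_lt (Finset.prod_pos (fun i _ => pow_pos (by norm_num) _))
  set W := 2 ^ T.card * M with hW
  have hcT := cardT T
  have h2T : 2 ^ T.card ≤ 256 := by
    have : 1 ≤ 2 ^ (Tᶜ).card := Nat.one_le_two_pow
    calc 2 ^ T.card ≤ 2 ^ T.card * 2 ^ (Tᶜ).card := Nat.le_mul_of_pos_right _ this
      _ = 256 := hcT
  have hWP : W ≤ 256 * P1 := Nat.mul_le_mul h2T hM.le
  have hWpos : 1 ≤ W := Nat.mul_pos (by positivity) hMpos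
  have hMR := prodT d T
  rw [hTi, Finset.prod_singleton] at hMR
  rw [hTi, Finset.card_singleton] at hcT
  have hWN : W * 2 ^ (d i + 1) ≤ 256 * X := by
    calc W * 2 ^ (d i + 1) = (2 ^ T.card * 2 ^ 1) * (M * 2 ^ (d i)) := by rw [hW, pow_add]; ring
      _ ≤ 256 * X := by rw [hcT, hMR]; exact Nat.mul_le_mul_left _ hd
  have hP7 : 512 * P1 ≤ P1 ^ 8 := by
    calc 512 * P1 ≤ 5 ^ 7 * P1 := Nat.mul_le_mul_right _ (by norm_num)
      _ ≤ P1 ^ 7 * P1 := Nat.mul_le_mul_right _ (Nat.pow_le_pow_left hP5 7)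
      _ = P1 ^ 8 := by ring
  have h2W : 2 * W ≤ q := by omega
  have hq1 : 1 ≤ q := by omega
  have hf := hNB T d
  have h1 := hTIS H (256 * X) W v (d i) q α a (∏ i ∈ T, fc i (d i)) hq1 hco hq2 h2W
    (fun n hn => (hf.1 n hn).2) hWN
  rw [← hv, show (∏ i ∈ T, fc i (d i)) * fc i (d i) = bx d by rw [bxT d T, hTi, Finset.prod_singleton]] at h1
  have hWX : W ≤ 256 * X := le_trans (Nat.le_mul_of_pos_right _ (by positivity)) hWN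
  set l := 1 + Real.log (256 * X) with hl
  have hX1 : (1 : ℝ) ≤ X := by exact_mod_cast hX
  have hl1 : 1 ≤ l := by
    have : 0 ≤ Real.log (256 * (X : ℝ)) := Real.log_nonneg (by linarith)
    linarith
  have hlW : 1 + Real.log W ≤ l := by
    have := log_le_l hWpos hWX; rw [hl]; linarith
  have hF : ∑ n ∈ Icc 1 W, |(∏ i ∈ T, fc i (d i)) n| ≤ C3 * W * l ^ E := by
    refine le_trans (hf.2 W hWpos).2 ?_
    have : 0 ≤ 1 + Real.log (W : ℝ) := by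
      have := Real.log_nonneg (show (1 : ℝ) ≤ W by exact_mod_cast hWpos); linarith
    gcongr
  have hPr : (0 : ℝ) < P1 := by exact_mod_cast (by omega : 0 < P1)
  have hlN : 1 + Real.log ((256 * X : ℕ) : ℝ) = l := by rw [hl]; push_cast; ring
  rw [hlN] at h1
  have hqW : (q : ℝ) * W ≤ 256 * H / P1 := by
    rw [le_div_iff₀ hPr]
    have h3 : q * (P1 * P1) ≤ H := by
      refine le_trans (Nat.mul_le_mul_left _ ?_) hqH
      calc P1 * P1 = P1 ^ 2 := by ring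
        _ ≤ P1 ^ 8 := Nat.pow_le_pow_right (by omega) (by norm_num)
    have h4 : q * W * P1 ≤ 256 * H := by
      calc q * W * P1 ≤ q * (256 * P1) * P1 := by gcongr
        _ = 256 * (q * (P1 * P1)) := by ring
        _ ≤ 256 * H := Nat.mul_le_mul_left _ h3
    exact_mod_cast h4
  have hP1r : (1 : ℝ) ≤ P1 := by exact_mod_cast (by omega : 1 ≤ P1)
  have hHXr : (H : ℝ) ≤ X := by exact_mod_cast hHX
  have hl0 : 0 ≤ l := by linarith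
  calc WS H (256 * X) α (fun n => bx d n)
      ≤ (((256 * X : ℕ) : ℝ) + H) * (2 * l * q * ∑ n ∈ Icc 1 W, |(∏ i ∈ T, fc i (d i)) n|) ^ 2 := h1
    _ ≤ (257 * X) * (2 * l * q * (C3 * W * l ^ E)) ^ 2 := by
        have e0 : 0 ≤ ∑ n ∈ Icc 1 W, |(∏ i ∈ T, fc i (d i)) n| := Finset.sum_nonneg (fun _ _ => abs_nonneg _)
        have e1 : (((256 * X : ℕ) : ℝ) + H) ≤ 257 * X := by push_cast; linarith
        gcongr
    _ = (257 * X) * (4 * C3 ^ 2 * l ^ (2 * E + 2)) * (q * W) ^ 2 := by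
        rw [pow_add, pow_mul']; ring
    _ ≤ (257 * X) * (4 * C3 ^ 2 * l ^ (2 * E + 2)) * (256 * H / P1) ^ 2 := by gcongr
    _ = (257 * 4 * 65536 * C3 ^ 2) * l ^ (2 * E + 2) * (X * (H : ℝ) ^ 2) / P1 * (1 / P1) := by
        field_simp; ring
    _ ≤ (257 * 4 * 65536 * C3 ^ 2) * l ^ (2 * E + 2) * (X * (H : ℝ) ^ 2) / P1 * 1 := by
        have e2 : 1 / (P1 : ℝ) ≤ 1 := by rw [div_le_one hPr]; exact hP1r
        gcongr
    _ = _ := by ring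

/-- two smooth variables, ordered -/
lemma caseC {C2 C3 : ℝ} {E : ℕ} (hC2 : 1 ≤ C2)
    (hD2 : ∀ (H N W v w e e2 q Q0 Q1 : ℕ) (α : ℝ) (a : ℤ) (f : AF), (∀ n, f n ≠ 0 → n ≤ W) → e ≤ e2 →
      W * (2 ^ (e + 1) * 2 ^ (e2 + 1)) ≤ N → 1 ≤ Q0 → 1 ≤ Q1 → IsCoprime a (q : ℤ) → Q1 * W < q →
      q * Q0 ≤ H → q ≤ 2 * 2 ^ e → 2 * Q1 * W * Q0 ≤ H → |α - a / q| ≤ Q0 / (q * H) →
      WS H N α (fun n => (f * (sm v e * sm w e2)) n) ≤ C2 * (1 + Real.log N) ^ 6 *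
        (W * ∑ n ∈ Icc 1 W, f n ^ 2) * (2 ^ e * 2 ^ e2) * (H + (H : ℝ) ^ 2 / Q1 + (W * Q1 * q) ^ 2))
    (hC3 : 1 ≤ C3) (hNB : NBp C3 E) (X H q P1 : ℕ) (α : ℝ)
    (a : ℤ) (d : Fin 8 → ℕ) (T : Finset (Fin 8)) (i j : Fin 8) (hij : i ≠ j) (hTi : Tᶜ = {i, j})
    (hi : 4 ≤ i.val) (hj : 4 ≤ j.val) (hdij : d i ≤ d j)
    (hX : 1 ≤ X) (hP5 : 5 ≤ P1) (hqP : P1 ^ 8 ≤ q) (hqH : q * P1 ^ 8 ≤ H)
    (hq3 : |α - a / q| ≤ ((P1 ^ 8 : ℕ) : ℝ) / (q * H)) (hco : IsCoprime a (q : ℤ))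
    (hDi : H < 2 ^ (d i) * P1) (hH : 512 * P1 ^ 12 ≤ H)
    (hM : ∏ i ∈ T, 2 ^ (d i) < P1) (hd : 2 ^ (∑ i, d i) ≤ X) :
    WS H (256 * X) α (fun n => bx d n) ≤
      (C2 * C3 * 64 * 256 * 65538) * (1 + Real.log (256 * X)) ^ (E + 6) * (X * (H : ℝ) ^ 2) / P1 := by
  obtain ⟨v, hv⟩ := fc_sm i hi
  obtain ⟨w, hw⟩ := fc_sm j hj
  set M := ∏ i ∈ T, 2 ^ (d i) with hMdef
  have hMpos : 1 ≤ M := Nat.succ_le_of_lt (Finset.prod_pos (fun i _ => pow_pos (by norm_num) _))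
  set W := 2 ^ T.card * M with hW
  have hcT := cardT T
  have h2T : 2 ^ T.card ≤ 256 := by
    have : 1 ≤ 2 ^ (Tᶜ).card := Nat.one_le_two_pow
    calc 2 ^ T.card ≤ 2 ^ T.card * 2 ^ (Tᶜ).card := Nat.le_mul_of_pos_right _ this
      _ = 256 := hcT
  have hWP : W ≤ 256 * P1 := Nat.mul_le_mul h2T hM.le
  have hWpos : 1 ≤ W := Nat.mul_pos (by positivity) hMpos
  have hMR := prodT d T
  rw [hTi, Finset.prod_pair hij] at hMR
  rw [hTi, Finset.card_pair hij] at hcT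
  have hWN : W * (2 ^ (d i + 1) * 2 ^ (d j + 1)) ≤ 256 * X := by
    calc W * (2 ^ (d i + 1) * 2 ^ (d j + 1)) = (2 ^ T.card * 2 ^ 2) * (M * (2 ^ (d i) * 2 ^ (d j))) := by
          rw [hW, pow_add, pow_add]; ring
      _ ≤ 256 * X := by rw [hcT, hMR]; exact Nat.mul_le_mul_left _ hd
  have hP0 : 0 < P1 := by omega
  have hP4 : 256 < P1 ^ 4 := lt_of_lt_of_le (by norm_num : 256 < 5 ^ 4) (Nat.pow_le_pow_left hP5 4)
  have hQW : P1 ^ 3 * W < q := by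
    calc P1 ^ 3 * W ≤ P1 ^ 3 * (256 * P1) := Nat.mul_le_mul_left _ hWP
      _ = 256 * P1 ^ 4 := by ring
      _ < P1 ^ 4 * P1 ^ 4 := Nat.mul_lt_mul_of_pos_right hP4 (by positivity)
      _ = P1 ^ 8 := by ring
      _ ≤ q := hqP
  have hq1 : 1 ≤ q := by omega
  have hqe : q ≤ 2 * 2 ^ (d i) := by
    have h1 : q * P1 ≤ 2 ^ (d i) * P1 := by
      calc q * P1 ≤ q * P1 ^ 8 := Nat.mul_le_mul_left _ (Nat.le_self_pow (by norm_num) _)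
        _ ≤ H := hqH
        _ ≤ 2 ^ (d i) * P1 := hDi.le
    have h2 := Nat.le_of_mul_le_mul_right h1 hP0
    omega
  have h2Q : 2 * P1 ^ 3 * W * P1 ^ 8 ≤ H := by
    calc 2 * P1 ^ 3 * W * P1 ^ 8 ≤ 2 * P1 ^ 3 * (256 * P1) * P1 ^ 8 := by gcongr
      _ = 512 * P1 ^ 12 := by ring
      _ ≤ H := hH
  have hf := hNB T d
  have h1 := hD2 H (256 * X) W v w (d i) (d j) q (P1 ^ 8) (P1 ^ 3) α a (∏ i ∈ T, fc i (d i))
    (fun n hn => (hf.1 n hn).2) hdij hWN (Nat.one_le_pow _ _ hP0) (Nat.one_le_pow _ _ hP0) hco hQW hqH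
    hqe h2Q hq3
  rw [← hv, ← hw, show (∏ i ∈ T, fc i (d i)) * (fc i (d i) * fc j (d j)) = bx d by
    rw [bxT d T, hTi, Finset.prod_pair hij]] at h1
  have hWX : W ≤ 256 * X := le_trans (Nat.le_mul_of_pos_right _ (by positivity)) hWN
  set l := 1 + Real.log (256 * X) with hl
  have hX1 : (1 : ℝ) ≤ X := by exact_mod_cast hX
  have hl1 : 1 ≤ l := by
    have : 0 ≤ Real.log (256 * (X : ℝ)) := Real.log_nonneg (by linarith)
    linarith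
  have hlW : 1 + Real.log W ≤ l := by
    have := log_le_l hWpos hWX; rw [hl]; linarith
  have hF : ∑ n ∈ Icc 1 W, ((∏ i ∈ T, fc i (d i)) n) ^ 2 ≤ C3 * W * l ^ E := by
    refine le_trans (hf.2 W hWpos).1 ?_
    have : 0 ≤ 1 + Real.log (W : ℝ) := by
      have := Real.log_nonneg (show (1 : ℝ) ≤ W by exact_mod_cast hWpos); linarith
    gcongr
  have hF0 : 0 ≤ ∑ n ∈ Icc 1 W, ((∏ i ∈ T, fc i (d i)) n) ^ 2 := Finset.sum_nonneg (fun _ _ => sq_nonneg _)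
  have hPr : (0 : ℝ) < P1 := by exact_mod_cast hP0
  have hlN : 1 + Real.log ((256 * X : ℕ) : ℝ) = l := by rw [hl]; push_cast; ring
  rw [hlN] at h1
  have hHpos : 0 < H := by
    have : 0 < 512 * P1 ^ 12 := by positivity
    omega
  have hHr : (0 : ℝ) < H := by exact_mod_cast hHpos
  have hP1r : (1 : ℝ) ≤ P1 := by exact_mod_cast (by omega : 1 ≤ P1)
  -- the last factor
  have e1 : (H : ℝ) ≤ (H : ℝ) ^ 2 / (P1 : ℝ) ^ 2 := by
    rw [le_div_iff₀ (by positivity)]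
    have h3 : P1 ^ 2 ≤ H := by
      calc P1 ^ 2 ≤ P1 ^ 12 := Nat.pow_le_pow_right hP0 (by norm_num)
        _ ≤ 512 * P1 ^ 12 := Nat.le_mul_of_pos_left _ (by norm_num)
        _ ≤ H := hH
    have h3r : (P1 : ℝ) ^ 2 ≤ H := by exact_mod_cast h3
    calc (H : ℝ) * (P1 : ℝ) ^ 2 ≤ H * H := by gcongr
      _ = (H : ℝ) ^ 2 := by ring
  have e2 : (H : ℝ) ^ 2 / ((P1 ^ 3 : ℕ) : ℝ) ≤ (H : ℝ) ^ 2 / (P1 : ℝ) ^ 2 := by
    apply div_le_div_of_nonneg_left (by positivity) (by positivity)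
    push_cast
    exact pow_le_pow_right₀ hP1r (by norm_num)
  have e3 : (W * ((P1 ^ 3 : ℕ) : ℝ) * q) ≤ 256 * H / P1 := by
    rw [le_div_iff₀ hPr]
    have h4 : W * P1 ^ 3 * q * P1 ≤ 256 * H := by
      calc W * P1 ^ 3 * q * P1 ≤ (256 * P1) * P1 ^ 3 * q * P1 := by gcongr
        _ = 256 * (q * P1 ^ 5) := by ring
        _ ≤ 256 * (q * P1 ^ 8) := by
            have : P1 ^ 5 ≤ P1 ^ 8 := Nat.pow_le_pow_right hP0 (by norm_num)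
            gcongr
        _ ≤ 256 * H := Nat.mul_le_mul_left _ hqH
    exact_mod_cast h4
  have e4 : (W * ((P1 ^ 3 : ℕ) : ℝ) * q) ^ 2 ≤ 65536 * ((H : ℝ) ^ 2 / (P1 : ℝ) ^ 2) := by
    calc (W * ((P1 ^ 3 : ℕ) : ℝ) * q) ^ 2 ≤ (256 * H / P1) ^ 2 := by gcongr
      _ = 65536 * ((H : ℝ) ^ 2 / (P1 : ℝ) ^ 2) := by rw [div_pow, mul_pow]; ring
  have e5 : (H : ℝ) + (H : ℝ) ^ 2 / ((P1 ^ 3 : ℕ) : ℝ) + (W * ((P1 ^ 3 : ℕ) : ℝ) * q) ^ 2 ≤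
      65538 * ((H : ℝ) ^ 2 / (P1 : ℝ) ^ 2) := by linarith
  have e6 : (W : ℝ) * ((2 : ℝ) ^ (d i) * 2 ^ (d j)) ≤ 64 * X := by
    have h5 : W * (2 ^ (d i) * 2 ^ (d j)) ≤ 64 * X := by
      have h6 : W * (2 ^ (d i + 1) * 2 ^ (d j + 1)) = 4 * (W * (2 ^ (d i) * 2 ^ (d j))) := by
        rw [pow_add, pow_add]; ring
      omega
    exact_mod_cast h5
  have e7 : (W : ℝ) ≤ 256 * P1 := by exact_mod_cast hWP
  calc WS H (256 * X) α (fun n => bx d n)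
      ≤ C2 * l ^ 6 * (W * ∑ n ∈ Icc 1 W, ((∏ i ∈ T, fc i (d i)) n) ^ 2) * (2 ^ (d i) * 2 ^ (d j)) *
        (H + (H : ℝ) ^ 2 / ((P1 ^ 3 : ℕ) : ℝ) + (W * ((P1 ^ 3 : ℕ) : ℝ) * q) ^ 2) := h1
    _ ≤ C2 * l ^ 6 * (W * (C3 * W * l ^ E)) * (2 ^ (d i) * 2 ^ (d j)) *
        (65538 * ((H : ℝ) ^ 2 / (P1 : ℝ) ^ 2)) := by gcongr
    _ = C2 * C3 * l ^ (E + 6) * 65538 * ((H : ℝ) ^ 2 / (P1 : ℝ) ^ 2) * W *
        (W * ((2 : ℝ) ^ (d i) * 2 ^ (d j))) := by rw [pow_add]; ring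
    _ ≤ C2 * C3 * l ^ (E + 6) * 65538 * ((H : ℝ) ^ 2 / (P1 : ℝ) ^ 2) * (256 * P1) * (64 * X) := by
        gcongr
    _ = _ := by field_simp

/-- the classes of boxes, combined; all numerical conditions as hypotheses -/
lemma assemble (hWSB : S_WSB) (hTII : S_TII) (hTIS : S_TIS) {C1 C2 C3 : ℝ} {E : ℕ} (hC1 : 1 ≤ C1)
    (hS : ∀ (α : ℝ) (a : ℤ) (q : ℕ), 1 ≤ q → IsCoprime a (q : ℤ) → |α - a / q| ≤ 1 / (q : ℝ) ^ 2 →
      ∀ K M : ℕ, ∑ k ∈ range (K + 1), mn M (α * k) ≤ C1 * (K / q + 1) * (M + q * (1 + Real.log q)))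
    (hC2 : 1 ≤ C2)
    (hD2 : ∀ (H N W v w e e2 q Q0 Q1 : ℕ) (α : ℝ) (a : ℤ) (f : AF), (∀ n, f n ≠ 0 → n ≤ W) → e ≤ e2 →
      W * (2 ^ (e + 1) * 2 ^ (e2 + 1)) ≤ N → 1 ≤ Q0 → 1 ≤ Q1 → IsCoprime a (q : ℤ) → Q1 * W < q →
      q * Q0 ≤ H → q ≤ 2 * 2 ^ e → 2 * Q1 * W * Q0 ≤ H → |α - a / q| ≤ Q0 / (q * H) →
      WS H N α (fun n => (f * (sm v e * sm w e2)) n) ≤ C2 * (1 + Real.log N) ^ 6 *
        (W * ∑ n ∈ Icc 1 W, f n ^ 2) * (2 ^ e * 2 ^ e2) * (H + (H : ℝ) ^ 2 / Q1 + (W * Q1 * q) ^ 2))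
    (hC3 : 1 ≤ C3) (hNB : NBp C3 E) (A : ℕ) {Kc L : ℝ} {X H P1 : ℕ}
    (hK1 : 4 * 514 * 256 * C3 ^ 2 * C1 ≤ Kc) (hK2 : 257 * 4 * 65536 * C3 ^ 2 ≤ Kc)
    (hK3 : C2 * C3 * 64 * 256 * 65538 ≤ Kc)
    (hX : 1 ≤ X) (hHX : H ≤ X) (hP5 : 5 ≤ P1) (hH : 512 * P1 ^ 12 ≤ H)
    (hcube : (X : ℝ) < ((H : ℝ) / P1) ^ 3) (hquart : ((X : ℝ) ^ (1 / 4 : ℝ) + 1) * P1 ≤ H)
    (hL : 1 ≤ L) (hl : 1 + Real.log (256 * X) ≤ 3 * L) (hKL : Kc * 3 ^ (2 * E + 6) ≤ L)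
    (hPL : L ^ (A + (2 * E + 6) + 1) ≤ P1)
    (hA : 256 * C3 * P1 * (1 + Real.log (256 * X)) ^ E * L ^ A ≤ X)
    (α : ℝ) (hMi : Mi (P1 ^ 8) H α) (d : Fin 8 → ℕ)
    (hd4 : ∀ i : Fin 8, i.val < 4 → (2 : ℝ) ^ (d i) ≤ (X : ℝ) ^ (1 / 4 : ℝ) + 1)
    (hd : 2 ^ (∑ i, d i) ≤ X) :
    WS H (256 * X) α (fun n => bx d n) ≤ X * (H : ℝ) ^ 2 / L ^ A := by
  obtain ⟨a, q, hco, hPq, hqPH, haq⟩ := hMi
  have hP0 : 0 < P1 := by omega
  have hPr : (0 : ℝ) < P1 := by exact_mod_cast hP0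
  have hP8 : P1 ≤ P1 ^ 8 := Nat.le_self_pow (by norm_num) _
  have hq1 : 1 ≤ q := by omega
  have hqr : (0 : ℝ) < q := by exact_mod_cast hq1
  have hqP1 : P1 ≤ q := le_trans hP8 hPq
  have hqH1 : q * P1 ≤ H := le_trans (Nat.mul_le_mul_left _ hP8) hqPH
  have hHpos : 0 < H := by
    have : 0 < 512 * P1 ^ 12 := by positivity
    omega
  have hHr : (0 : ℝ) < H := by exact_mod_cast hHpos
  have hq2 : |α - a / q| ≤ 1 / (q : ℝ) ^ 2 := by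
    refine le_trans haq ?_
    rw [div_le_div_iff₀ (by positivity) (by positivity)]
    have h1 : (q : ℝ) * ((P1 ^ 8 : ℕ) : ℝ) ≤ H := by exact_mod_cast hqPH
    calc ((P1 ^ 8 : ℕ) : ℝ) * (q : ℝ) ^ 2 = q * (q * ((P1 ^ 8 : ℕ) : ℝ)) := by ring
      _ ≤ q * H := by gcongr
      _ = 1 * (q * H) := by ring
  set l := 1 + Real.log (256 * X) with hldef
  have hX1 : (1 : ℝ) ≤ X := by exact_mod_cast hX
  have hl1 : 1 ≤ l := by
    have : 0 ≤ Real.log (256 * (X : ℝ)) := Real.log_nonneg (by linarith)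
    linarith
  have hl0 : 0 ≤ l := by linarith
  have hKc0 : 0 ≤ Kc := le_trans (by positivity) hK1
  have hZ : 0 ≤ (X : ℝ) * (H : ℝ) ^ 2 := by positivity
  have hfin := fin (A := A) (E0 := 2 * E + 6) (L := L) (l := l) (P1 := (P1 : ℝ)) (Kc := Kc)
    (Z := X * (H : ℝ) ^ 2) hL hl0 hl hZ hKc0 hKL hPL
  -- bounds of the form `K l ^ k X H ^ 2 / P1`
  have hgen : ∀ (K : ℝ) (k : ℕ), 0 ≤ K → K ≤ Kc → k ≤ 2 * E + 6 →
      K * l ^ k * (X * (H : ℝ) ^ 2) / P1 ≤ X * (H : ℝ) ^ 2 / L ^ A := by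
    intro K k hK0 hK hk
    refine le_trans ?_ hfin
    have : l ^ k ≤ l ^ (2 * E + 6) := pow_le_pow_right₀ hl1 hk
    gcongr
  by_cases c1 : ∃ i, P1 ≤ 2 ^ (d i) ∧ 2 ^ (d i) * P1 ≤ H
  · obtain ⟨i, hi1, hi2⟩ := c1
    have h := caseT hTII hC1 hC3 hS hNB X H q P1 α a d {i} hX hHX (by omega) hqP1 hqH1 hq2 hco
      (by rw [Finset.prod_singleton]; exact hi1) (by rw [Finset.prod_singleton]; exact hi2) hd
    exact le_trans h (hgen _ _ (by positivity) hK1 (by omega))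
  push Not at c1
  set T : Finset (Fin 8) := Finset.univ.filter (fun i => 2 ^ (d i) < P1) with hT
  have hTc : ∀ i ∈ Tᶜ, P1 ≤ 2 ^ (d i) ∧ H < 2 ^ (d i) * P1 := by
    intro i hi
    have h1 : ¬ 2 ^ (d i) < P1 := by
      intro h
      rw [Finset.mem_compl, hT, Finset.mem_filter] at hi
      exact hi ⟨Finset.mem_univ _, h⟩
    exact ⟨not_lt.1 h1, c1 i (not_lt.1 h1)⟩
  by_cases c2 : P1 ≤ ∏ i ∈ T, 2 ^ (d i)
  · have h8 : ∏ i ∈ T, 2 ^ (d i) ≤ P1 ^ 8 := by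
      calc ∏ i ∈ T, 2 ^ (d i) ≤ ∏ _i ∈ T, P1 := Finset.prod_le_prod' (fun i hi => by
            rw [hT, Finset.mem_filter] at hi; exact hi.2.le)
        _ = P1 ^ T.card := by rw [Finset.prod_const]
        _ ≤ P1 ^ 8 := Nat.pow_le_pow_right hP0 (le_trans (Finset.card_le_univ T) (by simp))
    have h9 : (∏ i ∈ T, 2 ^ (d i)) * P1 ≤ H := by
      calc (∏ i ∈ T, 2 ^ (d i)) * P1 ≤ P1 ^ 8 * P1 := Nat.mul_le_mul_right _ h8
        _ = P1 ^ 9 := by ring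
        _ ≤ P1 ^ 12 := Nat.pow_le_pow_right hP0 (by norm_num)
        _ ≤ 512 * P1 ^ 12 := Nat.le_mul_of_pos_left _ (by norm_num)
        _ ≤ H := hH
    have h := caseT hTII hC1 hC3 hS hNB X H q P1 α a d T hX hHX (by omega) hqP1 hqH1 hq2 hco c2 h9 hd
    exact le_trans h (hgen _ _ (by positivity) hK1 (by omega))
  push Not at c2
  -- the large factors are smooth
  have h4 : ∀ i ∈ Tᶜ, 4 ≤ i.val := by
    intro i hi
    by_contra hlt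
    have h1 := hd4 i (by omega)
    have h2 := (hTc i hi).2
    have h3 : (H : ℝ) < (2 : ℝ) ^ (d i) * P1 := by exact_mod_cast h2
    have h5 : (2 : ℝ) ^ (d i) * P1 ≤ ((X : ℝ) ^ (1 / 4 : ℝ) + 1) * P1 := by gcongr
    linarith
  have hprodTc : ∏ i ∈ Tᶜ, 2 ^ (d i) ≤ X := by
    have h1 := prodT d T
    have h2 : 1 ≤ ∏ i ∈ T, 2 ^ (d i) :=
      Nat.succ_le_of_lt (Finset.prod_pos (fun i _ => pow_pos (by norm_num) _))
    calc ∏ i ∈ Tᶜ, 2 ^ (d i) ≤ (∏ i ∈ T, 2 ^ (d i)) * ∏ i ∈ Tᶜ, 2 ^ (d i) := Nat.le_mul_of_pos_left _ h2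
      _ = 2 ^ (∑ i, d i) := h1
      _ ≤ X := hd
  have hcard : (Tᶜ).card ≤ 2 := by
    by_contra hgt
    have hρ1 : 1 ≤ (H : ℝ) / P1 := by
      rw [one_le_div hPr]
      have : P1 ≤ H := le_trans (Nat.le_mul_of_pos_left _ hq1) hqH1
      exact_mod_cast this
    have h1 : ((H : ℝ) / P1) ^ (Tᶜ).card ≤ ∏ i ∈ Tᶜ, (2 : ℝ) ^ (d i) := by
      rw [← Finset.prod_const]
      apply Finset.prod_le_prod (fun i _ => by positivity)
      intro i hi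
      rw [div_le_iff₀ hPr]
      exact_mod_cast (hTc i hi).2.le
    have h2 : ((H : ℝ) / P1) ^ 3 ≤ ((H : ℝ) / P1) ^ (Tᶜ).card := pow_le_pow_right₀ hρ1 (by omega)
    have h3 : ∏ i ∈ Tᶜ, (2 : ℝ) ^ (d i) ≤ X := by exact_mod_cast hprodTc
    linarith
  have hcases : (Tᶜ).card = 0 ∨ (Tᶜ).card = 1 ∨ (Tᶜ).card = 2 := by omega
  rcases hcases with h0 | h0 | h0
  · have hTe := Finset.card_eq_zero.1 h0
    have hPX : P1 ≤ X := by
      have : P1 ≤ H := le_trans (Nat.le_mul_of_pos_left _ hq1) hqH1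
      omega
    have h := caseA hWSB hC3 hNB X H P1 α d hX (by omega) hPX T hTe c2
    refine le_trans h ?_
    rw [le_div_iff₀ (by positivity)]
    calc 256 * C3 * P1 * l ^ E * (H : ℝ) ^ 2 * L ^ A
        = (256 * C3 * P1 * l ^ E * L ^ A) * (H : ℝ) ^ 2 := by ring
      _ ≤ X * (H : ℝ) ^ 2 := by gcongr
  · obtain ⟨i, hi⟩ := Finset.card_eq_one.1 h0
    have hi4 := h4 i (by rw [hi]; exact Finset.mem_singleton_self _)
    have h := caseB hTIS hC3 hNB X H q P1 α a d T i hi hi4 hX hHX hP5 hPq hqPH hq2 hco c2 hd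
    exact le_trans h (hgen _ _ (by positivity) hK2 (by omega))
  · obtain ⟨i, j, hij, hTij⟩ := Finset.card_eq_two.1 h0
    have hiT : i ∈ Tᶜ := by rw [hTij]; simp
    have hjT : j ∈ Tᶜ := by rw [hTij]; simp
    rcases le_total (d i) (d j) with hle | hle
    · have h := caseC hC2 hD2 hC3 hNB X H q P1 α a d T i j hij hTij (h4 i hiT) (h4 j hjT) hle hX hP5 hPq
        hqPH haq hco (hTc i hiT).2 hH c2 hd
      exact le_trans h (hgen _ _ (by positivity) hK3 (by omega))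
    · have hTji : Tᶜ = {j, i} := by rw [hTij, Finset.pair_comm]
      have h := caseC hC2 hD2 hC3 hNB X H q P1 α a d T j i hij.symm hTji (h4 j hjT) (h4 i hiT) hle hX hP5
        hPq hqPH haq hco (hTc j hjT).2 hH c2 hd
      exact le_trans h (hgen _ _ (by positivity) hK3 (by omega))

theorem main : S_WSB → S_TII → S_SMN → S_TIS → S_D2 → S_NB → S_MNB → S_BOX := by
  intro hWSB hTII hSMN hTIS hD2 hNB _ θ hθ A
  obtain ⟨C1, hC1, hS⟩ := hSMN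
  obtain ⟨C2, hC2, hD⟩ := hD2
  obtain ⟨C3, E, hC3, hN⟩ := hNB
  set Kc : ℝ := 4 * 514 * 256 * C3 ^ 2 * C1 + 257 * 4 * 65536 * C3 ^ 2 + C2 * C3 * 64 * 256 * 65538 with hKc
  have k1 : 0 ≤ 4 * 514 * 256 * C3 ^ 2 * C1 := by positivity
  have k2 : 0 ≤ 257 * 4 * 65536 * C3 ^ 2 := by positivity
  have k3 : 0 ≤ C2 * C3 * 64 * 256 * 65538 := by positivity
  refine ⟨A + (2 * E + 6) + 1, fun B' => ?_⟩
  have ev := (((((logbig (Kc * 3 ^ (2 * E + 6) + 5)).and (big (by linarith : (0 : ℝ) < θ) 512 (12 * B'))).and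
    (big (by linarith : (0 : ℝ) < 3 * θ - 1) 2 (3 * B'))).and
    (big (by linarith : (0 : ℝ) < θ - 1 / 4) 2 B')).and
    (big (by norm_num : (0 : ℝ) < 1) (256 * C3 * 3 ^ E) (B' + E + A))).and (eventually_ge_atTop 256)
  obtain ⟨X₀, hX₀⟩ := eventually_atTop.1 ev
  refine ⟨X₀, fun X hX P1 hP1 hP1' H hH hHX α hMi d hd4 hd => ?_⟩
  obtain ⟨⟨⟨⟨⟨h1, h2⟩, h3⟩, h4⟩, h5⟩, h6⟩ := hX₀ X hX
  set L := Real.log X with hLdef
  have hKc0 : 0 ≤ Kc * 3 ^ (2 * E + 6) := by positivity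
  have hL5 : 5 ≤ L := by linarith
  have hL1 : 1 ≤ L := by linarith
  have hL0 : 0 < L := by linarith
  have hX1 : (1 : ℝ) ≤ X := by exact_mod_cast (by omega : 1 ≤ X)
  have hX0 : (0 : ℝ) < X := by linarith
  have hP5r : (5 : ℝ) ≤ P1 := by
    calc (5 : ℝ) ≤ L := hL5
      _ = L ^ 1 := (pow_one L).symm
      _ ≤ L ^ (A + (2 * E + 6) + 1) := pow_le_pow_right₀ hL1 (by omega)
      _ ≤ P1 := hP1
  have hP5 : 5 ≤ P1 := by exact_mod_cast hP5r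
  have hPr : (0 : ℝ) < P1 := by linarith
  have hH12 : 512 * P1 ^ 12 ≤ H := by
    have : (512 : ℝ) * (P1 : ℝ) ^ 12 ≤ H := by
      calc (512 : ℝ) * (P1 : ℝ) ^ 12 ≤ 512 * (L ^ B') ^ 12 := by gcongr
        _ = 512 * L ^ (12 * B') := by rw [← pow_mul, mul_comm B' 12]
        _ ≤ (X : ℝ) ^ θ := h2
        _ ≤ H := hH
    exact_mod_cast this
  have hcube : (X : ℝ) < ((H : ℝ) / P1) ^ 3 := by
    have e1 : (X : ℝ) ^ θ / L ^ B' ≤ (H : ℝ) / P1 := by gcongr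
    have e2 : ((X : ℝ) ^ θ / L ^ B') ^ 3 = (X : ℝ) ^ (3 * θ - 1) * X / L ^ (3 * B') := by
      rw [div_pow, ← pow_mul, mul_comm B' 3]
      congr 1
      rw [Real.rpow_sub hX0, Real.rpow_one, ← Real.rpow_natCast ((X : ℝ) ^ θ) 3, ← Real.rpow_mul hX0.le]
      field_simp
      norm_num [mul_comm]
    have e3 : 2 * (X : ℝ) ≤ (X : ℝ) ^ (3 * θ - 1) * X / L ^ (3 * B') := by
      rw [le_div_iff₀ (by positivity)]
      calc 2 * (X : ℝ) * L ^ (3 * B') = (2 * L ^ (3 * B')) * X := by ring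
        _ ≤ (X : ℝ) ^ (3 * θ - 1) * X := by gcongr
    have e4 : ((X : ℝ) ^ θ / L ^ B') ^ 3 ≤ ((H : ℝ) / P1) ^ 3 := by gcongr
    linarith
  have hquart : ((X : ℝ) ^ (1 / 4 : ℝ) + 1) * P1 ≤ H := by
    have e1 : (1 : ℝ) ≤ (X : ℝ) ^ (1 / 4 : ℝ) := Real.one_le_rpow hX1 (by norm_num)
    calc ((X : ℝ) ^ (1 / 4 : ℝ) + 1) * P1 ≤ ((X : ℝ) ^ (1 / 4 : ℝ) + (X : ℝ) ^ (1 / 4 : ℝ)) * L ^ B' := by
          gcongr
      _ = (X : ℝ) ^ (1 / 4 : ℝ) * (2 * L ^ B') := by ring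
      _ ≤ (X : ℝ) ^ (1 / 4 : ℝ) * (X : ℝ) ^ (θ - 1 / 4) := by gcongr
      _ = (X : ℝ) ^ θ := by rw [← Real.rpow_add hX0]; congr 1; ring
      _ ≤ H := hH
  have hl : 1 + Real.log (256 * X) ≤ 3 * L := by
    have e1 : Real.log (256 * (X : ℝ)) ≤ Real.log ((X : ℝ) * X) := by
      apply Real.log_le_log (by positivity)
      have : (256 : ℝ) ≤ X := by exact_mod_cast h6
      gcongr
    rw [Real.log_mul hX0.ne' hX0.ne'] at e1
    linarith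
  have hl0 : 0 ≤ 1 + Real.log (256 * (X : ℝ)) := by
    have := Real.log_nonneg (show (1 : ℝ) ≤ 256 * X by linarith)
    linarith
  have hA : 256 * C3 * P1 * (1 + Real.log (256 * X)) ^ E * L ^ A ≤ X := by
    calc 256 * C3 * P1 * (1 + Real.log (256 * X)) ^ E * L ^ A
        ≤ 256 * C3 * L ^ B' * (3 * L) ^ E * L ^ A := by gcongr
      _ = (256 * C3 * 3 ^ E) * L ^ (B' + E + A) := by rw [mul_pow, pow_add, pow_add]; ring
      _ ≤ (X : ℝ) ^ (1 : ℝ) := h5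
      _ = X := Real.rpow_one _
  exact assemble hWSB hTII hTIS hC1 (fun α a q h1 h2 h3 => (hS α a q h1 h2 h3).1) hC2 hD hC3 hN A
    (Kc := Kc) (L := L) (by linarith) (by linarith) (by linarith) (by omega) hHX hP5 hH12 hcube hquart hL1
    hl (by linarith) hP1 hA α hMi d hd4 hd

end Pool.Agent.H43.MA.BOX
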