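import Pool.Agent.H43.MA.Stm2

/-! # Project MA (helper43): the bilinear bound for all lengths up to `X` -/

set_option autoImplicit false

namespace Pool.Agent.H43.MA

open Finset Filter
open Pool.Agent.helper24_UT (NN Ed)
open Pool.Agent.H442R2.EHI (evt_log_pow evt_log_ge)

/-- bilinear bound, all lengths -/
def S_BILX : Prop := ∀ θ : ℝ, 1 / 3 < θ → ∀ U : ℕ, ∃ E₀ : ℕ, ∀ E₁ : ℕ, ∃ X₀ : ℕ, ∀ X : ℕ, X₀ ≤ X → ∀ z : ℕ,
  Real.log X ^ E₀ ≤ z → (z : ℝ) ≤ Real.log X ^ E₁ → ∀ Y : ℕ, (X : ℝ) ^ θ ≤ Y → Y ≤ X →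
  ∀ k σ τ : ℤ, |k| ≤ 3 * X → (σ = 1 ∨ σ = -1) → (τ = 1 ∨ τ = -1) → ∀ G c : ℕ → ℂ, (∀ u, ‖G u‖ ≤ 1) → (∀ v, ‖c v‖ ≤ 1) →
  ‖∑ u ∈ Icc 1 (2 * X), ∑ v ∈ Icc 1 Y, G u * c v * ((Ed z (k + σ * u + τ * v) : ℝ) : ℂ)‖ ≤ X * Y / Real.log X ^ U

/-- splitting `[1, Y]` into blocks of length `B` -/
lemma blocks (F : ℕ → ℂ) (Y B : ℕ) (hB : 1 ≤ B) : ∑ v ∈ Icc 1 Y, F v =
    ∑ j ∈ range (Y / B + 1), ∑ w ∈ Icc 1 B, (if j * B + w ≤ Y then F (j * B + w) else 0) := by
  have h1 : ∀ v ∈ Icc 1 Y, (v - 1) / B ∈ range (Y / B + 1) := by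
    intro v hv
    rw [mem_Icc] at hv
    rw [mem_range]
    have : (v - 1) / B ≤ Y / B := Nat.div_le_div_right (by omega)
    omega
  rw [← sum_fiberwise_of_maps_to h1]
  apply sum_congr rfl
  intro j _
  rw [← sum_filter]
  refine sum_nbij' (fun v => v - j * B) (fun w => j * B + w) ?_ ?_ ?_ ?_ ?_
  · intro v hv
    rw [mem_filter, mem_Icc] at hv
    obtain ⟨⟨h2, h3⟩, h4⟩ := hv
    have h5 : j * B ≤ v - 1 := by rw [← h4]; exact Nat.div_mul_le_self _ _
    have h6 : v - 1 < j * B + B := by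
      rw [← h4]
      have := Nat.lt_div_mul_add (a := v - 1) (b := B) (by omega)
      omega
    rw [mem_filter, mem_Icc]
    omega
  · intro w hw
    rw [mem_filter, mem_Icc] at hw
    obtain ⟨⟨h2, h3⟩, h4⟩ := hw
    rw [mem_filter, mem_Icc]
    refine ⟨⟨by omega, h4⟩, ?_⟩
    rw [Nat.div_eq_iff (by omega)]
    constructor
    · omega
    · omega
  · intro v hv
    rw [mem_filter, mem_Icc] at hv
    obtain ⟨⟨h2, h3⟩, h4⟩ := hv
    have h5 : j * B ≤ v - 1 := by rw [← h4]; exact Nat.div_mul_le_self _ _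
    show j * B + (v - j * B) = v
    omega
  · intro w _
    show j * B + w - j * B = w
    omega
  · intro v hv
    rw [mem_filter, mem_Icc] at hv
    obtain ⟨⟨h2, h3⟩, h4⟩ := hv
    have h5 : j * B ≤ v - 1 := by rw [← h4]; exact Nat.div_mul_le_self _ _
    show F v = F (j * B + (v - j * B))
    congr 1
    omega

theorem bilx (hb : S_BIL) : S_BILX := by
  intro θ hθ U
  obtain ⟨E₀, h0⟩ := hb (min θ (1 / 2)) (lt_min hθ (by norm_num)) (U + 1)
  refine ⟨E₀, fun E₁ => ?_⟩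
  obtain ⟨X₀, h1⟩ := h0 E₁
  obtain ⟨X₁, h2⟩ := eventually_atTop.1 (evt_log_ge 8)
  refine ⟨max (max X₀ X₁) 2, fun X hX z hz1 hz2 Y hY1 hY2 k σ τ hk hσ hτ G c hG hc => ?_⟩
  have a0 : X₀ ≤ X := ((le_max_left _ _).trans (le_max_left _ _)).trans hX
  have a1 : X₁ ≤ X := ((le_max_right _ _).trans (le_max_left _ _)).trans hX
  have a2 : 2 ≤ X := (le_max_right _ _).trans hX
  have hL := h2 X a1
  have hXr : (2 : ℝ) ≤ X := by exact_mod_cast a2
  have hX0 : (0 : ℝ) < X := by linarith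
  set L := Real.log X with hLd
  have hL0 : 0 < L := by linarith
  have hk4 : |k| ≤ 4 * X := hk.trans (by
    have : (0 : ℤ) ≤ X := by positivity
    linarith)
  by_cases hY : (Y : ℝ) ≤ (X : ℝ) ^ (9 / 10 : ℝ)
  · refine (h1 X a0 z hz1 hz2 Y ?_ hY k σ τ hk4 hσ hτ G c hG hc).trans ?_
    · exact (Real.rpow_le_rpow_of_exponent_le (by linarith) (min_le_left _ _)).trans hY1
    · apply div_le_div_of_nonneg_left (by positivity) (by positivity)
      exact pow_le_pow_right₀ (by linarith) (by omega)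
  · push Not at hY
    set B := ⌊(X : ℝ) ^ (9 / 10 : ℝ)⌋₊ with hBd
    have hBu : (B : ℝ) ≤ (X : ℝ) ^ (9 / 10 : ℝ) := Nat.floor_le (by positivity)
    have hBl : (X : ℝ) ^ (9 / 10 : ℝ) < B + 1 := Nat.lt_floor_add_one _
    have hbig : (X : ℝ) ^ (1 / 2 : ℝ) + 1 ≤ (X : ℝ) ^ (9 / 10 : ℝ) := by
      have e1 : (X : ℝ) ^ (9 / 10 : ℝ) = (X : ℝ) ^ (1 / 2 : ℝ) * (X : ℝ) ^ (2 / 5 : ℝ) := by
        rw [← Real.rpow_add hX0]; norm_num
      have e2 : 2 ≤ (X : ℝ) ^ (2 / 5 : ℝ) := by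
        rw [Real.rpow_def_of_pos hX0, ← hLd]
        have h3 : L * (2 / 5) + 1 ≤ Real.exp (L * (2 / 5)) := Real.add_one_le_exp _
        linarith
      have e3 : 1 ≤ (X : ℝ) ^ (1 / 2 : ℝ) := Real.one_le_rpow (by linarith) (by norm_num)
      rw [e1]
      nlinarith
    have hB1 : 1 ≤ B := by
      have : (0 : ℝ) < B := by
        have := Real.rpow_nonneg hX0.le (1 / 2 : ℝ)
        linarith
      exact_mod_cast this
    have hBY : B ≤ Y := by
      have : (B : ℝ) ≤ Y := hBu.trans hY.le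
      exact_mod_cast this
    have hBθ : (X : ℝ) ^ (min θ (1 / 2)) ≤ B := by
      refine (Real.rpow_le_rpow_of_exponent_le (by linarith) (min_le_right _ _)).trans ?_
      linarith
    have e3 : ∑ u ∈ Icc 1 (2 * X), ∑ v ∈ Icc 1 Y, G u * c v * ((Ed z (k + σ * u + τ * v) : ℝ) : ℂ) =
        ∑ j ∈ range (Y / B + 1), ∑ u ∈ Icc 1 (2 * X), ∑ w ∈ Icc 1 B, G u * (if j * B + w ≤ Y then c (j * B + w) else 0) *
          ((Ed z ((k + τ * (j * B : ℕ)) + σ * u + τ * w) : ℝ) : ℂ) := by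
      rw [sum_comm]
      conv_rhs => rw [sum_comm]
      rw [sum_comm]
      apply sum_congr rfl
      intro u _
      rw [blocks _ Y B hB1]
      apply sum_congr rfl
      intro j _
      apply sum_congr rfl
      intro w _
      split_ifs
      · congr 3
        push_cast
        ring
      · rw [mul_zero, zero_mul]
    rw [e3]
    refine (norm_sum_le _ _).trans ?_
    have h4 : ∀ j ∈ range (Y / B + 1), ‖∑ u ∈ Icc 1 (2 * X), ∑ w ∈ Icc 1 B,
        G u * (if j * B + w ≤ Y then c (j * B + w) else 0) *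
          ((Ed z ((k + τ * (j * B : ℕ)) + σ * u + τ * w) : ℝ) : ℂ)‖ ≤ X * B / L ^ (U + 1) := by
      intro j hj
      rw [mem_range] at hj
      have hjB : j * B ≤ Y := (Nat.mul_le_mul_right _ (by omega : j ≤ Y / B)).trans (Nat.div_mul_le_self _ _)
      refine h1 X a0 z hz1 hz2 B hBθ hBu (k + τ * (j * B : ℕ)) σ τ ?_ hσ hτ G
        (fun w => if j * B + w ≤ Y then c (j * B + w) else 0) hG ?_
      · refine (abs_add_le _ _).trans ?_
        have h5 : |τ * ((j * B : ℕ) : ℤ)| ≤ X := by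
          have h6 : |τ * ((j * B : ℕ) : ℤ)| = ((j * B : ℕ) : ℤ) := by
            rw [abs_mul, Nat.abs_cast]
            rcases hτ with h | h <;> rw [h] <;> simp
          rw [h6]
          exact_mod_cast hjB.trans hY2
        linarith
      · intro w
        split_ifs
        · exact hc _
        · simp
    refine (sum_le_sum h4).trans ?_
    rw [sum_const, card_range, nsmul_eq_mul]
    have h5 : (((Y / B + 1 : ℕ) : ℝ)) * B ≤ 2 * Y := by
      have h6 : (Y / B + 1) * B ≤ 2 * Y := by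
        rw [add_mul, one_mul]
        have := Nat.div_mul_le_self Y B
        omega
      exact_mod_cast h6
    rw [mul_div_assoc', div_le_div_iff₀ (by positivity) (by positivity)]
    have h7 : ((Y / B + 1 : ℕ) : ℝ) * (X * B) ≤ X * (2 * Y) := by
      calc ((Y / B + 1 : ℕ) : ℝ) * (X * B) = X * (((Y / B + 1 : ℕ) : ℝ) * B) := by ring
        _ ≤ _ := mul_le_mul_of_nonneg_left h5 hX0.le
    calc ((Y / B + 1 : ℕ) : ℝ) * (X * B) * L ^ U ≤ X * (2 * Y) * L ^ U := mul_le_mul_of_nonneg_right h7 (by positivity)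
      _ = X * Y * (L ^ U * 2) := by ring
      _ ≤ X * Y * (L ^ U * L) := by
          apply mul_le_mul_of_nonneg_left _ (by positivity)
          apply mul_le_mul_of_nonneg_left _ (by positivity)
          linarith
      _ = X * Y * L ^ (U + 1) := by rw [pow_succ]

end Pool.Agent.H43.MA
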