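import Pool.Agent.H43.MA.Stm

set_option autoImplicit false

/-! # MA-CELL (helper94) -/

namespace Pool.Agent.H43.MA.CELL

open Finset

lemma dn_low (t : ℝ) (h0 : 0 ≤ t) (h1 : t ≤ 1) : min t (1 - t) ≤ dn t := by
  unfold dn
  rcases le_or_gt (round t) 0 with h | h
  · have h2 : ((round t : ℤ) : ℝ) ≤ 0 := by exact_mod_cast h
    refine (min_le_left _ _).trans ?_
    rw [abs_of_nonneg (by linarith)]
    linarith
  · have h2 : (1 : ℝ) ≤ ((round t : ℤ) : ℝ) := by exact_mod_cast h
    refine (min_le_right _ _).trans ?_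
    rw [abs_sub_comm, abs_of_nonneg (by linarith)]
    linarith

/-- bound on a cell -/
noncomputable def F (H k : ℝ) (i : ℕ) : ℝ := if i = 0 then H ^ 2 else min (H ^ 2) (k ^ 2 / (4 * (i : ℝ) ^ 2))

lemma F_nonneg (H k : ℝ) (i : ℕ) : 0 ≤ F H k i := by
  unfold F
  split_ifs <;> positivity

lemma F_sum (H k : ℝ) (hH : 0 < H) (hk : 0 < k) (n : ℕ) :
    ∑ i ∈ range n, F H k (i + 1) ≤ 4 * k ^ 2 * (1 / (k / H) - 1 / (k / H + n)) := by
  have hc : 0 < k / H := by positivity
  obtain ⟨c, hcd⟩ : ∃ c, c = k / H := ⟨_, rfl⟩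
  rw [← hcd] at hc ⊢
  induction n with
  | zero => simp
  | succ n ih =>
    rw [sum_range_succ]
    have h1 : F H k (n + 1) ≤ 4 * k ^ 2 * (1 / (c + n) - 1 / (c + (n + 1 : ℕ))) := by
      unfold F
      rw [if_neg (by omega)]
      push_cast
      have hn : (0 : ℝ) ≤ n := Nat.cast_nonneg n
      have e1 : 1 / (c + n) - 1 / (c + ((n : ℝ) + 1)) = 1 / ((c + n) * (c + (n + 1))) := by
        field_simp
        ring
      rw [e1]
      have hHk : H = k / c := by rw [hcd]; field_simp
      rcases le_total c (2 * (n + 1)) with h | h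
      · refine (min_le_right _ _).trans ?_
        rw [div_le_iff₀ (by positivity)]
        have h3 : (c + n) * (c + (n + 1)) ≤ 16 * ((n : ℝ) + 1) ^ 2 := by nlinarith
        have h4 : 1 ≤ 1 / ((c + n) * (c + (n + 1))) * (16 * ((n : ℝ) + 1) ^ 2) := by
          rw [one_div, ← div_eq_inv_mul, le_div_iff₀ (by positivity)]
          linarith
        nlinarith [sq_nonneg k]
      · refine (min_le_left _ _).trans ?_
        rw [hHk, div_pow, div_eq_mul_one_div, mul_assoc]
        rw [show 4 * (k ^ 2 * (1 / ((c + n) * (c + (n + 1))))) =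
          k ^ 2 * (4 * (1 / ((c + n) * (c + (n + 1))))) by ring]
        gcongr
        rw [mul_one_div, div_le_div_iff₀ (by positivity) (by positivity)]
        nlinarith
    have e2 : 4 * k ^ 2 * (1 / c - 1 / (c + (n + 1 : ℕ))) =
      4 * k ^ 2 * (1 / c - 1 / (c + n)) + 4 * k ^ 2 * (1 / (c + n) - 1 / (c + (n + 1 : ℕ))) := by ring
    rw [e2]
    linarith

lemma F_tot (H k : ℕ) (hH : 1 ≤ H) (hk : 1 ≤ k) :
    ∑ j ∈ range k, F H k (min j (k - 1 - j)) ≤ 2 * (H ^ 2 + 4 * H * k) := by
  have hH0 : (0 : ℝ) < H := by exact_mod_cast hH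
  have hk0 : (0 : ℝ) < k := by exact_mod_cast hk
  have h1 : ∑ i ∈ range k, F H k i ≤ (H : ℝ) ^ 2 + 4 * H * k := by
    obtain ⟨m, rfl⟩ : ∃ m, k = m + 1 := ⟨k - 1, by omega⟩
    rw [sum_range_succ']
    have h2 := F_sum H ((m + 1 : ℕ) : ℝ) hH0 hk0 m
    have h3 : F H ((m + 1 : ℕ) : ℝ) 0 = (H : ℝ) ^ 2 := by simp [F]
    rw [h3]
    have h4 : 4 * (((m + 1 : ℕ) : ℝ)) ^ 2 * (1 / (((m + 1 : ℕ) : ℝ) / H) - 1 / (((m + 1 : ℕ) : ℝ) / H + m)) ≤
        4 * H * ((m + 1 : ℕ) : ℝ) := by
      have h5 : 0 ≤ 1 / (((m + 1 : ℕ) : ℝ) / H + m) := by positivity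
      have h6 : 4 * (((m + 1 : ℕ) : ℝ)) ^ 2 * (1 / (((m + 1 : ℕ) : ℝ) / H)) = 4 * H * ((m + 1 : ℕ) : ℝ) := by
        field_simp
      have h7 : 0 ≤ 4 * (((m + 1 : ℕ) : ℝ)) ^ 2 * (1 / (((m + 1 : ℕ) : ℝ) / H + m)) := by positivity
      rw [mul_sub, h6]
      linarith
    linarith
  have h2 : ∑ j ∈ range k, F H k (min j (k - 1 - j)) ≤
      ∑ j ∈ range k, (F H k j + F H k (k - 1 - j)) := by
    refine sum_le_sum fun j _ => ?_
    rcases min_choice j (k - 1 - j) with h | h <;> rw [h]
    · linarith [F_nonneg H k (k - 1 - j)]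
    · linarith [F_nonneg H k j]
  rw [sum_add_distrib, sum_range_reflect (fun j => F H k j) k] at h2
  linarith

lemma cell (k : ℕ) (α : ℝ) (g : ℝ → ℝ) (hk : 1 ≤ k) (hp : ∀ u, g (u + 1) = g u) (j : ℕ) :
    ∫ β in ((j : ℝ) / k)..((j + 1 : ℕ) : ℝ) / k, g (k * (α + β)) = (1 / k) * ∫ u in (0 : ℝ)..1, g u := by
  have hk0 : (0 : ℝ) < k := by exact_mod_cast hk
  have e : ∀ β : ℝ, g (k * (α + β)) = g (k * β + k * α) := fun β => by congr 1; ring
  simp_rw [e]
  rw [intervalIntegral.integral_comp_mul_add g hk0.ne' (k * α)]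
  have e1 : (k : ℝ) * ((j : ℝ) / k) + k * α = j + k * α := by field_simp
  have e2 : (k : ℝ) * (((j + 1 : ℕ) : ℝ) / k) + k * α = (j + k * α) + 1 := by
    push_cast
    field_simp
    ring
  rw [e1, e2]
  have hper : Function.Periodic g 1 := hp
  have e3 := hper.intervalIntegral_add_eq ((j : ℝ) + k * α) 0
  rw [zero_add] at e3
  rw [e3, smul_eq_mul, one_div]

lemma split (k : ℕ) (hk : 1 ≤ k) (f : ℝ → ℝ) (hf : Continuous f) :
    ∫ β in (0 : ℝ)..1, f β = ∑ j ∈ range k, ∫ β in ((j : ℝ) / k)..((j + 1 : ℕ) : ℝ) / k, f β := by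
  have hk0 : (0 : ℝ) < k := by exact_mod_cast hk
  have h := intervalIntegral.sum_integral_adjacent_intervals (f := f) (μ := MeasureTheory.volume)
    (a := fun j : ℕ => (j : ℝ) / k) (n := k) (fun j _ => hf.intervalIntegrable _ _)
  rw [h]
  simp [hk0.ne']

theorem main : S_MNB → S_CELL := by
  intro hM
  obtain ⟨dc, d1, dneg, dhalf, d0, dint, dadd, mc, mper, meven, m0, mM, mmono, mup, mlow⟩ := hM
  refine ⟨8, by norm_num, ?_, ?_, ?_⟩
  · intro H k α g hH hk gc g0 gp
    have hk0 : (0 : ℝ) < k := by exact_mod_cast hk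
    have hI : 0 ≤ ∫ u in (0 : ℝ)..1, g u := intervalIntegral.integral_nonneg (by norm_num) fun u _ => g0 u
    have hc1 : Continuous (fun β : ℝ => g (k * (α + β))) := by fun_prop
    have hc2 : Continuous (fun β : ℝ => mn H β ^ 2 * g (k * (α + β))) := ((mc H).pow 2).mul hc1
    rw [split k hk _ hc2]
    have h1 : ∀ j ∈ range k, ∫ β in ((j : ℝ) / k)..((j + 1 : ℕ) : ℝ) / k, mn H β ^ 2 * g (k * (α + β)) ≤
        F H k (min j (k - 1 - j)) * ((1 / k) * ∫ u in (0 : ℝ)..1, g u) := by
      intro j hj
      rw [mem_range] at hj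
      rw [← cell k α g hk gp j, ← intervalIntegral.integral_const_mul]
      have hle : (j : ℝ) / k ≤ ((j + 1 : ℕ) : ℝ) / k :=
        div_le_div_of_nonneg_right (by push_cast; linarith) hk0.le
      apply intervalIntegral.integral_mono_on hle (hc2.intervalIntegrable _ _)
        ((continuous_const.mul hc1).intervalIntegrable _ _)
      intro β hβ
      apply mul_le_mul_of_nonneg_right _ (g0 _)
      have hHm := mM H β
      have hm0 := m0 H β
      unfold F
      split_ifs with hi
      · exact pow_le_pow_left₀ hm0 hHm 2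
      · apply le_min
        · exact pow_le_pow_left₀ hm0 hHm 2
        · have hb1 : (j : ℝ) ≤ k * β := by
            have := (div_le_iff₀ hk0).1 hβ.1
            linarith
          have hb2 : (k : ℝ) * β ≤ j + 1 := by
            have := (le_div_iff₀ hk0).1 hβ.2
            push_cast at this
            linarith
          have hjk : (j : ℝ) + 1 ≤ k := by exact_mod_cast hj
          have hβ0 : 0 ≤ β := by
            have : 0 ≤ (k : ℝ) * β := le_trans (Nat.cast_nonneg j) hb1
            exact nonneg_of_mul_nonneg_right this hk0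
          have hβ1 : β ≤ 1 := by
            by_contra hcon
            push Not at hcon
            nlinarith
          have hd := dn_low β hβ0 hβ1
          obtain ⟨i, hid⟩ : ∃ i, i = min j (k - 1 - j) := ⟨_, rfl⟩
          rw [← hid] at hi ⊢
          have hi0 : (0 : ℝ) < i := by exact_mod_cast Nat.pos_of_ne_zero hi
          have hi1 : (i : ℝ) ≤ j := by
            rw [hid]
            exact_mod_cast min_le_left _ _
          have hi2 : (i : ℝ) ≤ k - 1 - j := by
            have h5 : i ≤ k - 1 - j := by rw [hid]; exact min_le_right _ _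
            have h6 : i + 1 + j ≤ k := by omega
            have h7 : (i : ℝ) + 1 + j ≤ k := by exact_mod_cast h6
            linarith
          have hdi : (i : ℝ) / k ≤ dn β := by
            refine le_trans (le_min ?_ ?_) hd
            · rw [div_le_iff₀ hk0]; linarith
            · rw [div_le_iff₀ hk0]; linarith
          have hdpos : 0 < dn β := lt_of_lt_of_le (by positivity) hdi
          have h8 := mup H β hdpos
          have h9 : 1 / (2 * dn β) ≤ k / (2 * i) := by
            rw [div_le_div_iff₀ (by positivity) (by positivity)]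
            rw [div_le_iff₀ hk0] at hdi
            linarith
          have h10 : mn H β ≤ k / (2 * i) := h8.trans h9
          calc mn H β ^ 2 ≤ (k / (2 * i)) ^ 2 := by gcongr
            _ = (k : ℝ) ^ 2 / (4 * (i : ℝ) ^ 2) := by rw [div_pow]; ring
    refine (sum_le_sum h1).trans ?_
    rw [← sum_mul]
    have h2 := F_tot H k hH hk
    have h3 : 0 ≤ (1 / (k : ℝ)) * ∫ u in (0 : ℝ)..1, g u := by positivity
    calc (∑ j ∈ range k, F H k (min j (k - 1 - j))) * ((1 / k) * ∫ u in (0 : ℝ)..1, g u)
        ≤ (2 * ((H : ℝ) ^ 2 + 4 * H * k)) * ((1 / k) * ∫ u in (0 : ℝ)..1, g u) := by gcongr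
      _ = (2 * ((H : ℝ) ^ 2 / k) + 8 * H) * ∫ u in (0 : ℝ)..1, g u := by field_simp; ring
      _ ≤ 8 * ((H : ℝ) ^ 2 / k + H) * ∫ u in (0 : ℝ)..1, g u := by
          apply mul_le_mul_of_nonneg_right _ hI
          have : 0 ≤ (H : ℝ) ^ 2 / k := by positivity
          linarith
  · intro k α g hk gc gp
    have hk0 : (0 : ℝ) < k := by exact_mod_cast hk
    rw [split k hk _ (by fun_prop)]
    rw [sum_congr rfl fun j _ => cell k α g hk gp j, sum_const, card_range, nsmul_eq_mul]
    field_simp
  · intro H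
    rcases Nat.eq_zero_or_pos H with h0 | hH
    · subst h0
      have : ∀ β, mn 0 β = 0 := fun β => le_antisymm (by simpa using mM 0 β) (m0 0 β)
      simp [this]
    · have hH0 : (0 : ℝ) < H := by exact_mod_cast hH
      have hH1 : (1 : ℝ) ≤ H := by exact_mod_cast hH
      have hc : Continuous (fun β => mn H β ^ 2) := (mc H).pow 2
      -- the half
      have hhalf : ∫ β in (0 : ℝ)..1 / 2, mn H β ^ 2 ≤ H := by
        have hs : (0 : ℝ) < 1 / (2 * H) := by positivity
        have hs2 : 1 / (2 * (H : ℝ)) ≤ 1 / 2 := by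
          rw [div_le_div_iff₀ (by positivity) (by norm_num)]
          linarith
        rw [← intervalIntegral.integral_add_adjacent_intervals (b := 1 / (2 * (H : ℝ)))
          (hc.intervalIntegrable _ _) (hc.intervalIntegrable _ _)]
        have h1 : ∫ β in (0 : ℝ)..1 / (2 * (H : ℝ)), mn H β ^ 2 ≤
            ∫ β in (0 : ℝ)..1 / (2 * (H : ℝ)), (H : ℝ) ^ 2 := by
          apply intervalIntegral.integral_mono_on hs.le (hc.intervalIntegrable _ _)
            (continuous_const.intervalIntegrable _ _)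
          intro β _
          have := mM H β
          have := m0 H β
          gcongr
        rw [intervalIntegral.integral_const, smul_eq_mul, sub_zero] at h1
        have hci : ContinuousOn (fun β : ℝ => (1 / 4) * (β ^ 2)⁻¹) (Set.uIcc (1 / (2 * (H : ℝ))) (1 / 2)) := by
          rw [Set.uIcc_of_le hs2]
          apply ContinuousOn.mul continuousOn_const
          apply ContinuousOn.inv₀ (by fun_prop)
          intro β hβ
          have : 0 < β := lt_of_lt_of_le hs hβ.1
          positivity
        have h2 : ∫ β in (1 / (2 * (H : ℝ)))..1 / 2, mn H β ^ 2 ≤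
            ∫ β in (1 / (2 * (H : ℝ)))..1 / 2, (1 / 4) * (β ^ 2)⁻¹ := by
          apply intervalIntegral.integral_mono_on hs2 (hc.intervalIntegrable _ _) hci.intervalIntegrable
          intro β hβ
          have hβ0 : 0 < β := lt_of_lt_of_le hs hβ.1
          have hd := dn_low β hβ0.le (by linarith [hβ.2])
          rw [min_eq_left (by linarith [hβ.2])] at hd
          have hdpos : 0 < dn β := hβ0.trans_le hd
          have h8 := mup H β hdpos
          have h9 : 1 / (2 * dn β) ≤ 1 / (2 * β) := by gcongr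
          have h10 := m0 H β
          calc mn H β ^ 2 ≤ (1 / (2 * β)) ^ 2 := by
                gcongr
                exact h8.trans h9
            _ = (1 / 4) * (β ^ 2)⁻¹ := by
                field_simp
                norm_num
        have h3 : ∫ β in (1 / (2 * (H : ℝ)))..1 / 2, (1 / 4) * (β ^ 2)⁻¹ = (1 / 4) * (2 * H - 2) := by
          rw [intervalIntegral.integral_const_mul]
          congr 1
          have hder : ∀ x ∈ Set.uIcc (1 / (2 * (H : ℝ))) (1 / 2), HasDerivAt (fun y : ℝ => -y⁻¹) ((x ^ 2)⁻¹) x := by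
            intro x hx
            rw [Set.uIcc_of_le hs2] at hx
            have hx0 : x ≠ 0 := (lt_of_lt_of_le hs hx.1).ne'
            have := (hasDerivAt_inv hx0).fun_neg
            simpa using this
          have hci2 : ContinuousOn (fun β : ℝ => (β ^ 2)⁻¹) (Set.uIcc (1 / (2 * (H : ℝ))) (1 / 2)) := by
            rw [Set.uIcc_of_le hs2]
            apply ContinuousOn.inv₀ (by fun_prop)
            intro β hβ
            have : 0 < β := lt_of_lt_of_le hs hβ.1
            positivity
          rw [intervalIntegral.integral_eq_sub_of_hasDerivAt hder hci2.intervalIntegrable]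
          rw [one_div, one_div, inv_inv, inv_inv]
          ring
        rw [h3] at h2
        have h4 : 1 / (2 * (H : ℝ)) * (H : ℝ) ^ 2 = H / 2 := by field_simp
        rw [h4] at h1
        linarith
      have hhalf2 : ∫ β in (1 / 2 : ℝ)..1, mn H β ^ 2 = ∫ β in (0 : ℝ)..1 / 2, mn H β ^ 2 := by
        have e : ∀ β : ℝ, mn H β ^ 2 = mn H (1 - β) ^ 2 := by
          intro β
          have h5 : mn H (1 - β) = mn H β := by
            have h6 := mper H (-β)
            rw [meven] at h6
            rw [← h6]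
            congr 1
            ring
          rw [h5]
        calc ∫ β in (1 / 2 : ℝ)..1, mn H β ^ 2 = ∫ β in (1 / 2 : ℝ)..1, mn H (1 - β) ^ 2 := by
              simp_rw [← e]
          _ = ∫ β in (1 - 1 : ℝ)..(1 - 1 / 2), mn H β ^ 2 :=
              intervalIntegral.integral_comp_sub_left (fun β => mn H β ^ 2) 1
          _ = _ := by norm_num
      rw [← intervalIntegral.integral_add_adjacent_intervals (b := 1 / 2)
          (hc.intervalIntegrable _ _) (hc.intervalIntegrable _ _), hhalf2]
      linarith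

end Pool.Agent.H43.MA.CELL
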