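import Pool.Agent.H43.MA.Stm3

/-!
# CRT (helper1): lower bound for the number of the good classes
-/

set_option autoImplicit false

namespace Pool.Agent.H43.MA.CRT

open Finset Pool.Agent.H43.MA

/-- the condition at one prime -/
def GQ (k q c : ℕ) : Prop := ¬ q ∣ c ∧ ∀ i ∈ Icc 1 k, ¬ q ∣ 2 ^ i * (c + 1) - 1

theorem dvd_int (q i c : ℕ) :
    q ∣ 2 ^ i * (c + 1) - 1 ↔ (q : ℤ) ∣ 2 ^ i * ((c : ℤ) + 1) - 1 := by
  have h : 1 ≤ 2 ^ i * (c + 1) := Nat.mul_pos (by positivity) (by omega)
  rw [← Int.natCast_dvd_natCast, Nat.cast_sub h]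
  push_cast
  exact Iff.rfl

theorem GQ_congr {k q c c' : ℕ} (h : c ≡ c' [MOD q]) : GQ k q c ↔ GQ k q c' := by
  have hz : (q : ℤ) ∣ (c' : ℤ) - c := Nat.modEq_iff_dvd.1 h
  unfold GQ
  have h1 : q ∣ c ↔ q ∣ c' := h.dvd_iff (dvd_refl q)
  have h2 : ∀ i, q ∣ 2 ^ i * (c + 1) - 1 ↔ q ∣ 2 ^ i * (c' + 1) - 1 := by
    intro i
    rw [dvd_int, dvd_int]
    have h3 : (2 : ℤ) ^ i * ((c' : ℤ) + 1) - 1 =
        (2 ^ i * ((c : ℤ) + 1) - 1) + 2 ^ i * ((c' : ℤ) - c) := by ring
    rw [h3]
    exact (dvd_add_left (Dvd.dvd.mul_left hz _)).symm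
  rw [h1]
  simp only [h2]

open Classical in
/-- the good classes modulo a prime -/
theorem one_prime (k : ℕ) {q : ℕ} (hq : q.Prime) :
    max 1 (q - (k + 1)) ≤ ((range q).filter (fun b => GQ k q b)).card := by
  apply max_le
  · rw [Nat.succ_le_iff, Finset.card_pos]
    have h2 := hq.two_le
    refine ⟨q - 1, mem_filter.2 ⟨mem_range.2 (by omega), ?_, ?_⟩⟩
    · intro h
      have := Nat.le_of_dvd (by omega) h
      omega
    · intro i _ h
      rw [dvd_int] at h
      have h3 : ((q - 1 : ℕ) : ℤ) + 1 = q := by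
        rw [Nat.cast_sub (by omega)]
        push_cast
        ring
      rw [h3] at h
      have h4 : (q : ℤ) ∣ 1 := by
        have h5 := dvd_sub (Dvd.intro_left ((2 : ℤ) ^ i) rfl : (q : ℤ) ∣ 2 ^ i * q) h
        rwa [sub_sub_cancel] at h5
      have h6 := Int.le_of_dvd one_pos h4
      omega
  · have hsub : (range q).filter (fun b => ¬ GQ k q b) ⊆ insert 0 ((Icc 1 k).biUnion (fun i =>
        (range q).filter (fun b => q ∣ 2 ^ i * (b + 1) - 1))) := by
      intro b hb
      obtain ⟨h1, h2⟩ := mem_filter.1 hb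
      rw [mem_range] at h1
      by_cases h3 : q ∣ b
      · have h4 : b = 0 := Nat.eq_zero_of_dvd_of_lt h3 h1
        rw [h4]
        exact mem_insert_self _ _
      · have h4 : ∃ i ∈ Icc 1 k, q ∣ 2 ^ i * (b + 1) - 1 := by
          by_contra h5
          push Not at h5
          exact h2 ⟨h3, h5⟩
        obtain ⟨i, hi, h5⟩ := h4
        exact mem_insert_of_mem (mem_biUnion.2 ⟨i, hi, mem_filter.2 ⟨mem_range.2 h1, h5⟩⟩)
    have hone : ∀ i ∈ Icc 1 k, ((range q).filter (fun b => q ∣ 2 ^ i * (b + 1) - 1)).card ≤ 1 := by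
      intro i _
      rw [Finset.card_le_one]
      intro b hb b' hb'
      obtain ⟨h1, h2⟩ := mem_filter.1 hb
      obtain ⟨h1', h2'⟩ := mem_filter.1 hb'
      rw [mem_range] at h1 h1'
      rw [dvd_int] at h2 h2'
      have hcop : IsCoprime (q : ℤ) ((2 : ℤ) ^ i) := by
        obtain ⟨t, ht⟩ := h2
        exact ⟨-t, (b : ℤ) + 1, by linarith⟩
      have h3 := dvd_sub h2' h2
      rw [show (2 : ℤ) ^ i * ((b' : ℤ) + 1) - 1 - (2 ^ i * ((b : ℤ) + 1) - 1) =
        2 ^ i * ((b' : ℤ) - b) by ring] at h3
      have h4 : b ≡ b' [MOD q] := Nat.modEq_iff_dvd.2 (hcop.dvd_of_dvd_mul_left h3)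
      exact h4.eq_of_lt_of_lt h1 h1'
    have h1 : ((range q).filter (fun b => ¬ GQ k q b)).card ≤ k + 1 := by
      refine (Finset.card_le_card hsub).trans ((Finset.card_insert_le _ _).trans ?_)
      refine Nat.add_le_add_right ((Finset.card_biUnion_le.trans (sum_le_sum hone)).trans ?_) 1
      rw [sum_const, Nat.card_Icc]
      simp
    have h2 := Finset.card_filter_add_card_filter_not (s := range q) (fun b => GQ k q b)
    rw [Finset.card_range] at h2
    omega

theorem primorial_eq (y : ℕ) : primorial y = ∏ p ∈ (Icc 1 y).filter Nat.Prime, p := by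
  unfold primorial
  refine prod_congr ?_ fun _ _ => rfl
  ext p
  simp only [mem_filter, mem_range, mem_Icc]
  constructor
  · rintro ⟨h1, h2⟩
    exact ⟨⟨h2.one_lt.le, by omega⟩, h2⟩
  · rintro ⟨h1, h2⟩
    exact ⟨by omega, h2⟩

theorem filter_succ (y : ℕ) : (Icc 1 (y + 1)).filter Nat.Prime =
    if (y + 1).Prime then insert (y + 1) ((Icc 1 y).filter Nat.Prime)
    else (Icc 1 y).filter Nat.Prime := by
  rw [← Finset.insert_Icc_right_eq_Icc_add_one (by omega : 1 ≤ y + 1), filter_insert]

theorem main : S_CRT := by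
  classical
  intro k y
  induction y with
  | zero =>
    have h1 : primorial 0 = 1 := rfl
    rw [h1]
    have h2 : (0 : ℕ) ∈ (range 1).filter (fun c => GoodC k 0 c) := by
      refine mem_filter.2 ⟨by simp, ?_⟩
      intro q hq hq0
      have := hq.pos
      omega
    have h3 := Finset.card_pos.2 ⟨0, h2⟩
    have h4 : (Icc 1 0).filter Nat.Prime = ∅ := by simp
    rw [h4, prod_empty]
    exact h3
  | succ y ih =>
    by_cases hq : (y + 1).Prime
    swap
    · -- no new prime
      have h1 : primorial (y + 1) = primorial y := by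
        rw [primorial_eq, primorial_eq, filter_succ, if_neg hq]
      have h2 : ∀ c, GoodC k (y + 1) c ↔ GoodC k y c := by
        intro c
        constructor
        · intro h q hqp hqy
          exact h q hqp (by omega)
        · intro h q hqp hqy
          refine h q hqp ?_
          have : q ≠ y + 1 := fun h3 => hq (h3 ▸ hqp)
          omega
      rw [filter_succ, if_neg hq, h1]
      simp only [h2]
      exact ih
    · obtain ⟨q, hqdef⟩ : ∃ q, q = y + 1 := ⟨_, rfl⟩
      have hqp : q.Prime := hqdef ▸ hq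
      have hnot : y + 1 ∉ (Icc 1 y).filter Nat.Prime := by
        intro h
        have := (mem_Icc.1 (mem_filter.1 h).1).2
        omega
      have h1 : primorial (y + 1) = q * primorial y := by
        rw [primorial_eq, primorial_eq, filter_succ, if_pos hq, prod_insert hnot, hqdef]
      have hM0 : 0 < primorial y := primorial_pos y
      have hcop : Nat.Coprime q (primorial y) := by
        rw [primorial_eq]
        refine Nat.Coprime.prod_right fun p hp => ?_
        obtain ⟨h2, h3⟩ := mem_filter.1 hp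
        rw [Nat.coprime_primes hqp h3]
        have := (mem_Icc.1 h2).2
        omega
      rw [filter_succ, if_pos hq, prod_insert hnot, h1, ← hqdef]
      -- the map
      let f : ℕ × ℕ → ℕ := fun x => (Nat.chineseRemainder hcop x.1 x.2 : ℕ)
      have hf1 : ∀ x, f x ≡ x.1 [MOD q] := fun x => (Nat.chineseRemainder hcop x.1 x.2).2.1
      have hf2 : ∀ x, f x ≡ x.2 [MOD primorial y] := fun x =>
        (Nat.chineseRemainder hcop x.1 x.2).2.2
      have hf3 : ∀ x, f x < q * primorial y := fun x =>
        Nat.chineseRemainder_lt_mul hcop x.1 x.2 hqp.pos.ne' hM0.ne'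
      have hcard : (((range q).filter (fun b => GQ k q b)) ×ˢ
          ((range (primorial y)).filter (fun c => GoodC k y c))).card ≤
          ((range (q * primorial y)).filter (fun c => GoodC k q c)).card := by
        apply Finset.card_le_card_of_injOn f
        · intro x hx
          obtain ⟨hx1, hx2⟩ := mem_product.1 (Finset.mem_coe.1 hx)
          refine Finset.mem_coe.2 (mem_filter.2 ⟨mem_range.2 (hf3 x), ?_⟩)
          intro p hp hpq
          rcases eq_or_lt_of_le hpq with h2 | h2
          · rw [h2]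
            exact (GQ_congr (hf1 x)).2 (mem_filter.1 hx1).2
          · have hpy : p ≤ y := by omega
            have hpM : p ∣ primorial y := by
              rw [primorial_eq]
              exact dvd_prod_of_mem (fun p => p)
                (mem_filter.2 ⟨mem_Icc.2 ⟨hp.one_lt.le, hpy⟩, hp⟩)
            exact (GQ_congr ((hf2 x).of_dvd hpM)).2 ((mem_filter.1 hx2).2 p hp hpy)
        · intro x hx x' hx' hxx
          obtain ⟨hx1, hx2⟩ := mem_product.1 (Finset.mem_coe.1 hx)
          obtain ⟨hx1', hx2'⟩ := mem_product.1 (Finset.mem_coe.1 hx')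
          have e1 : x.1 ≡ x'.1 [MOD q] := (hf1 x).symm.trans (hxx ▸ hf1 x')
          have e2 : x.2 ≡ x'.2 [MOD primorial y] := (hf2 x).symm.trans (hxx ▸ hf2 x')
          exact Prod.ext
            (e1.eq_of_lt_of_lt (mem_range.1 (mem_filter.1 hx1).1)
              (mem_range.1 (mem_filter.1 hx1').1))
            (e2.eq_of_lt_of_lt (mem_range.1 (mem_filter.1 hx2).1)
              (mem_range.1 (mem_filter.1 hx2').1))
      rw [Finset.card_product] at hcard
      exact (Nat.mul_le_mul (one_prime k hqp) ih).trans hcard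

end Pool.Agent.H43.MA.CRT
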