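import Pool.Agent.H43.MA.Stm

/-!
# Project MA: two smooth variables (stub D2)
-/

set_option autoImplicit false

namespace Pool.Agent.H43.MA.D2

open Finset

theorem mul_eq (W : ℕ) (f g : AF) (hf : ∀ n, f n ≠ 0 → n ≤ W) (n : ℕ) :
    (f * g) n = ∑ m ∈ Icc 1 W, f m * (sg m * g) n := by
  simp only [ArithmeticFunction.mul_apply]
  simp only [mul_sum]
  rw [sum_comm]
  refine sum_congr rfl fun p hp => ?_
  obtain ⟨x, y⟩ := p
  rw [Nat.mem_divisorsAntidiagonal] at hp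
  simp only at hp ⊢
  have hx : x ≠ 0 := by
    rintro rfl
    exact hp.2 (by rw [← hp.1, zero_mul])
  have h1 : ∀ m, sg m x = if x = m then 1 else 0 := by
    intro m
    simp [sg, hx]
  have h2 : f x = ∑ m ∈ Icc 1 W, f m * sg m x := by
    simp only [h1, mul_ite, mul_one, mul_zero]
    rw [sum_ite_eq]
    split_ifs with h
    · rfl
    · by_contra hne
      exact h (mem_Icc.2 ⟨Nat.one_le_iff_ne_zero.2 hx, hf x hne⟩)
  rw [h2, sum_mul]
  exact sum_congr rfl fun m _ => by ring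

theorem main : S_WSB → S_D2M → S_D2 := by
  rintro ⟨hW1, -, hW3, -⟩ ⟨C, hC, hD⟩
  refine ⟨C, hC, ?_⟩
  intro H N W v w e e2 q Q0 Q1 α a f hf hee hN hQ0 hQ1 hcop hQW hqH hqe hQH hα
  have e1 : (fun n => (f * (sm v e * sm w e2)) n) =
      fun n => ∑ m ∈ Icc 1 W, f m * (sg m * (sm v e * sm w e2)) n := by
    funext n
    exact mul_eq W f _ hf n
  rw [e1]
  have h1 := hW1 H N α ℕ (Icc 1 W) (fun m n => f m * (sg m * (sm v e * sm w e2)) n)
  refine h1.trans ?_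
  rw [Nat.card_Icc, Nat.add_sub_cancel]
  set B : ℝ := C * (1 + Real.log N) ^ 6 * (2 ^ e * 2 ^ e2) * (H + (H : ℝ) ^ 2 / Q1 + (W * Q1 * q) ^ 2) with hB
  have hlog : 0 ≤ Real.log N := Real.log_natCast_nonneg N
  have h2 : ∀ m ∈ Icc 1 W, WS H N α (fun n => f m * (sg m * (sm v e * sm w e2)) n) ≤ f m ^ 2 * B := by
    intro m hm
    rw [mem_Icc] at hm
    rw [hW3]
    refine mul_le_mul_of_nonneg_left ?_ (sq_nonneg _)
    refine (hD H N m v w e e2 q Q0 Q1 α a hm.1 hee ((Nat.mul_le_mul_right _ hm.2).trans hN) hQ0 hQ1 hcop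
      ((Nat.mul_le_mul_left _ hm.2).trans_lt hQW) hqH hqe
      ((Nat.mul_le_mul_right _ (Nat.mul_le_mul_left _ hm.2)).trans hQH) hα).trans ?_
    rw [hB]
    have hmW : (m : ℝ) ≤ W := by exact_mod_cast hm.2
    gcongr
  refine (mul_le_mul_of_nonneg_left (sum_le_sum h2) (Nat.cast_nonneg _)).trans (le_of_eq ?_)
  rw [← sum_mul, hB]
  ring

end Pool.Agent.H43.MA.D2
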