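import Pool.Agent.H43.MA.Stm

/-! Project MA, stub D2I (helper69). -/

set_option autoImplicit false

namespace Pool.Agent.H43.MA.D2I

open Finset Pool.Agent.H43.MA MeasureTheory

/-- the distance of `β` to the integers is not small if `r m (α + β)` is near an integer -/
theorem dist_low {H m D q Q0 Q1 r : ℕ} {α β : ℝ} {a : ℤ} (hm : 1 ≤ m) (hD : 1 ≤ D) (hr : 1 ≤ r)
    (hrQ : r < Q1) (hH1 : 1 ≤ H) (hcop : IsCoprime a (q : ℤ)) (hQq : Q1 * m < q) (hqD : q ≤ 2 * D)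
    (hH : 2 * Q1 * m * Q0 ≤ H) (hα : |α - a / q| ≤ Q0 / (q * H))
    (hdn : dn (r * (m * (α + β))) ≤ 1 / (8 * D)) :
    1 / (4 * (q * (r * m)) : ℝ) ≤ dn β := by
  have hrm : r * m < q := (Nat.mul_le_mul_right m hrQ.le).trans_lt hQq
  have hq : 0 < q := by omega
  have hqR : (0 : ℝ) < q := by exact_mod_cast hq
  have hrR : (0 : ℝ) < r := by exact_mod_cast hr
  have hmR : (0 : ℝ) < m := by exact_mod_cast hm
  have hDR : (0 : ℝ) < D := by exact_mod_cast hD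
  have hHR : (0 : ℝ) < H := by exact_mod_cast hH1
  unfold dn at hdn ⊢
  set c : ℤ := round ((r : ℝ) * (m * (α + β))) with hc
  set k : ℤ := round β with hk
  -- the integer
  have hN : a * (r * m : ℤ) + k * (r * m : ℤ) * q - c * q ≠ 0 := by
    intro h0
    have h1 : (q : ℤ) ∣ a * (r * m : ℤ) := ⟨c - k * (r * m : ℤ), by linear_combination h0⟩
    have h2 : (q : ℤ) ∣ (r * m : ℤ) := hcop.symm.dvd_of_dvd_mul_left h1
    have h3 : q ∣ r * m := by exact_mod_cast h2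
    have h4 := Nat.le_of_dvd (Nat.mul_pos hr hm) h3
    omega
  have hN1 : (1 : ℝ) ≤ |(a * (r * m) + k * (r * m) * q - c * q : ℝ)| := by
    have h1 : (1 : ℤ) ≤ |a * (r * m : ℤ) + k * (r * m : ℤ) * q - c * q| := Int.one_le_abs hN
    have h2 : ((1 : ℤ) : ℝ) ≤ ((|a * (r * m : ℤ) + k * (r * m : ℤ) * q - c * q| : ℤ) : ℝ) := by
      exact_mod_cast h1
    push_cast at h2
    exact h2
  have hX : q * (r * m) * |α - a / q| ≤ 1 / 2 := by
    have h1 : q * (r * m) * |α - a / q| ≤ q * (r * m) * ((Q0 : ℝ) / (q * H)) := by gcongr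
    have h2 : q * (r * m) * ((Q0 : ℝ) / (q * H)) = (r * m * Q0) / H := by
      field_simp
    have h3 : ((r : ℝ) * m * Q0) / H ≤ 1 / 2 := by
      rw [div_le_div_iff₀ hHR (by norm_num)]
      have h4 : 2 * r * m * Q0 ≤ H := by
        refine le_trans ?_ hH
        exact Nat.mul_le_mul_right _ (Nat.mul_le_mul_right _ (Nat.mul_le_mul_left _ hrQ.le))
      have h5 : ((2 * r * m * Q0 : ℕ) : ℝ) ≤ (H : ℝ) := by exact_mod_cast h4
      push_cast at h5
      linarith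
    linarith [h1, h2.le, h3]
  have hY : q * |(r : ℝ) * (m * (α + β)) - c| ≤ 1 / 4 := by
    have h1 : q * |(r : ℝ) * (m * (α + β)) - c| ≤ q * (1 / (8 * D)) := by gcongr
    have h2 : (q : ℝ) * (1 / (8 * D)) ≤ 1 / 4 := by
      rw [mul_one_div, div_le_div_iff₀ (by positivity) (by norm_num)]
      have : ((q : ℕ) : ℝ) ≤ ((2 * D : ℕ) : ℝ) := by exact_mod_cast hqD
      push_cast at this
      linarith
    linarith
  have key : q * (r * m) * (β - k) = q * ((r : ℝ) * (m * (α + β)) - c) - q * (r * m) * (α - a / q) -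
      (a * (r * m) + k * (r * m) * q - c * q) := by
    field_simp
    ring
  have h1 : 1 / 4 ≤ |q * (r * m) * (β - k)| := by
    rw [key]
    have t1 := abs_sub_abs_le_abs_sub (a * (r * m) + k * (r * m) * q - c * q : ℝ)
      (q * ((r : ℝ) * (m * (α + β)) - c) - q * (r * m) * (α - a / q))
    rw [abs_sub_comm (a * (r * m) + k * (r * m) * q - c * q : ℝ)
      (q * ((r : ℝ) * (m * (α + β)) - c) - q * (r * m) * (α - a / q))] at t1
    have t2 : |q * ((r : ℝ) * (m * (α + β)) - c) - q * (r * m) * (α - a / q)| ≤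
        q * |(r : ℝ) * (m * (α + β)) - c| + q * (r * m) * |α - a / q| := by
      refine (abs_sub _ _).trans ?_
      rw [abs_mul, abs_mul, abs_of_pos hqR, abs_of_pos (show (0 : ℝ) < q * (r * m) by positivity)]
    linarith
  rw [abs_mul, abs_of_pos (show (0 : ℝ) < q * (r * m) by positivity)] at h1
  rw [div_le_iff₀ (by positivity)]
  linarith

theorem log_bd {D : ℕ} (hD : 1 ≤ D) : ∑ r ∈ Ico 1 (2 * D), (1 : ℝ) / r ≤ 2 * (1 + Real.log D) := by
  have hDR : (1 : ℝ) ≤ D := by exact_mod_cast hD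
  have h1 : ∑ r ∈ Ico 1 (2 * D), (1 : ℝ) / r ≤ ((harmonic (2 * D) : ℚ) : ℝ) := by
    rw [harmonic_eq_sum_Icc]
    push_cast
    simp only [one_div]
    refine Finset.sum_le_sum_of_subset_of_nonneg ?_ fun _ _ _ => by positivity
    intro r hr
    rw [Finset.mem_Ico] at hr
    rw [Finset.mem_Icc]
    omega
  have h2 := harmonic_le_one_add_log (2 * D)
  have h3 : Real.log ((2 * D : ℕ) : ℝ) = Real.log 2 + Real.log D := by
    push_cast
    rw [Real.log_mul (by norm_num) (by linarith)]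
  have h4 : Real.log 2 ≤ 1 := by
    have := Real.log_two_lt_d9
    linarith
  have h5 : 0 ≤ Real.log (D : ℝ) := Real.log_nonneg hDR
  rw [h3] at h2
  linarith

theorem sq_bd {Q1 D : ℕ} (hQ : 1 ≤ Q1) : ∑ r ∈ Ico Q1 (2 * D), (1 : ℝ) / (r : ℝ) ^ 2 ≤ 2 / Q1 := by
  have hQR : (1 : ℝ) ≤ Q1 := by exact_mod_cast hQ
  -- telescoping: `1 / r ^ 2 ≤ 2 / r - 2 / (r + 1)`
  have h1 : ∀ n : ℕ, Q1 ≤ n → ∑ r ∈ Ico Q1 n, (1 : ℝ) / (r : ℝ) ^ 2 ≤ 2 / Q1 - 2 / n := by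
    intro n hn
    induction n, hn using Nat.le_induction with
    | base => simp
    | succ n hn ih =>
      rw [Finset.sum_Ico_succ_top hn]
      have hn0 : (1 : ℝ) ≤ n := hQR.trans (by exact_mod_cast hn)
      have h2 : (1 : ℝ) / (n : ℝ) ^ 2 ≤ 2 / n - 2 / ((n + 1 : ℕ) : ℝ) := by
        push_cast
        rw [div_sub_div _ _ (by positivity) (by positivity), div_le_div_iff₀ (by positivity) (by positivity)]
        nlinarith
      linarith
  rcases le_or_gt Q1 (2 * D) with h | h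
  · have h2 := h1 (2 * D) h
    have h3 : (0 : ℝ) ≤ 2 / ((2 * D : ℕ) : ℝ) := by positivity
    linarith
  · rw [Finset.Ico_eq_empty (by omega), Finset.sum_empty]
    positivity

theorem main : S_MNB → S_DIR → S_CELL → S_GI → S_D2I := by
  rintro ⟨hdc, hd1, -, -, hd0, -, -, hmc, -, -, hm0, -, -, hml, -⟩ ⟨C1, hC1, hDIR⟩
    ⟨C2, hC2, hCE1, hCE2, hCE3⟩ hGI
  refine ⟨C1 * (4 * Real.pi + 2 * Real.pi * C2 + 2), ?_, ?_⟩
  · have hpi := Real.pi_gt_three
    nlinarith [mul_nonneg (show (0 : ℝ) ≤ 2 * Real.pi by positivity) (show (0 : ℝ) ≤ C2 by linarith)]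
  intro H m D D2 q Q0 Q1 α a hm hD hDD hQ0 hQ1 hcop hQq hqH hqD hH hα
  have hD2 : 1 ≤ D2 := hD.trans hDD
  have hH1 : 1 ≤ H := by
    refine le_trans ?_ hH
    have : 1 ≤ 2 * Q1 * m * Q0 := Nat.one_le_iff_ne_zero.2 (by positivity)
    exact this
  have hDR : (1 : ℝ) ≤ D := by exact_mod_cast hD
  have hD2R : (1 : ℝ) ≤ D2 := by exact_mod_cast hD2
  have hmR : (1 : ℝ) ≤ m := by exact_mod_cast hm
  have hHR : (1 : ℝ) ≤ H := by exact_mod_cast hH1
  have hQ1R : (1 : ℝ) ≤ Q1 := by exact_mod_cast hQ1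
  have hlog : 0 ≤ Real.log (D : ℝ) := Real.log_nonneg hDR
  have hq0 : 0 < q := by omega
  have hC10 : 0 ≤ C1 := by linarith
  have hC20 : 0 ≤ C2 := by linarith
  set Gr : ℕ → ℝ → ℝ := fun r β => ((D : ℝ) / r) ^ 2 * gr D D2 r (r * (m * (α + β))) with hGr
  set Lg : ℝ := D * (1 + Real.log D) with hLg
  have hGr0 : ∀ r, 1 ≤ r → ∀ β, 0 ≤ Gr r β := fun r hr β =>
    mul_nonneg (sq_nonneg _) ((hGI D D2 r hD hD2 hr).2.1 _)
  have hGrc : ∀ r, 1 ≤ r → Continuous (Gr r) := by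
    intro r hr
    have h1 := (hGI D D2 r hD hD2 hr).1
    exact continuous_const.mul (h1.comp (by fun_prop))
  have hmnc : Continuous (mn H) := hmc H
  -- the pointwise bound
  have hpt : ∀ β : ℝ, mn H β ^ 2 * (∑ d ∈ Ico D (2 * D), mn D2 (m * (α + β) * d)) ^ 2 ≤
      C1 * ((∑ r ∈ Ico 1 Q1, (2 * (q * (r * m)) : ℝ) ^ 2 * Gr r β) +
        (∑ r ∈ Ico Q1 (2 * D), mn H β ^ 2 * Gr r β) + mn H β ^ 2 * Lg ^ 2) := by
    intro β
    obtain ⟨r, hr, hdn, hF⟩ := hDIR D D2 (m * (α + β)) hD hD2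
    have hs1 : 0 ≤ ∑ r ∈ Ico 1 Q1, (2 * (q * (r * m)) : ℝ) ^ 2 * Gr r β :=
      Finset.sum_nonneg fun r hr => mul_nonneg (sq_nonneg _) (hGr0 r (Finset.mem_Ico.1 hr).1 β)
    have hs2 : 0 ≤ ∑ r ∈ Ico Q1 (2 * D), mn H β ^ 2 * Gr r β :=
      Finset.sum_nonneg fun r hr => mul_nonneg (sq_nonneg _)
        (hGr0 r (hQ1.trans (Finset.mem_Ico.1 hr).1) β)
    have hif : mn H β ^ 2 * (if r < 2 * D then ((D : ℝ) / r) ^ 2 * gr D D2 r (r * (m * (α + β))) else 0) ≤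
        (∑ r ∈ Ico 1 Q1, (2 * (q * (r * m)) : ℝ) ^ 2 * Gr r β) +
        (∑ r ∈ Ico Q1 (2 * D), mn H β ^ 2 * Gr r β) := by
      by_cases hr2 : r < 2 * D
      · rw [if_pos hr2]
        by_cases hrQ : r < Q1
        · have h1 := dist_low hm hD hr hrQ hH1 hcop hQq hqD hH hα hdn
          have hpos : (0 : ℝ) < q * (r * m) := by
            have : (0 : ℝ) < q := by exact_mod_cast hq0
            have : (0 : ℝ) < r := by exact_mod_cast hr
            positivity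
          have h2 : mn H β ≤ 2 * (q * (r * m)) := by
            have h0 : 0 < dn β := lt_of_lt_of_le (by positivity) h1
            refine (hml H β h0).trans ?_
            rw [div_le_iff₀ (by positivity)]
            rw [div_le_iff₀ (by positivity)] at h1
            linarith
          have h3 : mn H β ^ 2 ≤ (2 * (q * (r * m)) : ℝ) ^ 2 := pow_le_pow_left₀ (hm0 H β) h2 2
          have h4 : mn H β ^ 2 * Gr r β ≤ (2 * (q * (r * m)) : ℝ) ^ 2 * Gr r β :=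
            mul_le_mul_of_nonneg_right h3 (hGr0 r hr β)
          have h5 : (2 * (q * (r * m)) : ℝ) ^ 2 * Gr r β ≤
              ∑ r ∈ Ico 1 Q1, (2 * (q * (r * m)) : ℝ) ^ 2 * Gr r β :=
            Finset.single_le_sum (f := fun r : ℕ => (2 * (q * (r * m)) : ℝ) ^ 2 * Gr r β)
              (fun r hr => mul_nonneg (sq_nonneg _) (hGr0 r (Finset.mem_Ico.1 hr).1 β))
              (Finset.mem_Ico.2 ⟨hr, hrQ⟩)
          linarith
        · have h5 : mn H β ^ 2 * Gr r β ≤ ∑ r ∈ Ico Q1 (2 * D), mn H β ^ 2 * Gr r β :=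
            Finset.single_le_sum (f := fun r : ℕ => mn H β ^ 2 * Gr r β)
              (fun r hr => mul_nonneg (sq_nonneg _) (hGr0 r (hQ1.trans (Finset.mem_Ico.1 hr).1) β))
              (Finset.mem_Ico.2 ⟨not_lt.1 hrQ, hr2⟩)
          have h6 : mn H β ^ 2 * (((D : ℝ) / r) ^ 2 * gr D D2 r (r * (m * (α + β)))) =
            mn H β ^ 2 * Gr r β := rfl
          linarith
      · rw [if_neg hr2, mul_zero]
        linarith
    calc mn H β ^ 2 * (∑ d ∈ Ico D (2 * D), mn D2 (m * (α + β) * d)) ^ 2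
        ≤ mn H β ^ 2 * (C1 * ((if r < 2 * D then ((D : ℝ) / r) ^ 2 * gr D D2 r (r * (m * (α + β))) else 0) +
          (D * (1 + Real.log D)) ^ 2)) := mul_le_mul_of_nonneg_left hF (sq_nonneg _)
      _ = C1 * (mn H β ^ 2 * (if r < 2 * D then ((D : ℝ) / r) ^ 2 * gr D D2 r (r * (m * (α + β))) else 0) +
          mn H β ^ 2 * Lg ^ 2) := by rw [hLg]; ring
      _ ≤ _ := mul_le_mul_of_nonneg_left (by linarith) hC10
  -- continuity
  have hFc : Continuous fun β : ℝ => mn H β ^ 2 * (∑ d ∈ Ico D (2 * D), mn D2 (m * (α + β) * d)) ^ 2 := by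
    refine (hmnc.pow 2).mul (Continuous.pow ?_ 2)
    exact continuous_finsetSum _ fun d _ => (hmc D2).comp (by fun_prop)
  have hc1 : ∀ r ∈ Ico 1 Q1, Continuous fun β : ℝ => (2 * (q * (r * m)) : ℝ) ^ 2 * Gr r β :=
    fun r hr => continuous_const.mul (hGrc r (Finset.mem_Ico.1 hr).1)
  have hc2 : ∀ r ∈ Ico Q1 (2 * D), Continuous fun β : ℝ => mn H β ^ 2 * Gr r β :=
    fun r hr => (hmnc.pow 2).mul (hGrc r (hQ1.trans (Finset.mem_Ico.1 hr).1))
  have hc3 : Continuous fun β : ℝ => mn H β ^ 2 * Lg ^ 2 := (hmnc.pow 2).mul continuous_const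
  have hcs1 := continuous_finsetSum _ hc1
  have hcs2 := continuous_finsetSum _ hc2
  have hint : ∫ β in (0 : ℝ)..1, mn H β ^ 2 * (∑ d ∈ Ico D (2 * D), mn D2 (m * (α + β) * d)) ^ 2 ≤
      ∫ β in (0 : ℝ)..1, C1 * ((∑ r ∈ Ico 1 Q1, (2 * (q * (r * m)) : ℝ) ^ 2 * Gr r β) +
        (∑ r ∈ Ico Q1 (2 * D), mn H β ^ 2 * Gr r β) + mn H β ^ 2 * Lg ^ 2) := by
    refine intervalIntegral.integral_mono (by norm_num) (hFc.intervalIntegrable _ _) ?_ hpt
    exact (continuous_const.mul ((hcs1.add hcs2).add hc3)).intervalIntegrable _ _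
  refine hint.trans ?_
  have hi1 : IntervalIntegrable (fun β : ℝ => ∑ r ∈ Ico 1 Q1, (2 * (q * (r * m)) : ℝ) ^ 2 * Gr r β)
      volume 0 1 := hcs1.intervalIntegrable _ _
  have hi2 : IntervalIntegrable (fun β : ℝ => ∑ r ∈ Ico Q1 (2 * D), mn H β ^ 2 * Gr r β)
      volume 0 1 := hcs2.intervalIntegrable _ _
  have hi3 : IntervalIntegrable (fun β : ℝ => mn H β ^ 2 * Lg ^ 2) volume 0 1 :=
    hc3.intervalIntegrable _ _
  have hi12 : IntervalIntegrable (fun β : ℝ => (∑ r ∈ Ico 1 Q1, (2 * (q * (r * m)) : ℝ) ^ 2 * Gr r β) +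
      ∑ r ∈ Ico Q1 (2 * D), mn H β ^ 2 * Gr r β) volume 0 1 := hi1.add hi2
  rw [intervalIntegral.integral_const_mul, intervalIntegral.integral_add hi12 hi3,
    intervalIntegral.integral_add hi1 hi2,
    intervalIntegral.integral_finsetSum fun r hr => (hc1 r hr).intervalIntegrable _ _,
    intervalIntegral.integral_finsetSum fun r hr => (hc2 r hr).intervalIntegrable _ _,
    intervalIntegral.integral_mul_const]
  -- the integral of one kernel
  have hcast : ∀ (r : ℕ) (β : ℝ), (r : ℝ) * (m * (α + β)) = ((r * m : ℕ) : ℝ) * (α + β) := by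
    intro r β
    push_cast
    ring
  have hk1 : ∀ r, 1 ≤ r → ∫ β in (0 : ℝ)..1, Gr r β ≤ Real.pi * (D * D2 / r) := by
    intro r hr
    obtain ⟨g1, g2, g3, g4⟩ := hGI D D2 r hD hD2 hr
    have hrR : (1 : ℝ) ≤ r := by exact_mod_cast hr
    have h1 : ∫ β in (0 : ℝ)..1, Gr r β = ((D : ℝ) / r) ^ 2 * ∫ u in (0 : ℝ)..1, gr D D2 r u := by
      rw [← hCE2 (r * m) α (gr D D2 r) (Nat.one_le_iff_ne_zero.2 (by positivity)) g1 g3,
        ← intervalIntegral.integral_const_mul]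
      refine intervalIntegral.integral_congr fun β _ => ?_
      simp only [hGr]
      rw [hcast]
    rw [h1]
    calc ((D : ℝ) / r) ^ 2 * ∫ u in (0 : ℝ)..1, gr D D2 r u ≤
          ((D : ℝ) / r) ^ 2 * (Real.pi * (D2 * r / D)) := mul_le_mul_of_nonneg_left g4 (sq_nonneg _)
      _ = Real.pi * (D * D2 / r) := by field_simp
  have hk2 : ∀ r, 1 ≤ r → ∫ β in (0 : ℝ)..1, mn H β ^ 2 * Gr r β ≤
      C2 * Real.pi * (D * D2) * ((H : ℝ) ^ 2 * (1 / (r : ℝ) ^ 2) + H * (1 / r)) := by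
    intro r hr
    obtain ⟨g1, g2, g3, g4⟩ := hGI D D2 r hD hD2 hr
    have hrR : (1 : ℝ) ≤ r := by exact_mod_cast hr
    have h1 : ∫ β in (0 : ℝ)..1, mn H β ^ 2 * Gr r β =
        ((D : ℝ) / r) ^ 2 * ∫ β in (0 : ℝ)..1, mn H β ^ 2 * gr D D2 r (((r * m : ℕ) : ℝ) * (α + β)) := by
      rw [← intervalIntegral.integral_const_mul]
      refine intervalIntegral.integral_congr fun β _ => ?_
      simp only [hGr]
      rw [hcast]
      ring
    have h2 := hCE1 H (r * m) α (gr D D2 r) hH1 (Nat.one_le_iff_ne_zero.2 (by positivity)) g1 g2 g3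
    have h3 : (H : ℝ) ^ 2 / ((r * m : ℕ) : ℝ) + H ≤ (H : ℝ) ^ 2 / r + H := by
      push_cast
      gcongr
      exact le_mul_of_one_le_right (by linarith) hmR
    rw [h1]
    calc ((D : ℝ) / r) ^ 2 * ∫ β in (0 : ℝ)..1, mn H β ^ 2 * gr D D2 r (((r * m : ℕ) : ℝ) * (α + β))
        ≤ ((D : ℝ) / r) ^ 2 * (C2 * ((H : ℝ) ^ 2 / r + H) * (Real.pi * (D2 * r / D))) := by
          refine mul_le_mul_of_nonneg_left (h2.trans ?_) (sq_nonneg _)
          have hI : 0 ≤ ∫ u in (0 : ℝ)..1, gr D D2 r u :=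
            intervalIntegral.integral_nonneg (by norm_num) fun u _ => g2 u
          exact mul_le_mul (mul_le_mul_of_nonneg_left h3 hC20) g4 hI (by positivity)
      _ = _ := by field_simp
  -- first sum
  have hA : ∑ r ∈ Ico 1 Q1, ∫ β in (0 : ℝ)..1, (2 * (q * (r * m)) : ℝ) ^ 2 * Gr r β ≤
      4 * Real.pi * (D * D2) * ((m : ℝ) * Q1 * q) ^ 2 := by
    have h1 : ∀ r ∈ Ico 1 Q1, ∫ β in (0 : ℝ)..1, (2 * (q * (r * m)) : ℝ) ^ 2 * Gr r β ≤
        4 * Real.pi * (D * D2) * ((m : ℝ) * q) ^ 2 * Q1 := by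
      intro r hr
      rw [Finset.mem_Ico] at hr
      have hrR : (1 : ℝ) ≤ r := by exact_mod_cast hr.1
      rw [intervalIntegral.integral_const_mul]
      calc (2 * (q * (r * m)) : ℝ) ^ 2 * ∫ β in (0 : ℝ)..1, Gr r β
          ≤ (2 * (q * (r * m)) : ℝ) ^ 2 * (Real.pi * (D * D2 / r)) :=
            mul_le_mul_of_nonneg_left (hk1 r hr.1) (sq_nonneg _)
        _ = 4 * Real.pi * (D * D2) * ((m : ℝ) * q) ^ 2 * r := by
            field_simp
            ring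
        _ ≤ 4 * Real.pi * (D * D2) * ((m : ℝ) * q) ^ 2 * Q1 := by
            have : (r : ℝ) ≤ Q1 := by exact_mod_cast hr.2.le
            gcongr
    refine (Finset.sum_le_sum h1).trans ?_
    rw [Finset.sum_const, Nat.card_Ico, nsmul_eq_mul]
    have h2 : ((Q1 - 1 : ℕ) : ℝ) ≤ Q1 := by exact_mod_cast Nat.sub_le _ _
    calc ((Q1 - 1 : ℕ) : ℝ) * (4 * Real.pi * (D * D2) * ((m : ℝ) * q) ^ 2 * Q1)
        ≤ Q1 * (4 * Real.pi * (D * D2) * ((m : ℝ) * q) ^ 2 * Q1) := by gcongr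
      _ = _ := by ring
  -- second sum
  have hB : ∑ r ∈ Ico Q1 (2 * D), ∫ β in (0 : ℝ)..1, mn H β ^ 2 * Gr r β ≤
      C2 * Real.pi * (D * D2) * ((H : ℝ) ^ 2 * (2 / Q1) + H * (2 * (1 + Real.log D))) := by
    refine (Finset.sum_le_sum fun r hr => hk2 r (hQ1.trans (Finset.mem_Ico.1 hr).1)).trans ?_
    rw [← Finset.mul_sum, Finset.sum_add_distrib, ← Finset.mul_sum, ← Finset.mul_sum]
    have h1 := sq_bd (Q1 := Q1) (D := D) hQ1
    have h2 : ∑ r ∈ Ico Q1 (2 * D), (1 : ℝ) / r ≤ 2 * (1 + Real.log D) := by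
      refine le_trans ?_ (log_bd hD)
      exact Finset.sum_le_sum_of_subset_of_nonneg
        (Finset.Ico_subset_Ico_left hQ1) fun _ _ _ => by positivity
    have h3 : 0 ≤ C2 * Real.pi * ((D : ℝ) * D2) := by positivity
    refine mul_le_mul_of_nonneg_left ?_ h3
    gcongr
  -- third term
  have hCt := hCE3 H
  have hD2' : (D : ℝ) ≤ D2 := by exact_mod_cast hDD
  have hCc : (∫ β in (0 : ℝ)..1, mn H β ^ 2) * Lg ^ 2 ≤ 2 * H * ((D * D2) * (1 + Real.log D) ^ 2) := by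
    have h1 : Lg ^ 2 ≤ (D * D2) * (1 + Real.log D) ^ 2 := by
      rw [hLg, mul_pow]
      gcongr
      nlinarith
    exact mul_le_mul hCt h1 (sq_nonneg _) (by positivity)
  -- assembly
  set l : ℝ := 1 + Real.log D with hl
  have hl1 : 1 ≤ l := by linarith
  have hll : l ≤ l ^ 2 := by nlinarith
  have hl2 : 1 ≤ l ^ 2 := by nlinarith
  set P : ℝ := (D : ℝ) * D2 with hP
  have hP0 : 0 ≤ P := by positivity
  set U : ℝ := ((m : ℝ) * Q1 * q) ^ 2 with hU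
  have hU0 : 0 ≤ U := sq_nonneg _
  have hV0 : 0 ≤ (H : ℝ) ^ 2 / Q1 := by positivity
  have hpi := Real.pi_pos
  have f1 : 4 * Real.pi * P * U ≤ (4 * Real.pi) * l ^ 2 * P * U := by
    have : 0 ≤ 4 * Real.pi * P * U := by positivity
    nlinarith
  have f2 : C2 * Real.pi * P * ((H : ℝ) ^ 2 * (2 / Q1) + H * (2 * l)) ≤
      (2 * Real.pi * C2) * l ^ 2 * P * (H + (H : ℝ) ^ 2 / Q1) := by
    have e1 : (H : ℝ) ^ 2 * (2 / Q1) + H * (2 * l) ≤ 2 * l ^ 2 * (H + (H : ℝ) ^ 2 / Q1) := by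
      have e2 : (H : ℝ) ^ 2 * (2 / Q1) = 2 * ((H : ℝ) ^ 2 / Q1) := by ring
      rw [e2]
      have e3 : (H : ℝ) ^ 2 / Q1 ≤ l ^ 2 * ((H : ℝ) ^ 2 / Q1) := le_mul_of_one_le_left hV0 hl2
      have e4 : (H : ℝ) * l ≤ l ^ 2 * H := by nlinarith
      nlinarith
    calc C2 * Real.pi * P * ((H : ℝ) ^ 2 * (2 / Q1) + H * (2 * l))
        ≤ C2 * Real.pi * P * (2 * l ^ 2 * (H + (H : ℝ) ^ 2 / Q1)) :=
          mul_le_mul_of_nonneg_left e1 (by positivity)
      _ = _ := by ring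
  have f3 : (4 * Real.pi) * l ^ 2 * P * U + (2 * Real.pi * C2) * l ^ 2 * P * (H + (H : ℝ) ^ 2 / Q1) +
      2 * H * (P * l ^ 2) ≤
      (4 * Real.pi + 2 * Real.pi * C2 + 2) * l ^ 2 * P * (H + (H : ℝ) ^ 2 / Q1 + U) := by
    have e : (4 * Real.pi + 2 * Real.pi * C2 + 2) * l ^ 2 * P * (H + (H : ℝ) ^ 2 / Q1 + U) -
        ((4 * Real.pi) * l ^ 2 * P * U + (2 * Real.pi * C2) * l ^ 2 * P * (H + (H : ℝ) ^ 2 / Q1) +
        2 * H * (P * l ^ 2)) =
        (4 * Real.pi) * l ^ 2 * P * (H + (H : ℝ) ^ 2 / Q1) + (2 * Real.pi * C2) * l ^ 2 * P * U +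
        2 * (l ^ 2 * P * ((H : ℝ) ^ 2 / Q1 + U)) := by ring
    have e' : 0 ≤ (4 * Real.pi) * l ^ 2 * P * (H + (H : ℝ) ^ 2 / Q1) + (2 * Real.pi * C2) * l ^ 2 * P * U +
        2 * (l ^ 2 * P * ((H : ℝ) ^ 2 / Q1 + U)) := by positivity
    linarith
  calc C1 * (∑ r ∈ Ico 1 Q1, (∫ β in (0 : ℝ)..1, (2 * (q * (r * m)) : ℝ) ^ 2 * Gr r β) +
        ∑ r ∈ Ico Q1 (2 * D), (∫ β in (0 : ℝ)..1, mn H β ^ 2 * Gr r β) +
        (∫ β in (0 : ℝ)..1, mn H β ^ 2) * Lg ^ 2)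
      ≤ C1 * ((4 * Real.pi + 2 * Real.pi * C2 + 2) * l ^ 2 * P * (H + (H : ℝ) ^ 2 / Q1 + U)) :=
        mul_le_mul_of_nonneg_left (by linarith) hC10
    _ = _ := by ring

end Pool.Agent.H43.MA.D2I
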