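import Pool.Agent.H43.MA.Stm

/-!
# Project MA: two smooth variables and one integer (stub D2M)
-/

set_option autoImplicit false

namespace Pool.Agent.H43.MA.D2M

open Finset

theorem ee_add (s t : ℝ) : ee (s + t) = ee s * ee t := by
  unfold ee
  rw [← Complex.exp_add]
  congr 1
  push_cast
  ring

theorem ee_cont {f : ℝ → ℝ} (hf : Continuous f) : Continuous fun x => ee (f x) := by
  unfold ee
  fun_prop

/-- sums of products -/
theorem sum_mul_af (A B N : ℕ) (f g : AF) (hf : ∀ n, f n ≠ 0 → n ≤ A) (hg : ∀ n, g n ≠ 0 → n ≤ B)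
    (hN : A * B ≤ N) (φ : ℕ → ℂ) :
    ∑ n ∈ Icc 1 N, (((f * g) n : ℝ) : ℂ) * φ n =
      ∑ x ∈ Icc 1 A, ∑ y ∈ Icc 1 B, ((f x : ℝ) : ℂ) * ((g y : ℝ) : ℂ) * φ (x * y) := by
  have h1 : ∀ n ∈ Icc 1 N, (((f * g) n : ℝ) : ℂ) * φ n =
      ∑ p ∈ (Icc 1 A ×ˢ Icc 1 B).filter (fun p => p.1 * p.2 = n),
        ((f p.1 : ℝ) : ℂ) * ((g p.2 : ℝ) : ℂ) * φ (p.1 * p.2) := by
    intro n hn
    rw [mem_Icc] at hn
    rw [ArithmeticFunction.mul_apply]
    push_cast
    rw [sum_mul]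
    symm
    refine (sum_subset (s₂ := n.divisorsAntidiagonal) ?_ ?_).trans ?_
    · intro p hp
      rw [mem_filter] at hp
      rw [Nat.mem_divisorsAntidiagonal]
      exact ⟨hp.2, by omega⟩
    · intro p hp hp2
      rw [Nat.mem_divisorsAntidiagonal] at hp
      have hx : p.1 ≠ 0 := by
        intro h
        exact hp.2 (by rw [← hp.1, h, zero_mul])
      have hy : p.2 ≠ 0 := by
        intro h
        exact hp.2 (by rw [← hp.1, h, mul_zero])
      by_cases hfx : f p.1 = 0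
      · rw [hfx]
        simp
      by_cases hgy : g p.2 = 0
      · rw [hgy]
        simp
      exfalso
      apply hp2
      rw [mem_filter, mem_product, mem_Icc, mem_Icc]
      exact ⟨⟨⟨Nat.one_le_iff_ne_zero.2 hx, hf _ hfx⟩, ⟨Nat.one_le_iff_ne_zero.2 hy, hg _ hgy⟩⟩, hp.1⟩
    · refine sum_congr rfl fun p hp => ?_
      rw [Nat.mem_divisorsAntidiagonal] at hp
      rw [hp.1]
  rw [sum_congr rfl h1, ← sum_product', ← sum_fiberwise_of_maps_to (s := Icc 1 A ×ˢ Icc 1 B) (t := Icc 1 N)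
    (g := fun p => p.1 * p.2)]
  intro p hp
  rw [mem_product, mem_Icc, mem_Icc] at hp
  rw [mem_Icc]
  exact ⟨Nat.mul_pos hp.1.1 hp.2.1, (Nat.mul_le_mul hp.1.2 hp.2.2).trans hN⟩

theorem sm_supp (v d n : ℕ) (h : sm v d n ≠ 0) : 2 ^ d ≤ n ∧ n < 2 ^ (d + 1) := by
  by_contra hcon
  apply h
  simp [sm, hcon]

theorem sm_in {v d n : ℕ} (h : n ∈ Ico (2 ^ d) (2 ^ d + 2 ^ d)) :
    sm v d n = if v = 0 then 1 else Real.log n := by
  rw [mem_Ico] at h
  have h2 : 2 ^ d ≤ n ∧ n < 2 ^ (d + 1) := ⟨h.1, by rw [pow_succ]; omega⟩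
  simp [sm, h2]

/-- the trigonometric polynomial -/
theorem expand {N m v w e e2 : ℕ} (hm : 1 ≤ m) (hN : m * (2 ^ (e + 1) * 2 ^ (e2 + 1)) ≤ N) (γ : ℝ) :
    ∑ n ∈ Icc 1 N, (((sg m * (sm v e * sm w e2)) n : ℝ) : ℂ) * ee (γ * n) =
      ∑ d ∈ Ico (2 ^ e) (2 * 2 ^ e), ((sm v e d : ℝ) : ℂ) *
        ∑ d2 ∈ Ico (2 ^ e2) (2 ^ e2 + 2 ^ e2), ((sm w e2 d2 : ℝ) : ℂ) * ee (m * γ * d * d2) := by
  have hsg : ∀ n, sg m n ≠ 0 → n ≤ m := by
    intro n hn
    by_contra hcon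
    apply hn
    have : n ≠ m := by omega
    simp [sg, this]
  have hsm : ∀ v d n, sm v d n ≠ 0 → n ≤ 2 ^ (d + 1) := fun v d n h => (sm_supp v d n h).2.le
  have hprod : ∀ n, (sm v e * sm w e2) n ≠ 0 → n ≤ 2 ^ (e + 1) * 2 ^ (e2 + 1) := by
    intro n hn
    rw [ArithmeticFunction.mul_apply] at hn
    obtain ⟨p, hp, hne⟩ := exists_ne_zero_of_sum_ne_zero hn
    rw [Nat.mem_divisorsAntidiagonal] at hp
    rw [← hp.1]
    exact Nat.mul_le_mul (hsm _ _ _ (left_ne_zero_of_mul hne)) (hsm _ _ _ (right_ne_zero_of_mul hne))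
  rw [sum_mul_af m _ N (sg m) (sm v e * sm w e2) hsg hprod hN]
  have h1 : ∑ x ∈ Icc 1 m, ∑ y ∈ Icc 1 (2 ^ (e + 1) * 2 ^ (e2 + 1)), ((sg m x : ℝ) : ℂ) *
      (((sm v e * sm w e2) y : ℝ) : ℂ) * ee (γ * ((x * y : ℕ) : ℝ)) =
      ∑ y ∈ Icc 1 (2 ^ (e + 1) * 2 ^ (e2 + 1)), (((sm v e * sm w e2) y : ℝ) : ℂ) * ee (m * γ * y) := by
    rw [sum_eq_single_of_mem m (mem_Icc.2 ⟨hm, le_rfl⟩)]
    · refine sum_congr rfl fun y _ => ?_
      have h2 : sg m m = 1 := by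
        have : m ≠ 0 := by omega
        simp [sg, this]
      rw [h2]
      push_cast
      rw [one_mul]
      congr 2
      ring
    · intro x _ hx
      refine sum_eq_zero fun y _ => ?_
      have h2 : sg m x = 0 := by simp [sg, hx]
      rw [h2]
      simp
  rw [h1, sum_mul_af (2 ^ (e + 1)) (2 ^ (e2 + 1)) _ (sm v e) (sm w e2) (hsm v e) (hsm w e2) le_rfl]
  have h3 : ∀ (v d : ℕ) (F : ℕ → ℂ), (∀ n, sm v d n = 0 → F n = 0) →
      ∑ x ∈ Icc 1 (2 ^ (d + 1)), F x = ∑ x ∈ Ico (2 ^ d) (2 ^ d + 2 ^ d), F x := by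
    intro v d F hF
    symm
    refine sum_subset ?_ ?_
    · intro x hx
      rw [mem_Ico] at hx
      rw [mem_Icc, pow_succ]
      have : 1 ≤ 2 ^ d := Nat.one_le_two_pow
      omega
    · intro x _ hx
      refine hF x ?_
      by_contra hne
      have := sm_supp v d x hne
      rw [pow_succ] at this
      exact hx (mem_Ico.2 ⟨this.1, by omega⟩)
  rw [h3 v e _ (fun n hn => by
    refine sum_eq_zero fun y _ => ?_
    rw [hn]
    simp), two_mul]
  refine sum_congr rfl fun d _ => ?_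
  rw [mul_sum, h3 w e2 _ (fun n hn => by
    rw [hn]
    simp)]
  refine sum_congr rfl fun d2 _ => ?_
  rw [mul_assoc]
  congr 3
  push_cast
  ring

theorem main : S_MNB → S_GEO → S_PARS → S_D2I → S_D2M := by
  rintro hMNB ⟨hG1, hG2⟩ hP ⟨C, hC, hD⟩
  obtain ⟨hdc, hd1, hdneg, hdhalf, hd0, -, -, hmc, hm1, hmneg, hm0, hmM, -, -, -⟩ := hMNB
  refine ⟨4 * C, by linarith, ?_⟩
  intro H N m v w e e2 q Q0 Q1 α a hm hee hN hQ0 hQ1 hcop hQm hqH hqe hQH hα
  have hN1 : 2 ^ (e + 1) * 2 ^ (e2 + 1) ≤ N := le_trans (Nat.le_mul_of_pos_left _ hm) hN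
  have hNe : ∀ {x : ℕ}, x ≤ 2 ^ (e + 1) → x ≤ N := by
    intro x hx
    exact hx.trans ((Nat.le_mul_of_pos_right _ (by positivity)).trans hN1)
  have hNe2 : ∀ {x : ℕ}, x ≤ 2 ^ (e2 + 1) → x ≤ N := by
    intro x hx
    exact hx.trans ((Nat.le_mul_of_pos_left _ (by positivity)).trans hN1)
  have hlog : 0 ≤ Real.log N := Real.log_natCast_nonneg N
  set L : ℝ := 1 + Real.log N with hL
  have hL1 : 1 ≤ L := by rw [hL]; linarith
  -- bounds of the weights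
  have hsm : ∀ (v d n : ℕ), n ∈ Ico (2 ^ d) (2 ^ d + 2 ^ d) → n ≤ N → 0 ≤ sm v d n ∧ sm v d n ≤ L := by
    intro v d n hn hnN
    rw [sm_in hn]
    split_ifs
    · exact ⟨zero_le_one, hL1⟩
    · refine ⟨Real.log_natCast_nonneg n, ?_⟩
      have h1 : (0 : ℝ) < n := by
        rw [mem_Ico] at hn
        have : 0 < n := lt_of_lt_of_le (by positivity) hn.1
        exact_mod_cast this
      have h2 : Real.log n ≤ Real.log N := Real.log_le_log h1 (by exact_mod_cast hnN)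
      rw [hL]
      linarith
  -- the pointwise bound
  have hpt : ∀ β : ℝ, ‖∑ n ∈ Icc 1 N, (((sg m * (sm v e * sm w e2)) n : ℝ) : ℂ) * ee ((α + β) * n)‖ ≤
      2 * L ^ 2 * ∑ d ∈ Ico (2 ^ e : ℕ) (2 * 2 ^ e), mn (2 ^ e2) (m * (α + β) * d) := by
    intro β
    rw [expand hm hN, mul_sum]
    refine norm_sum_le_of_le _ fun d hd => ?_
    rw [norm_mul, Complex.norm_real, Real.norm_eq_abs]
    have hd' : d ∈ Ico (2 ^ e) (2 ^ e + 2 ^ e) := by rwa [two_mul] at hd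
    have hdN : d ≤ N := by
      refine hNe ?_
      rw [mem_Ico] at hd'
      rw [pow_succ]
      omega
    obtain ⟨h1, h2⟩ := hsm v e d hd' hdN
    rw [abs_of_nonneg h1]
    have h3 := hG2 (m * (α + β) * d) L (2 ^ e2) (2 ^ e2) (2 ^ e2) (fun n => sm w e2 n) le_rfl (by linarith)
      (fun n hn => hsm w e2 n hn (hNe2 (by
        rw [mem_Ico] at hn
        rw [pow_succ]
        omega))) (Or.inl (by
          intro n hn n' hn' hnn
          rw [sm_in hn, sm_in hn']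
          split_ifs
          · exact le_rfl
          · refine Real.log_le_log ?_ (by exact_mod_cast hnn)
            rw [mem_Ico] at hn
            have : 0 < n := lt_of_lt_of_le (by positivity) hn.1
            exact_mod_cast this))
    have h4 : 0 ≤ mn (2 ^ e2) (m * (α + β) * d) := hm0 _ _
    calc sm v e d * ‖∑ d2 ∈ Ico (2 ^ e2) (2 ^ e2 + 2 ^ e2), ((sm w e2 d2 : ℝ) : ℂ) *
          ee (m * (α + β) * d * d2)‖ ≤ L * (2 * L * mn (2 ^ e2) (m * (α + β) * d)) := by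
          refine mul_le_mul h2 h3 (norm_nonneg _) (by linarith)
      _ = 2 * L ^ 2 * mn (2 ^ e2) (m * (α + β) * d) := by ring
  have hH : ∀ β : ℝ, ‖∑ h ∈ range H, ee (β * h)‖ ≤ mn H β := by
    intro β
    have := hG1 β 0 H H le_rfl
    rwa [zero_add, Nat.Ico_zero_eq_range] at this
  have hDI := hD H m (2 ^ e) (2 ^ e2) q Q0 Q1 α a hm Nat.one_le_two_pow (Nat.pow_le_pow_right (by norm_num) hee)
    hQ0 hQ1 hcop hQm hqH hqe hQH hα
  rw [hP]
  have hcmn : ∀ (M : ℕ) {f : ℝ → ℝ}, Continuous f → Continuous fun x => mn M (f x) := fun M f hf => (hmc M).comp hf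
  have hint : ∫ β in (0 : ℝ)..1, ‖∑ n ∈ Icc 1 N, (((sg m * (sm v e * sm w e2)) n : ℝ) : ℂ) *
      ee ((α + β) * n)‖ ^ 2 * ‖∑ h ∈ range H, ee (β * h)‖ ^ 2 ≤
      ∫ β in (0 : ℝ)..1, (2 * L ^ 2) ^ 2 * (mn H β ^ 2 * (∑ d ∈ Ico (2 ^ e : ℕ) (2 * 2 ^ e),
        mn (2 ^ e2) (m * (α + β) * d)) ^ 2) := by
    refine intervalIntegral.integral_mono_on zero_le_one ?_ ?_ ?_
    · refine Continuous.intervalIntegrable ?_ _ _
      refine Continuous.mul (Continuous.pow (Continuous.norm (continuous_finsetSum _ fun n _ =>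
        continuous_const.mul (ee_cont (by fun_prop)))) 2) (Continuous.pow (Continuous.norm
          (continuous_finsetSum _ fun n _ => ee_cont (by fun_prop))) 2)
    · refine Continuous.intervalIntegrable ?_ _ _
      refine continuous_const.mul (Continuous.mul ((hmc H).pow 2) (Continuous.pow
        (continuous_finsetSum _ fun n _ => hcmn _ (by fun_prop)) 2))
    · intro β _
      have h1 := pow_le_pow_left₀ (norm_nonneg _) (hpt β) 2
      have h2 := pow_le_pow_left₀ (norm_nonneg _) (hH β) 2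
      refine (mul_le_mul h1 h2 (sq_nonneg _) (sq_nonneg _)).trans (le_of_eq ?_)
      ring
  refine hint.trans ?_
  rw [intervalIntegral.integral_const_mul]
  refine (mul_le_mul_of_nonneg_left hDI (by positivity)).trans ?_
  have hle : (1 + Real.log ((2 ^ e : ℕ) : ℝ)) ^ 2 ≤ L ^ 2 := by
    have h1 : 0 ≤ Real.log ((2 ^ e : ℕ) : ℝ) := Real.log_natCast_nonneg _
    have h2 : Real.log ((2 ^ e : ℕ) : ℝ) ≤ Real.log N := by
      refine Real.log_le_log ?_ ?_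
      · exact_mod_cast (show 0 < 2 ^ e by positivity)
      · have : 2 ^ e ≤ N := hNe (Nat.pow_le_pow_right (by norm_num) (Nat.le_succ e))
        exact_mod_cast this
    refine pow_le_pow_left₀ (by linarith) ?_ 2
    rw [hL]
    linarith
  have hC0 : 0 ≤ C := by linarith
  calc (2 * L ^ 2) ^ 2 * (C * (1 + Real.log ((2 ^ e : ℕ) : ℝ)) ^ 2 * (((2 ^ e : ℕ) : ℝ) * ((2 ^ e2 : ℕ) : ℝ)) *
        (H + (H : ℝ) ^ 2 / Q1 + (m * Q1 * q) ^ 2))
      ≤ (2 * L ^ 2) ^ 2 * (C * L ^ 2 * (((2 ^ e : ℕ) : ℝ) * ((2 ^ e2 : ℕ) : ℝ)) *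
        (H + (H : ℝ) ^ 2 / Q1 + (m * Q1 * q) ^ 2)) := by gcongr
    _ = 4 * C * L ^ 6 * (2 ^ e * 2 ^ e2) * (H + (H : ℝ) ^ 2 / Q1 + (m * Q1 * q) ^ 2) := by
        push_cast
        ring

end Pool.Agent.H43.MA.D2M
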