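import Pool.Agent.H43.MA.Stm

/-!
# MA-DEC: Heath-Brown's identity in dyadic boxes
-/

set_option autoImplicit false

namespace Pool.Agent.H43.MA.DEC

open Finset

/-- the functions `ζ`, `μ`, `log` with real values -/
noncomputable def zR : AF := ((ArithmeticFunction.zeta : ArithmeticFunction ℕ) : ArithmeticFunction ℝ)

noncomputable def muR : AF := ((ArithmeticFunction.moebius : ArithmeticFunction ℤ) : ArithmeticFunction ℝ)

/-- products of functions which vanish up to `a`, `b` -/
lemma van_mul {f g : AF} {a b : ℕ} (hf : ∀ n, n ≤ a → f n = 0) (hg : ∀ n, n ≤ b → g n = 0) :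
    ∀ n, n < (a + 1) * (b + 1) → (f * g) n = 0 := by
  intro n hn
  rw [ArithmeticFunction.mul_apply]
  refine sum_eq_zero fun x hx => ?_
  rw [Nat.mem_divisorsAntidiagonal] at hx
  by_cases h1 : x.1 ≤ a
  · rw [hf _ h1, zero_mul]
  · by_cases h2 : x.2 ≤ b
    · rw [hg _ h2, mul_zero]
    · exfalso
      have := Nat.mul_le_mul (show a + 1 ≤ x.1 by omega) (show b + 1 ≤ x.2 by omega)
      omega

lemma van_any {f g : AF} {a : ℕ} (hf : ∀ n, n ≤ a → f n = 0) : ∀ n, n ≤ a → (f * g) n = 0 := by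
  intro n hn
  rw [ArithmeticFunction.mul_apply]
  refine sum_eq_zero fun x hx => ?_
  rw [Nat.mem_divisorsAntidiagonal] at hx
  have hx2 : 0 < x.2 := Nat.pos_of_ne_zero (by rintro h; rw [h] at hx; omega)
  have : x.1 ≤ n := by rw [← hx.1]; exact Nat.le_mul_of_pos_right _ hx2
  rw [hf _ (this.trans hn), zero_mul]

/-- the sum of the dyadic pieces of `μ` -/
lemma mu_sum (s n : ℕ) : (∑ d ∈ range s, mu d) n = if 1 ≤ n ∧ n < 2 ^ s then muR n else 0 := by
  induction s with
  | zero =>
    rw [sum_range_zero, if_neg (by simp only [pow_zero]; omega)]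
    rfl
  | succ s ih =>
    rw [sum_range_succ, ArithmeticFunction.add_apply, ih]
    have h1 : mu s n = if 2 ^ s ≤ n ∧ n < 2 ^ (s + 1) then muR n else 0 := rfl
    rw [h1]
    have h2 : 1 ≤ 2 ^ s := Nat.one_le_two_pow
    have h3 : 2 ^ (s + 1) = 2 * 2 ^ s := by rw [pow_succ]; ring
    by_cases h4 : 1 ≤ n ∧ n < 2 ^ s
    · rw [if_pos h4, if_neg (by omega), if_pos (by omega), add_zero]
    · by_cases h5 : 2 ^ s ≤ n ∧ n < 2 ^ (s + 1)
      · rw [if_neg h4, if_pos h5, if_pos (by omega), zero_add]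
      · rw [if_neg h4, if_neg h5, if_neg (by omega), add_zero]

/-- the sum of the dyadic pieces of `1` and `log` -/
lemma sm_sum (v s n : ℕ) : (∑ d ∈ range s, sm v d) n =
    if 1 ≤ n ∧ n < 2 ^ s then (if v = 0 then 1 else Real.log n) else 0 := by
  induction s with
  | zero =>
    rw [sum_range_zero, if_neg (by simp only [pow_zero]; omega)]
    rfl
  | succ s ih =>
    rw [sum_range_succ, ArithmeticFunction.add_apply, ih]
    have h1 : sm v s n = if 2 ^ s ≤ n ∧ n < 2 ^ (s + 1) then (if v = 0 then 1 else Real.log n)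
      else 0 := rfl
    rw [h1]
    have h2 : 1 ≤ 2 ^ s := Nat.one_le_two_pow
    have h3 : 2 ^ (s + 1) = 2 * 2 ^ s := by rw [pow_succ]; ring
    by_cases h4 : 1 ≤ n ∧ n < 2 ^ s
    · rw [if_pos h4, if_neg (by omega : ¬ (2 ^ s ≤ n ∧ n < 2 ^ (s + 1))),
        if_pos (by omega : 1 ≤ n ∧ n < 2 ^ (s + 1)), add_zero]
    · by_cases h5 : 2 ^ s ≤ n ∧ n < 2 ^ (s + 1)
      · rw [if_neg h4, if_pos h5, if_pos (by omega : 1 ≤ n ∧ n < 2 ^ (s + 1)), zero_add]
      · rw [if_neg h4, if_neg h5, if_neg (by omega : ¬ (1 ≤ n ∧ n < 2 ^ (s + 1))), add_zero]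

/-- **The Heath-Brown identity** of order four -/
theorem hb {m : AF} {z n : ℕ} (hm : ∀ n, 1 ≤ n → n ≤ z → m n = muR n) (hn : n ≤ z ^ 4) :
    ArithmeticFunction.vonMangoldt n =
    (4 • (m * ArithmeticFunction.log) - 6 • (m ^ 2 * zR * ArithmeticFunction.log) +
      4 • (m ^ 3 * zR ^ 2 * ArithmeticFunction.log) -
      m ^ 4 * zR ^ 3 * ArithmeticFunction.log : AF) n := by
  set u : AF := 1 - zR * m with hu
  have hu0 : ∀ n, n ≤ z → u n = 0 := by
    intro n hn
    rcases Nat.eq_zero_or_pos n with rfl | hpos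
    · simp
    have h1 : (zR * m) n = (zR * muR) n := by
      rw [ArithmeticFunction.mul_apply, ArithmeticFunction.mul_apply]
      refine sum_congr rfl fun x hx => ?_
      rw [Nat.mem_divisorsAntidiagonal] at hx
      have hx1 : 0 < x.1 := Nat.pos_of_ne_zero (by rintro h; rw [h] at hx; omega)
      have hx2 : 0 < x.2 := Nat.pos_of_ne_zero (by rintro h; rw [h] at hx; omega)
      have : x.2 ≤ n := by rw [← hx.1]; exact Nat.le_mul_of_pos_left _ hx1
      rw [hm _ hx2 (this.trans hn)]
    have h2 : zR * muR = 1 := ArithmeticFunction.coe_zeta_mul_coe_moebius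
    rw [hu]
    have h3 : (1 - zR * m) n = (1 : AF) n - (zR * m) n := rfl
    rw [h3, h1, h2, sub_self]
  have hu2 : ∀ n, n < (z + 1) * (z + 1) → (u * u) n = 0 := van_mul hu0 hu0
  have hu4 : ∀ n, n ≤ z ^ 4 → (u * u * (u * u)) n = 0 := by
    intro n hn
    have h1 : ∀ n, n ≤ (z + 1) * (z + 1) - 1 → (u * u) n = 0 := by
      intro n hn
      apply hu2
      have : 0 < (z + 1) * (z + 1) := by positivity
      omega
    refine van_mul h1 h1 n ?_
    have h2 : (z + 1) * (z + 1) - 1 + 1 = (z + 1) * (z + 1) := Nat.sub_add_cancel (by nlinarith)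
    rw [h2]
    calc n ≤ z ^ 4 := hn
      _ < (z + 1) ^ 4 := Nat.pow_lt_pow_left (by omega) (by norm_num)
      _ = _ := by ring
  have hL : (ArithmeticFunction.vonMangoldt : AF) * zR = ArithmeticFunction.log :=
    ArithmeticFunction.vonMangoldt_mul_zeta
  have hid : (ArithmeticFunction.vonMangoldt : AF) = u * u * (u * u) * ArithmeticFunction.vonMangoldt +
      (4 • (m * ArithmeticFunction.log) - 6 • (m ^ 2 * zR * ArithmeticFunction.log) +
        4 • (m ^ 3 * zR ^ 2 * ArithmeticFunction.log) - m ^ 4 * zR ^ 3 * ArithmeticFunction.log) := by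
    rw [← hL, hu]
    simp only [nsmul_eq_mul]
    push_cast
    ring
  have h4 : (u * u * (u * u) * ArithmeticFunction.vonMangoldt) n = 0 := van_any hu4 n hn
  conv_lhs => rw [hid]
  rw [ArithmeticFunction.add_apply, h4, zero_add]

/-! ### agreement up to `X` -/

lemma agr_mul {f f' g g' : AF} {X : ℕ} (hf : ∀ n, n ≤ X → f n = f' n)
    (hg : ∀ n, n ≤ X → g n = g' n) : ∀ n, n ≤ X → (f * g) n = (f' * g') n := by
  intro n hn
  rw [ArithmeticFunction.mul_apply, ArithmeticFunction.mul_apply]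
  refine sum_congr rfl fun x hx => ?_
  rw [Nat.mem_divisorsAntidiagonal] at hx
  have hx1 : 0 < x.1 := Nat.pos_of_ne_zero (by rintro h; rw [h] at hx; omega)
  have hx2 : 0 < x.2 := Nat.pos_of_ne_zero (by rintro h; rw [h] at hx; omega)
  have h1 : x.1 ≤ n := by rw [← hx.1]; exact Nat.le_mul_of_pos_right _ hx2
  have h2 : x.2 ≤ n := by rw [← hx.1]; exact Nat.le_mul_of_pos_left _ hx1
  rw [hf _ (h1.trans hn), hg _ (h2.trans hn)]

lemma agr_pow {f f' : AF} {X : ℕ} (hf : ∀ n, n ≤ X → f n = f' n) (j : ℕ) :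
    ∀ n, n ≤ X → (f ^ j) n = (f' ^ j) n := by
  induction j with
  | zero => intro n _; rw [pow_zero, pow_zero]
  | succ j ih => rw [pow_succ, pow_succ]; exact agr_mul ih hf

/-! ### the boxes -/

/-- the ranges of the indices in the term with `j` Moebius factors -/
def tt (s L j : ℕ) (i : Fin 8) : Finset ℕ :=
  if i.val < 4 then (if i.val < j then range s else {0})
  else if i.val < 7 then (if i.val < 3 + j then range (L + 1) else {0}) else range (L + 1)

lemma mu_zero : mu 0 = 1 := by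
  ext n
  have h1 : mu 0 n = if 2 ^ 0 ≤ n ∧ n < 2 ^ (0 + 1) then (ArithmeticFunction.moebius n : ℝ) else 0 :=
    rfl
  rw [h1, ArithmeticFunction.one_apply]
  by_cases h : n = 1
  · subst h; simp
  · rw [if_neg h, if_neg]
    simp only [pow_zero, zero_add, pow_one]
    omega

lemma sm_zero : sm 0 0 = 1 := by
  ext n
  have h1 : sm 0 0 n = if 2 ^ 0 ≤ n ∧ n < 2 ^ (0 + 1) then (if (0:ℕ) = 0 then 1 else Real.log n)
    else 0 := rfl
  rw [h1, ArithmeticFunction.one_apply]
  by_cases h : n = 1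
  · subst h; simp
  · rw [if_neg h, if_neg]
    simp only [pow_zero, zero_add, pow_one]
    omega

lemma term (s L j n : ℕ) : (∏ i : Fin 8, ∑ e ∈ tt s L j i, fc i e) n =
    ∑ d ∈ Fintype.piFinset (tt s L j), bx d n := by
  rw [Finset.prod_univ_sum]
  have h : ∀ (S : Finset (Fin 8 → ℕ)), (∑ d ∈ S, ∏ i, fc i (d i)) n = ∑ d ∈ S, bx d n := by
    intro S
    induction S using Finset.induction_on with
    | empty => simp
    | insert a S ha ih =>
      rw [sum_insert ha, sum_insert ha, ArithmeticFunction.add_apply, ih]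
      rfl
  exact h _

lemma tt_sub {s L : ℕ} (hs : s ≤ L + 1) (j : ℕ) :
    Fintype.piFinset (tt s L j) ⊆ Fintype.piFinset (fun _ : Fin 8 => range (L + 1)) := by
  apply Fintype.piFinset_subset
  intro i
  unfold tt
  have h0 : ({0} : Finset ℕ) ⊆ range (L + 1) := by
    intro x hx
    rw [mem_singleton] at hx
    rw [mem_range]
    omega
  split_ifs
  · exact range_subset_range.2 hs
  · exact h0
  · exact subset_rfl
  · exact h0
  · exact subset_rfl

lemma prod1 (s L : ℕ) : ∏ i : Fin 8, ∑ e ∈ tt s L 1 i, fc i e =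
    (∑ e ∈ range s, mu e) * ∑ e ∈ range (L + 1), sm 1 e := by
  rw [Fin.prod_univ_eight]
  simp [tt, fc, mu_zero, sm_zero]

lemma prod2 (s L : ℕ) : ∏ i : Fin 8, ∑ e ∈ tt s L 2 i, fc i e =
    (∑ e ∈ range s, mu e) ^ 2 * (∑ e ∈ range (L + 1), sm 0 e) * ∑ e ∈ range (L + 1), sm 1 e := by
  rw [Fin.prod_univ_eight]
  simp [tt, fc, mu_zero, sm_zero]
  ring

lemma prod3 (s L : ℕ) : ∏ i : Fin 8, ∑ e ∈ tt s L 3 i, fc i e =
    (∑ e ∈ range s, mu e) ^ 3 * (∑ e ∈ range (L + 1), sm 0 e) ^ 2 * ∑ e ∈ range (L + 1), sm 1 e := by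
  rw [Fin.prod_univ_eight]
  simp [tt, fc, mu_zero, sm_zero]
  ring

lemma prod4 (s L : ℕ) : ∏ i : Fin 8, ∑ e ∈ tt s L 4 i, fc i e =
    (∑ e ∈ range s, mu e) ^ 4 * (∑ e ∈ range (L + 1), sm 0 e) ^ 3 * ∑ e ∈ range (L + 1), sm 1 e := by
  rw [Fin.prod_univ_eight]
  simp [tt, fc]
  ring

theorem main : S_DEC := by
  classical
  intro X s hX hXs hs
  set L := Nat.log 2 X with hL
  have hs1 : 1 ≤ s := by
    rcases Nat.eq_zero_or_pos s with h | h
    · rw [h] at hXs
      norm_num at hXs
      omega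
    · exact h
  set T : ℕ → Finset (Fin 8 → ℕ) := fun j => Fintype.piFinset (tt s L j) with hT
  set ind : ℕ → (Fin 8 → ℕ) → ℝ := fun j d => if d ∈ T j then 1 else 0 with hind
  have hind0 : ∀ j d, 0 ≤ ind j d := by
    intro j d
    simp only [hind]
    split_ifs <;> norm_num
  have hind1 : ∀ j d, ind j d ≤ 1 := by
    intro j d
    simp only [hind]
    split_ifs <;> norm_num
  have hX2 : X < 2 ^ (L + 1) := Nat.lt_pow_succ_log_self (by norm_num) X
  refine ⟨fun d => 4 * ind 1 d - 6 * ind 2 d + 4 * ind 3 d - ind 4 d, ?_, ?_, ?_⟩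
  · intro d
    rw [abs_le]
    constructor <;> linarith [hind0 1 d, hind0 2 d, hind0 3 d, hind0 4 d, hind1 1 d, hind1 2 d,
      hind1 3 d, hind1 4 d]
  · intro d hd i hi
    have hex : ∃ j, d ∈ T j := by
      by_contra hcon
      push Not at hcon
      apply hd
      have h : ∀ j, ind j d = 0 := fun j => if_neg (hcon j)
      simp only [h]
      norm_num
    obtain ⟨j, hj⟩ := hex
    have h1 := Fintype.mem_piFinset.1 hj i
    unfold tt at h1
    rw [if_pos hi] at h1
    split_ifs at h1 with h2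
    · exact mem_range.1 h1
    · rw [mem_singleton] at h1
      omega
  · intro n hn1 hnX
    set M : AF := ∑ d ∈ range s, mu d with hM
    set Z : AF := ∑ e ∈ range (L + 1), sm 0 e with hZ
    set G : AF := ∑ e ∈ range (L + 1), sm 1 e with hG
    have hm : ∀ n, 1 ≤ n → n ≤ 2 ^ s - 1 → M n = muR n := by
      intro n hn1 hn2
      have : 0 < 2 ^ s := by positivity
      rw [hM, mu_sum, if_pos (by omega)]
    have hZa : ∀ n, n ≤ X → zR n = Z n := by
      intro n hn
      rw [hZ, sm_sum]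
      rcases Nat.eq_zero_or_pos n with rfl | hpos
      · simp
      · rw [if_pos (by omega), if_pos rfl]
        have h1 : zR n = ((ArithmeticFunction.zeta n : ℕ) : ℝ) := rfl
        rw [h1, ArithmeticFunction.zeta_apply_ne (by omega)]
        simp
    have hGa : ∀ n, n ≤ X → (ArithmeticFunction.log : AF) n = G n := by
      intro n hn
      rw [hG, sm_sum]
      rcases Nat.eq_zero_or_pos n with rfl | hpos
      · simp
      · rw [if_pos (by omega), if_neg (by norm_num)]
        rfl
    have h0 := hb hm (hnX.trans hXs)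
    rw [h0]
    have ev : ∀ (f g h k : AF), (4 • f - 6 • g + 4 • h - k) n = 4 * f n - 6 * g n + 4 * h n - k n := by
      intro f g h k
      simp only [nsmul_eq_mul]
      have e1 : ∀ (c : ℕ) (f : AF), ((c : AF) * f) n = (c : ℝ) * f n := by
        intro c f
        induction c with
        | zero => simp
        | succ c ih =>
          rw [Nat.cast_succ, add_mul, one_mul, ArithmeticFunction.add_apply, ih]
          push_cast
          ring
      have e2 : ∀ (f g : AF), (f - g) n = f n - g n := fun f g => rfl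
      rw [e2, ArithmeticFunction.add_apply, e2, e1, e1, e1]
      push_cast
      ring
    rw [ev]
    rw [agr_mul (f' := M) (g' := G) (fun _ _ => rfl) hGa n hnX,
      agr_mul (f' := M ^ 2 * Z) (g' := G) (agr_mul (fun _ _ => rfl) hZa) hGa n hnX,
      agr_mul (f' := M ^ 3 * Z ^ 2) (g' := G) (agr_mul (fun _ _ => rfl) (agr_pow hZa 2)) hGa n hnX,
      agr_mul (f' := M ^ 4 * Z ^ 3) (g' := G) (agr_mul (fun _ _ => rfl) (agr_pow hZa 3)) hGa n hnX]
    rw [← prod1, ← prod2, ← prod3, ← prod4, term, term, term, term]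
    have hsub : ∀ j, ∑ d ∈ Fintype.piFinset (tt s L j), bx d n =
        ∑ d ∈ Fintype.piFinset (fun _ : Fin 8 => range (L + 1)), ind j d * bx d n := by
      intro j
      rw [← sum_filter_add_sum_filter_not (Fintype.piFinset fun _ : Fin 8 => range (L + 1))
        (fun d => d ∈ T j)]
      have h1 : (Fintype.piFinset fun _ : Fin 8 => range (L + 1)).filter (fun d => d ∈ T j) = T j := by
        ext d
        rw [mem_filter]
        exact ⟨fun h => h.2, fun h => ⟨tt_sub hs j h, h⟩⟩
      rw [h1]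
      have h2 : ∑ d ∈ T j, ind j d * bx d n = ∑ d ∈ T j, bx d n :=
        sum_congr rfl fun d hd => by
          have : ind j d = 1 := if_pos hd
          rw [this, one_mul]
      have h3 : ∑ d ∈ (Fintype.piFinset fun _ : Fin 8 => range (L + 1)).filter (fun d => d ∉ T j),
          ind j d * bx d n = 0 :=
        sum_eq_zero fun d hd => by
          have : ind j d = 0 := if_neg (mem_filter.1 hd).2
          rw [this, zero_mul]
      rw [h2, h3, add_zero]
    rw [hsub, hsub, hsub, hsub]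
    simp only [mul_sum]
    rw [← sum_sub_distrib, ← sum_add_distrib, ← sum_sub_distrib]
    exact sum_congr rfl fun d _ => by ring

end Pool.Agent.H43.MA.DEC
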