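import Pool.Agent.H43.MA.Stm

/-! # MA-DIR: Dirichlet approximation and the sum over one variable -/

set_option autoImplicit false

namespace Pool.Agent.H43.MA.DIR

open Finset

/-- the distance to the nearest integer is at least the distance to an integer at distance at most `1/2` -/
theorem dn_ge {t : ℝ} {n : ℤ} (h : |t - n| ≤ 1 / 2) : |t - n| ≤ dn t := by
  by_cases hn : round t = n
  · rw [dn, hn]
  · have h1 : (1 : ℝ) ≤ |(round t : ℝ) - n| := by
      have : (1 : ℤ) ≤ |round t - n| := Int.one_le_abs (sub_ne_zero.2 hn)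
      exact_mod_cast this
    have h2 : |(round t : ℝ) - n| ≤ |t - round t| + |t - n| := by
      have : (round t : ℝ) - n = (t - n) - (t - round t) := by ring
      rw [this]
      refine (abs_sub _ _).trans ?_
      linarith
    rw [dn]
    linarith

/-- the distance of a fraction -/
theorem dn_frac (N : ℤ) (r : ℕ) (hr : 1 ≤ r) :
    ((min (N % r) (r - N % r) : ℤ) : ℝ) / r ≤ dn (N / r) := by
  have hr0 : (0 : ℝ) < r := by exact_mod_cast hr
  have hrz : (0 : ℤ) < r := by exact_mod_cast hr
  rw [dn]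
  set k : ℤ := round ((N : ℝ) / r)
  have h1 : |(N : ℝ) / r - k| = |(N : ℝ) - k * r| / r := by
    rw [← abs_of_pos hr0, ← abs_div, abs_of_pos hr0]
    congr 1
    field_simp
  rw [h1]
  gcongr
  have h2 : min (N % r) (r - N % r) ≤ |N - k * r| := by
    have h3 := Int.emod_add_mul_ediv N r
    have h4 := Int.emod_nonneg N hrz.ne'
    have h5 := Int.emod_lt_of_pos N hrz
    set j := N % r
    set m := N / (r : ℤ)
    have h6 : N - k * r = j + r * (m - k) := by rw [← h3]; ring
    rw [h6]
    rcases le_or_gt 0 (m - k) with h | h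
    · refine (min_le_left _ _).trans ?_
      refine le_trans ?_ (le_abs_self _)
      nlinarith
    · refine (min_le_right _ _).trans ?_
      refine le_trans ?_ (neg_le_abs _)
      nlinarith
  exact_mod_cast h2

/-- a periodic sum over one block -/
theorem block {r : ℕ} [NeZero r] (f : ZMod r → ℝ) (x : ℕ) :
    ∑ d ∈ Ico x (x + r), f (d : ZMod r) = ∑ a, f a := by
  refine Finset.sum_nbij (fun d : ℕ => (d : ZMod r)) (fun _ _ => Finset.mem_univ _) ?_ ?_
    (fun _ _ => rfl)
  · intro d hd d' hd' h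
    simp only [Finset.coe_Ico, Set.mem_Ico] at hd hd'
    rw [ZMod.natCast_eq_natCast_iff] at h
    rcases le_total d d' with hl | hl
    · have h1 := (Nat.modEq_iff_dvd' hl).1 h
      have h2 := Nat.eq_zero_of_dvd_of_lt h1 (by omega)
      omega
    · have h1 := (Nat.modEq_iff_dvd' hl).1 h.symm
      have h2 := Nat.eq_zero_of_dvd_of_lt h1 (by omega)
      omega
  · intro a _
    have hr : 0 < r := Nat.pos_of_ne_zero (NeZero.ne r)
    refine ⟨x + (a - (x : ZMod r)).val, ?_, ?_⟩
    · simp only [Finset.coe_Ico, Set.mem_Ico]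
      have := ZMod.val_lt (a - (x : ZMod r))
      omega
    · simp

theorem blocks {r : ℕ} [NeZero r] (f : ZMod r → ℝ) (x m : ℕ) :
    ∑ d ∈ Ico x (x + m * r), f (d : ZMod r) = m * ∑ a, f a := by
  induction m with
  | zero => simp
  | succ m ih =>
    have h1 : x + (m + 1) * r = (x + m * r) + r := by ring
    rw [h1, ← Finset.sum_Ico_consecutive _ (Nat.le_add_right x (m * r)) (Nat.le_add_right _ r), ih,
      block]
    push_cast
    ring

/-- the sum of the reciprocals of the distances over one block -/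
theorem block_sum (r : ℕ) (hr : 1 ≤ r) [NeZero r] :
    ∑ a : ZMod r, (if a = 0 then (0 : ℝ) else r * (1 / (a.val : ℝ) + 1 / ((r : ℝ) - a.val))) ≤
      2 * r * (1 + Real.log r) := by
  have h0 := block (fun a : ZMod r => (if a = 0 then (0 : ℝ) else
    r * (1 / (a.val : ℝ) + 1 / ((r : ℝ) - a.val)))) 0
  rw [← h0, zero_add, ← Finset.range_eq_Ico]
  obtain ⟨s, rfl⟩ : ∃ s, r = s + 1 := ⟨r - 1, by omega⟩
  rw [Finset.sum_range_succ']
  have h1 : ∀ i ∈ range s, (if ((i + 1 : ℕ) : ZMod (s + 1)) = 0 then (0 : ℝ) else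
      ((s + 1 : ℕ) : ℝ) * (1 / ((((i + 1 : ℕ) : ZMod (s + 1))).val : ℝ) +
        1 / (((s + 1 : ℕ) : ℝ) - (((i + 1 : ℕ) : ZMod (s + 1))).val))) =
      ((s + 1 : ℕ) : ℝ) * (1 / ((i : ℝ) + 1) + 1 / ((s : ℝ) - i)) := by
    intro i hi
    rw [Finset.mem_range] at hi
    have hv : (((i + 1 : ℕ) : ZMod (s + 1))).val = i + 1 := by
      rw [ZMod.val_natCast]
      exact Nat.mod_eq_of_lt (by omega)
    have hne : ((i + 1 : ℕ) : ZMod (s + 1)) ≠ 0 := by
      intro h
      rw [h] at hv
      simp at hv
    rw [if_neg hne, hv]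
    push_cast
    congr 3
    ring
  rw [Finset.sum_congr rfl h1]
  have h2 : (if ((0 : ℕ) : ZMod (s + 1)) = 0 then (0 : ℝ) else
      ((s + 1 : ℕ) : ℝ) * (1 / ((((0 : ℕ) : ZMod (s + 1))).val : ℝ) +
        1 / (((s + 1 : ℕ) : ℝ) - (((0 : ℕ) : ZMod (s + 1))).val))) = 0 := by
    rw [if_pos (by simp)]
  rw [h2, add_zero, ← Finset.mul_sum, Finset.sum_add_distrib]
  have h3 : ∑ i ∈ range s, 1 / ((i : ℝ) + 1) ≤ 1 + Real.log (s + 1 : ℕ) := by
    have h4 := harmonic_le_one_add_log s
    have h5 : ((harmonic s : ℚ) : ℝ) = ∑ i ∈ range s, 1 / ((i : ℝ) + 1) := by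
      rw [harmonic]
      push_cast
      refine Finset.sum_congr rfl fun i _ => ?_
      rw [one_div]
    rw [h5] at h4
    rcases Nat.eq_zero_or_pos s with h | h
    · subst h; simp
    · refine h4.trans ?_
      have : Real.log s ≤ Real.log (s + 1 : ℕ) :=
        Real.log_le_log (by exact_mod_cast h) (by push_cast; linarith)
      linarith
  have h6 : ∑ i ∈ range s, 1 / ((s : ℝ) - i) = ∑ i ∈ range s, 1 / ((i : ℝ) + 1) := by
    rw [← Finset.sum_range_reflect (fun i : ℕ => 1 / ((i : ℝ) + 1)) s]
    refine Finset.sum_congr rfl fun i hi => ?_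
    rw [Finset.mem_range] at hi
    have h7 : s - 1 - i = s - (i + 1) := by omega
    rw [h7, Nat.cast_sub (by omega)]
    push_cast
    congr 1
    ring
  rw [h6]
  have hs : (0 : ℝ) ≤ ((s + 1 : ℕ) : ℝ) := by positivity
  nlinarith [mul_le_mul_of_nonneg_left h3 hs]

theorem main : S_MNB → S_DIR := by
  rintro ⟨-, hper, heven, hhalf, hnn, hint, hadd, -, -, -, hm0, hmM, -, hm2, -⟩
  refine ⟨8000, by norm_num, fun D D2 γ hD hD2 => ?_⟩
  have hD0 : (0 : ℝ) < D := by exact_mod_cast hD
  have hD1 : (1 : ℝ) ≤ D := by exact_mod_cast hD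
  have hD20 : (0 : ℝ) < D2 := by exact_mod_cast hD2
  obtain ⟨q, hq1, hq2⟩ := Real.exists_rat_abs_sub_le_and_den_le γ (n := 8 * D) (by omega)
  obtain ⟨r, hr⟩ : ∃ r, r = q.den := ⟨_, rfl⟩
  obtain ⟨b, hb⟩ : ∃ b, b = q.num := ⟨_, rfl⟩
  have hr1 : 1 ≤ r := by rw [hr]; exact q.den_pos
  have hr0 : (0 : ℝ) < r := by exact_mod_cast hr1
  have hcop : IsCoprime (r : ℤ) b := by
    rw [hr, hb]
    have := Rat.isCoprime_num_den q
    exact this.symm
  have hqc : (q : ℝ) = b / r := by
    rw [hr, hb]
    exact Rat.cast_def q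
  rw [hqc] at hq1
  rw [← hr] at hq1 hq2
  set η : ℝ := |γ - b / r| with hη
  have hη0 : 0 ≤ η := abs_nonneg _
  have hrη : r * η ≤ 1 / (8 * D) := by
    have h1 : r * η ≤ r * (1 / (((8 * D : ℕ) : ℝ) + 1) / r) := by
      gcongr
      refine hq1.trans (le_of_eq ?_)
      field_simp
    refine h1.trans ?_
    have h2 : r * (1 / (((8 * D : ℕ) : ℝ) + 1) / r) = 1 / (((8 * D : ℕ) : ℝ) + 1) := by
      field_simp
    rw [h2]
    apply one_div_le_one_div_of_le (by positivity)
    push_cast
    linarith
  have hrη' : |r * γ - b| = r * η := by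
    rw [hη, ← abs_of_pos hr0, ← abs_mul, abs_of_pos hr0]
    congr 1
    field_simp
  have hdr : dn (r * γ) ≤ r * η := by
    rw [← hrη']; exact hint _ _
  refine ⟨r, hr1, hdr.trans hrη, ?_⟩
  have : NeZero r := ⟨by omega⟩
  -- the bound of `d η`
  have hdη : ∀ d ∈ Ico D (2 * D), (d : ℝ) * η ≤ 1 / (4 * r) := by
    intro d hd
    rw [Finset.mem_Ico] at hd
    have h1 : (d : ℝ) ≤ 2 * D := by exact_mod_cast hd.2.le
    have h2 : (d : ℝ) * η ≤ 2 * D * η := by gcongr
    refine h2.trans ?_
    rw [le_div_iff₀ (by positivity)]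
    rw [le_div_iff₀ (by positivity)] at hrη
    linarith
  -- the terms with `r ∣ d`
  have hdiv : ∀ d ∈ Ico D (2 * D), r ∣ d → (mn D2 (γ * d)) ^ 2 ≤ 2 * gr D D2 r (r * γ) := by
    intro d hd hrd
    have h1 := hdη d hd
    rw [Finset.mem_Ico] at hd
    obtain ⟨e, he⟩ := hrd
    have h2 : |γ * d - ((b * e : ℤ) : ℝ)| = d * η := by
      rw [hη]
      have : (0 : ℝ) ≤ d := Nat.cast_nonneg d
      rw [← abs_of_nonneg this, ← abs_mul, abs_of_nonneg this]
      congr 1
      rw [he]
      push_cast
      field_simp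
    have h3 : (1 : ℝ) / (4 * r) ≤ 1 / 2 := by
      apply one_div_le_one_div_of_le (by norm_num)
      have : (1 : ℝ) ≤ r := by exact_mod_cast hr1
      linarith
    have h4 : d * η ≤ dn (γ * d) := by
      rw [← h2]
      exact dn_ge (by rw [h2]; linarith)
    have h5 : D * η ≤ dn (γ * d) := by
      refine le_trans ?_ h4
      have : (D : ℝ) ≤ d := by exact_mod_cast hd.1
      gcongr
    set x : ℝ := D * D2 * η with hx
    have hx0 : 0 ≤ x := by positivity
    have h6 : (D2 : ℝ) ^ 2 / (1 + x ^ 2) ≤ gr D D2 r (r * γ) := by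
      have h60 := hnn (r * γ)
      have h61 : D * D2 * dn (r * γ) / r ≤ x := by
        rw [hx, div_le_iff₀ hr0]
        have : D * D2 * η * r = D * D2 * (r * η) := by ring
        rw [this]
        gcongr
      have h62 : (0 : ℝ) ≤ D * D2 * dn (r * γ) / r := by positivity
      rw [gr]
      gcongr
    have h7 : (mn D2 (γ * d)) ^ 2 ≤ 2 * ((D2 : ℝ) ^ 2 / (1 + x ^ 2)) := by
      rcases le_or_gt x 1 with hx1 | hx1
      · have h8 : (mn D2 (γ * d)) ^ 2 ≤ (D2 : ℝ) ^ 2 := by
          gcongr
          · exact hm0 _ _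
          · exact hmM _ _
        refine h8.trans ?_
        rw [← mul_div_assoc, le_div_iff₀ (by positivity)]
        have : x ^ 2 ≤ 1 := by nlinarith
        nlinarith [sq_nonneg (D2 : ℝ)]
      · have hη1 : 0 < η := by
          rcases hη0.eq_or_lt with h | h
          · rw [hx, ← h] at hx1; norm_num at hx1
          · exact h
        have h9 : 0 < dn (γ * d) := lt_of_lt_of_le (by positivity) h5
        have h10 : mn D2 (γ * d) ≤ 1 / (2 * (D * η)) := by
          refine (hm2 D2 _ h9).trans ?_
          apply one_div_le_one_div_of_le (by positivity)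
          linarith
        have h11 : (mn D2 (γ * d)) ^ 2 ≤ (1 / (2 * (D * η))) ^ 2 := by
          gcongr
          exact hm0 _ _
        refine h11.trans ?_
        have h12 : (1 / (2 * (D * η))) ^ 2 = (D2 : ℝ) ^ 2 / (4 * x ^ 2) := by
          rw [hx]
          field_simp
          ring
        rw [h12, ← mul_div_assoc, div_le_div_iff₀ (by positivity) (by positivity)]
        have : 1 ≤ x ^ 2 := by nlinarith
        nlinarith [sq_nonneg (D2 : ℝ), mul_le_mul_of_nonneg_left this (sq_nonneg (D2 : ℝ))]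
    linarith
  -- the other terms
  set G : ZMod r → ℝ := fun a => if a = 0 then (0 : ℝ) else
    r * (1 / (a.val : ℝ) + 1 / ((r : ℝ) - a.val)) with hG
  have hG0 : ∀ a, 0 ≤ G a := by
    intro a
    simp only [hG]
    split_ifs with h
    · exact le_rfl
    · have h1 : ((a.val : ℕ) : ℝ) < r := by exact_mod_cast ZMod.val_lt a
      have : (0 : ℝ) < r - a.val := by linarith
      positivity
  have hnd : ∀ d ∈ Ico D (2 * D), ¬ r ∣ d → mn D2 (γ * d) ≤ G ((b : ZMod r) * (d : ZMod r)) := by
    intro d hd hrd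
    have h1 := hdη d hd
    set a : ZMod r := (b : ZMod r) * (d : ZMod r) with ha
    have ha0 : a ≠ 0 := by
      intro h
      apply hrd
      have h2 : IsUnit (b : ZMod r) := (ZMod.coe_int_isUnit_iff_isCoprime b r).2 hcop
      have h3 : (d : ZMod r) = 0 := by
        have := h2.mul_right_eq_zero.1 (ha ▸ h)
        exact this
      exact (ZMod.natCast_eq_zero_iff d r).1 h3
    have hav : ((a.val : ℕ) : ℤ) = (b * d) % r := by
      have : a = (((b * d : ℤ)) : ZMod r) := by rw [ha]; push_cast; rfl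
      rw [this, ZMod.val_intCast]
    have hv1 : 1 ≤ a.val := by
      rcases Nat.eq_zero_or_pos a.val with h | h
      · exact absurd ((ZMod.val_eq_zero a).1 h) ha0
      · exact h
    have hv2 : a.val < r := ZMod.val_lt a
    have h2 := dn_frac (b * d) r hr1
    rw [← hav] at h2
    -- the minimum
    set μ : ℝ := ((min ((a.val : ℕ) : ℤ) (r - (a.val : ℕ)) : ℤ) : ℝ) with hμ
    have hμ1 : 1 ≤ μ := by
      rw [hμ]
      have : (1 : ℤ) ≤ min ((a.val : ℕ) : ℤ) (r - (a.val : ℕ)) := by
        apply le_min <;> omega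
      exact_mod_cast this
    have h3 : dn (((b * d : ℤ) : ℝ) / r) ≤ dn (γ * d) + 1 / (4 * r) := by
      have h4 : ((b * d : ℤ) : ℝ) / r = γ * d + (((b * d : ℤ) : ℝ) / r - γ * d) := by ring
      rw [h4]
      refine (hadd _ _).trans ?_
      have h5 : dn (((b * d : ℤ) : ℝ) / r - γ * d) ≤ 1 / (4 * r) := by
        have h6 := hint (((b * d : ℤ) : ℝ) / r - γ * d) 0
        refine h6.trans (le_trans (le_of_eq ?_) h1)
        rw [hη, Int.cast_zero, sub_zero]
        have : (0 : ℝ) ≤ d := Nat.cast_nonneg d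
        rw [← abs_of_nonneg this, ← abs_mul, abs_of_nonneg this, abs_sub_comm]
        congr 1
        push_cast
        ring
      linarith
    have h4 : (3 / 4) * (μ / r) ≤ dn (γ * d) := by
      have h5 : 1 / (4 * r) ≤ (1 / 4) * (μ / r) := by
        have : (1 / 4) * (μ / r) = μ / (4 * r) := by ring
        rw [this]
        gcongr
      linarith
    have h5 : 0 < dn (γ * d) := lt_of_lt_of_le (by positivity) h4
    refine (hm2 D2 _ h5).trans ?_
    have h6 : 1 / (2 * dn (γ * d)) ≤ r * (1 / μ) := by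
      rw [mul_one_div, div_le_div_iff₀ (by positivity) (by positivity)]
      have h7 : (3 / 4) * μ ≤ dn (γ * d) * r := by
        have := mul_le_mul_of_nonneg_right h4 hr0.le
        have e : (3 / 4) * (μ / r) * r = (3 / 4) * μ := by field_simp
        linarith
      nlinarith
    refine h6.trans ?_
    simp only [hG]
    rw [if_neg ha0]
    gcongr
    have hvr : (0 : ℝ) < (r : ℝ) - a.val := by
      have : ((a.val : ℕ) : ℝ) < r := by exact_mod_cast hv2
      linarith
    have hv0 : (0 : ℝ) < a.val := by exact_mod_cast hv1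
    rcases min_choice (((a.val : ℕ) : ℤ)) (r - (a.val : ℕ)) with h | h
    · rw [hμ, h]
      have : (0 : ℝ) ≤ 1 / ((r : ℝ) - a.val) := by positivity
      push_cast
      linarith
    · rw [hμ, h]
      have : (0 : ℝ) ≤ 1 / (a.val : ℝ) := by positivity
      push_cast
      linarith
  -- the sum of the other terms
  have hS2 : ∑ d ∈ (Ico D (2 * D)).filter (fun d => ¬ r ∣ d), mn D2 (γ * d) ≤
      30 * (D * (1 + Real.log D)) * 2 := by
    have h1 : ∑ d ∈ (Ico D (2 * D)).filter (fun d => ¬ r ∣ d), mn D2 (γ * d) ≤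
        ∑ d ∈ Ico D (D + (D / r + 1) * r), G ((b : ZMod r) * (d : ZMod r)) := by
      refine (Finset.sum_le_sum (g := fun d : ℕ => G ((b : ZMod r) * (d : ZMod r))) fun d hd => ?_).trans
        (Finset.sum_le_sum_of_subset_of_nonneg ?_ fun _ _ _ => hG0 _)
      · rw [Finset.mem_filter] at hd
        exact hnd d hd.1 hd.2
      · intro d hd
        rw [Finset.mem_filter, Finset.mem_Ico] at hd
        rw [Finset.mem_Ico]
        refine ⟨hd.1.1, hd.1.2.trans_le ?_⟩
        have : D < (D / r + 1) * r := by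
          have := Nat.lt_div_mul_add (a := D) (b := r) (by omega)
          rw [add_mul, one_mul]
          exact this
        omega
    refine h1.trans ?_
    rw [blocks (fun a => G ((b : ZMod r) * a)) D (D / r + 1)]
    have h2 : ∑ a, G ((b : ZMod r) * a) = ∑ a, G a := by
      have hu : IsUnit (b : ZMod r) := (ZMod.coe_int_isUnit_iff_isCoprime b r).2 hcop
      obtain ⟨u, hu⟩ := hu
      rw [← hu]
      exact Equiv.sum_comp (Units.mulLeft u) G
    rw [h2]
    have h3 := block_sum r hr1
    have hlog8 : Real.log 8 ≤ 21 / 10 := by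
      have : (8 : ℝ) = 2 ^ 3 := by norm_num
      rw [this, Real.log_pow]
      have := Real.log_two_lt_d9
      push_cast
      linarith
    have hlr : Real.log r ≤ 21 / 10 + Real.log D := by
      have h4 : Real.log r ≤ Real.log (8 * D) := by
        apply Real.log_le_log hr0
        exact_mod_cast hq2
      rw [Real.log_mul (by norm_num) hD0.ne'] at h4
      linarith
    have hlD : 0 ≤ Real.log D := Real.log_nonneg hD1
    have hlr0 : 0 ≤ Real.log r := Real.log_nonneg (by exact_mod_cast hr1)
    have h5 : ((D / r + 1 : ℕ) : ℝ) * r ≤ 9 * D := by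
      have h6 : (D / r + 1) * r ≤ D + r := by
        rw [add_mul, one_mul]
        have := Nat.div_mul_le_self D r
        omega
      have h7 : (D / r + 1) * r ≤ 9 * D := by omega
      exact_mod_cast h7
    calc ((D / r + 1 : ℕ) : ℝ) * ∑ a, G a ≤ ((D / r + 1 : ℕ) : ℝ) * (2 * r * (1 + Real.log r)) := by
          gcongr
      _ = 2 * (((D / r + 1 : ℕ) : ℝ) * r) * (1 + Real.log r) := by ring
      _ ≤ 2 * (9 * D) * (1 + Real.log r) := by gcongr
      _ ≤ 2 * (9 * D) * (31 / 10 * (1 + Real.log D)) := by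
          gcongr
          linarith
      _ ≤ 30 * (D * (1 + Real.log D)) * 2 := by
          have : 0 ≤ D * (1 + Real.log D) := by positivity
          linarith
  -- the sum of the terms with `r ∣ d`
  have hgr0 : 0 ≤ gr D D2 r (r * γ) := by unfold gr; positivity
  have hS1 : ∑ d ∈ (Ico D (2 * D)).filter (fun d => r ∣ d), mn D2 (γ * d) ≤
      if r < 2 * D then 3 * (D / r) * Real.sqrt (2 * gr D D2 r (r * γ)) else 0 := by
    split_ifs with h
    · have h1 : ∑ d ∈ (Ico D (2 * D)).filter (fun d => r ∣ d), mn D2 (γ * d) ≤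
          ∑ d ∈ (Ico D (2 * D)).filter (fun d => r ∣ d), Real.sqrt (2 * gr D D2 r (r * γ)) := by
        refine Finset.sum_le_sum fun d hd => ?_
        rw [Finset.mem_filter] at hd
        exact Real.le_sqrt_of_sq_le (hdiv d hd.1 hd.2)
      refine h1.trans ?_
      rw [Finset.sum_const, nsmul_eq_mul]
      gcongr
      -- the number of multiples
      have h2 : ((Ico D (2 * D)).filter (fun d => r ∣ d)).card ≤ D / r + 1 := by
        have h3 : ((Ico D (2 * D)).filter (fun d => r ∣ d)).card ≤
            (Ico ((D + r - 1) / r) ((D + r - 1) / r + (D / r + 1))).card := by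
          refine Finset.card_le_card_of_injOn (fun d => d / r) ?_ ?_
          · intro d hd
            simp only [Finset.coe_filter, Finset.mem_Ico, Set.mem_ofPred_eq] at hd
            obtain ⟨⟨hd1, hd2⟩, e, rfl⟩ := hd
            simp only [Finset.coe_Ico, Set.mem_Ico]
            rw [Nat.mul_div_cancel_left e (by omega)]
            constructor
            · rw [Nat.div_le_iff_le_mul_add_pred (by omega)]
              have : D + r - 1 = D + (r - 1) := by omega
              omega
            · have h4 : D < (D / r + 1) * r := by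
                have := Nat.lt_div_mul_add (a := D) (b := r) (by omega)
                rw [add_mul, one_mul]
                exact this
              have h5 : D ≤ (D + r - 1) / r * r := by
                have := Nat.lt_div_mul_add (a := D + r - 1) (b := r) (by omega)
                omega
              have h6 : r * e < r * ((D + r - 1) / r + (D / r + 1)) := by
                calc r * e < D + D := by omega
                  _ ≤ (D + r - 1) / r * r + (D / r + 1) * r := by omega
                  _ = r * ((D + r - 1) / r + (D / r + 1)) := by ring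
              exact lt_of_mul_lt_mul_left h6 (Nat.zero_le r)
          · intro d hd d' hd' he
            simp only [Finset.coe_filter, Finset.mem_Ico, Set.mem_ofPred_eq] at hd hd'
            obtain ⟨-, e, rfl⟩ := hd
            obtain ⟨-, e', rfl⟩ := hd'
            simp only at he
            rw [Nat.mul_div_cancel_left e (by omega), Nat.mul_div_cancel_left e' (by omega)] at he
            rw [he]
        refine h3.trans ?_
        rw [Nat.card_Ico, Nat.add_sub_cancel_left]
      have h3 : (((Ico D (2 * D)).filter (fun d => r ∣ d)).card : ℝ) ≤ D / r + 1 := by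
        have h4 : (((Ico D (2 * D)).filter (fun d => r ∣ d)).card : ℝ) ≤ ((D / r + 1 : ℕ) : ℝ) := by
          exact_mod_cast h2
        refine h4.trans ?_
        push_cast
        gcongr
        exact Nat.cast_div_le
      refine h3.trans ?_
      have h4 : (1 : ℝ) ≤ 2 * (D / r) := by
        rw [← mul_div_assoc, le_div_iff₀ hr0, one_mul]
        exact_mod_cast h.le
      linarith
    · have h1 : (Ico D (2 * D)).filter (fun d => r ∣ d) = ∅ := by
        rw [Finset.filter_eq_empty_iff]
        intro d hd hrd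
        rw [Finset.mem_Ico] at hd
        have := Nat.le_of_dvd (by omega) hrd
        omega
      rw [h1, Finset.sum_empty]
  -- conclusion
  have hsum : ∑ d ∈ Ico D (2 * D), mn D2 (γ * d) =
      ∑ d ∈ (Ico D (2 * D)).filter (fun d => r ∣ d), mn D2 (γ * d) +
      ∑ d ∈ (Ico D (2 * D)).filter (fun d => ¬ r ∣ d), mn D2 (γ * d) :=
    (Finset.sum_filter_add_sum_filter_not _ _ _).symm
  have hlD : 0 ≤ Real.log D := Real.log_nonneg hD1
  set T : ℝ := D * (1 + Real.log D) with hT
  have hT0 : 0 ≤ T := by positivity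
  have hA0 : 0 ≤ ∑ d ∈ (Ico D (2 * D)).filter (fun d => r ∣ d), mn D2 (γ * d) :=
    Finset.sum_nonneg fun _ _ => hm0 _ _
  have hB0 : 0 ≤ ∑ d ∈ (Ico D (2 * D)).filter (fun d => ¬ r ∣ d), mn D2 (γ * d) :=
    Finset.sum_nonneg fun _ _ => hm0 _ _
  rw [hsum]
  set SA := ∑ d ∈ (Ico D (2 * D)).filter (fun d => r ∣ d), mn D2 (γ * d)
  set SB := ∑ d ∈ (Ico D (2 * D)).filter (fun d => ¬ r ∣ d), mn D2 (γ * d)
  have h1 : (SA + SB) ^ 2 ≤ 2 * SA ^ 2 + 2 * SB ^ 2 := by nlinarith [sq_nonneg (SA - SB)]
  have hB2 : SB ^ 2 ≤ (60 * T) ^ 2 := by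
    gcongr
    linarith
  have hA2 : SA ^ 2 ≤ 18 * (if r < 2 * D then ((D : ℝ) / r) ^ 2 * gr D D2 r (r * γ) else 0) := by
    split_ifs at hS1 ⊢ with h
    · have h2 : SA ^ 2 ≤ (3 * (D / r) * Real.sqrt (2 * gr D D2 r (r * γ))) ^ 2 := by gcongr
      refine h2.trans (le_of_eq ?_)
      rw [mul_pow, Real.sq_sqrt (by positivity)]
      ring
    · have : SA = 0 := le_antisymm hS1 hA0
      rw [this]
      norm_num
  have h0 : 0 ≤ (if r < 2 * D then ((D : ℝ) / r) ^ 2 * gr D D2 r (r * γ) else 0) := by
    split_ifs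
    · positivity
    · exact le_rfl
  nlinarith [sq_nonneg T]

end Pool.Agent.H43.MA.DIR
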