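import Mathlib

/-! # Project MA (helper43): definitions used in the statements of the hand-ins -/

set_option autoImplicit false

namespace Pool.Agent.H43.MA

open Finset

/-- the product of `1 - 1/q` over the primes `q ≤ y` -/
noncomputable def V (y : ℕ) : ℝ := ∏ q ∈ (Icc 1 y).filter Nat.Prime, (1 - 1 / (q : ℝ))

open Classical in
/-- the primes `p ≤ x` such that `p, π(p), π(π(p)), ..., π^j(p)` are all prime -/
noncomputable def PP (j x : ℕ) : Finset ℕ := (Icc 1 x).filter (fun p => ∀ i ≤ j, (Nat.primeCounting^[i] p).Prime)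

open Classical in
/-- the `p ∈ S` such that all the `a i - p` are prime -/
noncomputable def Rep {k : ℕ} (S : Finset ℕ) (a : Fin k → ℕ) : Finset ℕ := S.filter (fun p => ∀ i, (a i - p).Prime)

open Classical in
/-- the vectors `m` in the box `1 ≤ m i ≤ G i` for which the numbers `M (g i + m i)`, `M` the product of the primes
`≤ y`, have fewer than `(1 - ε) #S / (V y log x) ^ k` common summands `p ∈ S` with all `M (g i + m i) - p` prime -/
noncomputable def Exc {k : ℕ} (ε : ℝ) (S : Finset ℕ) (x y : ℕ) (g G : Fin k → ℕ) : Finset (Fin k → ℕ) :=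
  (Fintype.piFinset fun i => Icc 1 (G i)).filter (fun m =>
    ((Rep S (fun i => primorial y * (g i + m i))).card : ℝ) < (1 - ε) * (S.card / (V y * Real.log x) ^ k))

open Classical in
/-- the odd `p ∈ S` such that all the `a i - p` are odd primes different from `p` -/
noncomputable def RepD {k : ℕ} (S : Finset ℕ) (a : Fin k → ℕ) : Finset ℕ :=
  S.filter (fun p => Odd p ∧ ∀ i, (a i - p).Prime ∧ Odd (a i - p) ∧ a i - p ≠ p)

open Classical in
/-- the same exceptional set for `RepD` -/
noncomputable def ExcD {k : ℕ} (ε : ℝ) (S : Finset ℕ) (x y : ℕ) (g G : Fin k → ℕ) : Finset (Fin k → ℕ) :=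
  (Fintype.piFinset fun i => Icc 1 (G i)).filter (fun m =>
    ((RepD S (fun i => primorial y * (g i + m i))).card : ℝ) < (1 - ε) * (S.card / (V y * Real.log x) ^ k))

end Pool.Agent.H43.MA
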