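import Pool.Agent.H43.MA.Stm
import Pool.Agent.H43.SL.Inp

/-!
# Project MA (helper43): statements, second part (primes minus sieve model `Ed z m = lamI m - lamzI z m`)
-/

set_option autoImplicit false

namespace Pool.Agent.H43.MA

open Finset Filter
open Pool.Agent.helper24_UT (NN Ed)
open Pool.Agent.H373R2.T7 (lamI lamzI lamz Vz)
open Pool.Agent.H43.SL (SIe)

/-- the twisted sum over the window `(u, u + H]` -/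
noncomputable def We (z H : ℕ) (α : ℝ) (u : ℤ) : ℂ := ∑ m ∈ Ioc u (u + H), ((Ed z m : ℝ) : ℂ) * ee (α * m)

/-- **MIN2** (from `S_LMI`, `S_MMR`). `lamzI z m = (Vz z)⁻¹ rg z m` for `m ≥ 1`, `(Vz z)⁻¹ ≤ C (1 + log z)` (library: `Vz_inv_small`, used in
`Pool/Agent/H43/SL`). The window `(u, u + H]`, `u < X`, is the window `Wn H (2 X) α _ (u + H)`; apply LMI and MMR with `2 X` in place
of `X`, `θ' = (θ + 1/3)/2`, `P = P1^8`, a larger `A`, and slightly larger/smaller powers of the logarithm (`log X ≤ log (2X) ≤ 2 log X`). -/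
def S_MIN2 : Prop := ∀ θ : ℝ, 1 / 3 < θ → ∀ A : ℕ, ∃ B : ℕ, ∀ B' E : ℕ, ∃ X₀ : ℕ, ∀ X : ℕ, X₀ ≤ X → ∀ z : ℕ, 1 ≤ z →
  (z : ℝ) ≤ Real.log X ^ E → ∀ P1 : ℕ, Real.log X ^ B ≤ P1 → (P1 : ℝ) ≤ Real.log X ^ B' → ∀ H : ℕ, (X : ℝ) ^ θ ≤ H → H ≤ X →
  ∀ α : ℝ, Mi (P1 ^ 8) H α → ∑ u ∈ range X, ‖We z H α (u : ℤ)‖ ^ 2 ≤ X * (H : ℝ) ^ 2 / Real.log X ^ A

/-- **MAJ** the major arcs, from `SIe θ'` for all `θ' > 1/6` (`Pool.Agent.H43.X6.c_SIe6`). Proof. `β = α - a/q`, `|β| ≤ P/(qH) ≤ P/H`. Let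
`W = ⌊H/P^K⌋` with a large constant `K`, `J = ⌊H/W⌋ ≤ 2 P^K`. The window `(u, u + H]` is the union of `J` windows `(v, v + W]`,
`v = u + j W`, and a remainder of length `< W` (trivial bound `2 W log (2X) C log z`). On `(v, v + W]` replace `e(β m)` by `e(β v)`: the error is
`≤ 2π |β| W ∑ |Ed|`, trivial: `≤ C (P/H) W · W log² X`, over all `j`: `≤ C P^(1-K) H log² X`. What is left is
`|∑_{m ∈ (v, v+W]} Ed z m e(a m/q)|² ≤ q NN (Ed z) v W q` (classes modulo `q`, Cauchy-Schwarz). Then Cauchy-Schwarz over `j`: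
`∑_u |…|² ≤ C J ∑_j q ∑_u NN (Ed z) (u + jW) W q ≤ C J² q · 2X W²/log^A' (2X) ≤ C q X H²/log^A' X`, by `SIe θ'` for `2X` (windows
`u + jW < 2X`), `θ' < θ` as `W ≥ H/(2 P^K)`, and `q ≤ P ≤ log^B X`. -/
def S_MAJ : Prop := ∀ θ : ℝ, 1 / 6 < θ → ∀ A B : ℕ, ∃ E₀ : ℕ, ∀ E₁ : ℕ, ∃ X₀ : ℕ, ∀ X : ℕ, X₀ ≤ X → ∀ z : ℕ,
  Real.log X ^ E₀ ≤ z → (z : ℝ) ≤ Real.log X ^ E₁ → ∀ P q : ℕ, 1 ≤ q → q ≤ P → (P : ℝ) ≤ Real.log X ^ B → ∀ a : ℤ,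
  ∀ H : ℕ, (X : ℝ) ^ θ ≤ H → H ≤ X → ∀ α : ℝ, |α - a / q| ≤ P / (q * H) →
  ∑ u ∈ range X, ‖We z H α (u : ℤ)‖ ^ 2 ≤ X * (H : ℝ) ^ 2 / Real.log X ^ A

/-- **SU** all `α` (from MIN2, MAJ). `B` from MIN2, `P1 = ⌈log^B X⌉ ≤ log^(B+1) X`, `P = P1^8`. Dirichlet: `|α - a/q| ≤ 1/(q (⌊H/P⌋ + 1)) ≤
P/(q H)`, `q ≤ H/P`, `(a, q) = 1`. If `q ≥ P`: `Mi P H α`. If `q ≤ P`: MAJ with `B := 8 (B + 1)`. -/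
def S_SU : Prop := ∀ θ : ℝ, 1 / 3 < θ → ∀ A : ℕ, ∃ E₀ : ℕ, ∀ E₁ : ℕ, ∃ X₀ : ℕ, ∀ X : ℕ, X₀ ≤ X → ∀ z : ℕ,
  Real.log X ^ E₀ ≤ z → (z : ℝ) ≤ Real.log X ^ E₁ → ∀ H : ℕ, (X : ℝ) ^ θ ≤ H → H ≤ X → ∀ α : ℝ,
  ∑ u ∈ range X, ‖We z H α (u : ℤ)‖ ^ 2 ≤ X * (H : ℝ) ^ 2 / Real.log X ^ A

/-- **BIL** bilinear form (from `S_PARZ`, SU). Proof. `Ed z m = 0` for `m ≤ 0`. All arguments are in `[-8X, 8X]`, `k + σu` are distinct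
integers `w`. Cauchy-Schwarz over `u`: it suffices that `T = ∑_w |∑_{v ≤ Y} c v Ed z (w + τ v)|² ≤ X Y²/log^(2U+1) X`, `w` over the
integers in `[-6X, 6X]`. For every `w` there are at least `Y` integers `u` with `w + τ v ∈ (u, u + 2Y]` for all `1 ≤ v ≤ Y`; with
`E_u(m) = Ed z m 1[u < m ≤ u + 2Y]`: `Y T ≤ ∑_u ∑_{w ∈ ℤ} |∑_v c v E_u (w + τ v)|²`, `u` over `[-8X, 8X]`. Parseval for the correlation: the sum over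
`w` is `∫_0^1 |∑_v c v e(-τ v β)|² |∑_m E_u(m) e(β m)|² dβ = ∫ |ĉ|² |We z (2Y) β u|²`. For `u ≥ 0`: by SU for `8X` and `H = 2Y`
`∑_{0 ≤ u < 8X} |We z (2Y) β u|² ≤ 8X (2Y)²/log^A (8X)` for every `β`; for `u < 0` the sum is zero or (`-2Y < u < 0`) trivially
`≤ (C Y log² X)²`, in total `≤ C Y³ log⁴ X ≤ X Y²/log^A X` because `Y ≤ X^(9/10)`. `∫ |ĉ|² ≤ Y`. So
`Y T ≤ Y · C X Y²/log^A X`. -/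
def S_BIL : Prop := ∀ θ : ℝ, 1 / 3 < θ → ∀ U : ℕ, ∃ E₀ : ℕ, ∀ E₁ : ℕ, ∃ X₀ : ℕ, ∀ X : ℕ, X₀ ≤ X → ∀ z : ℕ,
  Real.log X ^ E₀ ≤ z → (z : ℝ) ≤ Real.log X ^ E₁ → ∀ Y : ℕ, (X : ℝ) ^ θ ≤ Y → (Y : ℝ) ≤ (X : ℝ) ^ (9 / 10 : ℝ) →
  ∀ k σ τ : ℤ, |k| ≤ 4 * X → (σ = 1 ∨ σ = -1) → (τ = 1 ∨ τ = -1) → ∀ G c : ℕ → ℂ, (∀ u, ‖G u‖ ≤ 1) → (∀ v, ‖c v‖ ≤ 1) →
  ‖∑ u ∈ Icc 1 (2 * X), ∑ v ∈ Icc 1 Y, G u * c v * ((Ed z (k + σ * u + τ * v) : ℝ) : ℂ)‖ ≤ X * Y / Real.log X ^ U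

end Pool.Agent.H43.MA
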