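import Pool.Agent.H43.MA.Fin1
import Pool.Agent.H43.MA.Stm2

/-! # Project MA (helper43): one window, conversion to natural counts -/

set_option autoImplicit false

namespace Pool.Agent.H43.MA.Fin

open Finset Filter Pool.Agent.H373R2.T7 Pool.Agent.Y877.SX
open Pool.Agent.helper24_UT (Ed)
open Pool.Agent.H442R2.EHI (evt_log_pow evt_log_ge)

open Classical in
/-- conversion -/
theorem conv (S : Finset ℕ) (x y z M G g0 : ℕ) (δ R : ℝ) (hδ : 0 < δ) (hδ1 : δ ≤ 1 / 5) (hS0 : 0 < S.card)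
    (hSp : ∀ s ∈ S, s.Prime) (hyS : (y : ℝ) ≤ δ * S.card) (hL : 0 < Real.log x) (hL2 : Real.log 2 ≤ δ * Real.log x)
    (hM1 : 1 ≤ M) (hyz : y ≤ z) (hSM : ∀ s ∈ S, s ≤ M * g0)
    (hMp : ∀ p : ℕ, p.Prime → p ≤ y → p ∣ M) (hg1 : M * (g0 + G) ≤ 2 * x)
    (hrough : (((Icc 1 G).filter (fun g => (((S.filter (fun s => y < s)).filter
      (fun s => ∀ p ∈ mid y z, ¬ p ∣ (M * g0 - s) + M * g)).card : ℝ) <
      (1 - δ) * (((S.filter (fun s => y < s)).card : ℝ) * Vm y z))).card : ℝ) ≤ δ * G)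
    (hbil : ∀ H : Finset ℕ, H ⊆ (Icc 1 G).image (fun g => M * (g0 + g)) →
      -R ≤ ∑ h ∈ H, ∑ s ∈ S.filter (fun s => y < s), (ArithmeticFunction.vonMangoldt (h - s) - lamz z (h - s)))
    (hR : R ≤ (δ * G) * (δ * ((S.filter (fun s => y < s)).card : ℝ)))
    (hPP : ∀ H : Finset ℕ, H ⊆ (Icc 1 G).image (fun g => M * (g0 + g)) →
      ∑ h ∈ H, ∑ s ∈ S.filter (fun s => y < s), (if (h - s).Prime then (0 : ℝ) else ArithmeticFunction.vonMangoldt (h - s)) ≤
        (δ * G) * (δ * ((S.filter (fun s => y < s)).card : ℝ))) :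
    (((Icc 1 G).filter (fun g => ((S.filter (fun s => (M * (g0 + g) - s).Prime)).card : ℝ) <
      (1 - 5 * δ) * (S.card / (Vz y * Real.log x)))).card : ℝ) ≤ 3 * δ * G := by
  set S' := S.filter (fun s => y < s) with hS'
  have hS'S : S' ⊆ S := filter_subset _ _
  have hc : (S.card : ℝ) ≤ S'.card + y := by
    have h1 : S ⊆ S' ∪ Icc 1 y := by
      intro s hs
      rw [mem_union]
      by_cases h : y < s
      · left; rw [hS', mem_filter]; exact ⟨hs, h⟩
      · right; rw [mem_Icc]; have := (hSp s hs).one_lt; omega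
    have h2 := (card_le_card h1).trans (card_union_le _ _)
    rw [Nat.card_Icc, Nat.add_sub_cancel] at h2
    exact_mod_cast h2
  have hc1 : (1 - δ) * S.card ≤ S'.card := by linarith
  have hS0' : (0 : ℝ) < S.card := by exact_mod_cast hS0
  have hm0 : (0 : ℝ) < S'.card := by
    refine lt_of_lt_of_le ?_ hc1
    apply mul_pos _ hS0'
    linarith
  have hA := asm S' y z (2 * x) M G g0 δ S'.card R hδ rfl hm0 hM1 hyz (fun s hs => hSM s (hS'S hs)) (by
    intro s hs p hp hpy hd
    have h1 := (Nat.prime_dvd_prime_iff_eq hp (hSp s (hS'S hs))).1 hd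
    rw [hS', mem_filter] at hs
    omega) hMp hg1 hrough hbil hR hPP
  refine le_trans ?_ hA
  have hsub : (Icc 1 G).filter (fun g => ((S.filter (fun s => (M * (g0 + g) - s).Prime)).card : ℝ) <
      (1 - 5 * δ) * (S.card / (Vz y * Real.log x))) ⊆ (Icc 1 G).filter (fun g =>
        ((S'.filter (fun s => (M * (g0 + g) - s).Prime)).card : ℝ) * Real.log ((2 * x : ℕ) : ℝ) <
          (1 - 3 * δ) * (S'.card * (Vz y)⁻¹)) := by
    intro g hg
    rw [mem_filter] at hg ⊢
    obtain ⟨hg, h1⟩ := hg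
    refine ⟨hg, ?_⟩
    have hVy := Vz_pos y
    have h2 : ((S'.filter (fun s => (M * (g0 + g) - s).Prime)).card : ℝ) ≤ (S.filter (fun s => (M * (g0 + g) - s).Prime)).card := by
      exact_mod_cast card_le_card (filter_subset_filter _ hS'S)
    have hx0 : (0 : ℝ) < x := by
      rcases Nat.eq_zero_or_pos x with h | h
      · rw [h] at hL; simp at hL
      · exact_mod_cast h
    have h3 : Real.log ((2 * x : ℕ) : ℝ) ≤ (1 + δ) * Real.log x := by
      push_cast
      rw [Real.log_mul (by norm_num) hx0.ne']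
      linarith
    have h3' : 0 < Real.log ((2 * x : ℕ) : ℝ) := by
      refine lt_of_lt_of_le hL ?_
      apply Real.log_le_log hx0
      push_cast
      linarith
    calc ((S'.filter (fun s => (M * (g0 + g) - s).Prime)).card : ℝ) * Real.log ((2 * x : ℕ) : ℝ)
        ≤ ((S.filter (fun s => (M * (g0 + g) - s).Prime)).card : ℝ) * Real.log ((2 * x : ℕ) : ℝ) :=
          mul_le_mul_of_nonneg_right h2 h3'.le
      _ < ((1 - 5 * δ) * (S.card / (Vz y * Real.log x))) * Real.log ((2 * x : ℕ) : ℝ) := mul_lt_mul_of_pos_right h1 h3'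
      _ ≤ ((1 - 5 * δ) * (S.card / (Vz y * Real.log x))) * ((1 + δ) * Real.log x) := by
          apply mul_le_mul_of_nonneg_left h3
          apply mul_nonneg (by linarith)
          positivity
      _ = ((1 - 5 * δ) * (1 + δ)) * (S.card * (Vz y)⁻¹) := by
          field_simp
      _ ≤ ((1 - 3 * δ) * (1 - δ)) * (S.card * (Vz y)⁻¹) := by
          apply mul_le_mul_of_nonneg_right _ (by positivity)
          nlinarith
      _ = (1 - 3 * δ) * (((1 - δ) * S.card) * (Vz y)⁻¹) := by ring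
      _ ≤ (1 - 3 * δ) * (S'.card * (Vz y)⁻¹) := by
          apply mul_le_mul_of_nonneg_left _ (by linarith)
          exact mul_le_mul_of_nonneg_right hc1 (inv_pos.2 hVy).le
  exact_mod_cast card_le_card hsub

/-- prime powers, one variable -/
lemma ppone (x s : ℕ) (hx : 1 ≤ x) (H : Finset ℕ) (hH : ∀ h ∈ H, s < h ∧ h ≤ 2 * x) :
    ∑ h ∈ H, (if (h - s).Prime then (0 : ℝ) else ArithmeticFunction.vonMangoldt (h - s)) ≤
      2 * √((2 * x : ℕ) : ℝ) * Real.log ((2 * x : ℕ) : ℝ) := by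
  have h2 := Chebyshev.psi_sub_theta_le (x := ((2 * x : ℕ) : ℝ)) (by exact_mod_cast (by omega : 1 ≤ 2 * x))
  rw [Chebyshev.psi_sub_theta_eq_sum_not_prime, Nat.floor_natCast, sum_filter] at h2
  refine le_trans ?_ h2
  have e1 : ∑ h ∈ H, (if (h - s).Prime then (0 : ℝ) else ArithmeticFunction.vonMangoldt (h - s)) =
      ∑ n ∈ H.image (fun h => h - s), (if ¬ n.Prime then ArithmeticFunction.vonMangoldt n else (0 : ℝ)) := by
    rw [sum_image]
    · apply sum_congr rfl
      intro h _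
      by_cases hp : (h - s).Prime
      · rw [if_pos hp, if_neg (not_not.2 hp)]
      · rw [if_neg hp, if_pos hp]
    · intro a ha b hb hab
      have h3 := hH a ha
      have h4 := hH b hb
      simp only at hab
      omega
  rw [e1]
  apply sum_le_sum_of_subset_of_nonneg
  · intro n hn
    rw [mem_image] at hn
    obtain ⟨h, hh, rfl⟩ := hn
    have h3 := hH h hh
    rw [mem_Ioc]
    omega
  · intro n _ _
    split_ifs
    · exact le_rfl
    · exact ArithmeticFunction.vonMangoldt_nonneg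

/-- the same with the other variable -/
lemma pptwo (x h : ℕ) (hx : 1 ≤ x) (hh : h ≤ 2 * x) (S : Finset ℕ) (hS : ∀ s ∈ S, s < h) :
    ∑ s ∈ S, (if (h - s).Prime then (0 : ℝ) else ArithmeticFunction.vonMangoldt (h - s)) ≤
      2 * √((2 * x : ℕ) : ℝ) * Real.log ((2 * x : ℕ) : ℝ) := by
  have h2 := Chebyshev.psi_sub_theta_le (x := ((2 * x : ℕ) : ℝ)) (by exact_mod_cast (by omega : 1 ≤ 2 * x))
  rw [Chebyshev.psi_sub_theta_eq_sum_not_prime, Nat.floor_natCast, sum_filter] at h2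
  refine le_trans ?_ h2
  have e1 : ∑ s ∈ S, (if (h - s).Prime then (0 : ℝ) else ArithmeticFunction.vonMangoldt (h - s)) =
      ∑ n ∈ S.image (fun s => h - s), (if ¬ n.Prime then ArithmeticFunction.vonMangoldt n else (0 : ℝ)) := by
    rw [sum_image]
    · apply sum_congr rfl
      intro s _
      by_cases hp : (h - s).Prime
      · rw [if_pos hp, if_neg (not_not.2 hp)]
      · rw [if_neg hp, if_pos hp]
    · intro a ha b hb hab
      have h3 := hS a ha
      have h4 := hS b hb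
      simp only at hab
      omega
  rw [e1]
  apply sum_le_sum_of_subset_of_nonneg
  · intro n hn
    rw [mem_image] at hn
    obtain ⟨s, hs, rfl⟩ := hn
    have h3 := hS s hs
    rw [mem_Ioc]
    omega
  · intro n _ _
    split_ifs
    · exact le_rfl
    · exact ArithmeticFunction.vonMangoldt_nonneg

lemma Ed_sub (z h s : ℕ) (hs : s < h) : Ed z ((h : ℤ) - s) = ArithmeticFunction.vonMangoldt (h - s) - lamz z (h - s) := by
  have e : ((h : ℤ) - s) = ((h - s : ℕ) : ℤ) := by omega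
  unfold Ed lamI lamzI
  rw [e, if_pos (by omega), if_pos (by omega), Int.toNat_natCast]

/-- the bilinear bound for indicator functions: `h = w + σ' v`... general form -/
lemma bilS (z X Y : ℕ) (R : ℝ) (k σ τ : ℤ) (U V : Finset ℕ) (hU : U ⊆ Icc 1 (2 * X)) (hV : V ⊆ Icc 1 Y)
    (h : ∀ G c : ℕ → ℂ, (∀ u, ‖G u‖ ≤ 1) → (∀ v, ‖c v‖ ≤ 1) →
      ‖∑ u ∈ Icc 1 (2 * X), ∑ v ∈ Icc 1 Y, G u * c v * ((Ed z (k + σ * u + τ * v) : ℝ) : ℂ)‖ ≤ R) :
    -R ≤ ∑ u ∈ U, ∑ v ∈ V, Ed z (k + σ * u + τ * v) := by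
  classical
  have h1 := h (fun u => if u ∈ U then 1 else 0) (fun v => if v ∈ V then 1 else 0) (by
    intro u; split_ifs <;> simp) (by intro v; split_ifs <;> simp)
  have e1 : ∑ u ∈ Icc 1 (2 * X), ∑ v ∈ Icc 1 Y, (if u ∈ U then (1 : ℂ) else 0) * (if v ∈ V then (1 : ℂ) else 0) *
      ((Ed z (k + σ * u + τ * v) : ℝ) : ℂ) = ((∑ u ∈ U, ∑ v ∈ V, Ed z (k + σ * u + τ * v) : ℝ) : ℂ) := by
    have f1 : (Icc 1 (2 * X)).filter (fun a => a ∈ U) = U := by
      ext a
      rw [mem_filter]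
      exact ⟨fun h => h.2, fun h => ⟨hU h, h⟩⟩
    have f2 : (Icc 1 Y).filter (fun a => a ∈ V) = V := by
      ext a
      rw [mem_filter]
      exact ⟨fun h => h.2, fun h => ⟨hV h, h⟩⟩
    rw [Complex.ofReal_sum]
    conv_rhs => rw [← f1, sum_filter]
    apply sum_congr rfl
    intro a _
    by_cases haU : a ∈ U
    · rw [if_pos haU, if_pos haU, Complex.ofReal_sum]
      conv_rhs => rw [← f2, sum_filter]
      apply sum_congr rfl
      intro b _
      by_cases hbV : b ∈ V
      · rw [if_pos hbV, if_pos hbV, one_mul, one_mul]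
      · rw [if_neg hbV, if_neg hbV, mul_zero, zero_mul]
    · rw [if_neg haU, if_neg haU]
      apply sum_eq_zero
      intro b _
      rw [zero_mul, zero_mul]
  rw [e1, Complex.norm_real, Real.norm_eq_abs] at h1
  exact neg_le_of_abs_le h1

end Pool.Agent.H43.MA.Fin
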