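import Pool.Agent.H43.MA.Fin2
import Pool.Agent.H43.MA.Bilx

/-! # Project MA (helper43): one window, summands in a short interval -/

set_option autoImplicit false

namespace Pool.Agent.H43.MA.Fin

open Finset Filter Pool.Agent.H373R2.T7 Pool.Agent.Y877.SX
open Pool.Agent.helper24_UT (Ed)
open Pool.Agent.H442R2.EHI (evt_log_pow evt_log_ge)

/-- sizes of the sieve parameter -/
lemma z_ex (L : ℝ) (E0 : ℕ) (hL : 4 ≤ L) : ∃ z : ℕ, L ^ E0 ≤ z ∧ L ^ 2 ≤ z ∧ (z : ℝ) ≤ L ^ (E0 + 3) := by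
  refine ⟨⌈L ^ (E0 + 2)⌉₊, ?_, ?_, ?_⟩
  · exact (pow_le_pow_right₀ (by linarith) (by omega)).trans (Nat.le_ceil _)
  · exact (pow_le_pow_right₀ (by linarith) (by omega)).trans (Nat.le_ceil _)
  · have h1 : (⌈L ^ (E0 + 2)⌉₊ : ℝ) < L ^ (E0 + 2) + 1 := Nat.ceil_lt_add_one (by positivity)
    have h2 : L ^ (E0 + 3) = L ^ (E0 + 2) * L := pow_succ _ _
    have h3 : 1 ≤ L ^ (E0 + 2) := one_le_pow₀ (by linarith)
    have h4 : L ^ (E0 + 2) * 2 ≤ L ^ (E0 + 2) * L := mul_le_mul_of_nonneg_left (by linarith) (by linarith)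
    rw [h2]
    linarith

set_option maxHeartbeats 1000000 in
open Classical in
theorem stepA (hB : S_BILX) (θ : ℝ) (hθ : 1 / 3 < θ) (A C : ℕ) (ε : ℝ) (hε : 0 < ε) (hε1 : ε ≤ 1) : ∃ K0 : ℕ, ∀ K1 : ℕ,
    ∃ x0 : ℕ, ∀ x : ℕ, x0 ≤ x →
    ∀ y : ℕ, K0 * Real.log (Real.log x) ≤ y → y ≤ K1 * Real.log (Real.log x) →
    ∀ a Y : ℕ, (x : ℝ) ^ θ ≤ Y → a + Y ≤ x →
    ∀ S : Finset ℕ, S ⊆ Ioc a (a + Y) → (∀ s ∈ S, s.Prime) → (Y : ℝ) ≤ S.card * Real.log x ^ A →
    ∀ g0 G : ℕ, x ≤ primorial y * g0 → primorial y * (g0 + G) ≤ 2 * x → (x : ℝ) ≤ primorial y * G * Real.log x ^ C →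
    (((Icc 1 G).filter (fun g => ((S.filter (fun s => (primorial y * (g0 + g) - s).Prime)).card : ℝ) <
      (1 - ε) * (S.card / (Vz y * Real.log x)))).card : ℝ) ≤ ε * G := by
  obtain ⟨δ, hδd⟩ : ∃ δ, δ = ε / 5 := ⟨_, rfl⟩
  have hδ : 0 < δ := by rw [hδd]; positivity
  have hδ1 : δ ≤ 1 / 5 := by rw [hδd]; linarith
  obtain ⟨K0, hK01, hrm⟩ := rough_gen (2 * A + 1) δ δ hδ hδ
  refine ⟨K0, fun K1 => ?_⟩
  set U := A + C + 2 * K1 + 2 with hU
  obtain ⟨E0, hE0⟩ := hB θ hθ U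
  obtain ⟨N1, hN1⟩ := hE0 (E0 + 3)
  obtain ⟨x1, hx1⟩ := hrm (2 * (E0 + 3))
  obtain ⟨x2, hx2⟩ := ev_L' (max (max (Real.exp 1) 27) (max (max 4 (K1 : ℝ)) (max (2 / δ ^ 2) (Real.log 2 / δ))))
  obtain ⟨x3, hx3⟩ := ev_log' (C + 2 * K1) 1
  obtain ⟨x4, hx4⟩ := ev_log' (C + 2 * K1 + A + 2) (24 / δ ^ 2)
  obtain ⟨x5, hx5⟩ := eventually_atTop.1 (evt_log_pow (A + 3) (1 / 3) (by norm_num))
  obtain ⟨x6, hx6⟩ : ∃ x6 : ℕ, ∀ x : ℕ, x6 ≤ x → (x1 : ℝ) ≤ (x : ℝ) ^ θ :=
    eventually_atTop.1 (((tendsto_rpow_atTop (show 0 < θ by linarith)).comp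
      (tendsto_natCast_atTop_atTop (R := ℝ))).eventually_ge_atTop (x1 : ℝ))
  refine ⟨max (max N1 x6) (max x2 (max x3 (max x4 (max x5 1)))), fun x hx y hy1 hy2 a Y hY1 haY S hS hSp hSc g0 G hg0 hg1 hg2 => ?_⟩
  have b1 : N1 ≤ x := le_trans (le_trans (le_max_left _ _) (le_max_left _ _)) hx
  have b6 : x6 ≤ x := le_trans (le_trans (le_max_right _ _) (le_max_left _ _)) hx
  have b' := le_trans (le_max_right _ _) hx
  have b2 : x2 ≤ x := le_trans (le_max_left _ _) b'
  have b3 : x3 ≤ x := le_trans (le_trans (le_max_left _ _) (le_max_right _ _)) b'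
  have b4 : x4 ≤ x := le_trans (le_trans (le_trans (le_max_left _ _) (le_max_right _ _)) (le_max_right _ _)) b'
  have b5 : x5 ≤ x := le_trans (le_trans (le_trans (le_trans (le_max_left _ _) (le_max_right _ _)) (le_max_right _ _)) (le_max_right _ _)) b'
  have b7 : 1 ≤ x := le_trans (le_trans (le_trans (le_trans (le_max_right _ _) (le_max_right _ _)) (le_max_right _ _)) (le_max_right _ _)) b'
  have hL := hx2 x b2
  have hc3 := hx3 x b3
  have hc4 := hx4 x b4
  have hc5 := hx5 x b5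
  have hc6 := hx6 x b6
  set L := Real.log x with hLd
  have hL1 : Real.exp 1 ≤ L := ((le_max_left _ _).trans (le_max_left _ _)).trans hL
  have hL27 : 27 ≤ L := ((le_max_right _ _).trans (le_max_left _ _)).trans hL
  have hLr := (le_max_right _ _).trans hL
  have hL2 : 4 ≤ L := (((le_max_left _ _).trans (le_max_left _ _))).trans hLr
  have hL3 : (K1 : ℝ) ≤ L := ((le_max_right _ _).trans (le_max_left _ _)).trans hLr
  have hL4 : 2 / δ ^ 2 ≤ L := ((le_max_left _ _).trans (le_max_right _ _)).trans hLr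
  have hL5 : Real.log 2 / δ ≤ L := ((le_max_right _ _).trans (le_max_right _ _)).trans hLr
  have hL0 : 0 < L := by linarith
  have hxr : (1 : ℝ) ≤ x := by exact_mod_cast b7
  have hx0 : (0 : ℝ) < x := by linarith
  rw [one_mul] at hc3
  -- Y
  have hY0 : (0 : ℝ) < Y := lt_of_lt_of_le (by positivity) hY1
  have hYx : (Y : ℝ) ≤ x := by
    have : Y ≤ x := by omega
    exact_mod_cast this
  have hx1Y : x1 ≤ Y := by
    have : (x1 : ℝ) ≤ Y := hc6.trans hY1
    exact_mod_cast this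
  set l := Real.log Y with hl
  have hlL : l ≤ L := Real.log_le_log hY0 hYx
  have hlL2 : L ≤ 3 * l := by
    have h1 : Real.log ((x : ℝ) ^ θ) ≤ l := Real.log_le_log (by positivity) hY1
    rw [Real.log_rpow hx0] at h1
    have h2 : 1 / 3 * L ≤ θ * L := mul_le_mul_of_nonneg_right hθ.le hL0.le
    linarith
  have hl9 : 9 ≤ l := by linarith
  have hl0 : 0 < l := by linarith
  have hLl : L ≤ l ^ 2 := by nlinarith
  -- z
  obtain ⟨z, hz1, hzL, hz2⟩ := z_ex L E0 hL2
  have hlL1 : 1 ≤ Real.log L := by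
    rw [← Real.log_exp 1]
    exact Real.log_le_log (Real.exp_pos 1) hL1
  obtain ⟨M, hMd⟩ : ∃ M, M = primorial y := ⟨_, rfl⟩
  have hML : (M : ℝ) ≤ L ^ (2 * K1) := by rw [hMd]; exact primorial_le_log K1 y L hL1 hy2
  have hM1 : 1 ≤ M := by rw [hMd]; exact primorial_pos y
  rw [← hMd] at hg0 hg1 hg2 ⊢
  have hMp : ∀ p : ℕ, p.Prime → p ≤ y → p ∣ M := fun p hp hpy => by
    rw [hMd]
    exact hp.dvd_primorial_iff.2 hpy
  have hMq : ∀ p ∈ mid y z, ¬ p ∣ M := fun p hp hd => by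
    rw [hMd, (mem_mid.1 hp).2.2.dvd_primorial_iff] at hd
    have := (mem_mid.1 hp).1
    omega
  -- y
  have hyL : (y : ℝ) ≤ L ^ 2 := by
    have h1 : Real.log L ≤ L := (Real.log_le_sub_one_of_pos hL0).trans (by linarith)
    calc (y : ℝ) ≤ K1 * Real.log L := hy2
      _ ≤ L * L := mul_le_mul hL3 h1 (by linarith) hL0.le
      _ = L ^ 2 := by ring
  have hyz : y ≤ z := by
    have hy3 : (y : ℝ) ≤ z := hyL.trans hzL
    exact_mod_cast hy3
  -- G
  have hNG : (x : ℝ) ≤ L ^ (C + 2 * K1) * G := by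
    calc (x : ℝ) ≤ M * G * L ^ C := hg2
      _ ≤ L ^ (2 * K1) * G * L ^ C := by gcongr
      _ = _ := by rw [pow_add]; ring
  have hG0 : (0 : ℝ) ≤ G := Nat.cast_nonneg G
  have hGx : √(x : ℝ) ≤ G := by
    have h2 : (x : ℝ) ≤ √x * G := hNG.trans (mul_le_mul_of_nonneg_right hc3 hG0)
    have h3 : √(x : ℝ) * √x = x := Real.mul_self_sqrt hx0.le
    have h4 : 0 < √(x : ℝ) := Real.sqrt_pos.2 hx0
    have h5 : √(x : ℝ) * √x ≤ √x * G := by rw [h3]; exact h2
    exact le_of_mul_le_mul_left h5 h4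
  have hGY : √(Y : ℝ) ≤ G := (Real.sqrt_le_sqrt hYx).trans hGx
  -- S
  have hScard0 : (0 : ℝ) < S.card := by
    by_contra h
    push Not at h
    have : (S.card : ℝ) * L ^ A ≤ 0 := mul_nonpos_of_nonpos_of_nonneg h (by positivity)
    linarith
  have hδL : 2 ≤ δ ^ 2 * L := by
    rw [div_le_iff₀ (by positivity)] at hL4
    linarith
  have hδL1 : 1 ≤ δ * L := by
    have : δ ^ 2 * L ≤ δ * L := by
      rw [sq, mul_assoc]
      exact mul_le_of_le_one_left (by positivity) (by linarith)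
    linarith
  have hyS : (y : ℝ) ≤ δ * S.card := by
    have h2 : (x : ℝ) ^ (1 / 3 : ℝ) ≤ (x : ℝ) ^ θ := Real.rpow_le_rpow_of_exponent_le hxr hθ.le
    have h3 : L ^ (A + 3) ≤ S.card * L ^ A := hc5.trans (h2.trans (hY1.trans hSc))
    have h4 : L ^ 3 ≤ S.card := by
      rw [pow_add, mul_comm] at h3
      exact le_of_mul_le_mul_right h3 (by positivity)
    calc (y : ℝ) ≤ L ^ 2 := hyL
      _ = 1 * L ^ 2 := by ring
      _ ≤ (δ * L) * L ^ 2 := mul_le_mul_of_nonneg_right hδL1 (by positivity)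
      _ = δ * L ^ 3 := by ring
      _ ≤ δ * S.card := mul_le_mul_of_nonneg_left h4 hδ.le
  have hS0 : 0 < S.card := by exact_mod_cast hScard0
  set S' := S.filter (fun s => y < s) with hS'
  have hS'S : S' ⊆ S := filter_subset _ _
  have hc : (S.card : ℝ) ≤ S'.card + y := by
    have h1 : S ⊆ S' ∪ Icc 1 y := by
      intro s hs
      rw [mem_union]
      by_cases h : y < s
      · left; rw [hS', mem_filter]; exact ⟨hs, h⟩
      · right; rw [mem_Icc]; have := (hSp s hs).one_lt; omega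
    have h2 := (card_le_card h1).trans (card_union_le _ _)
    rw [Nat.card_Icc, Nat.add_sub_cancel] at h2
    exact_mod_cast h2
  have hm2 : (S.card : ℝ) ≤ 2 * S'.card := by nlinarith
  have hm0 : (0 : ℝ) < S'.card := by linarith
  have hSr : ∀ s ∈ S', a < s ∧ s ≤ a + Y := fun s hs => mem_Ioc.1 (hS (hS'S hs))
  have hS''r : S'.image (fun s => s - a) ⊆ Icc 1 Y := by
    intro s hs
    rw [mem_image] at hs
    obtain ⟨t, ht, rfl⟩ := hs
    have := hSr t ht
    rw [mem_Icc]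
    omega
  have hinj : ∀ P : ℕ → Prop, ((S'.image (fun s => s - a)).filter (fun s => P (a + s))).card = (S'.filter P).card := by
    intro P
    rw [filter_image, card_image_of_injOn]
    · congr 1
      apply filter_congr
      intro s hs
      have := hSr s hs
      rw [show a + (s - a) = s by omega]
    · intro s hs t ht hst
      rw [mem_coe, mem_filter] at hs ht
      have h1 := hSr s hs.1
      have h2 := hSr t ht.1
      simp only at hst
      omega
  have hcard : ((S'.image (fun s => s - a)).card : ℝ) = S'.card := by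
    have := hinj (fun _ => True)
    rw [filter_true, filter_true] at this
    exact_mod_cast this
  have haM : a + Y ≤ M * g0 := haY.trans hg0
  -- the sieve
  have hlLog : Real.log l ≤ Real.log L := Real.log_le_log hl0 hlL
  have hr := hx1 Y hx1Y y z (by
      refine le_trans ?_ hy1
      exact mul_le_mul_of_nonneg_left hlLog (Nat.cast_nonneg _)) hyz (by
      refine hz2.trans ?_
      rw [pow_mul]
      exact pow_le_pow_left₀ hL0.le hLl _)
    (S'.image (fun s => s - a)) hS''r (by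
      rw [hcard]
      calc (Y : ℝ) ≤ S.card * L ^ A := hSc
        _ ≤ (2 * S'.card) * (l ^ 2) ^ A := mul_le_mul hm2 (pow_le_pow_left₀ hL0.le hLl _) (by positivity) (by positivity)
        _ = S'.card * (l ^ (2 * A) * 2) := by rw [← pow_mul]; ring
        _ ≤ S'.card * (l ^ (2 * A) * l) := by gcongr; linarith
        _ = S'.card * l ^ (2 * A + 1) := by rw [pow_succ]) M hMq (fun s => M * g0 - (a + s)) (by
      intro s hs t ht p w h1 h2
      have hs' := mem_Icc.1 (hS''r hs)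
      have ht' := mem_Icc.1 (hS''r ht)
      have h1 : p ∣ M * g0 - (a + s) + w := h1
      have h2 : p ∣ M * g0 - (a + t) + w := h2
      apply Dvd.dvd.mul_right
      rcases le_total s t with h | h
      · rw [Nat.dist_eq_sub_of_le h]
        have h3 := Nat.dvd_sub h1 h2
        rwa [show M * g0 - (a + s) + w - (M * g0 - (a + t) + w) = t - s by omega] at h3
      · rw [Nat.dist_eq_sub_of_le_right h]
        have h3 := Nat.dvd_sub h2 h1
        rwa [show M * g0 - (a + t) + w - (M * g0 - (a + s) + w) = s - t by omega] at h3) G hGY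
  have hrough : (((Icc 1 G).filter (fun g => ((S'.filter
      (fun s => ∀ p ∈ mid y z, ¬ p ∣ (M * g0 - s) + M * g)).card : ℝ) <
      (1 - δ) * ((S'.card : ℝ) * Vm y z))).card : ℝ) ≤ δ * G := by
    refine le_trans (le_of_eq ?_) hr
    have e : ∀ g, ((S'.image (fun s => s - a)).filter (fun s => ∀ p ∈ mid y z, ¬ p ∣ M * g0 - (a + s) + M * g)).card =
      (S'.filter (fun s => ∀ p ∈ mid y z, ¬ p ∣ (M * g0 - s) + M * g)).card :=
      fun g => by convert hinj (fun s => ∀ p ∈ mid y z, ¬ p ∣ (M * g0 - s) + M * g)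
    congr 2
    apply filter_congr
    intro g _
    rw [hcard, e g]
  -- the bilinear form
  have hrange : ∀ g ∈ Icc 1 G, M * g0 < M * (g0 + g) ∧ M * (g0 + g) ≤ 2 * x := by
    intro g hg
    rw [mem_Icc] at hg
    refine ⟨?_, le_trans (Nat.mul_le_mul_left _ (by omega)) hg1⟩
    rw [mul_add]
    have : 0 < M * g := Nat.mul_pos hM1 (by omega)
    omega
  have hHr : ∀ H : Finset ℕ, H ⊆ (Icc 1 G).image (fun g => M * (g0 + g)) → ∀ h ∈ H, M * g0 < h ∧ h ≤ 2 * x := by
    intro H hH h hh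
    obtain ⟨g, hg, rfl⟩ := mem_image.1 (hH hh)
    exact hrange g hg
  have hbil : ∀ H : Finset ℕ, H ⊆ (Icc 1 G).image (fun g => M * (g0 + g)) →
      -(x * Y / L ^ U) ≤ ∑ h ∈ H, ∑ s ∈ S', (ArithmeticFunction.vonMangoldt (h - s) - lamz z (h - s)) := by
    intro H hH
    have h1 := bilS z x Y (x * Y / L ^ U) (-(a : ℤ)) 1 (-1) H (S'.image (fun s => s - a)) (by
      intro h hh
      have := hHr H hH h hh
      rw [mem_Icc]
      omega) hS''r (fun Gf c hG hc => hN1 x b1 z hz1 hz2 Y hY1 (by omega) (-(a : ℤ)) 1 (-1) (by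
        rw [abs_neg, Nat.abs_cast]
        have : a ≤ x := by omega
        have : (a : ℤ) ≤ x := by exact_mod_cast this
        have : (0 : ℤ) ≤ x := by positivity
        linarith) (Or.inl rfl) (Or.inr rfl) Gf c hG hc)
    refine h1.trans (le_of_eq ?_)
    apply sum_congr rfl
    intro h hh
    have h2 := hHr H hH h hh
    rw [sum_image]
    · apply sum_congr rfl
      intro s hs
      have h3 := hSr s hs
      have e1 : (-(a : ℤ) + 1 * (h : ℤ) + (-1) * ((s - a : ℕ) : ℤ)) = (h : ℤ) - s := by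
        push_cast [Nat.cast_sub h3.1.le]
        ring
      rw [e1, Ed_sub z h s (by omega)]
    · intro s hs t ht hst
      have h3 := hSr s hs
      have h4 := hSr t ht
      simp only at hst
      omega
  have hR : (x : ℝ) * Y / L ^ U ≤ (δ * G) * (δ * (S'.card : ℝ)) := by
    rw [div_le_iff₀ (by positivity)]
    calc (x : ℝ) * Y ≤ (L ^ (C + 2 * K1) * G) * ((2 * S'.card) * L ^ A) := by
          apply mul_le_mul hNG _ hY0.le (by positivity)
          exact hSc.trans (mul_le_mul_of_nonneg_right hm2 (by positivity))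
      _ = (G * S'.card * L ^ (A + C + 2 * K1)) * 2 := by rw [add_assoc A, pow_add L A]; ring
      _ ≤ (G * S'.card * L ^ (A + C + 2 * K1)) * (δ ^ 2 * L) := mul_le_mul_of_nonneg_left hδL (by positivity)
      _ = (δ * G) * (δ * S'.card) * L ^ (A + C + 2 * K1 + 1) := by rw [pow_succ]; ring
      _ ≤ (δ * G) * (δ * S'.card) * L ^ U := by
          apply mul_le_mul_of_nonneg_left _ (by positivity)
          exact pow_le_pow_right₀ (by linarith) (by omega)
  -- prime powers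
  have hPPb : 2 * √((2 * x : ℕ) : ℝ) * Real.log ((2 * x : ℕ) : ℝ) ≤ δ ^ 2 * G := by
    have h1 : Real.log ((2 * x : ℕ) : ℝ) ≤ 2 * L := by
      push_cast
      rw [Real.log_mul (by norm_num) hx0.ne']
      have := Real.log_two_lt_d9
      linarith
    have h2 : √((2 * x : ℕ) : ℝ) ≤ 2 * √(x : ℝ) := by
      rw [show (2 : ℝ) * √(x : ℝ) = √((4 * x : ℝ)) by
        rw [Real.sqrt_mul (by norm_num), show (4 : ℝ) = 2 ^ 2 by norm_num, Real.sqrt_sq (by norm_num)]]
      apply Real.sqrt_le_sqrt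
      push_cast
      linarith
    have hsx : 0 < √(x : ℝ) := Real.sqrt_pos.2 hx0
    have h4 : √(x : ℝ) * √(x : ℝ) = x := Real.mul_self_sqrt hx0.le
    have h5 : 24 * L ^ (C + 2 * K1 + A + 2) ≤ δ ^ 2 * √(x : ℝ) := by
      have := hc4
      rw [div_mul_eq_mul_div, div_le_iff₀ (by positivity)] at this
      linarith
    have h6 : L ^ (C + 2 * K1) * L ≤ L ^ (C + 2 * K1 + A + 2) := by
      rw [← pow_succ]
      exact pow_le_pow_right₀ (by linarith) (by omega)
    have h7 : √(x : ℝ) * (24 * (L ^ (C + 2 * K1) * L)) ≤ δ ^ 2 * (L ^ (C + 2 * K1) * G) := by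
      calc √(x : ℝ) * (24 * (L ^ (C + 2 * K1) * L)) ≤ √(x : ℝ) * (24 * L ^ (C + 2 * K1 + A + 2)) := by gcongr
        _ ≤ √(x : ℝ) * (δ ^ 2 * √(x : ℝ)) := mul_le_mul_of_nonneg_left h5 hsx.le
        _ = δ ^ 2 * (√(x : ℝ) * √(x : ℝ)) := by ring
        _ = δ ^ 2 * x := by rw [h4]
        _ ≤ _ := mul_le_mul_of_nonneg_left hNG (by positivity)
    have h8 : 24 * (√(x : ℝ) * L) ≤ δ ^ 2 * G := by
      have h9 : 0 < L ^ (C + 2 * K1) := by positivity
      have h10 : L ^ (C + 2 * K1) * (24 * (√(x : ℝ) * L)) ≤ L ^ (C + 2 * K1) * (δ ^ 2 * G) := by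
        refine le_trans (le_of_eq ?_) (h7.trans (le_of_eq ?_)) <;> ring
      exact le_of_mul_le_mul_left h10 h9
    have h11 : 0 ≤ Real.log ((2 * x : ℕ) : ℝ) := Real.log_natCast_nonneg _
    calc 2 * √((2 * x : ℕ) : ℝ) * Real.log ((2 * x : ℕ) : ℝ) ≤ (2 * (2 * √(x : ℝ))) * (2 * L) := by
          apply mul_le_mul _ h1 h11 (by positivity)
          linarith
      _ = 8 * (√(x : ℝ) * L) := by ring
      _ ≤ 24 * (√(x : ℝ) * L) := by
          apply mul_le_mul_of_nonneg_right (by norm_num) (by positivity)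
      _ ≤ _ := h8
  have hPP : ∀ H : Finset ℕ, H ⊆ (Icc 1 G).image (fun g => M * (g0 + g)) →
      ∑ h ∈ H, ∑ s ∈ S', (if (h - s).Prime then (0 : ℝ) else ArithmeticFunction.vonMangoldt (h - s)) ≤
        (δ * G) * (δ * (S'.card : ℝ)) := by
    intro H hH
    rw [sum_comm]
    calc ∑ s ∈ S', ∑ h ∈ H, (if (h - s).Prime then (0 : ℝ) else ArithmeticFunction.vonMangoldt (h - s)) ≤
          ∑ _s ∈ S', (δ ^ 2 * G) := by
          apply sum_le_sum
          intro s hs
          refine le_trans (ppone x s b7 H ?_) hPPb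
          intro h hh
          have h2 := hHr H hH h hh
          have h3 := hSr s hs
          omega
      _ = (δ * G) * (δ * (S'.card : ℝ)) := by rw [sum_const, nsmul_eq_mul]; ring
  have hfin := conv S x y z M G g0 δ (x * Y / L ^ U) hδ hδ1 hS0 hSp hyS hL0 (by
      rw [div_le_iff₀ hδ] at hL5
      linarith) hM1 hyz (by
      intro s hs
      have := mem_Ioc.1 (hS hs)
      omega) hMp hg1 hrough hbil hR hPP
  have e5 : 5 * δ = ε := by rw [hδd]; ring
  rw [e5] at hfin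
  refine hfin.trans ?_
  apply mul_le_mul_of_nonneg_right _ hG0
  rw [hδd]
  linarith

end Pool.Agent.H43.MA.Fin
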