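import Pool.Agent.H43.MA.Dfs
import Pool.Agent.H43.G.R_seed8.Y877.SxM

/-! # Project MA (helper43): several windows, for fixed parameters -/

set_option autoImplicit false

namespace Pool.Agent.H43.MA.Fin

open Finset Pool.Agent.H373R2.T7

open Classical in
/-- the exceptional multiples in one window -/
noncomputable def Bad (ε : ℝ) (S : Finset ℕ) (x y g0 G : ℕ) : Finset ℕ :=
  (Icc 1 G).filter (fun g => ((S.filter (fun s => (primorial y * (g0 + g) - s).Prime)).card : ℝ) <
      (1 - ε) * (S.card / (Vz y * Real.log x)))

open Classical in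
lemma Bad_mono {ε ε' : ℝ} (h : ε' ≤ ε) (S : Finset ℕ) (x y g0 G : ℕ) (hx : 0 ≤ Real.log x) : Bad ε S x y g0 G ⊆ Bad ε' S x y g0 G := by
  intro g hg
  unfold Bad at hg ⊢
  rw [mem_filter] at hg ⊢
  refine ⟨hg.1, lt_of_lt_of_le hg.2 ?_⟩
  apply mul_le_mul_of_nonneg_right (by linarith)
  have := Vz_pos y
  positivity

theorem multiG (x y : ℕ) (T : Finset ℕ) (q : ℝ) (W : ℕ → ℕ → Prop) (hL2 : 3 ≤ Real.log x) (k : ℕ) :
    ∀ (A : ℕ) (ε : ℝ), 0 < ε → ε ≤ 1 →
    (∀ S : Finset ℕ, S ⊆ T → q ≤ S.card * Real.log x ^ (A + k) → ∀ g0 G : ℕ, W g0 G →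
      ((Bad (ε / 2 ^ k) S x y g0 G).card : ℝ) ≤ ε / 2 ^ k * G) →
    ∀ S : Finset ℕ, S ⊆ T → q ≤ S.card * Real.log x ^ A → ∀ g G : Fin k → ℕ, (∀ i, W (g i) (G i)) →
      ((Exc ε S x y g G).card : ℝ) ≤ ε * ∏ i, (G i : ℝ) := by
  classical
  have hV : V y = Vz y := rfl
  have hV0 : 0 < V y := by rw [hV]; exact Vz_pos y
  have hV1 : V y ≤ 1 := by rw [hV]; exact Vz_le_one y
  set L := Real.log x with hLd
  have hL0 : 0 < L := by linarith
  have hL1 : 1 ≤ L := by linarith
  have hVL : 0 < V y * L := by positivity
  have hVL1 : V y * L ≤ L := by nlinarith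
  induction k with
  | zero =>
    intro A ε hε hε1 hstep S hS hSc g G hW
    have h : Exc ε S x y g G = ∅ := by
      unfold Exc
      rw [filter_eq_empty_iff]
      intro m _ h
      have e : Rep S (fun i : Fin 0 => primorial y * (g i + m i)) = S := by
        unfold Rep
        rw [filter_true_of_mem]
        intro p _ i
        exact i.elim0
      rw [e, pow_zero, div_one] at h
      have : (0 : ℝ) ≤ S.card := Nat.cast_nonneg _
      nlinarith
    rw [h, card_empty]
    simp [hε.le]
  | succ k ih =>
    intro A ε hε hε1 hstep S hS hSc g G hW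
    have hpk : (1 : ℝ) ≤ 2 ^ k := one_le_pow₀ (by norm_num)
    have e2k : ε / 2 / 2 ^ k = ε / 2 ^ (k + 1) := by rw [pow_succ]; field_simp
    have hle2 : ε / 2 ^ (k + 1) ≤ ε / 2 := by
      rw [pow_succ]
      apply div_le_div_of_nonneg_left hε.le (by norm_num)
      linarith
    -- the first `k` coordinates
    set g' : Fin k → ℕ := Fin.init g with hg'
    set G' : Fin k → ℕ := Fin.init G with hG'
    have h1 := ih A (ε / 2) (by positivity) (by linarith) (by
      intro S' hS' hc g0 G0 hw
      rw [e2k]
      exact hstep S' hS' (hc.trans (mul_le_mul_of_nonneg_left (pow_le_pow_right₀ hL1 (by omega)) (Nat.cast_nonneg _))) g0 G0 hw)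
      S hS hSc g' G' (fun i => hW i.castSucc)
    set B := Exc (ε / 2) S x y g' G' with hB
    set D : Finset (Fin k → ℕ) := (Fintype.piFinset fun i => Icc 1 (G' i)) with hD
    set last : (Fin k → ℕ) → Finset ℕ := fun m => Bad (ε / 2) (Rep S (fun i => primorial y * (g' i + m i))) x y
      (g (Fin.last k)) (G (Fin.last k)) with hlast
    -- good vectors
    have hgood : ∀ m ∈ D \ B, ((last m).card : ℝ) ≤ ε / 2 * G (Fin.last k) ∧
        (1 - ε / 2) * (S.card / (V y * L) ^ k) ≤ ((Rep S (fun i => primorial y * (g' i + m i))).card : ℝ) := by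
      intro m hm
      rw [mem_sdiff] at hm
      have h2 : (1 - ε / 2) * (S.card / (V y * L) ^ k) ≤
          ((Rep S (fun i => primorial y * (g' i + m i))).card : ℝ) := by
        by_contra hcon
        push Not at hcon
        exact hm.2 (mem_filter.2 ⟨hm.1, hcon⟩)
      refine ⟨?_, h2⟩
      have h3 : q ≤ (Rep S (fun i => primorial y * (g' i + m i))).card * L ^ (A + (k + 1)) := by
        have h4 : (1 / 2 : ℝ) * (S.card / L ^ k) ≤ (Rep S (fun i => primorial y * (g' i + m i))).card := by
          refine le_trans ?_ h2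
          apply mul_le_mul (by linarith) _ (by positivity) (by linarith)
          exact div_le_div_of_nonneg_left (Nat.cast_nonneg _) (by positivity)
            (pow_le_pow_left₀ hVL.le hVL1 k)
        calc q ≤ S.card * L ^ A := hSc
          _ = 1 / 2 * (S.card / L ^ k) * (L ^ (A + k) * 2) := by
              rw [pow_add]
              field_simp
          _ ≤ 1 / 2 * (S.card / L ^ k) * (L ^ (A + k) * L) := by
              apply mul_le_mul_of_nonneg_left _ (by positivity)
              exact mul_le_mul_of_nonneg_left (by linarith) (by positivity)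
          _ ≤ (Rep S (fun i => primorial y * (g' i + m i))).card * (L ^ (A + k) * L) :=
              mul_le_mul_of_nonneg_right h4 (by positivity)
          _ = _ := by rw [← pow_succ L (A + k), add_assoc]
      have h5 := hstep (Rep S (fun i => primorial y * (g' i + m i))) ((filter_subset _ _).trans hS) h3
        (g (Fin.last k)) (G (Fin.last k)) (hW (Fin.last k))
      calc ((last m).card : ℝ) ≤ ((Bad (ε / 2 ^ (k + 1)) (Rep S (fun i => primorial y * (g' i + m i))) x y
            (g (Fin.last k)) (G (Fin.last k))).card : ℝ) := by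
            exact_mod_cast card_le_card (Bad_mono hle2 _ _ _ _ _ hL0.le)
        _ ≤ ε / 2 ^ (k + 1) * G (Fin.last k) := h5
        _ ≤ ε / 2 * G (Fin.last k) := mul_le_mul_of_nonneg_right hle2 (Nat.cast_nonneg _)
    -- the exceptional set
    set T' : Finset ((Fin k → ℕ) × ℕ) := (B ×ˢ Icc 1 (G (Fin.last k))) ∪
      ((D \ B).biUnion fun m => ({m} : Finset (Fin k → ℕ)) ×ˢ last m) with hT
    have hinj : (Exc ε S x y g G).card ≤ T'.card := by
      refine card_le_card_of_injOn (fun f => (Fin.init f, f (Fin.last k))) ?_ ?_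
      · intro f hf
        rw [mem_coe] at hf ⊢
        unfold Exc at hf
        rw [mem_filter, Fintype.mem_piFinset] at hf
        obtain ⟨hf1, hf2⟩ := hf
        have hfD : Fin.init f ∈ D := by
          rw [hD, Fintype.mem_piFinset]
          exact fun i => hf1 i.castSucc
        rw [hT, mem_union]
        by_cases hfB : Fin.init f ∈ B
        · left
          exact mem_product.2 ⟨hfB, hf1 _⟩
        · right
          rw [mem_biUnion]
          refine ⟨Fin.init f, mem_sdiff.2 ⟨hfD, hfB⟩, mem_product.2 ⟨mem_singleton_self _, ?_⟩⟩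
          obtain ⟨-, h5⟩ := hgood _ (mem_sdiff.2 ⟨hfD, hfB⟩)
          rw [hlast]
          simp only
          unfold Bad
          rw [mem_filter]
          refine ⟨hf1 _, ?_⟩
          have e1 : (Rep S (fun i => primorial y * (g' i + Fin.init f i))).filter
              (fun s => (primorial y * (g (Fin.last k) + f (Fin.last k)) - s).Prime) =
              Rep S (fun i => primorial y * (g i + f i)) := by
            unfold Rep
            rw [filter_filter]
            apply filter_congr
            intro s _
            rw [Fin.forall_fin_succ']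
            rfl
          rw [e1]
          refine lt_of_lt_of_le hf2 ?_
          have e2 : Vz y * L = V y * L := by
            rw [hV]
          rw [e2]
          calc (1 - ε) * ((S.card : ℝ) / (V y * L) ^ (k + 1))
              ≤ (1 - ε / 2) * (1 - ε / 2) * ((S.card : ℝ) / (V y * L) ^ (k + 1)) := by
                apply mul_le_mul_of_nonneg_right _ (by positivity)
                nlinarith
            _ = (1 - ε / 2) * ((1 - ε / 2) * ((S.card : ℝ) / (V y * L) ^ k) / (V y * L)) := by
                rw [pow_succ]
                field_simp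
            _ ≤ _ := by
                apply mul_le_mul_of_nonneg_left _ (by linarith)
                exact div_le_div_of_nonneg_right h5 hVL.le
      · intro f _ f' _ h
        simp only [Prod.mk.injEq] at h
        rw [← Fin.snoc_init_self f, ← Fin.snoc_init_self f', h.1, h.2]
    have hTc : (T'.card : ℝ) ≤ ε * ∏ i, (G i : ℝ) := by
      have hDc : (D.card : ℝ) = ∏ i : Fin k, (G' i : ℝ) := by
        rw [hD, Fintype.card_piFinset]
        push_cast
        refine prod_congr rfl fun i _ => ?_
        rw [Nat.card_Icc, Nat.add_sub_cancel]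
      have hG0 : (0 : ℝ) ≤ G (Fin.last k) := Nat.cast_nonneg _
      have h6 : T'.card ≤ B.card * G (Fin.last k) + ∑ m ∈ D \ B, (last m).card := by
        refine (card_union_le _ _).trans (Nat.add_le_add ?_ ?_)
        · rw [card_product, Nat.card_Icc, Nat.add_sub_cancel]
        · refine card_biUnion_le.trans (le_of_eq ?_)
          refine sum_congr rfl fun m _ => ?_
          rw [card_product, card_singleton, one_mul]
      have h7 : (T'.card : ℝ) ≤ B.card * G (Fin.last k) + ∑ m ∈ D \ B, ((last m).card : ℝ) := by
        exact_mod_cast h6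
      have h8 : ∑ m ∈ D \ B, ((last m).card : ℝ) ≤ D.card * (ε / 2 * G (Fin.last k)) := by
        refine (sum_le_sum fun m hm => (hgood m hm).1).trans ?_
        rw [sum_const, nsmul_eq_mul]
        apply mul_le_mul_of_nonneg_right _ (by positivity)
        exact_mod_cast card_le_card sdiff_subset
      have h9 : (B.card : ℝ) ≤ ε / 2 * ∏ i : Fin k, (G' i : ℝ) := h1
      rw [Fin.prod_univ_castSucc]
      have e3 : ∏ i : Fin k, (G i.castSucc : ℝ) = ∏ i : Fin k, (G' i : ℝ) := rfl
      rw [e3]
      rw [hDc] at h8
      have h10 := mul_le_mul_of_nonneg_right h9 hG0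
      nlinarith
    exact le_trans (by exact_mod_cast hinj) hTc

end Pool.Agent.H43.MA.Fin
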