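import Pool.Agent.H43.MA.Fin3
import Pool.Agent.H43.MA.Rg4

/-! # Project MA (helper43): one short window -/

set_option autoImplicit false

namespace Pool.Agent.H43.MA.Fin

open Finset Filter Pool.Agent.H373R2.T7 Pool.Agent.Y877.SX
open Pool.Agent.helper24_UT (Ed)
open Pool.Agent.H442R2.EHI (evt_log_pow evt_log_ge)

set_option maxHeartbeats 1000000 in
open Classical in
theorem stepB (hB : S_BILX) (θ : ℝ) (hθ : 1 / 3 < θ) (A : ℕ) (ε : ℝ) (hε : 0 < ε) (hε1 : ε ≤ 1) : ∃ K0 : ℕ, ∀ K1 : ℕ,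
    ∃ x0 : ℕ, ∀ x : ℕ, x0 ≤ x →
    ∀ y : ℕ, K0 * Real.log (Real.log x) ≤ y → y ≤ K1 * Real.log (Real.log x) →
    ∀ S : Finset ℕ, S ⊆ Icc 1 x → (∀ s ∈ S, s.Prime) → (x : ℝ) ≤ S.card * Real.log x ^ A →
    ∀ g0 G : ℕ, x ≤ primorial y * g0 → primorial y * (g0 + G) ≤ 2 * x → (x : ℝ) ^ θ ≤ primorial y * G →
    (((Icc 1 G).filter (fun g => ((S.filter (fun s => (primorial y * (g0 + g) - s).Prime)).card : ℝ) <
      (1 - ε) * (S.card / (Vz y * Real.log x)))).card : ℝ) ≤ ε * G := by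
  obtain ⟨δ, hδd⟩ : ∃ δ, δ = ε / 5 := ⟨_, rfl⟩
  have hδ : 0 < δ := by rw [hδd]; positivity
  have hδ1 : δ ≤ 1 / 5 := by rw [hδd]; linarith
  obtain ⟨K0, hK01, hrm⟩ := rough4 (A + 1) δ δ hδ hδ
  refine ⟨K0, fun K1 => ?_⟩
  set U := A + 2 * K1 + 1 with hU
  obtain ⟨E0, hE0⟩ := hB θ hθ U
  obtain ⟨N1, hN1⟩ := hE0 (E0 + 3)
  obtain ⟨x1, hx1⟩ := hrm (E0 + 3)
  obtain ⟨x2, hx2⟩ := ev_L' (max (max (Real.exp 1) 27) (max (max 4 (K1 : ℝ)) (max (2 / δ ^ 2) (Real.log 2 / δ))))
  obtain ⟨x3, hx3⟩ := eventually_atTop.1 (evt_log_pow (2 * K1) (1 / 12) (by norm_num))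
  obtain ⟨x4, hx4⟩ := ev_log' (A + 1) (16 / δ ^ 2)
  obtain ⟨x5, hx5⟩ := eventually_atTop.1 (evt_log_pow (A + 3) 1 (by norm_num))
  refine ⟨max (max N1 x1) (max x2 (max x3 (max x4 (max x5 1)))), fun x hx y hy1 hy2 S hS hSp hSc g0 G hg0 hg1 hg2 => ?_⟩
  have b1 : N1 ≤ x := le_trans (le_trans (le_max_left _ _) (le_max_left _ _)) hx
  have b6 : x1 ≤ x := le_trans (le_trans (le_max_right _ _) (le_max_left _ _)) hx
  have b' := le_trans (le_max_right _ _) hx
  have b2 : x2 ≤ x := le_trans (le_max_left _ _) b'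
  have b3 : x3 ≤ x := le_trans (le_trans (le_max_left _ _) (le_max_right _ _)) b'
  have b4 : x4 ≤ x := le_trans (le_trans (le_trans (le_max_left _ _) (le_max_right _ _)) (le_max_right _ _)) b'
  have b5 : x5 ≤ x := le_trans (le_trans (le_trans (le_trans (le_max_left _ _) (le_max_right _ _)) (le_max_right _ _)) (le_max_right _ _)) b'
  have b7 : 1 ≤ x := le_trans (le_trans (le_trans (le_trans (le_max_right _ _) (le_max_right _ _)) (le_max_right _ _)) (le_max_right _ _)) b'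
  have hL := hx2 x b2
  have hc3 := hx3 x b3
  have hc4 := hx4 x b4
  have hc5 := hx5 x b5
  set L := Real.log x with hLd
  have hL1 : Real.exp 1 ≤ L := ((le_max_left _ _).trans (le_max_left _ _)).trans hL
  have hL27 : 27 ≤ L := ((le_max_right _ _).trans (le_max_left _ _)).trans hL
  have hLr := (le_max_right _ _).trans hL
  have hL2 : 4 ≤ L := (((le_max_left _ _).trans (le_max_left _ _))).trans hLr
  have hL3 : (K1 : ℝ) ≤ L := ((le_max_right _ _).trans (le_max_left _ _)).trans hLr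
  have hL4 : 2 / δ ^ 2 ≤ L := ((le_max_left _ _).trans (le_max_right _ _)).trans hLr
  have hL5 : Real.log 2 / δ ≤ L := ((le_max_right _ _).trans (le_max_right _ _)).trans hLr
  have hL0 : 0 < L := by linarith
  have hxr : (1 : ℝ) ≤ x := by exact_mod_cast b7
  have hx0 : (0 : ℝ) < x := by linarith
  rw [Real.rpow_one] at hc5
  -- z
  obtain ⟨z, hz1, hzL, hz2⟩ := z_ex L E0 hL2
  obtain ⟨M, hMd⟩ : ∃ M, M = primorial y := ⟨_, rfl⟩
  have hML : (M : ℝ) ≤ L ^ (2 * K1) := by rw [hMd]; exact primorial_le_log K1 y L hL1 hy2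
  have hM1 : 1 ≤ M := by rw [hMd]; exact primorial_pos y
  rw [← hMd] at hg0 hg1 hg2 ⊢
  have hMp : ∀ p : ℕ, p.Prime → p ≤ y → p ∣ M := fun p hp hpy => by
    rw [hMd]
    exact hp.dvd_primorial_iff.2 hpy
  have hMq : ∀ p ∈ mid y z, ¬ p ∣ M := fun p hp hd => by
    rw [hMd, (mem_mid.1 hp).2.2.dvd_primorial_iff] at hd
    have := (mem_mid.1 hp).1
    omega
  -- y
  have hyL : (y : ℝ) ≤ L ^ 2 := by
    have h1 : Real.log L ≤ L := (Real.log_le_sub_one_of_pos hL0).trans (by linarith)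
    have hlL1 : 1 ≤ Real.log L := by
      rw [← Real.log_exp 1]
      exact Real.log_le_log (Real.exp_pos 1) hL1
    calc (y : ℝ) ≤ K1 * Real.log L := hy2
      _ ≤ L * L := mul_le_mul hL3 h1 (by linarith) hL0.le
      _ = L ^ 2 := by ring
  have hyz : y ≤ z := by
    have hy3 : (y : ℝ) ≤ z := hyL.trans hzL
    exact_mod_cast hy3
  -- G
  have hG0 : (0 : ℝ) ≤ G := Nat.cast_nonneg G
  have hM0 : (0 : ℝ) < M := by exact_mod_cast hM1
  have hGx : √√(x : ℝ) ≤ G := by
    have e4 : √√(x : ℝ) = (x : ℝ) ^ (1 / 4 : ℝ) := by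
      rw [Real.sqrt_eq_rpow, Real.sqrt_eq_rpow, ← Real.rpow_mul hx0.le]
      norm_num
    rw [e4]
    have h1 : (x : ℝ) ^ (1 / 3 : ℝ) ≤ (x : ℝ) ^ (1 / 12 : ℝ) * G := by
      calc (x : ℝ) ^ (1 / 3 : ℝ) ≤ (x : ℝ) ^ θ := Real.rpow_le_rpow_of_exponent_le hxr hθ.le
        _ ≤ M * G := hg2
        _ ≤ L ^ (2 * K1) * G := mul_le_mul_of_nonneg_right hML hG0
        _ ≤ _ := mul_le_mul_of_nonneg_right hc3 hG0
    have h2 : (x : ℝ) ^ (1 / 3 : ℝ) = (x : ℝ) ^ (1 / 12 : ℝ) * (x : ℝ) ^ (1 / 4 : ℝ) := by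
      rw [← Real.rpow_add hx0]
      norm_num
    rw [h2] at h1
    exact le_of_mul_le_mul_left h1 (by positivity)
  -- S
  have hScard0 : (0 : ℝ) < S.card := by
    by_contra h
    push Not at h
    have : (S.card : ℝ) * L ^ A ≤ 0 := mul_nonpos_of_nonpos_of_nonneg h (by positivity)
    linarith
  have hδL : 2 ≤ δ ^ 2 * L := by
    rw [div_le_iff₀ (by positivity)] at hL4
    linarith
  have hδL1 : 1 ≤ δ * L := by
    have : δ ^ 2 * L ≤ δ * L := by
      rw [sq, mul_assoc]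
      exact mul_le_of_le_one_left (by positivity) (by linarith)
    linarith
  have hyS : (y : ℝ) ≤ δ * S.card := by
    have h3 : L ^ (A + 3) ≤ S.card * L ^ A := hc5.trans hSc
    have h4 : L ^ 3 ≤ S.card := by
      rw [pow_add, mul_comm] at h3
      exact le_of_mul_le_mul_right h3 (by positivity)
    calc (y : ℝ) ≤ L ^ 2 := hyL
      _ = 1 * L ^ 2 := by ring
      _ ≤ (δ * L) * L ^ 2 := mul_le_mul_of_nonneg_right hδL1 (by positivity)
      _ = δ * L ^ 3 := by ring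
      _ ≤ δ * S.card := mul_le_mul_of_nonneg_left h4 hδ.le
  have hS0 : 0 < S.card := by exact_mod_cast hScard0
  set S' := S.filter (fun s => y < s) with hS'
  have hS'S : S' ⊆ S := filter_subset _ _
  have hc : (S.card : ℝ) ≤ S'.card + y := by
    have h1 : S ⊆ S' ∪ Icc 1 y := by
      intro s hs
      rw [mem_union]
      by_cases h : y < s
      · left; rw [hS', mem_filter]; exact ⟨hs, h⟩
      · right; rw [mem_Icc]; have := (hSp s hs).one_lt; omega
    have h2 := (card_le_card h1).trans (card_union_le _ _)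
    rw [Nat.card_Icc, Nat.add_sub_cancel] at h2
    exact_mod_cast h2
  have hm2 : (S.card : ℝ) ≤ 2 * S'.card := by nlinarith
  have hm0 : (0 : ℝ) < S'.card := by linarith
  have hSr : ∀ s ∈ S', 1 ≤ s ∧ s ≤ x := fun s hs => mem_Icc.1 (hS (hS'S hs))
  have hSx : (x : ℝ) ≤ 2 * S'.card * L ^ A := hSc.trans (mul_le_mul_of_nonneg_right hm2 (by positivity))
  -- the sieve
  have hr := hx1 x b6 y z hy1 hyz hz2 S' (hS'S.trans hS) (by
      calc (x : ℝ) ≤ 2 * S'.card * L ^ A := hSx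
        _ = S'.card * (L ^ A * 2) := by ring
        _ ≤ S'.card * (L ^ A * L) := by gcongr; linarith
        _ = S'.card * L ^ (A + 1) := by rw [pow_succ]) M hMq (fun s => M * g0 - s) (by
      intro s hs t ht p w h1 h2
      have hs' := hSr s hs
      have ht' := hSr t ht
      have h1 : p ∣ M * g0 - s + w := h1
      have h2 : p ∣ M * g0 - t + w := h2
      apply Dvd.dvd.mul_right
      rcases le_total s t with h | h
      · rw [Nat.dist_eq_sub_of_le h]
        have h3 := Nat.dvd_sub h1 h2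
        rwa [show M * g0 - s + w - (M * g0 - t + w) = t - s by omega] at h3
      · rw [Nat.dist_eq_sub_of_le_right h]
        have h3 := Nat.dvd_sub h2 h1
        rwa [show M * g0 - t + w - (M * g0 - s + w) = s - t by omega] at h3) G hGx
  -- the bilinear form
  have hrange : ∀ g ∈ Icc 1 G, M * g0 < M * (g0 + g) ∧ M * (g0 + g) ≤ M * g0 + M * G := by
    intro g hg
    rw [mem_Icc] at hg
    have h1 : 0 < M * g := Nat.mul_pos hM1 (by omega)
    have h2 : M * g ≤ M * G := Nat.mul_le_mul_left _ hg.2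
    rw [mul_add]
    omega
  have hHr : ∀ H : Finset ℕ, H ⊆ (Icc 1 G).image (fun g => M * (g0 + g)) → ∀ h ∈ H, M * g0 < h ∧ h ≤ M * g0 + M * G := by
    intro H hH h hh
    obtain ⟨g, hg, rfl⟩ := mem_image.1 (hH hh)
    exact hrange g hg
  have hMG : M * g0 + M * G ≤ 2 * x := by rw [← mul_add]; exact hg1
  have hbil : ∀ H : Finset ℕ, H ⊆ (Icc 1 G).image (fun g => M * (g0 + g)) →
      -(x * (M * G : ℕ) / L ^ U) ≤ ∑ h ∈ H, ∑ s ∈ S', (ArithmeticFunction.vonMangoldt (h - s) - lamz z (h - s)) := by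
    intro H hH
    have h1 := bilS z x (M * G) (x * (M * G : ℕ) / L ^ U) ((M * g0 : ℕ) : ℤ) (-1) 1 S' (H.image (fun h => h - M * g0)) (by
      intro s hs
      have := hSr s hs
      rw [mem_Icc]
      omega) (by
      intro v hv
      rw [mem_image] at hv
      obtain ⟨h, hh, rfl⟩ := hv
      have := hHr H hH h hh
      rw [mem_Icc]
      omega) (fun Gf c hG hc => hN1 x b1 z hz1 hz2 (M * G) (by push_cast; exact hg2) (by omega)
        ((M * g0 : ℕ) : ℤ) (-1) 1 (by
        rw [Nat.abs_cast]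
        have : M * g0 ≤ 3 * x := by omega
        exact_mod_cast this) (Or.inr rfl) (Or.inl rfl) Gf c hG hc)
    refine h1.trans (le_of_eq ?_)
    rw [sum_comm]
    rw [sum_image]
    · apply sum_congr rfl
      intro h hh
      have h2 := hHr H hH h hh
      apply sum_congr rfl
      intro s hs
      have h3 := hSr s hs
      have e1 : (((M * g0 : ℕ) : ℤ) + (-1) * (s : ℤ) + 1 * ((h - M * g0 : ℕ) : ℤ)) = (h : ℤ) - s := by
        rw [Nat.cast_sub h2.1.le]
        ring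
      rw [e1, Ed_sub z h s (by omega)]
    · intro s hs t ht hst
      have h3 := hHr H hH s hs
      have h4 := hHr H hH t ht
      simp only at hst
      omega
  have hR : (x : ℝ) * (M * G : ℕ) / L ^ U ≤ (δ * G) * (δ * (S'.card : ℝ)) := by
    rw [div_le_iff₀ (by positivity)]
    push_cast
    calc (x : ℝ) * (M * G) ≤ (2 * S'.card * L ^ A) * (L ^ (2 * K1) * G) := by
          apply mul_le_mul hSx _ (by positivity) (by positivity)
          exact mul_le_mul_of_nonneg_right hML hG0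
      _ = (G * S'.card * L ^ (A + 2 * K1)) * 2 := by rw [pow_add L A]; ring
      _ ≤ (G * S'.card * L ^ (A + 2 * K1)) * (δ ^ 2 * L) := mul_le_mul_of_nonneg_left hδL (by positivity)
      _ = (δ * G) * (δ * S'.card) * L ^ U := by rw [hU, pow_succ]; ring
  -- prime powers
  have hPPb : 2 * √((2 * x : ℕ) : ℝ) * Real.log ((2 * x : ℕ) : ℝ) ≤ δ ^ 2 * S'.card := by
    have h1 : Real.log ((2 * x : ℕ) : ℝ) ≤ 2 * L := by
      push_cast
      rw [Real.log_mul (by norm_num) hx0.ne']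
      have := Real.log_two_lt_d9
      linarith
    have h2 : √((2 * x : ℕ) : ℝ) ≤ 2 * √(x : ℝ) := by
      rw [show (2 : ℝ) * √(x : ℝ) = √((4 * x : ℝ)) by
        rw [Real.sqrt_mul (by norm_num), show (4 : ℝ) = 2 ^ 2 by norm_num, Real.sqrt_sq (by norm_num)]]
      apply Real.sqrt_le_sqrt
      push_cast
      linarith
    have hsx : 0 < √(x : ℝ) := Real.sqrt_pos.2 hx0
    have h4 : √(x : ℝ) * √(x : ℝ) = x := Real.mul_self_sqrt hx0.le
    have h5 : 16 * L ^ (A + 1) ≤ δ ^ 2 * √(x : ℝ) := by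
      have := hc4
      rw [div_mul_eq_mul_div, div_le_iff₀ (by positivity)] at this
      linarith
    have h7 : √(x : ℝ) * (16 * L ^ (A + 1)) ≤ δ ^ 2 * (2 * S'.card * L ^ A) := by
      calc √(x : ℝ) * (16 * L ^ (A + 1)) ≤ √(x : ℝ) * (δ ^ 2 * √(x : ℝ)) := mul_le_mul_of_nonneg_left h5 hsx.le
        _ = δ ^ 2 * (√(x : ℝ) * √(x : ℝ)) := by ring
        _ = δ ^ 2 * x := by rw [h4]
        _ ≤ _ := mul_le_mul_of_nonneg_left hSx (by positivity)
    have h8 : 8 * (√(x : ℝ) * L) ≤ δ ^ 2 * S'.card := by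
      have h9 : 0 < 2 * L ^ A := by positivity
      have h10 : (2 * L ^ A) * (8 * (√(x : ℝ) * L)) ≤ (2 * L ^ A) * (δ ^ 2 * S'.card) := by
        refine le_trans (le_of_eq ?_) (h7.trans (le_of_eq ?_))
        · rw [pow_succ]; ring
        · ring
      exact le_of_mul_le_mul_left h10 h9
    have h11 : 0 ≤ Real.log ((2 * x : ℕ) : ℝ) := Real.log_natCast_nonneg _
    calc 2 * √((2 * x : ℕ) : ℝ) * Real.log ((2 * x : ℕ) : ℝ) ≤ (2 * (2 * √(x : ℝ))) * (2 * L) := by
          apply mul_le_mul _ h1 h11 (by positivity)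
          linarith
      _ = 8 * (√(x : ℝ) * L) := by ring
      _ ≤ _ := h8
  have hPP : ∀ H : Finset ℕ, H ⊆ (Icc 1 G).image (fun g => M * (g0 + g)) →
      ∑ h ∈ H, ∑ s ∈ S', (if (h - s).Prime then (0 : ℝ) else ArithmeticFunction.vonMangoldt (h - s)) ≤
        (δ * G) * (δ * (S'.card : ℝ)) := by
    intro H hH
    have hHc : (H.card : ℝ) ≤ G := by
      have h1 := (card_le_card hH).trans card_image_le
      rw [Nat.card_Icc, Nat.add_sub_cancel] at h1
      exact_mod_cast h1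
    calc ∑ h ∈ H, ∑ s ∈ S', (if (h - s).Prime then (0 : ℝ) else ArithmeticFunction.vonMangoldt (h - s)) ≤
          ∑ _h ∈ H, (δ ^ 2 * S'.card) := by
          apply sum_le_sum
          intro h hh
          have h2 := hHr H hH h hh
          refine le_trans (pptwo x h b7 (by omega) S' ?_) hPPb
          intro s hs
          have h3 := hSr s hs
          omega
      _ = H.card * (δ ^ 2 * S'.card) := by rw [sum_const, nsmul_eq_mul]
      _ ≤ G * (δ ^ 2 * S'.card) := mul_le_mul_of_nonneg_right hHc (by positivity)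
      _ = (δ * G) * (δ * (S'.card : ℝ)) := by ring
  have hfin := conv S x y z M G g0 δ (x * (M * G : ℕ) / L ^ U) hδ hδ1 hS0 hSp hyS hL0 (by
      rw [div_le_iff₀ hδ] at hL5
      linarith) hM1 hyz (by
      intro s hs
      have := mem_Icc.1 (hS hs)
      omega) hMp hg1 hr hbil hR hPP
  have e5 : 5 * δ = ε := by rw [hδd]; ring
  rw [e5] at hfin
  refine hfin.trans ?_
  apply mul_le_mul_of_nonneg_right _ hG0
  rw [hδd]
  linarith

end Pool.Agent.H43.MA.Fin
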