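import Pool.Agent.H43.MA.FinG
import Pool.Agent.H43.MA.Fin3
import Pool.Agent.H43.MA.Rgc

/-! # Project MA (helper43): one short window, numbers `c (s + 1) - 1 + M g` -/

set_option autoImplicit false

namespace Pool.Agent.H43.MA.Fin

open Finset Filter Pool.Agent.H373R2.T7 Pool.Agent.Y877.SX
open Pool.Agent.helper24_UT (Ed)
open Pool.Agent.H442R2.EHI (evt_log_pow evt_log_ge)

lemma Ed_nat (z n : ℕ) (hn : 1 ≤ n) : Ed z (n : ℤ) = ArithmeticFunction.vonMangoldt n - lamz z n := by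
  unfold Ed lamI lamzI
  rw [if_pos (by omega), if_pos (by omega), Int.toNat_natCast]

open Classical in
theorem stepC (hB : S_BILX) (θ : ℝ) (hθ : 1 / 3 < θ) (A C : ℕ) (hC : 1 ≤ C) (ε : ℝ) (hε : 0 < ε) (hε1 : ε ≤ 1) : ∃ K0 : ℕ, ∀ K1 : ℕ,
    ∃ x0 : ℕ, ∀ x : ℕ, x0 ≤ x →
    ∀ y : ℕ, K0 * Real.log (Real.log x) ≤ y → y ≤ K1 * Real.log (Real.log x) → ∀ c : ℕ, 1 ≤ c → c ≤ C →
    ∀ S : Finset ℕ, S ⊆ Icc 1 x → (∀ s ∈ S, ∀ p : ℕ, p.Prime → p ≤ y → ¬ p ∣ c * (s + 1) - 1) → (x : ℝ) ≤ S.card * Real.log x ^ A →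
    ∀ g0 G : ℕ, primorial y * (g0 + G) ≤ x → (x : ℝ) ^ θ ≤ primorial y * G →
    (((Icc 1 G).filter (fun g => ((S.filter (fun s => (c * (s + 1) - 1 + primorial y * (g0 + g)).Prime)).card : ℝ) <
      (1 - ε) * (S.card / (Vz y * Real.log x)))).card : ℝ) ≤ ε * G := by
  obtain ⟨δ, hδd⟩ : ∃ δ, δ = ε / 5 := ⟨_, rfl⟩
  have hδ : 0 < δ := by rw [hδd]; positivity
  have hδ1 : δ ≤ 1 / 5 := by rw [hδd]; linarith
  obtain ⟨K0, hK01, hrm⟩ := rough4b A δ δ hδ hδ
  refine ⟨K0, fun K1 => ?_⟩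
  set U := A + 2 * K1 + 1 with hU
  obtain ⟨θ', hθd⟩ : ∃ θ', θ' = (θ + 1 / 3) / 2 := ⟨_, rfl⟩
  have hθ1 : 1 / 3 < θ' := by rw [hθd]; linarith
  have hθ2 : 0 < θ - θ' := by rw [hθd]; linarith
  obtain ⟨E0, hE0⟩ := hB θ' hθ1 U
  obtain ⟨N1, hN1⟩ := hE0 (E0 + 3)
  obtain ⟨x1, hx1⟩ := hrm (2 * (E0 + 3))
  have hC0 : (1 : ℝ) ≤ C := by exact_mod_cast hC
  obtain ⟨x2, hx2⟩ := ev_L' (max (max (Real.exp 1) (Real.exp C)) (max (max 4 (K1 : ℝ)) (max (C / δ ^ 2) (Real.log (3 * C) / δ))))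
  obtain ⟨x3, hx3⟩ := eventually_atTop.1 (evt_log_pow (2 * K1) (1 / 12) (by norm_num))
  obtain ⟨x4, hx4⟩ := ev_log' (A + 1) (12 * C / δ)
  obtain ⟨x5, hx5⟩ : ∃ n : ℕ, ∀ x : ℕ, n ≤ x → (C : ℝ) ^ θ' ≤ (x : ℝ) ^ (θ - θ') :=
    eventually_atTop.1 (((tendsto_rpow_atTop hθ2).comp
      (tendsto_natCast_atTop_atTop (R := ℝ))).eventually_ge_atTop ((C : ℝ) ^ θ'))
  refine ⟨max (max N1 x1) (max x2 (max x3 (max x4 (max x5 1)))), fun x hx y hy1 hy2 c hc1 hc2 S hS hSp hSc g0 G hg1 hg2 => ?_⟩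
  have b1 : N1 ≤ x := le_trans (le_trans (le_max_left _ _) (le_max_left _ _)) hx
  have b6 : x1 ≤ x := le_trans (le_trans (le_max_right _ _) (le_max_left _ _)) hx
  have b' := le_trans (le_max_right _ _) hx
  have b2 : x2 ≤ x := le_trans (le_max_left _ _) b'
  have b3 : x3 ≤ x := le_trans (le_trans (le_max_left _ _) (le_max_right _ _)) b'
  have b4 : x4 ≤ x := le_trans (le_trans (le_trans (le_max_left _ _) (le_max_right _ _)) (le_max_right _ _)) b'
  have b5 : x5 ≤ x := le_trans (le_trans (le_trans (le_trans (le_max_left _ _) (le_max_right _ _)) (le_max_right _ _)) (le_max_right _ _)) b'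
  have b7 : 1 ≤ x := le_trans (le_trans (le_trans (le_trans (le_max_right _ _) (le_max_right _ _)) (le_max_right _ _)) (le_max_right _ _)) b'
  have hL := hx2 x b2
  have hc3 := hx3 x b3
  have hc4 := hx4 x b4
  have hc5 := hx5 x b5
  set L := Real.log x with hLd
  have hL1 : Real.exp 1 ≤ L := ((le_max_left _ _).trans (le_max_left _ _)).trans hL
  have hLC : Real.exp C ≤ L := ((le_max_right _ _).trans (le_max_left _ _)).trans hL
  have hLr := (le_max_right _ _).trans hL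
  have hL2 : 4 ≤ L := (((le_max_left _ _).trans (le_max_left _ _))).trans hLr
  have hL3 : (K1 : ℝ) ≤ L := ((le_max_right _ _).trans (le_max_left _ _)).trans hLr
  have hL4 : C / δ ^ 2 ≤ L := ((le_max_left _ _).trans (le_max_right _ _)).trans hLr
  have hL5 : Real.log (3 * C) / δ ≤ L := ((le_max_right _ _).trans (le_max_right _ _)).trans hLr
  have hL0 : 0 < L := by linarith
  have hxr : (1 : ℝ) ≤ x := by exact_mod_cast b7
  have hx0 : (0 : ℝ) < x := by linarith
  have hC1 : (0 : ℝ) < C := by linarith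
  have hl3C : Real.log (3 * C) ≤ δ * L := by
    rw [div_le_iff₀ hδ] at hL5
    linarith
  -- X
  obtain ⟨X, hXd⟩ : ∃ X, X = C * x := ⟨_, rfl⟩
  have hXR : (X : ℝ) = C * x := by rw [hXd]; push_cast; ring
  have hxX : x ≤ X := by rw [hXd]; exact Nat.le_mul_of_pos_left x hC
  have hlX : Real.log X = Real.log C + L := by rw [hXR, Real.log_mul hC1.ne' hx0.ne']
  have hlC0 : 0 ≤ Real.log C := Real.log_nonneg hC0
  have hlC : Real.log C ≤ L := by
    have h1 : Real.log C ≤ Real.log (3 * C) := Real.log_le_log hC1 (by linarith)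
    have h2 : δ * L ≤ L := by nlinarith
    linarith
  have hlXL : L ≤ Real.log X := by rw [hlX]; linarith
  have hlX2 : Real.log X ≤ 2 * L := by rw [hlX]; linarith
  have hlX4 : 4 ≤ Real.log X := hL2.trans hlXL
  have hlX0 : 0 < Real.log X := by linarith
  -- z
  obtain ⟨z, hz1, hzL, hz2⟩ := z_ex (Real.log X) E0 hlX4
  obtain ⟨M, hMd⟩ : ∃ M, M = primorial y := ⟨_, rfl⟩
  have hML : (M : ℝ) ≤ L ^ (2 * K1) := by rw [hMd]; exact primorial_le_log K1 y L hL1 hy2
  have hM1 : 1 ≤ M := by rw [hMd]; exact primorial_pos y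
  rw [← hMd] at hg1 hg2 ⊢
  have hMp : ∀ p : ℕ, p.Prime → p ≤ y → p ∣ M := fun p hp hpy => by
    rw [hMd]
    exact hp.dvd_primorial_iff.2 hpy
  have hMq : ∀ p ∈ mid y z, ¬ p ∣ M := fun p hp hd => by
    rw [hMd, (mem_mid.1 hp).2.2.dvd_primorial_iff] at hd
    have := (mem_mid.1 hp).1
    omega
  -- y
  have hlL1 : 1 ≤ Real.log L := by
    rw [← Real.log_exp 1]
    exact Real.log_le_log (Real.exp_pos 1) hL1
  have hyC : C ≤ y := by
    have h1 : (C : ℝ) ≤ Real.log L := by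
      rw [← Real.log_exp C]
      exact Real.log_le_log (Real.exp_pos _) hLC
    have h2 : (C : ℝ) ≤ y := by
      calc (C : ℝ) ≤ Real.log L := h1
        _ = 1 * Real.log L := by ring
        _ ≤ K0 * Real.log L := mul_le_mul_of_nonneg_right (by exact_mod_cast hK01) (by linarith)
        _ ≤ y := hy1
    exact_mod_cast h2
  have hyL : (y : ℝ) ≤ L ^ 2 := by
    have h1 : Real.log L ≤ L := (Real.log_le_sub_one_of_pos hL0).trans (by linarith)
    calc (y : ℝ) ≤ K1 * Real.log L := hy2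
      _ ≤ L * L := mul_le_mul hL3 h1 (by linarith) hL0.le
      _ = L ^ 2 := by ring
  have hyz : y ≤ z := by
    have hy3 : (y : ℝ) ≤ z := (hyL.trans (pow_le_pow_left₀ hL0.le hlXL 2)).trans hzL
    exact_mod_cast hy3
  have hzx : (z : ℝ) ≤ L ^ (2 * (E0 + 3)) := by
    refine hz2.trans ?_
    rw [pow_mul]
    apply pow_le_pow_left₀ hlX0.le
    nlinarith
  -- G
  have hG0 : (0 : ℝ) ≤ G := Nat.cast_nonneg G
  have hM0 : (0 : ℝ) < M := by exact_mod_cast hM1
  have hGx : √√(x : ℝ) ≤ G := by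
    have e4 : √√(x : ℝ) = (x : ℝ) ^ (1 / 4 : ℝ) := by
      rw [Real.sqrt_eq_rpow, Real.sqrt_eq_rpow, ← Real.rpow_mul hx0.le]
      norm_num
    rw [e4]
    have h1 : (x : ℝ) ^ (1 / 3 : ℝ) ≤ (x : ℝ) ^ (1 / 12 : ℝ) * G := by
      calc (x : ℝ) ^ (1 / 3 : ℝ) ≤ (x : ℝ) ^ θ := Real.rpow_le_rpow_of_exponent_le hxr hθ.le
        _ ≤ M * G := hg2
        _ ≤ L ^ (2 * K1) * G := mul_le_mul_of_nonneg_right hML hG0
        _ ≤ _ := mul_le_mul_of_nonneg_right hc3 hG0
    have h2 : (x : ℝ) ^ (1 / 3 : ℝ) = (x : ℝ) ^ (1 / 12 : ℝ) * (x : ℝ) ^ (1 / 4 : ℝ) := by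
      rw [← Real.rpow_add hx0]
      norm_num
    rw [h2] at h1
    exact le_of_mul_le_mul_left h1 (by positivity)
  -- S
  have hm0 : (0 : ℝ) < S.card := by
    by_contra h
    push Not at h
    have : (S.card : ℝ) * L ^ A ≤ 0 := mul_nonpos_of_nonpos_of_nonneg h (by positivity)
    linarith
  have hCδ : (C : ℝ) ≤ δ ^ 2 * L := by
    rw [div_le_iff₀ (by positivity)] at hL4
    linarith
  have hSr : ∀ s ∈ S, 1 ≤ s ∧ s ≤ x := fun s hs => mem_Icc.1 (hS hs)
  have hcs : ∀ s ∈ S, 1 ≤ c * (s + 1) - 1 ∧ c * (s + 1) - 1 ≤ 2 * X := by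
    intro s hs
    have h1 := hSr s hs
    have h2 : 1 * (1 + 1) ≤ c * (s + 1) := Nat.mul_le_mul hc1 (by omega)
    have h3 : c * (s + 1) ≤ C * (2 * x) := Nat.mul_le_mul hc2 (by omega)
    have h4 : C * (2 * x) = 2 * X := by rw [hXd]; ring
    omega
  have hcinj : ∀ s ∈ S, ∀ t ∈ S, c * (s + 1) - 1 = c * (t + 1) - 1 → s = t := by
    intro s hs t ht h
    have h1 := hcs s hs
    have h2 := hcs t ht
    have h3 : c * (s + 1) = c * (t + 1) := by omega
    have := Nat.eq_of_mul_eq_mul_left hc1 h3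
    omega
  have hMGx : M * g0 + M * G ≤ x := by rw [← mul_add]; exact hg1
  -- the sieve
  have hr := hx1 x b6 y z hy1 hyz hzx S hS hSc M hMq (fun s => c * (s + 1) - 1 + M * g0) (by
      intro s hs t ht p hp w h1 h2
      have hs' := hcs s hs
      have ht' := hcs t ht
      have h1 : p ∣ c * (s + 1) - 1 + M * g0 + w := h1
      have h2 : p ∣ c * (t + 1) - 1 + M * g0 + w := h2
      have hpp : p.Prime := (mem_mid.1 hp).2.2
      have hpc : ¬ p ∣ c := by
        intro hd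
        have h3 := Nat.le_of_dvd hc1 hd
        have h4 := (mem_mid.1 hp).1
        omega
      apply Dvd.dvd.mul_right
      rcases le_total s t with h | h
      · rw [Nat.dist_eq_sub_of_le h]
        have h3 := Nat.dvd_sub h2 h1
        have h5 : c * s ≤ c * t := Nat.mul_le_mul_left _ h
        have h4 : c * (t + 1) - 1 + M * g0 + w - (c * (s + 1) - 1 + M * g0 + w) = c * (t - s) := by
          rw [Nat.mul_sub]
          rw [Nat.mul_add] at hs' ht' ⊢
          rw [Nat.mul_add]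
          omega
        rw [h4] at h3
        exact (hpp.dvd_mul.1 h3).resolve_left hpc
      · rw [Nat.dist_eq_sub_of_le_right h]
        have h3 := Nat.dvd_sub h1 h2
        have h5 : c * t ≤ c * s := Nat.mul_le_mul_left _ h
        have h4 : c * (s + 1) - 1 + M * g0 + w - (c * (t + 1) - 1 + M * g0 + w) = c * (s - t) := by
          rw [Nat.mul_sub]
          rw [Nat.mul_add] at hs' ht' ⊢
          rw [Nat.mul_add]
          omega
        rw [h4] at h3
        exact (hpp.dvd_mul.1 h3).resolve_left hpc) G hGx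
  -- the bilinear form
  have hYX : (X : ℝ) ^ θ' ≤ ((M * G : ℕ) : ℝ) := by
    push_cast
    refine le_trans ?_ hg2
    rw [hXR, Real.mul_rpow hC1.le hx0.le]
    calc (C : ℝ) ^ θ' * (x : ℝ) ^ θ' ≤ (x : ℝ) ^ (θ - θ') * (x : ℝ) ^ θ' := mul_le_mul_of_nonneg_right hc5 (by positivity)
      _ = (x : ℝ) ^ θ := by rw [← Real.rpow_add hx0]; congr 1; ring
  have hbil : ∀ H : Finset ℕ, H ⊆ Icc 1 G →
      -(X * (M * G : ℕ) / Real.log X ^ U) ≤ ∑ g ∈ H, ∑ s ∈ S, (ArithmeticFunction.vonMangoldt ((fun s => c * (s + 1) - 1 + M * g0) s + M * g) -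
        lamz z ((fun s => c * (s + 1) - 1 + M * g0) s + M * g)) := by
    intro H hH
    have h1 := bilS z X (M * G) (X * (M * G : ℕ) / Real.log X ^ U) ((M * g0 : ℕ) : ℤ) 1 1
      (S.image (fun s => c * (s + 1) - 1)) (H.image (fun g => M * g)) (by
      intro u hu
      rw [mem_image] at hu
      obtain ⟨s, hs, rfl⟩ := hu
      have := hcs s hs
      rw [mem_Icc]
      omega) (by
      intro v hv
      rw [mem_image] at hv
      obtain ⟨g, hg, rfl⟩ := hv
      have h2 := mem_Icc.1 (hH hg)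
      rw [mem_Icc]
      exact ⟨Nat.mul_pos hM1 (by omega), Nat.mul_le_mul_left _ h2.2⟩) (fun Gf c' hG hc' => hN1 X (b1.trans hxX) z hz1 hz2 (M * G) hYX
        (by omega) ((M * g0 : ℕ) : ℤ) 1 1 (by
        rw [Nat.abs_cast]
        have : M * g0 ≤ 3 * X := by omega
        exact_mod_cast this) (Or.inl rfl) (Or.inl rfl) Gf c' hG hc')
    refine h1.trans (le_of_eq ?_)
    rw [sum_image (by
      intro s hs t ht hst
      exact hcinj s hs t ht hst), sum_comm]
    rw [sum_image]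
    · apply sum_congr rfl
      intro g hg
      apply sum_congr rfl
      intro s hs
      have h3 := hcs s hs
      have e1 : (((M * g0 : ℕ) : ℤ) + 1 * ((c * (s + 1) - 1 : ℕ) : ℤ) + 1 * ((M * g : ℕ) : ℤ)) =
          ((c * (s + 1) - 1 + M * g0 + M * g : ℕ) : ℤ) := by
        push_cast
        ring
      rw [e1, Ed_nat z _ (by omega)]
    · intro s _ t _ hst
      exact Nat.eq_of_mul_eq_mul_left hM1 hst
  have hR : (X : ℝ) * (M * G : ℕ) / Real.log X ^ U ≤ (δ * G) * (δ * (S.card : ℝ)) := by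
    have h0 : (X : ℝ) * (M * G : ℕ) / Real.log X ^ U ≤ (X : ℝ) * (M * G : ℕ) / L ^ U :=
      div_le_div_of_nonneg_left (by positivity) (by positivity) (pow_le_pow_left₀ hL0.le hlXL U)
    refine h0.trans ?_
    rw [div_le_iff₀ (by positivity), hXR]
    push_cast
    calc (C : ℝ) * x * (M * G) ≤ C * (S.card * L ^ A) * (L ^ (2 * K1) * G) := by
          apply mul_le_mul _ _ (by positivity) (by positivity)
          · exact mul_le_mul_of_nonneg_left hSc hC1.le
          · exact mul_le_mul_of_nonneg_right hML hG0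
      _ = (G * S.card * L ^ (A + 2 * K1)) * C := by rw [pow_add L A]; ring
      _ ≤ (G * S.card * L ^ (A + 2 * K1)) * (δ ^ 2 * L) := mul_le_mul_of_nonneg_left hCδ (by positivity)
      _ = (δ * G) * (δ * S.card) * L ^ U := by rw [hU, pow_succ]; ring
  -- prime powers
  have hZ : ∀ s ∈ S, ∀ g ∈ Icc 1 G, c * (s + 1) - 1 + M * g0 + M * g ≤ 3 * X := by
    intro s hs g hg
    have h1 := hcs s hs
    have h2 : M * g ≤ M * G := Nat.mul_le_mul_left _ (mem_Icc.1 hg).2
    omega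
  have hlZ : Real.log ((3 * X : ℕ) : ℝ) ≤ (1 + δ) * L := by
    have h1 : ((3 * X : ℕ) : ℝ) = (3 * C) * x := by push_cast; rw [hXR]; ring
    rw [h1, Real.log_mul (by positivity) hx0.ne']
    linarith
  have hPPb : 2 * √((3 * X : ℕ) : ℝ) * Real.log ((3 * X : ℕ) : ℝ) ≤ δ * S.card := by
    have h1 : Real.log ((3 * X : ℕ) : ℝ) ≤ 2 * L := by nlinarith
    have h2 : √((3 * X : ℕ) : ℝ) ≤ (3 * C) * √(x : ℝ) := by
      rw [show (3 * (C : ℝ)) * √(x : ℝ) = √((3 * C) ^ 2 * x) by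
        rw [Real.sqrt_mul (by positivity), Real.sqrt_sq (by positivity)]]
      apply Real.sqrt_le_sqrt
      push_cast
      rw [hXR]
      nlinarith
    have hsx : 0 < √(x : ℝ) := Real.sqrt_pos.2 hx0
    have h4 : √(x : ℝ) * √(x : ℝ) = x := Real.mul_self_sqrt hx0.le
    have h5 : 12 * C * L ^ (A + 1) ≤ δ * √(x : ℝ) := by
      have := hc4
      rw [div_mul_eq_mul_div, div_le_iff₀ (by positivity)] at this
      linarith
    have h7 : √(x : ℝ) * (12 * C * L ^ (A + 1)) ≤ δ * (S.card * L ^ A) := by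
      calc √(x : ℝ) * (12 * C * L ^ (A + 1)) ≤ √(x : ℝ) * (δ * √(x : ℝ)) := mul_le_mul_of_nonneg_left h5 hsx.le
        _ = δ * (√(x : ℝ) * √(x : ℝ)) := by ring
        _ = δ * x := by rw [h4]
        _ ≤ _ := mul_le_mul_of_nonneg_left hSc (by positivity)
    have h8 : 12 * C * (√(x : ℝ) * L) ≤ δ * S.card := by
      have h9 : 0 < L ^ A := by positivity
      have h10 : L ^ A * (12 * C * (√(x : ℝ) * L)) ≤ L ^ A * (δ * S.card) := by
        refine le_trans (le_of_eq ?_) (h7.trans (le_of_eq ?_))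
        · rw [pow_succ]; ring
        · ring
      exact le_of_mul_le_mul_left h10 h9
    have h11 : 0 ≤ Real.log ((3 * X : ℕ) : ℝ) := Real.log_natCast_nonneg _
    calc 2 * √((3 * X : ℕ) : ℝ) * Real.log ((3 * X : ℕ) : ℝ) ≤ (2 * ((3 * C) * √(x : ℝ))) * (2 * L) := by
          apply mul_le_mul _ h1 h11 (by positivity)
          linarith
      _ = 12 * C * (√(x : ℝ) * L) := by ring
      _ ≤ _ := h8
  have hfin := asmG S (fun s => c * (s + 1) - 1 + M * g0) y z (3 * X) M G δ S.card (X * (M * G : ℕ) / Real.log X ^ U) hδ rfl hm0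
    hyz (by
      intro s hs p hp hpy hd
      have hd : p ∣ c * (s + 1) - 1 + M * g0 := hd
      exact hSp s hs p hp hpy ((Nat.dvd_add_left ((hMp p hp hpy).mul_right _)).1 hd)) hMp hZ hr hbil hR (by
      intro g hg
      refine le_trans (ppG (3 * X) (by omega) S (fun s => c * (s + 1) - 1 + M * g0 + M * g) ?_ ?_) hPPb
      · intro s hs t ht hst
        simp only at hst
        exact hcinj s hs t ht (by omega)
      · intro s hs
        have h1 := hcs s hs
        exact ⟨by omega, hZ s hs g hg⟩)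
  have hVy := Vz_pos y
  have hsub : (Icc 1 G).filter (fun g => ((S.filter (fun s => (c * (s + 1) - 1 + M * (g0 + g)).Prime)).card : ℝ) <
      (1 - ε) * (S.card / (Vz y * L))) ⊆ (Icc 1 G).filter (fun g =>
        ((S.filter (fun s => ((fun s => c * (s + 1) - 1 + M * g0) s + M * g).Prime)).card : ℝ) * Real.log ((3 * X : ℕ) : ℝ) <
          (1 - 3 * δ) * (S.card * (Vz y)⁻¹)) := by
    intro g hg
    rw [mem_filter] at hg ⊢
    obtain ⟨hg, h1⟩ := hg
    refine ⟨hg, ?_⟩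
    have e2 : S.filter (fun s => ((fun s => c * (s + 1) - 1 + M * g0) s + M * g).Prime) =
        S.filter (fun s => (c * (s + 1) - 1 + M * (g0 + g)).Prime) := by
      apply filter_congr
      intro s _
      simp only
      rw [Nat.mul_add M g0 g, ← add_assoc]
    rw [e2]
    have h3' : 0 < Real.log ((3 * X : ℕ) : ℝ) := by
      apply Real.log_pos
      push_cast
      rw [hXR]
      nlinarith
    have e5 : (1 - ε) = 1 - 5 * δ := by rw [hδd]; ring
    rw [e5] at h1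
    calc ((S.filter (fun s => (c * (s + 1) - 1 + M * (g0 + g)).Prime)).card : ℝ) * Real.log ((3 * X : ℕ) : ℝ)
        < ((1 - 5 * δ) * (S.card / (Vz y * L))) * Real.log ((3 * X : ℕ) : ℝ) := mul_lt_mul_of_pos_right h1 h3'
      _ ≤ ((1 - 5 * δ) * (S.card / (Vz y * L))) * ((1 + δ) * L) := by
          apply mul_le_mul_of_nonneg_left hlZ
          apply mul_nonneg (by linarith)
          positivity
      _ = ((1 - 5 * δ) * (1 + δ)) * (S.card * (Vz y)⁻¹) := by
          field_simp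
      _ ≤ (1 - 3 * δ) * (S.card * (Vz y)⁻¹) := by
          apply mul_le_mul_of_nonneg_right _ (by positivity)
          nlinarith
  refine le_trans (by exact_mod_cast card_le_card hsub) (hfin.trans ?_)
  apply mul_le_mul_of_nonneg_right _ hG0
  rw [hδd]
  linarith

end Pool.Agent.H43.MA.Fin
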