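import Pool.Agent.H43.MA.Fin2

/-! # Project MA (helper43): the assembly for numbers `w s + M g` -/

set_option autoImplicit false

namespace Pool.Agent.H43.MA.Fin

open Finset Filter Pool.Agent.H373R2.T7 Pool.Agent.Y877.SX
open Pool.Agent.helper24_UT (Ed)

lemma lamzG (y z M a g : ℕ) (ha : ∀ p : ℕ, p.Prime → p ≤ y → ¬ p ∣ a) (hM : ∀ p : ℕ, p.Prime → p ≤ y → p ∣ M) :
    lamz z (a + M * g) = if ∀ p ∈ mid y z, ¬ p ∣ a + M * g then (Vz z)⁻¹ else 0 := by
  unfold lamz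
  have : (∀ p ∈ pz z, ¬ p ∣ a + M * g) ↔ (∀ p ∈ mid y z, ¬ p ∣ a + M * g) := by
    constructor
    · intro h p hp
      exact h p (mem_pz.2 (mem_mid.1 hp).2)
    · intro h p hp hd
      rw [mem_pz] at hp
      by_cases hy : y < p
      · exact h p (mem_mid.2 ⟨hy, hp⟩) hd
      · have h1 : p ∣ M * g := (hM p hp.2 (by omega)).mul_right _
        exact ha p hp.2 (by omega) ((Nat.dvd_add_left h1).1 hd)
  by_cases h : ∀ p ∈ mid y z, ¬ p ∣ a + M * g
  · rw [if_pos h, if_pos (this.2 h)]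
  · rw [if_neg h, if_neg (fun h2 => h (this.1 h2))]

open Classical in
/-- **assembly**, numbers `w s + M g` -/
theorem asmG (S : Finset ℕ) (w : ℕ → ℕ) (y z Z M G : ℕ) (δ m R : ℝ) (hδ : 0 < δ) (hm : (S.card : ℝ) = m) (hm0 : 0 < m)
    (hyz : y ≤ z) (hSp : ∀ s ∈ S, ∀ p : ℕ, p.Prime → p ≤ y → ¬ p ∣ w s)
    (hMp : ∀ p : ℕ, p.Prime → p ≤ y → p ∣ M) (hZ : ∀ s ∈ S, ∀ g ∈ Icc 1 G, w s + M * g ≤ Z)
    (hrough : (((Icc 1 G).filter (fun g => ((S.filter (fun s => ∀ p ∈ mid y z, ¬ p ∣ w s + M * g)).card : ℝ) <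
      (1 - δ) * (m * Vm y z))).card : ℝ) ≤ δ * G)
    (hbil : ∀ H : Finset ℕ, H ⊆ Icc 1 G →
      -R ≤ ∑ g ∈ H, ∑ s ∈ S, (ArithmeticFunction.vonMangoldt (w s + M * g) - lamz z (w s + M * g)))
    (hR : R ≤ (δ * G) * (δ * m))
    (hPP : ∀ g ∈ Icc 1 G, ∑ s ∈ S, (if (w s + M * g).Prime then (0 : ℝ) else ArithmeticFunction.vonMangoldt (w s + M * g)) ≤
      δ * m) :
    (((Icc 1 G).filter (fun g => ((S.filter (fun s => (w s + M * g).Prime)).card : ℝ) *
      Real.log Z < (1 - 3 * δ) * (m * (Vz y)⁻¹))).card : ℝ) ≤ 2 * δ * G := by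
  have hδm : 0 < δ * m := by positivity
  have hVy := Vz_pos y
  have hVz := Vz_pos z
  have hVm := Vm_pos y z
  have hVy1 : 1 ≤ (Vz y)⁻¹ := by
    rw [one_le_inv₀ hVy]
    exact Vz_le_one y
  have hsplit := Vz_split y z hyz
  -- the two bad sets
  obtain ⟨cX, hcX⟩ : ∃ cX : ℕ → ℝ, ∀ g, cX g = ((S.filter (fun s => ∀ p ∈ mid y z, ¬ p ∣ w s + M * g)).card : ℝ) :=
    ⟨_, fun _ => rfl⟩
  obtain ⟨T, hT⟩ : ∃ T : ℕ → ℝ, ∀ g, T g = ∑ s ∈ S, ArithmeticFunction.vonMangoldt (w s + M * g) := ⟨_, fun _ => rfl⟩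
  set B1 := (Icc 1 G).filter (fun g => cX g < (1 - δ) * (m * Vm y z)) with hB1
  set B2 := (Icc 1 G).filter (fun g => (1 - δ) * (m * Vm y z) ≤ cX g ∧ T g < (1 - 2 * δ) * (m * (Vz y)⁻¹)) with hB2
  have c1 : (B1.card : ℝ) ≤ δ * G := by
    have : B1 = (Icc 1 G).filter (fun g => ((S.filter (fun s => ∀ p ∈ mid y z, ¬ p ∣ w s + M * g)).card : ℝ) <
      (1 - δ) * (m * Vm y z)) := by
      rw [hB1]
      ext g
      rw [mem_filter, mem_filter, hcX]
    rw [this]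
    exact hrough
  have c2 : (B2.card : ℝ) ≤ δ * G := by
    have h1 := hbil B2 (filter_subset _ _)
    have h2 : ∑ g ∈ B2, ∑ s ∈ S, (ArithmeticFunction.vonMangoldt (w s + M * g) - lamz z (w s + M * g)) ≤
        ∑ _g ∈ B2, -(δ * m) := by
      apply sum_le_sum
      intro g hg
      rw [hB2, mem_filter] at hg
      obtain ⟨hgG, h2, h3⟩ := hg
      rw [sum_sub_distrib, ← hT]
      have h4 : ∑ s ∈ S, lamz z (w s + M * g) = (Vz z)⁻¹ * cX g := by
        have : ∀ s ∈ S, lamz z (w s + M * g) = if ∀ p ∈ mid y z, ¬ p ∣ w s + M * g then (Vz z)⁻¹ else 0 := by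
          intro s hs
          exact lamzG y z M (w s) g (hSp s hs) hMp
        rw [sum_congr rfl this, ← sum_filter, sum_const, nsmul_eq_mul, hcX, mul_comm]
      rw [h4]
      have h5 : (Vz z)⁻¹ * ((1 - δ) * (m * Vm y z)) = (1 - δ) * (m * (Vz y)⁻¹) := by
        rw [hsplit, mul_inv]
        field_simp
      have h6 : (Vz z)⁻¹ * ((1 - δ) * (m * Vm y z)) ≤ (Vz z)⁻¹ * cX g := mul_le_mul_of_nonneg_left h2 (inv_pos.2 hVz).le
      have h7 : δ * m * 1 ≤ δ * m * (Vz y)⁻¹ := mul_le_mul_of_nonneg_left hVy1 hδm.le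
      nlinarith
    rw [sum_const, nsmul_eq_mul] at h2
    have h3 : (B2.card : ℝ) * (δ * m) ≤ R := by linarith
    exact le_of_mul_le_mul_right (h3.trans hR) hδm
  have hsub : (Icc 1 G).filter (fun g => ((S.filter (fun s => (w s + M * g).Prime)).card : ℝ) *
      Real.log Z < (1 - 3 * δ) * (m * (Vz y)⁻¹)) ⊆ B1 ∪ B2 := by
    intro g hg
    rw [mem_filter] at hg
    obtain ⟨hg, hlt⟩ := hg
    by_contra hcon
    rw [mem_union] at hcon
    push Not at hcon
    obtain ⟨n1, n2⟩ := hcon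
    have q1 : (1 - δ) * (m * Vm y z) ≤ cX g := by
      by_contra h
      push Not at h
      exact n1 (mem_filter.2 ⟨hg, h⟩)
    have q2 : (1 - 2 * δ) * (m * (Vz y)⁻¹) ≤ T g := by
      by_contra h
      push Not at h
      exact n2 (mem_filter.2 ⟨hg, q1, h⟩)
    have q3 := hPP g hg
    have q4 : T g ≤ ((S.filter (fun s => (w s + M * g).Prime)).card : ℝ) * Real.log Z +
        ∑ s ∈ S, (if (w s + M * g).Prime then (0 : ℝ) else ArithmeticFunction.vonMangoldt (w s + M * g)) := by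
      rw [hT, card_eq_sum_ones, Nat.cast_sum, sum_mul, sum_filter, ← sum_add_distrib]
      apply sum_le_sum
      intro s hs
      by_cases hp : (w s + M * g).Prime
      · rw [if_pos hp, if_pos hp, ArithmeticFunction.vonMangoldt_apply_prime hp, Nat.cast_one, one_mul, add_zero]
        apply Real.log_le_log (by exact_mod_cast hp.pos)
        exact_mod_cast hZ s hs g hg
      · rw [if_neg hp, if_neg hp, zero_add]
    have q5 : δ * m * 1 ≤ δ * m * (Vz y)⁻¹ := mul_le_mul_of_nonneg_left hVy1 hδm.le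
    nlinarith
  have h1 := card_le_card hsub
  have h2 : (B1 ∪ B2).card ≤ B1.card + B2.card := card_union_le _ _
  have h3 : (((Icc 1 G).filter (fun g => ((S.filter (fun s => (w s + M * g).Prime)).card : ℝ) *
      Real.log Z < (1 - 3 * δ) * (m * (Vz y)⁻¹))).card : ℝ) ≤ B1.card + B2.card := by
    exact_mod_cast h1.trans h2
  linarith

/-- prime powers, distinct numbers up to `Z` -/
lemma ppG (Z : ℕ) (hZ : 1 ≤ Z) (S : Finset ℕ) (f : ℕ → ℕ) (hinj : Set.InjOn f S) (hf : ∀ s ∈ S, 1 ≤ f s ∧ f s ≤ Z) :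
    ∑ s ∈ S, (if (f s).Prime then (0 : ℝ) else ArithmeticFunction.vonMangoldt (f s)) ≤ 2 * √(Z : ℝ) * Real.log (Z : ℝ) := by
  classical
  have h2 := Chebyshev.psi_sub_theta_le (x := (Z : ℝ)) (by exact_mod_cast hZ)
  rw [Chebyshev.psi_sub_theta_eq_sum_not_prime, Nat.floor_natCast, sum_filter] at h2
  refine le_trans ?_ h2
  have e1 : ∑ s ∈ S, (if (f s).Prime then (0 : ℝ) else ArithmeticFunction.vonMangoldt (f s)) =
      ∑ n ∈ S.image f, (if ¬ n.Prime then ArithmeticFunction.vonMangoldt n else (0 : ℝ)) := by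
    rw [sum_image hinj]
    apply sum_congr rfl
    intro s _
    by_cases hp : (f s).Prime
    · rw [if_pos hp, if_neg (not_not.2 hp)]
    · rw [if_neg hp, if_pos hp]
  rw [e1]
  apply sum_le_sum_of_subset_of_nonneg
  · intro n hn
    rw [mem_image] at hn
    obtain ⟨s, hs, rfl⟩ := hn
    have h3 := hf s hs
    rw [mem_Ioc]
    omega
  · intro n _ _
    split_ifs
    · exact le_rfl
    · exact ArithmeticFunction.vonMangoldt_nonneg

end Pool.Agent.H43.MA.Fin
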