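import Pool.Agent.H43.MA.Stm

/-! # MA-GEO: geometric sums -/

set_option autoImplicit false

namespace Pool.Agent.H43.MA.GEO

open Finset

theorem ee_add (s t : ℝ) : ee (s + t) = ee s * ee t := by
  simp only [ee]
  rw [← Complex.exp_add]
  congr 1
  push_cast
  ring

theorem norm_ee (t : ℝ) : ‖ee t‖ = 1 := by
  simp only [ee]
  exact Complex.norm_exp_ofReal_mul_I _

theorem ee_int (k : ℤ) : ee k = 1 := by
  simp only [ee]
  have := Complex.exp_int_mul_two_pi_mul_I k
  rw [← this]
  congr 1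
  push_cast
  ring

/-- `|1 - e(t)| ≥ 4 ‖t‖` -/
theorem norm_sub_ge (t : ℝ) : 4 * dn t ≤ ‖ee t - 1‖ := by
  -- reduce to `t - round t`
  have h1 : ee t = ee (t - round t) := by
    have : t = (t - round t) + (round t : ℝ) := by ring
    conv_lhs => rw [this]
    rw [ee_add, ee_int, mul_one]
  set u : ℝ := t - round t with hu
  have hu2 : |u| ≤ 1 / 2 := abs_sub_round t
  have h2 : ‖ee u - 1‖ = 2 * |Real.sin (Real.pi * u)| := by
    have h3 : ee u - 1 = ee (u / 2) * (2 * Complex.I * (Real.sin (Real.pi * u) : ℂ)) := by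
      have e1 : ee u = ee (u / 2) * ee (u / 2) := by rw [← ee_add]; congr 1; ring
      have e2 : ee (u / 2) * ee (-(u / 2)) = 1 := by
        rw [← ee_add]
        have : u / 2 + -(u / 2) = ((0 : ℤ) : ℝ) := by push_cast; ring
        rw [this, ee_int]
      have e3 : 2 * Complex.I * (Real.sin (Real.pi * u) : ℂ) = ee (u / 2) - ee (-(u / 2)) := by
        simp only [ee]
        rw [Complex.ofReal_sin, Complex.sin]
        have f1 : ((2 * Real.pi * (u / 2) : ℝ) : ℂ) * Complex.I = ((Real.pi * u : ℝ) : ℂ) * Complex.I := by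
          congr 2; ring
        have f2 : ((2 * Real.pi * (-(u / 2)) : ℝ) : ℂ) * Complex.I =
            -((Real.pi * u : ℝ) : ℂ) * Complex.I := by
          push_cast; ring
        rw [f1, f2]
        have hI : Complex.I * Complex.I = -1 := Complex.I_mul_I
        linear_combination (Complex.exp (-((Real.pi * u : ℝ) : ℂ) * Complex.I) -
          Complex.exp (((Real.pi * u : ℝ) : ℂ) * Complex.I)) * hI
      rw [e3, mul_sub, e2, ← e1]
    rw [h3, norm_mul, norm_ee, one_mul, norm_mul, norm_mul, Complex.norm_I, Complex.norm_real,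
      Real.norm_eq_abs]
    norm_num
  have h4 : |Real.sin (Real.pi * u)| = Real.sin (Real.pi * |u|) := by
    have hpi := Real.pi_pos
    rw [Real.abs_sin_eq_sin_abs_of_abs_le_pi, abs_mul, abs_of_pos hpi]
    rw [abs_mul, abs_of_pos hpi]
    nlinarith
  have h5 : 2 / Real.pi * (Real.pi * |u|) ≤ Real.sin (Real.pi * |u|) := by
    have hpi := Real.pi_pos
    apply Real.mul_le_sin
    · positivity
    · nlinarith
  have h6 : 2 / Real.pi * (Real.pi * |u|) = 2 * |u| := by
    have := Real.pi_pos.ne'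
    field_simp
  rw [h1, h2, h4]
  have h7 : dn t = |u| := rfl
  rw [h7]
  rw [h6] at h5
  linarith

theorem geom (hM : S_MNB) (t : ℝ) (A L M : ℕ) (hL : L ≤ M) :
    ‖∑ n ∈ Ico A (A + L), ee (t * n)‖ ≤ mn M t := by
  obtain ⟨-, -, -, -, hnn, -, -, -, -, -, -, -, -, -, hmn⟩ := hM
  refine hmn M t _ ?_ ?_
  · refine (norm_sum_le _ _).trans ?_
    simp only [norm_ee, Finset.sum_const, Nat.card_Ico, nsmul_eq_mul, mul_one]
    have : A + L - A = L := by omega
    rw [this]
    exact_mod_cast hL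
  · rcases (hnn t).eq_or_lt with h | h
    · exact Or.inl h.symm
    right
    have h1 : (∑ n ∈ Ico A (A + L), ee (t * n)) * (ee t - 1) = ee (t * (A + L : ℕ)) - ee (t * A) := by
      rw [Finset.sum_mul]
      have : ∀ n : ℕ, ee (t * n) * (ee t - 1) = ee (t * (n + 1 : ℕ)) - ee (t * n) := by
        intro n
        rw [mul_sub, mul_one, ← ee_add]
        congr 2
        push_cast
        ring
      simp_rw [this]
      rw [Finset.sum_Ico_sub (f := fun n : ℕ => ee (t * n)) (by omega)]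
    have h2 : ‖∑ n ∈ Ico A (A + L), ee (t * n)‖ * ‖ee t - 1‖ ≤ 2 := by
      rw [← norm_mul, h1]
      refine (norm_sub_le _ _).trans ?_
      rw [norm_ee, norm_ee]
      norm_num
    have h3 := norm_sub_ge t
    rw [le_div_iff₀ (by positivity)]
    have h4 := mul_le_mul_of_nonneg_left h3 (norm_nonneg (∑ n ∈ Ico A (A + L), ee (t * n)))
    linarith

/-- summation by parts -/
theorem parts (f : ℕ → ℂ) (ω : ℕ → ℝ) (K : ℝ) (hf : ∀ j, ‖∑ i ∈ range j, f i‖ ≤ K) (L : ℕ) :
    ‖∑ i ∈ range (L + 1), ((ω i : ℝ) : ℂ) * f i‖ ≤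
      K * (|ω L| + ∑ i ∈ range L, |ω (i + 1) - ω i|) := by
  have key : ∀ L : ℕ, ∑ i ∈ range (L + 1), ((ω i : ℝ) : ℂ) * f i =
      ((ω L : ℝ) : ℂ) * (∑ i ∈ range (L + 1), f i) -
        ∑ i ∈ range L, ((ω (i + 1) - ω i : ℝ) : ℂ) * ∑ l ∈ range (i + 1), f l := by
    intro L
    induction L with
    | zero => simp
    | succ L ih =>
      rw [Finset.sum_range_succ, ih, Finset.sum_range_succ (fun i => f i) (L + 1),
        Finset.sum_range_succ (fun i => ((ω (i + 1) - ω i : ℝ) : ℂ) * ∑ l ∈ range (i + 1), f l) L]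
      push_cast
      ring
  rw [key]
  refine (norm_sub_le _ _).trans ?_
  have hK : 0 ≤ K := (norm_nonneg _).trans (hf 0)
  have h1 : ‖((ω L : ℝ) : ℂ) * (∑ i ∈ range (L + 1), f i)‖ ≤ K * |ω L| := by
    rw [norm_mul, Complex.norm_real, Real.norm_eq_abs, mul_comm]
    exact mul_le_mul_of_nonneg_right (hf _) (abs_nonneg _)
  have h2 : ‖∑ i ∈ range L, ((ω (i + 1) - ω i : ℝ) : ℂ) * ∑ l ∈ range (i + 1), f l‖ ≤
      K * ∑ i ∈ range L, |ω (i + 1) - ω i| := by
    refine (norm_sum_le _ _).trans ?_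
    rw [Finset.mul_sum]
    refine Finset.sum_le_sum fun i _ => ?_
    rw [norm_mul, Complex.norm_real, Real.norm_eq_abs, mul_comm]
    exact mul_le_mul_of_nonneg_right (hf _) (abs_nonneg _)
  rw [mul_add]
  exact add_le_add h1 h2

theorem main : S_MNB → S_GEO := by
  intro hM
  refine ⟨geom hM, ?_⟩
  intro t B A L M ω hL hB hω hmono
  obtain ⟨-, -, -, -, -, -, -, -, -, -, hmnn, -, -, -, -⟩ := id hM
  rcases Nat.eq_zero_or_pos L with h0 | hpos
  · subst h0
    simp
    have := hmnn M t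
    positivity
  obtain ⟨l, rfl⟩ : ∃ l, L = l + 1 := ⟨L - 1, by omega⟩
  rw [Finset.sum_Ico_eq_sum_range]
  have hl : A + (l + 1) - A = l + 1 := by omega
  rw [hl]
  -- truncation of the partial sums
  set f : ℕ → ℂ := fun i => if i < l + 1 then ee (t * ((A + i : ℕ) : ℝ)) else 0 with hf
  have hpart : ∀ j, ‖∑ i ∈ range j, f i‖ ≤ mn M t := by
    intro j
    have h1 : ∑ i ∈ range j, f i = ∑ n ∈ Ico A (A + min j (l + 1)), ee (t * n) := by
      rw [Finset.sum_Ico_eq_sum_range]
      have h2 : A + min j (l + 1) - A = min j (l + 1) := by omega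
      rw [h2, hf, ← Finset.sum_filter]
      refine Finset.sum_congr ?_ fun i _ => rfl
      ext i
      simp only [Finset.mem_filter, Finset.mem_range]
      omega
    rw [h1]
    exact geom hM t A _ M ((min_le_right _ _).trans hL)
  have h3 : ∑ i ∈ range (l + 1), ((ω (A + i) : ℝ) : ℂ) * ee (t * ((A + i : ℕ) : ℝ)) =
      ∑ i ∈ range (l + 1), ((ω (A + i) : ℝ) : ℂ) * f i := by
    refine Finset.sum_congr rfl fun i hi => ?_
    rw [Finset.mem_range] at hi
    simp only [hf]
    rw [if_pos hi]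
  rw [h3]
  refine (parts f (fun i => ω (A + i)) (mn M t) hpart l).trans ?_
  have hmem : ∀ i, i ≤ l → A + i ∈ Ico A (A + (l + 1)) := fun i hi => by
    rw [Finset.mem_Ico]; omega
  have hl0 := hω _ (hmem l le_rfl)
  have h00 := hω _ (hmem 0 (Nat.zero_le _))
  have h4 : ∑ i ∈ range l, |ω (A + (i + 1)) - ω (A + i)| ≤ B := by
    rcases hmono with hm | hm
    · have h5 : ∀ i ∈ range l, |ω (A + (i + 1)) - ω (A + i)| = ω (A + (i + 1)) - ω (A + i) := by
        intro i hi
        rw [Finset.mem_range] at hi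
        rw [abs_of_nonneg]
        exact sub_nonneg.2 (hm _ (hmem i (by omega)) _ (hmem (i + 1) (by omega)) (by omega))
      rw [Finset.sum_congr rfl h5, Finset.sum_range_sub (fun i => ω (A + i))]
      linarith [hl0.2, h00.1]
    · have h5 : ∀ i ∈ range l, |ω (A + (i + 1)) - ω (A + i)| = ω (A + i) - ω (A + (i + 1)) := by
        intro i hi
        rw [Finset.mem_range] at hi
        rw [abs_sub_comm, abs_of_nonneg]
        exact sub_nonneg.2 (hm _ (hmem i (by omega)) _ (hmem (i + 1) (by omega)) (by omega))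
      rw [Finset.sum_congr rfl h5, Finset.sum_range_sub' (fun i => ω (A + i))]
      linarith [hl0.1, h00.2]
  have h6 : |ω (A + l)| ≤ B := by
    rw [abs_of_nonneg hl0.1]; exact hl0.2
  have h7 := hmnn M t
  calc mn M t * (|ω (A + l)| + ∑ i ∈ range l, |ω (A + (i + 1)) - ω (A + i)|)
      ≤ mn M t * (B + B) := by gcongr
    _ = 2 * B * mn M t := by ring

end Pool.Agent.H43.MA.GEO
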