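import Pool.Agent.H43.MA.Stm

/-! # MA-GI: the integral of the kernel -/

set_option autoImplicit false

namespace Pool.Agent.H43.MA.GI

open Finset

theorem dn_sq {u : ℝ} (h1 : -(1 / 2) ≤ u) (h2 : u ≤ 1 / 2) : dn u ^ 2 = u ^ 2 := by
  rcases lt_or_eq_of_le h2 with h | h
  · have h3 : round u = 0 := by
      rw [round_eq, Int.floor_eq_iff]
      constructor
      · push_cast; linarith
      · push_cast; linarith
    rw [dn, h3, Int.cast_zero, sub_zero, sq_abs]
  · have h3 : round u = 1 := by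
      rw [round_eq, Int.floor_eq_iff, h]
      constructor
      · norm_num
      · norm_num
    rw [dn, h3, h, sq_abs]
    norm_num

theorem main : S_MNB → S_GI := by
  intro hM D D2 r hD hD2 hr
  obtain ⟨hc, hp, -⟩ := hM
  have hD' : (0 : ℝ) < D := by exact_mod_cast hD
  have hD2' : (0 : ℝ) < D2 := by exact_mod_cast hD2
  have hr' : (0 : ℝ) < r := by exact_mod_cast hr
  have hcont : Continuous (gr D D2 r) := by
    unfold gr
    refine continuous_const.div ?_ fun u => by positivity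
    exact continuous_const.add (((continuous_const.mul hc).div_const _).pow 2)
  have hper : ∀ u, gr D D2 r (u + 1) = gr D D2 r u := fun u => by
    unfold gr; rw [hp]
  refine ⟨hcont, fun u => by unfold gr; positivity, hper, ?_⟩
  have h1 : ∫ u in (0 : ℝ)..1, gr D D2 r u = ∫ u in (-(1 / 2) : ℝ)..1 / 2, gr D D2 r u := by
    have hP : Function.Periodic (gr D D2 r) 1 := hper
    have := hP.intervalIntegral_add_eq 0 (-(1 / 2))
    rw [zero_add] at this
    rw [this]
    congr 1
    norm_num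
  have h2 : ∫ u in (-(1 / 2) : ℝ)..1 / 2, gr D D2 r u =
      ∫ u in (-(1 / 2) : ℝ)..1 / 2, (D2 : ℝ) ^ 2 * (1 + ((D * D2 / r) * u) ^ 2)⁻¹ := by
    refine intervalIntegral.integral_congr fun u hu => ?_
    rw [Set.uIcc_of_le (by norm_num)] at hu
    have h3 := dn_sq hu.1 hu.2
    simp only [gr]
    rw [div_eq_mul_inv]
    congr 3
    rw [mul_div_right_comm, mul_pow, mul_pow, h3]
  rw [h1, h2, intervalIntegral.integral_const_mul]
  have hk : (0 : ℝ) < D * D2 / r := by positivity
  rw [intervalIntegral.integral_comp_mul_left (fun x => (1 + x ^ 2)⁻¹) hk.ne',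
    integral_inv_one_add_sq, smul_eq_mul]
  have h4 := Real.arctan_lt_pi_div_two ((D * D2 / r : ℝ) * (1 / 2))
  have h5 := Real.neg_pi_div_two_lt_arctan ((D * D2 / r : ℝ) * (-(1 / 2)))
  have h6 : Real.arctan ((D * D2 / r : ℝ) * (1 / 2)) - Real.arctan ((D * D2 / r : ℝ) * (-(1 / 2))) ≤
      Real.pi := by linarith
  calc (D2 : ℝ) ^ 2 * ((D * D2 / r : ℝ)⁻¹ * (Real.arctan ((D * D2 / r : ℝ) * (1 / 2)) -
        Real.arctan ((D * D2 / r : ℝ) * (-(1 / 2)))))
      ≤ (D2 : ℝ) ^ 2 * ((D * D2 / r : ℝ)⁻¹ * Real.pi) := by gcongr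
    _ = Real.pi * (D2 * r / D) := by field_simp

end Pool.Agent.H43.MA.GI
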