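import Pool.Agent.H43.MA.Stm

set_option autoImplicit false

/-! # MA-LMI (helper94) -/

namespace Pool.Agent.H43.MA.LMI

open Finset

lemma exists_s (X : ℕ) (hX : 2 ≤ X) : ∃ s : ℕ, 1 ≤ s ∧ X ≤ (2 ^ s - 1) ^ 4 ∧ s ≤ Nat.log 2 X + 1 ∧
    (2 : ℝ) ^ (s - 1) ≤ (X : ℝ) ^ (1 / 4 : ℝ) + 1 := by
  have hex : ∃ s : ℕ, X ≤ (2 ^ s - 1) ^ 4 := by
    refine ⟨Nat.log 2 X + 1, ?_⟩
    have h1 : X < 2 ^ (Nat.log 2 X + 1) := Nat.lt_pow_succ_log_self (by norm_num) X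
    calc X ≤ 2 ^ (Nat.log 2 X + 1) - 1 := by omega
      _ ≤ (2 ^ (Nat.log 2 X + 1) - 1) ^ 4 := Nat.le_self_pow (by norm_num) _
  classical
  obtain ⟨s, hs⟩ : ∃ s, s = Nat.find hex := ⟨_, rfl⟩
  have hs1 : X ≤ (2 ^ s - 1) ^ 4 := by rw [hs]; exact Nat.find_spec hex
  have hs2 : s ≤ Nat.log 2 X + 1 := by
    rw [hs]
    apply Nat.find_min'
    have h1 : X < 2 ^ (Nat.log 2 X + 1) := Nat.lt_pow_succ_log_self (by norm_num) X
    calc X ≤ 2 ^ (Nat.log 2 X + 1) - 1 := by omega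
      _ ≤ (2 ^ (Nat.log 2 X + 1) - 1) ^ 4 := Nat.le_self_pow (by norm_num) _
  have hs0 : 1 ≤ s := by
    by_contra hcon
    have : s = 0 := by omega
    rw [this] at hs1
    norm_num at hs1
    omega
  refine ⟨s, hs0, hs1, hs2, ?_⟩
  have h3 : ¬ X ≤ (2 ^ (s - 1) - 1) ^ 4 := by
    have : s - 1 < Nat.find hex := by rw [← hs]; omega
    exact Nat.find_min hex this
  push Not at h3
  have hp : 1 ≤ 2 ^ (s - 1) := Nat.one_le_two_pow
  have h4 : (((2 ^ (s - 1) - 1 : ℕ) : ℝ)) ^ 4 ≤ X := by exact_mod_cast h3.le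
  have h5 : (((2 ^ (s - 1) - 1 : ℕ) : ℝ)) ≤ (X : ℝ) ^ (1 / 4 : ℝ) := by
    have h6 : ((((2 ^ (s - 1) - 1 : ℕ) : ℝ)) ^ 4) ^ (1 / 4 : ℝ) = ((2 ^ (s - 1) - 1 : ℕ) : ℝ) := by
      rw [← Real.rpow_natCast, ← Real.rpow_mul (Nat.cast_nonneg _)]
      norm_num
    rw [← h6]
    exact Real.rpow_le_rpow (by positivity) h4 (by norm_num)
  rw [Nat.cast_sub hp] at h5
  push_cast at h5
  linarith

lemma Wn_congr (H N N' X : ℕ) (α : ℝ) (c c' : ℕ → ℝ) (hN : X ≤ N) (hN' : X ≤ N') (x : ℕ) (hx : x < X)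
    (h : ∀ n, 1 ≤ n → n ≤ X → c n = c' n) : Wn H N α c x = Wn H N' α c' x := by
  unfold Wn
  have e : (Icc 1 N).filter (fun n => n ≤ x ∧ x < n + H) = (Icc 1 N').filter (fun n => n ≤ x ∧ x < n + H) := by
    ext n
    simp only [mem_filter, mem_Icc]
    omega
  rw [e]
  refine sum_congr rfl fun n hn => ?_
  rw [mem_filter, mem_Icc] at hn
  rw [h n hn.1.1 (by omega)]

theorem main : S_WSB → S_DEC → S_BOX → S_NB → S_LMI := by
  intro hW hD hB hN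
  obtain ⟨w1, w2, w3, w4⟩ := hW
  obtain ⟨C, E, hC, hN⟩ := hN
  intro θ hθ A
  obtain ⟨B, hB⟩ := hB θ hθ (A + 17)
  refine ⟨B, fun B' => ?_⟩
  obtain ⟨X₁, hX₁⟩ := hB B'
  have hlog : Filter.Tendsto (fun n : ℕ => Real.log n) Filter.atTop Filter.atTop :=
    Real.tendsto_log_atTop.comp tendsto_natCast_atTop_atTop
  obtain ⟨X₂, hX₂⟩ := Filter.eventually_atTop.1 (hlog.eventually_ge_atTop (3 ^ 16 * 225))
  refine ⟨max (max X₁ X₂) 3, ?_⟩
  intro X hX P1 hP1 hP1' H hH hHX α hMi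
  have hXX₁ : X₁ ≤ X := ((le_max_left _ _).trans (le_max_left _ _)).trans hX
  have hXX₂ : X₂ ≤ X := ((le_max_right _ _).trans (le_max_left _ _)).trans hX
  have hX3 : 3 ≤ X := (le_max_right _ _).trans hX
  have hbig := hX₂ X hXX₂
  have hX0 : (0 : ℝ) < X := by exact_mod_cast (by omega : 0 < X)
  obtain ⟨s, hs0, hs1, hs2, hs3⟩ := exists_s X (by omega)
  obtain ⟨a, ha1, ha2, ha3⟩ := hD X s (by omega) hs1 hs2
  have hbox := hX₁ X hXX₁ P1 hP1 hP1' H hH hHX α hMi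
  classical
  obtain ⟨𝒟, h𝒟⟩ : ∃ 𝒟 : Finset (Fin 8 → ℕ), 𝒟 = Fintype.piFinset (fun _ : Fin 8 => range (Nat.log 2 X + 1)) :=
    ⟨_, rfl⟩
  obtain ⟨𝒟', h𝒟'⟩ : ∃ 𝒟' : Finset (Fin 8 → ℕ), 𝒟' = 𝒟.filter (fun d => 2 ^ (∑ i, d i) ≤ X ∧ a d ≠ 0) :=
    ⟨_, rfl⟩
  have hcard : (𝒟'.card : ℝ) ≤ ((Nat.log 2 X : ℝ) + 1) ^ 8 := by
    have h1 : 𝒟'.card ≤ 𝒟.card := by rw [h𝒟']; exact card_filter_le _ _
    have h2 : 𝒟.card = (Nat.log 2 X + 1) ^ 8 := by
      rw [h𝒟, Fintype.card_piFinset]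
      simp
    rw [h2] at h1
    exact_mod_cast h1
  -- the decomposition
  have hdec : ∀ n, 1 ≤ n → n ≤ X → ArithmeticFunction.vonMangoldt n = ∑ d ∈ 𝒟', a d * bx d n := by
    intro n hn1 hnX
    rw [ha3 n hn1 hnX, ← h𝒟, h𝒟', sum_filter]
    refine sum_congr rfl fun d _ => ?_
    split_ifs with hd
    · rfl
    · by_cases had : a d = 0
      · rw [had, zero_mul]
      · have h2 : ¬ 2 ^ (∑ i, d i) ≤ X := fun h => hd ⟨h, had⟩
        have h3 : bx d n = 0 := by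
          by_contra hcon
          have h4 := ((hN univ d).1 n hcon).1
          rw [prod_pow_eq_pow_sum] at h4
          exact h2 (h4.trans hnX)
        rw [h3, mul_zero]
  -- the windows
  have h1 : ∑ x ∈ range X, ‖Wn H X α (fun n => ArithmeticFunction.vonMangoldt n) x‖ ^ 2 ≤
      WS H (256 * X) α (fun n => ∑ d ∈ 𝒟', a d * bx d n) := by
    unfold WS
    have e : ∑ x ∈ range X, ‖Wn H X α (fun n => ArithmeticFunction.vonMangoldt n) x‖ ^ 2 =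
        ∑ x ∈ range X, ‖Wn H (256 * X) α (fun n => ∑ d ∈ 𝒟', a d * bx d n) x‖ ^ 2 := by
      refine sum_congr rfl fun x hx => ?_
      rw [mem_range] at hx
      rw [Wn_congr H X (256 * X) X α _ _ le_rfl (by omega) x hx hdec]
    rw [e]
    apply sum_le_sum_of_subset_of_nonneg
    · intro x hx
      rw [mem_range] at hx ⊢
      omega
    · intro x _ _
      positivity
  have hlogpos : 0 < Real.log X := lt_of_lt_of_le (by norm_num) hbig
  have h2 := w1 H (256 * X) α (Fin 8 → ℕ) 𝒟' (fun d n => a d * bx d n)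
  have h3 : ∀ d ∈ 𝒟', WS H (256 * X) α (fun n => a d * bx d n) ≤
      225 * (X * (H : ℝ) ^ 2 / Real.log X ^ (A + 17)) := by
    intro d hd
    rw [h𝒟', mem_filter] at hd
    obtain ⟨_, hd2, hd3⟩ := hd
    rw [w3]
    have h4 : WS H (256 * X) α (fun n => bx d n) ≤ X * (H : ℝ) ^ 2 / Real.log X ^ (A + 17) := by
      apply hbox d _ hd2
      intro i hi
      refine le_trans ?_ hs3
      have := ha2 d hd3 i hi
      exact pow_le_pow_right₀ (by norm_num) (by omega)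
    have h5 : a d ^ 2 ≤ 225 := by
      have := ha1 d
      rw [← sq_abs]
      nlinarith [abs_nonneg (a d)]
    have h6 := w4 H (256 * X) α (fun n => bx d n)
    calc a d ^ 2 * WS H (256 * X) α (fun n => bx d n) ≤ 225 * WS H (256 * X) α (fun n => bx d n) := by
          gcongr
      _ ≤ _ := by gcongr
  have h4 : ∑ d ∈ 𝒟', WS H (256 * X) α (fun n => a d * bx d n) ≤
      𝒟'.card * (225 * (X * (H : ℝ) ^ 2 / Real.log X ^ (A + 17))) := by
    refine (sum_le_sum h3).trans ?_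
    rw [sum_const, nsmul_eq_mul]
  have hcard0 : (0 : ℝ) ≤ 𝒟'.card := Nat.cast_nonneg _
  have h5 : WS H (256 * X) α (fun n => ∑ d ∈ 𝒟', a d * bx d n) ≤
      ((Nat.log 2 X : ℝ) + 1) ^ 8 * (((Nat.log 2 X : ℝ) + 1) ^ 8 *
        (225 * (X * (H : ℝ) ^ 2 / Real.log X ^ (A + 17)))) := by
    refine h2.trans ?_
    calc (𝒟'.card : ℝ) * ∑ d ∈ 𝒟', WS H (256 * X) α (fun n => a d * bx d n)
        ≤ 𝒟'.card * (𝒟'.card * (225 * (X * (H : ℝ) ^ 2 / Real.log X ^ (A + 17)))) := by gcongr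
      _ ≤ _ := by gcongr
  refine (h1.trans h5).trans ?_
  have hL : (Nat.log 2 X : ℝ) + 1 ≤ 3 * Real.log X := by
    have h6 : (Nat.log 2 X : ℝ) ≤ Real.log X / Real.log 2 := by
      rw [le_div_iff₀ (Real.log_pos (by norm_num)), ← Real.log_pow]
      apply Real.log_le_log (by positivity)
      exact_mod_cast Nat.pow_log_le_self 2 (by omega)
    have h7 : Real.log X / Real.log 2 ≤ 2 * Real.log X := by
      rw [div_le_iff₀ (Real.log_pos (by norm_num))]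
      have := Real.log_two_gt_d9
      nlinarith
    linarith
  have hL0 : (0 : ℝ) ≤ (Nat.log 2 X : ℝ) + 1 := by positivity
  have h8 : ((Nat.log 2 X : ℝ) + 1) ^ 8 * (((Nat.log 2 X : ℝ) + 1) ^ 8 *
        (225 * (X * (H : ℝ) ^ 2 / Real.log X ^ (A + 17)))) ≤
      (3 * Real.log X) ^ 8 * ((3 * Real.log X) ^ 8 *
        (225 * (X * (H : ℝ) ^ 2 / Real.log X ^ (A + 17)))) := by gcongr
  refine h8.trans ?_
  have e9 : (3 * Real.log X) ^ 8 * ((3 * Real.log X) ^ 8 *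
        (225 * (X * (H : ℝ) ^ 2 / Real.log X ^ (A + 17)))) =
      (3 ^ 16 * 225 / Real.log X) * (X * (H : ℝ) ^ 2 / Real.log X ^ A) := by
    field_simp
    ring
  rw [e9]
  have h10 : 3 ^ 16 * 225 / Real.log X ≤ 1 := by
    rw [div_le_one hlogpos]
    exact hbig
  have h11 : 0 ≤ X * (H : ℝ) ^ 2 / Real.log X ^ A := by positivity
  nlinarith

end Pool.Agent.H43.MA.LMI
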