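import Pool.Agent.H43.MA.Stm2

/-! # Project MA: the major arcs -/

set_option autoImplicit false

namespace Pool.Agent.H43.MA.MAJ

open Finset Filter
open Pool.Agent.helper24_UT (NN Ed)
open Pool.Agent.H373R2.T7 (lamI lamzI lamz Vz Vz_inv_small Vz_pos)
open Pool.Agent.H442R2.EHI (evt_log_pow evt_log_ge)
open Pool.Agent.H43.SL (SIe)

theorem ee_add (s t : ℝ) : ee (s + t) = ee s * ee t := by
  unfold ee
  rw [← Complex.exp_add]
  congr 1
  push_cast
  ring

theorem ee_norm (t : ℝ) : ‖ee t‖ = 1 := Complex.norm_exp_ofReal_mul_I _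

theorem ee_int (n : ℤ) : ee (n : ℝ) = 1 := by
  unfold ee
  rw [Complex.exp_eq_one_iff]
  exact ⟨n, by push_cast; ring⟩

theorem ee_sub (s t : ℝ) : ‖ee s - ee t‖ ≤ 2 * Real.pi * |s - t| := by
  have h : ee s = ee t * ee (s - t) := by rw [← ee_add]; congr 1; ring
  have h2 : ee s - ee t = ee t * (ee (s - t) - 1) := by rw [h]; ring
  rw [h2, norm_mul, ee_norm, one_mul]
  unfold ee
  rw [mul_comm (((2 * Real.pi * (s - t) : ℝ)) : ℂ) Complex.I]
  refine (Real.norm_exp_I_mul_ofReal_sub_one_le).trans ?_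
  rw [Real.norm_eq_abs, abs_mul, abs_of_pos Real.two_pi_pos]

theorem split (g : ℤ → ℂ) (u v w : ℤ) (huv : u ≤ v) (hvw : v ≤ w) :
    ∑ m ∈ Ioc u w, g m = ∑ m ∈ Ioc u v, g m + ∑ m ∈ Ioc v w, g m := by
  rw [← Finset.sum_union (Finset.Ioc_disjoint_Ioc_of_le le_rfl), Finset.Ioc_union_Ioc_eq_Ioc huv hvw]

theorem blocks (g : ℤ → ℂ) (u : ℤ) (W J : ℕ) : ∑ m ∈ Ioc u (u + J * W), g m =
    ∑ j ∈ range J, ∑ m ∈ Ioc (u + j * W) (u + j * W + W), g m := by
  induction J with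
  | zero => simp
  | succ J ih =>
    rw [sum_range_succ, ← ih, split g u (u + J * W) (u + (J + 1 : ℕ) * W)]
    · congr 2
      push_cast
      ring_nf
    · have : (0 : ℤ) ≤ (J : ℤ) * W := by positivity
      omega
    · push_cast
      have : (0 : ℤ) ≤ (W : ℤ) := by positivity
      nlinarith

theorem block (f : ℤ → ℝ) (M : ℝ) (v : ℤ) (W q : ℕ) (a : ℤ) (α b : ℝ) (hM : 0 ≤ M)
    (hf : ∀ m ∈ Ioc v (v + W), |f m| ≤ M) (hb : |α - a / q| ≤ b) :
    ‖∑ m ∈ Ioc v (v + W), ((f m : ℝ) : ℂ) * ee (α * m)‖ ≤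
      ‖∑ m ∈ Ioc v (v + W), ((f m : ℝ) : ℂ) * ee (a / q * m)‖ + 2 * Real.pi * b * W * W * M := by
  set β := α - a / q with hβ
  have hb0 : 0 ≤ b := (abs_nonneg _).trans hb
  have h1 : ∑ m ∈ Ioc v (v + W), ((f m : ℝ) : ℂ) * ee (α * m) =
      ee (β * v) * ∑ m ∈ Ioc v (v + W), ((f m : ℝ) : ℂ) * ee (a / q * m) +
      ∑ m ∈ Ioc v (v + W), ((f m : ℝ) : ℂ) * (ee (a / q * m) * (ee (β * m) - ee (β * v))) := by
    rw [mul_sum, ← sum_add_distrib]
    refine sum_congr rfl fun m _ => ?_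
    have : ee (α * m) = ee (a / q * m) * ee (β * m) := by
      rw [← ee_add]; congr 1; rw [hβ]; ring
    rw [this]
    ring
  rw [h1]
  refine (norm_add_le _ _).trans (add_le_add ?_ ?_)
  · rw [norm_mul, ee_norm, one_mul]
  · have h2 : ∀ m ∈ Ioc v (v + W), ‖((f m : ℝ) : ℂ) * (ee (a / q * m) * (ee (β * m) - ee (β * v)))‖ ≤
        M * (2 * Real.pi * b * W) := by
      intro m hm
      have hm' := hm
      rw [mem_Ioc] at hm'
      rw [norm_mul, norm_mul, ee_norm, one_mul, Complex.norm_real, Real.norm_eq_abs]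
      have h3 := ee_sub (β * m) (β * v)
      have h4 : |β * m - β * v| ≤ b * W := by
        rw [← mul_sub, abs_mul]
        have h5 : |((m : ℝ) - v)| ≤ W := by
          have h6 : (0 : ℝ) ≤ (m : ℝ) - v := by
            have : (v : ℝ) < m := by exact_mod_cast hm'.1
            linarith
          rw [abs_of_nonneg h6]
          have : (m : ℝ) ≤ v + W := by exact_mod_cast hm'.2
          linarith
        exact mul_le_mul hb h5 (abs_nonneg _) hb0
      have h7 : ‖ee (β * m) - ee (β * v)‖ ≤ 2 * Real.pi * b * W := by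
        refine h3.trans ?_
        have := Real.two_pi_pos
        nlinarith
      exact mul_le_mul (hf m hm) h7 (norm_nonneg _) hM
    refine (norm_sum_le _ _).trans ((sum_le_sum h2).trans (le_of_eq ?_))
    rw [sum_const, Int.card_Ioc, nsmul_eq_mul]
    have : ((v + W - v).toNat : ℝ) = W := by
      have : (v + W - v).toNat = W := by omega
      rw [this]
    rw [this]
    ring

theorem core (f : ℤ → ℝ) (M : ℝ) (hM : 0 ≤ M) (u : ℤ) (H W J q : ℕ) (a : ℤ) (α b : ℝ)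
    (hJ : J * W ≤ H) (hJ2 : H ≤ J * W + W) (hf : ∀ m ∈ Ioc u (u + H), |f m| ≤ M) (hb : |α - a / q| ≤ b) :
    ‖∑ m ∈ Ioc u (u + H), ((f m : ℝ) : ℂ) * ee (α * m)‖ ≤
      ∑ j ∈ range J, ‖∑ m ∈ Ioc (u + j * W) (u + j * W + W), ((f m : ℝ) : ℂ) * ee (a / q * m)‖ +
        (2 * Real.pi * b * H * W * M + W * M) := by
  have hb0 : 0 ≤ b := (abs_nonneg _).trans hb
  have hJz : (J : ℤ) * W ≤ H := by exact_mod_cast hJ
  have hJz2 : (H : ℤ) ≤ J * W + W := by exact_mod_cast hJ2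
  have hJ0 : (0 : ℤ) ≤ (J : ℤ) * W := by positivity
  rw [split _ u (u + J * W) (u + H) (by omega) (by omega), blocks]
  have h1 : ‖∑ j ∈ range J, ∑ m ∈ Ioc (u + (j : ℤ) * W) (u + (j : ℤ) * W + W), ((f m : ℝ) : ℂ) * ee (α * m)‖ ≤
      ∑ j ∈ range J, ‖∑ m ∈ Ioc (u + (j : ℤ) * W) (u + (j : ℤ) * W + W), ((f m : ℝ) : ℂ) * ee (a / q * m)‖ +
        2 * Real.pi * b * H * W * M := by
    have h2 : ∀ j ∈ range J, ‖∑ m ∈ Ioc (u + (j : ℤ) * W) (u + (j : ℤ) * W + W), ((f m : ℝ) : ℂ) * ee (α * m)‖ ≤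
        ‖∑ m ∈ Ioc (u + (j : ℤ) * W) (u + (j : ℤ) * W + W), ((f m : ℝ) : ℂ) * ee (a / q * m)‖ +
          2 * Real.pi * b * W * W * M := by
      intro j hj
      rw [mem_range] at hj
      apply block f M _ W q a α b hM _ hb
      intro m hm
      apply hf
      rw [mem_Ioc] at hm ⊢
      have h3 : (j + 1) * W ≤ J * W := Nat.mul_le_mul_right W hj
      have h4 : ((j : ℤ) + 1) * W ≤ J * W := by exact_mod_cast h3
      have h5 : (0 : ℤ) ≤ (j : ℤ) * W := by positivity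
      constructor
      · linarith
      · nlinarith
    refine (norm_sum_le _ _).trans ((sum_le_sum h2).trans ?_)
    rw [sum_add_distrib, sum_const, card_range, nsmul_eq_mul]
    have h3 : ((J : ℝ) * W) ≤ H := by exact_mod_cast hJ
    have h4 : (0 : ℝ) ≤ 2 * Real.pi * b * W * M := by
      have := Real.pi_pos
      positivity
    nlinarith
  have h2 : ‖∑ m ∈ Ioc (u + (J : ℤ) * W) (u + H), ((f m : ℝ) : ℂ) * ee (α * m)‖ ≤ W * M := by
    have h3 : ∀ m ∈ Ioc (u + (J : ℤ) * W) (u + H), ‖((f m : ℝ) : ℂ) * ee (α * m)‖ ≤ M := by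
      intro m hm
      rw [norm_mul, ee_norm, mul_one, Complex.norm_real, Real.norm_eq_abs]
      apply hf
      rw [mem_Ioc] at hm ⊢
      constructor
      · linarith
      · linarith
    refine (norm_sum_le _ _).trans ((sum_le_sum h3).trans ?_)
    rw [sum_const, Int.card_Ioc, nsmul_eq_mul]
    apply mul_le_mul_of_nonneg_right _ hM
    have : (u + H - (u + (J : ℤ) * W)).toNat ≤ W := by omega
    exact_mod_cast this
  refine (norm_add_le _ _).trans ?_
  linarith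

theorem classes (f : ℤ → ℝ) (v : ℤ) (W q : ℕ) (hq : 1 ≤ q) (a : ℤ) :
    ‖∑ m ∈ Ioc v (v + W), ((f m : ℝ) : ℂ) * ee (a / q * m)‖ ^ 2 ≤ q * NN f v W q := by
  have hq0 : (q : ℤ) ≠ 0 := by omega
  have h1 : ∑ m ∈ Ioc v (v + W), ((f m : ℝ) : ℂ) * ee (a / q * m) = ∑ r ∈ range q,
      ee (a / q * r) * ∑ m ∈ (Ioc v (v + W)).filter (fun m => m % (q : ℤ) = (r : ℤ)), ((f m : ℝ) : ℂ) := by
    rw [← sum_fiberwise_of_maps_to (s := Ioc v (v + W)) (t := range q) (g := fun m => (m % (q : ℤ)).toNat)]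
    · refine sum_congr rfl fun r hr => ?_
      rw [mul_sum]
      have e : (Ioc v (v + W)).filter (fun m => (m % (q : ℤ)).toNat = r) =
          (Ioc v (v + W)).filter (fun m => m % (q : ℤ) = (r : ℤ)) := by
        ext m
        rw [mem_filter, mem_filter]
        have h0 := Int.emod_nonneg m hq0
        constructor
        · rintro ⟨h2, h3⟩; exact ⟨h2, by omega⟩
        · rintro ⟨h2, h3⟩; exact ⟨h2, by omega⟩
      rw [e]
      refine sum_congr rfl fun m hm => ?_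
      rw [mem_filter] at hm
      have h2 : m = r + q * (m / q) := by
        have := Int.emod_add_mul_ediv m q
        rw [hm.2] at this
        exact this.symm
      have h3 : ee (a / q * m) = ee (a / q * r) := by
        have h4 : (a : ℝ) / q * m = a / q * r + ((a * (m / q) : ℤ) : ℝ) := by
          have h5 : (m : ℝ) = r + q * ((m / q : ℤ) : ℝ) := by exact_mod_cast h2
          have hqr : (q : ℝ) ≠ 0 := by exact_mod_cast (by omega : q ≠ 0)
          rw [h5]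
          push_cast
          field_simp
        rw [h4, ee_add, ee_int, mul_one]
      rw [h3]
      ring
    · intro m _
      rw [mem_range]
      have h0 := Int.emod_nonneg m hq0
      have h2 := Int.emod_lt_of_pos m (show (0 : ℤ) < q by omega)
      omega
  rw [h1]
  have h2 : ‖∑ r ∈ range q, ee (a / q * r) * ∑ m ∈ (Ioc v (v + W)).filter (fun m => m % (q : ℤ) = (r : ℤ)),
      ((f m : ℝ) : ℂ)‖ ≤ ∑ r ∈ range q, |∑ m ∈ (Ioc v (v + W)).filter (fun m => m % (q : ℤ) = (r : ℤ)), f m| := by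
    refine (norm_sum_le _ _).trans (le_of_eq (sum_congr rfl fun r _ => ?_))
    rw [norm_mul, ee_norm, one_mul, ← Complex.ofReal_sum, Complex.norm_real, Real.norm_eq_abs]
  calc _ ≤ (∑ r ∈ range q, |∑ m ∈ (Ioc v (v + W)).filter (fun m => m % (q : ℤ) = (r : ℤ)), f m|) ^ 2 :=
        pow_le_pow_left₀ (norm_nonneg _) h2 2
    _ ≤ (range q).card * ∑ r ∈ range q, |∑ m ∈ (Ioc v (v + W)).filter (fun m => m % (q : ℤ) = (r : ℤ)), f m| ^ 2 :=
        sq_sum_le_card_mul_sum_sq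
    _ = q * NN f v W q := by
        rw [card_range]
        unfold NN
        congr 1
        exact sum_congr rfl fun r _ => sq_abs _

theorem Ed_le (z N : ℕ) (V : ℝ) (hV : (Vz z)⁻¹ ≤ V) (m : ℤ) (hm : m ≤ N) :
    |Ed z m| ≤ Real.log N + V := by
  have hV0 : 0 ≤ (Vz z)⁻¹ := (inv_pos.mpr (Vz_pos z)).le
  have hl : 0 ≤ Real.log N := Real.log_natCast_nonneg N
  have h1 : 0 ≤ lamI m ∧ lamI m ≤ Real.log N := by
    unfold lamI
    split_ifs with h
    · refine ⟨ArithmeticFunction.vonMangoldt_nonneg, ArithmeticFunction.vonMangoldt_le_log.trans ?_⟩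
      apply Real.log_le_log
      · have : 1 ≤ m.toNat := by omega
        exact_mod_cast this
      · have : m.toNat ≤ N := by omega
        exact_mod_cast this
    · exact ⟨le_rfl, hl⟩
  have h2 : 0 ≤ lamzI z m ∧ lamzI z m ≤ V := by
    unfold lamzI lamz
    split_ifs with h h'
    · exact ⟨hV0, hV⟩
    · exact ⟨le_rfl, hV0.trans hV⟩
    · exact ⟨le_rfl, hV0.trans hV⟩
  unfold Ed
  rw [abs_le]
  constructor <;> linarith [h1.1, h1.2, h2.1, h2.2]

theorem NN_nonneg (f : ℤ → ℝ) (v : ℤ) (W q : ℕ) : 0 ≤ NN f v W q := sum_nonneg fun _ _ => sq_nonneg _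

theorem main (hS : ∀ θ' : ℝ, 1 / 6 < θ' → SIe θ') : S_MAJ := by
  intro θ hθ A B
  set θ' := (θ + 1 / 6) / 2 with hθ'
  have hθ1 : 1 / 6 < θ' := by rw [hθ']; linarith
  have hθ2 : 0 < θ - θ' := by rw [hθ']; linarith
  obtain ⟨E₀, h1⟩ := hS θ' hθ1 (A + B + 1) B
  refine ⟨E₀ + 1, fun E₁ => ?_⟩
  obtain ⟨X₀, h2⟩ := h1 E₁
  obtain ⟨X₁, h3⟩ := Vz_inv_small E₁
  obtain ⟨X₂, hX₂⟩ := eventually_atTop.mp ((evt_log_pow (A + B + 2 + 1) (θ - θ') hθ2).and
    ((evt_log_ge (48 + 2 ^ E₀ + 2 * 2 ^ θ')).and (eventually_ge_atTop 2)))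
  refine ⟨max (max X₀ X₁) X₂, fun X hX z hz1 hz2 P q hq hqP hP a H hH hHX α hα => ?_⟩
  have hXX₀ : X₀ ≤ X := (le_max_left _ _).trans ((le_max_left _ _).trans hX)
  have hXX₁ : X₁ ≤ X := (le_max_right _ _).trans ((le_max_left _ _).trans hX)
  obtain ⟨hp, hL, hX2⟩ := hX₂ X ((le_max_right _ _).trans hX)
  have hXr : (2 : ℝ) ≤ X := by exact_mod_cast hX2
  have hX0 : (0 : ℝ) < X := by linarith
  set L := Real.log X with hLd
  have h2E : (0 : ℝ) < 2 ^ E₀ := by positivity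
  have h2θ : (0 : ℝ) < (2 : ℝ) ^ θ' := by positivity
  have hL48 : 48 ≤ L := by linarith
  have hLE : (2 : ℝ) ^ E₀ ≤ L := by linarith
  have hLθ : 2 * (2 : ℝ) ^ θ' ≤ L := by linarith
  have hL0 : 0 < L := by linarith
  have hL1 : 1 ≤ L := by linarith
  have hlog2 : Real.log ((2 * X : ℕ) : ℝ) ≤ 2 * L := by
    push_cast
    rw [Real.log_mul (by norm_num) (by positivity)]
    have := Real.log_le_log (by norm_num) hXr
    linarith
  have hlog2' : L ≤ Real.log ((2 * X : ℕ) : ℝ) := by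
    apply Real.log_le_log hX0
    push_cast; linarith
  set D := A + B + 2 with hD
  have hLD : 1 ≤ L ^ D := one_le_pow₀ hL1
  have hLD0 : 0 < L ^ D := by positivity
  -- `H` is large
  have hX' : (X : ℝ) ^ θ = (X : ℝ) ^ θ' * (X : ℝ) ^ (θ - θ') := by
    rw [← Real.rpow_add hX0]; congr 1; ring
  have hXθ1 : 1 ≤ (X : ℝ) ^ θ' := Real.one_le_rpow (by linarith) (by linarith)
  have hHbig : 2 * (2 : ℝ) ^ θ' * (X : ℝ) ^ θ' * L ^ D ≤ H := by
    calc 2 * (2 : ℝ) ^ θ' * (X : ℝ) ^ θ' * L ^ D ≤ L * (X : ℝ) ^ θ' * L ^ D := by gcongr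
      _ = (X : ℝ) ^ θ' * L ^ (D + 1) := by ring
      _ ≤ (X : ℝ) ^ θ' * (X : ℝ) ^ (θ - θ') := by gcongr
      _ = (X : ℝ) ^ θ := hX'.symm
      _ ≤ H := hH
  have h2θ1 : 1 ≤ (2 : ℝ) ^ θ' := Real.one_le_rpow (by norm_num) (by linarith)
  -- the blocks
  set W := ⌊(H : ℝ) / L ^ D⌋₊ with hW
  have hWle : (W : ℝ) ≤ H / L ^ D := Nat.floor_le (by positivity)
  have hHL : 2 * ((2 : ℝ) ^ θ' * (X : ℝ) ^ θ') ≤ H / L ^ D := by
    rw [le_div_iff₀ hLD0]; linarith
  have h2X : ((2 * X : ℕ) : ℝ) ^ θ' = (2 : ℝ) ^ θ' * (X : ℝ) ^ θ' := by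
    push_cast
    rw [Real.mul_rpow (by norm_num) hX0.le]
  have hprod1 : 1 ≤ (2 : ℝ) ^ θ' * (X : ℝ) ^ θ' := by nlinarith
  have hWge : ((2 * X : ℕ) : ℝ) ^ θ' ≤ W := by
    rw [h2X]
    have := Nat.lt_floor_add_one ((H : ℝ) / L ^ D)
    rw [← hW] at this
    linarith
  have hW1 : 1 ≤ W := by
    have : (1 : ℝ) ≤ W := by rw [h2X] at hWge; linarith
    exact_mod_cast this
  set J := H / W with hJ
  have hJW : J * W ≤ H := Nat.div_mul_le_self H W
  have hJW2 : H ≤ J * W + W := by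
    have := Nat.lt_div_mul_add (a := H) (show 0 < W by omega)
    rw [← hJ] at this
    omega
  have hWH : W ≤ H := by
    have : (W : ℝ) ≤ H := hWle.trans (div_le_self (by positivity) hLD)
    exact_mod_cast this
  have hH1 : 1 ≤ H := hW1.trans hWH
  have hHr : (0 : ℝ) < H := by exact_mod_cast hH1
  have hz0 : 1 ≤ z := by
    have h5 : (1 : ℝ) ≤ z := (one_le_pow₀ hL1).trans hz1
    exact_mod_cast h5
  have hV : (Vz z)⁻¹ ≤ L := h3 X hXX₁ z hz0 hz2
  have hf : ∀ m : ℤ, m ≤ ((2 * X : ℕ) : ℤ) → |Ed z m| ≤ 3 * L := by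
    intro m hm
    have := Ed_le z (2 * X) L hV m hm
    linarith
  have hqr : (1 : ℝ) ≤ q := by exact_mod_cast hq
  have hPr : (1 : ℝ) ≤ P := by exact_mod_cast hq.trans hqP
  have hα' : |α - a / q| ≤ P / H := by
    refine hα.trans ?_
    apply div_le_div_of_nonneg_left (by positivity) hHr
    nlinarith
  -- one window
  have hwin : ∀ u ∈ range X, ‖We z H α (u : ℤ)‖ ^ 2 ≤
      2 * (J * ∑ j ∈ range J, q * NN (Ed z) ((u + j * W : ℕ) : ℤ) W q) + 2 * (24 * L * P * W) ^ 2 := by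
    intro u hu
    rw [mem_range] at hu
    have h4 := core (Ed z) (3 * L) (by positivity) (u : ℤ) H W J q a α (P / H) hJW hJW2 (by
      intro m hm
      apply hf
      rw [mem_Ioc] at hm
      push_cast
      have : (H : ℤ) ≤ X := by exact_mod_cast hHX
      have : (u : ℤ) < X := by exact_mod_cast hu
      linarith [hm.2]) hα'
    have h5 : 2 * Real.pi * (P / H) * H * W * (3 * L) + W * (3 * L) ≤ 24 * L * P * W := by
      have e : 2 * Real.pi * (P / H) * H * W * (3 * L) = 6 * Real.pi * (L * P * W) := by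
        field_simp
        ring
      rw [e]
      have h6 : (W : ℝ) * (3 * L) ≤ 3 * (L * P * W) := by
        have : (0 : ℝ) ≤ L * W := by positivity
        nlinarith
      have h7 : (0 : ℝ) ≤ L * P * W := by positivity
      have h8 : Real.pi < 3.15 := Real.pi_lt_d2
      nlinarith
    set S := ∑ j ∈ range J, ‖∑ m ∈ Ioc ((u : ℤ) + j * W) ((u : ℤ) + j * W + W), ((Ed z m : ℝ) : ℂ) *
      ee (a / q * m)‖ with hSd
    have h6 : ‖We z H α (u : ℤ)‖ ≤ S + 24 * L * P * W := by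
      unfold We
      linarith
    have h7 : S ^ 2 ≤ J * ∑ j ∈ range J, q * NN (Ed z) ((u + j * W : ℕ) : ℤ) W q := by
      refine (sq_sum_le_card_mul_sum_sq).trans ?_
      rw [card_range]
      apply mul_le_mul_of_nonneg_left _ (by positivity)
      apply sum_le_sum
      intro j _
      have := classes (Ed z) ((u : ℤ) + j * W) W q hq a
      have e : (((u + j * W : ℕ) : ℤ)) = (u : ℤ) + j * W := by push_cast; rfl
      rw [e]
      exact this
    calc ‖We z H α (u : ℤ)‖ ^ 2 ≤ (S + 24 * L * P * W) ^ 2 := pow_le_pow_left₀ (norm_nonneg _) h6 2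
      _ ≤ 2 * S ^ 2 + 2 * (24 * L * P * W) ^ 2 := by nlinarith [sq_nonneg (S - 24 * L * P * W)]
      _ ≤ _ := by linarith
  refine (sum_le_sum hwin).trans ?_
  rw [sum_add_distrib, ← mul_sum, ← mul_sum, sum_comm, sum_const, card_range, nsmul_eq_mul]
  -- the input
  have hSI := h2 (2 * X) (by omega) z (by
      calc Real.log ((2 * X : ℕ) : ℝ) ^ E₀ ≤ (2 * L) ^ E₀ := by gcongr
        _ = 2 ^ E₀ * L ^ E₀ := by rw [mul_pow]
        _ ≤ L * L ^ E₀ := by gcongr
        _ = L ^ (E₀ + 1) := by ring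
        _ ≤ z := hz1) (hz2.trans (pow_le_pow_left₀ hL0.le hlog2' _)) q hq (by
      have : (q : ℝ) ≤ P := by exact_mod_cast hqP
      exact (this.trans hP).trans (pow_le_pow_left₀ hL0.le hlog2' _)) W hWge (by omega)
  have hj : ∀ j ∈ range J, ∑ u ∈ range X, (q : ℝ) * NN (Ed z) ((u + j * W : ℕ) : ℤ) W q ≤
      q * (((2 * X : ℕ) : ℝ) * (W : ℝ) ^ 2 / L ^ (A + B + 1)) := by
    intro j hj
    rw [mem_range] at hj
    rw [← mul_sum]
    apply mul_le_mul_of_nonneg_left _ (by positivity)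
    have h4 : ∑ u ∈ range X, NN (Ed z) ((u + j * W : ℕ) : ℤ) W q ≤ ∑ u ∈ range (2 * X), NN (Ed z) (u : ℤ) W q := by
      have h5 : ∑ u ∈ range X, NN (Ed z) ((u + j * W : ℕ) : ℤ) W q =
          ∑ n ∈ (range X).image (fun u => u + j * W), NN (Ed z) (n : ℤ) W q := by
        rw [sum_image (fun a _ b _ hab => by simpa using hab)]
      rw [h5]
      refine sum_le_sum_of_subset_of_nonneg ?_ fun _ _ _ => NN_nonneg _ _ _ _
      intro n hn
      rw [mem_image] at hn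
      obtain ⟨u, hu, rfl⟩ := hn
      rw [mem_range] at hu ⊢
      have h6 : j * W ≤ J * W := Nat.mul_le_mul_right W hj.le
      omega
    refine h4.trans (hSI.trans ?_)
    apply div_le_div_of_nonneg_left (by positivity) (by positivity)
    exact pow_le_pow_left₀ hL0.le hlog2' _
  have hJWr : (J : ℝ) * W ≤ H := by exact_mod_cast hJW
  have hqL : (q : ℝ) ≤ L ^ B := by
    have : (q : ℝ) ≤ P := by exact_mod_cast hqP
    exact this.trans hP
  have hT1 : 2 * (J * ∑ j ∈ range J, ∑ u ∈ range X, (q : ℝ) * NN (Ed z) ((u + j * W : ℕ) : ℤ) W q) ≤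
      X * (H : ℝ) ^ 2 / L ^ A / 2 := by
    have h4 : ∑ j ∈ range J, ∑ u ∈ range X, (q : ℝ) * NN (Ed z) ((u + j * W : ℕ) : ℤ) W q ≤
        J * (q * (((2 * X : ℕ) : ℝ) * (W : ℝ) ^ 2 / L ^ (A + B + 1))) := by
      refine (sum_le_sum hj).trans ?_
      rw [sum_const, card_range, nsmul_eq_mul]
    calc 2 * (J * ∑ j ∈ range J, ∑ u ∈ range X, (q : ℝ) * NN (Ed z) ((u + j * W : ℕ) : ℤ) W q)
        ≤ 2 * (J * (J * (q * (((2 * X : ℕ) : ℝ) * (W : ℝ) ^ 2 / L ^ (A + B + 1))))) := by gcongr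
      _ = 4 * q * X * (J * W) ^ 2 / L ^ (A + B + 1) := by push_cast; ring
      _ ≤ 4 * L ^ B * X * (H : ℝ) ^ 2 / L ^ (A + B + 1) := by gcongr
      _ = X * (H : ℝ) ^ 2 / L ^ A * (4 / L) := by
          rw [show A + B + 1 = B + (A + 1) by ring, pow_add, pow_succ]
          field_simp
          ring
      _ ≤ X * (H : ℝ) ^ 2 / L ^ A * (1 / 2) := by
          apply mul_le_mul_of_nonneg_left _ (by positivity)
          rw [div_le_div_iff₀ hL0 (by norm_num)]
          linarith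
      _ = _ := by ring
  have hT2 : (X : ℝ) * (2 * (24 * L * P * W) ^ 2) ≤ X * (H : ℝ) ^ 2 / L ^ A / 2 := by
    have h4 : 24 * L * P * W ≤ 24 * L * L ^ B * (H / L ^ D) := by gcongr
    have h5 : 24 * L * L ^ B * (H / L ^ D) = 24 * H / L ^ (A + 1) := by
      rw [hD, show A + B + 2 = (A + 1) + (B + 1) by ring, pow_add, pow_succ L B]
      field_simp
    rw [h5] at h4
    have h6 : (24 * L * P * W) ^ 2 ≤ (24 * H / L ^ (A + 1)) ^ 2 := pow_le_pow_left₀ (by positivity) h4 2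
    have h7 : (24 * H / L ^ (A + 1)) ^ 2 ≤ (H : ℝ) ^ 2 / L ^ A / 4 := by
      have e : (24 * H / L ^ (A + 1)) ^ 2 = (H : ℝ) ^ 2 / L ^ A * (576 / L ^ (A + 2)) := by
        rw [div_pow, mul_pow, ← pow_mul, show (A + 1) * 2 = A + (A + 2) by ring, pow_add]
        field_simp
        norm_num
      rw [e]
      have h8 : 576 / L ^ (A + 2) ≤ 1 / 4 := by
        rw [div_le_div_iff₀ (by positivity) (by norm_num), pow_add]
        have : 1 ≤ L ^ A := one_le_pow₀ hL1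
        nlinarith
      calc (H : ℝ) ^ 2 / L ^ A * (576 / L ^ (A + 2)) ≤ (H : ℝ) ^ 2 / L ^ A * (1 / 4) := by gcongr
        _ = _ := by ring
    calc (X : ℝ) * (2 * (24 * L * P * W) ^ 2) ≤ X * (2 * ((H : ℝ) ^ 2 / L ^ A / 4)) := by
          gcongr
          exact h6.trans h7
      _ = _ := by ring
  have e1 : ∑ y ∈ range J, ∑ x ∈ range X, (q : ℝ) * NN (Ed z) ((x + y * W : ℕ) : ℤ) W q =
    ∑ j ∈ range J, ∑ u ∈ range X, (q : ℝ) * NN (Ed z) ((u + j * W : ℕ) : ℤ) W q := rfl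
  linarith

end Pool.Agent.H43.MA.MAJ
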