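import Pool.Agent.H43.MA.Stm2
import Pool.Agent.H43.G.R_seed8.H373R2.T7.LamZ2

set_option autoImplicit false

/-! # MA-MIN2 (helper94) -/

namespace Pool.Agent.H43.MA.MIN2

open Finset Filter
open Pool.Agent.helper24_UT (NN Ed)
open Pool.Agent.H373R2.T7 (lamI lamzI lamz Vz)

lemma lamz_eq (z n : ℕ) : lamz z n = (Vz z)⁻¹ * rg z n := by
  unfold lamz rg
  have h : (∀ p ∈ Pool.Agent.H373R2.T7.pz z, ¬ p ∣ n) ↔ ∀ p : ℕ, p.Prime → p ≤ z → ¬ p ∣ n := by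
    constructor
    · intro h p hp hpz
      exact h p (Pool.Agent.H373R2.T7.mem_pz.2 ⟨hpz, hp⟩)
    · intro h p hp
      obtain ⟨h1, h2⟩ := Pool.Agent.H373R2.T7.mem_pz.1 hp
      exact h p h2 h1
  by_cases hc : ∀ p : ℕ, p.Prime → p ≤ z → ¬ p ∣ n
  · rw [if_pos (h.2 hc), if_pos hc, mul_one]
  · rw [if_neg (fun h' => hc (h.1 h')), if_neg hc, mul_zero]

lemma We_eq (z H X u : ℕ) (α : ℝ) (hu : u < X) (hH : H ≤ X) :
    We z H α (u : ℤ) = Wn H (2 * X) α (fun n => ArithmeticFunction.vonMangoldt n) (u + H) -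
      (((Vz z)⁻¹ : ℝ) : ℂ) * Wn H (2 * X) α (rg z) (u + H) := by
  unfold We Wn
  rw [mul_sum, ← sum_sub_distrib]
  refine sum_nbij' (fun m => m.toNat) (fun n => (n : ℤ)) ?_ ?_ ?_ ?_ ?_
  · intro m hm
    rw [mem_Ioc] at hm
    rw [mem_filter, mem_Icc]
    omega
  · intro n hn
    rw [mem_filter, mem_Icc] at hn
    rw [mem_Ioc]
    omega
  · intro m hm
    rw [mem_Ioc] at hm
    omega
  · intro n _
    simp
  · intro m hm
    rw [mem_Ioc] at hm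
    have h1 : (1 : ℤ) ≤ m := by omega
    have h2 : ((m.toNat : ℕ) : ℝ) = (m : ℝ) := by
      have h3 : ((m.toNat : ℕ) : ℤ) = m := Int.toNat_of_nonneg (by omega)
      have h4 : (((m.toNat : ℕ) : ℤ) : ℝ) = (m : ℝ) := by rw [h3]
      rw [← h4]
      norm_cast
    unfold Ed lamI lamzI
    rw [if_pos h1, if_pos h1, lamz_eq, h2]
    push_cast
    ring

lemma sum_shift (X H : ℕ) (hH : H ≤ X) (f : ℕ → ℝ) (hf : ∀ x, 0 ≤ f x) :
    ∑ u ∈ range X, f (u + H) ≤ ∑ x ∈ range (2 * X), f x := by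
  have h1 : ∑ u ∈ range X, f (u + H) = ∑ x ∈ (range X).map (addRightEmbedding H), f x := by
    rw [sum_map]
    rfl
  rw [h1]
  apply sum_le_sum_of_subset_of_nonneg
  · intro x hx
    rw [Finset.mem_map] at hx
    obtain ⟨u, hu, rfl⟩ := hx
    rw [mem_range] at hu ⊢
    simp only [addRightEmbedding_apply]
    omega
  · intro x _ _
    exact hf x

theorem main : S_LMI → S_MMR → S_MIN2 := by
  intro hL hM θ hθ A
  obtain ⟨θ', hθ'⟩ : ∃ θ', θ' = (θ + 1 / 3) / 2 := ⟨_, rfl⟩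
  have hθ1 : 1 / 3 < θ' := by rw [hθ']; linarith
  have hθ2 : θ' < θ := by rw [hθ']; linarith
  obtain ⟨B1, hB1⟩ := hL θ' hθ1 (A + 1)
  obtain ⟨B2, hB2⟩ := hM θ' (by linarith) (A + 3)
  refine ⟨B1 + B2 + 1, fun B' E => ?_⟩
  obtain ⟨X₁, hX₁⟩ := hB1 B'
  obtain ⟨X₂, hX₂⟩ := hB2 (8 * B') E
  obtain ⟨X₃, hX₃⟩ := Pool.Agent.H373R2.T7.Vz_inv_small E
  have hlog : Tendsto (fun n : ℕ => Real.log n) atTop atTop :=
    Real.tendsto_log_atTop.comp tendsto_natCast_atTop_atTop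
  obtain ⟨X₄, hX₄⟩ := eventually_atTop.1 (hlog.eventually_ge_atTop (8 + 2 ^ (B1 + B2)))
  have hpow : Tendsto (fun n : ℕ => (n : ℝ) ^ (θ - θ')) atTop atTop :=
    (tendsto_rpow_atTop (by linarith)).comp tendsto_natCast_atTop_atTop
  obtain ⟨X₅, hX₅⟩ := eventually_atTop.1 (hpow.eventually_ge_atTop ((2 : ℝ) ^ θ'))
  refine ⟨max (max (max X₁ X₂) (max X₃ X₄)) (max X₅ 2), ?_⟩
  intro X hX z hz hzE P1 hP1 hP1' H hH hHX α hMi
  have g1 : X₁ ≤ X := le_trans (le_max_left _ _ |>.trans (le_max_left _ _) |>.trans (le_max_left _ _)) hX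
  have g2 : X₂ ≤ X := le_trans (le_max_right _ _ |>.trans (le_max_left _ _) |>.trans (le_max_left _ _)) hX
  have g3 : X₃ ≤ X := le_trans (le_max_left _ _ |>.trans (le_max_right _ _) |>.trans (le_max_left _ _)) hX
  have g4 : X₄ ≤ X := le_trans (le_max_right _ _ |>.trans (le_max_right _ _) |>.trans (le_max_left _ _)) hX
  have g5 : X₅ ≤ X := le_trans (le_max_left _ _ |>.trans (le_max_right _ _)) hX
  have g6 : 2 ≤ X := le_trans (le_max_right _ _ |>.trans (le_max_right _ _)) hX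
  have hbig := hX₄ X g4
  have hX0 : (0 : ℝ) < X := by exact_mod_cast (by omega : 0 < X)
  have hX2 : (2 : ℝ) ≤ X := by exact_mod_cast g6
  have hp2 : (0 : ℝ) < 2 ^ (B1 + B2) := by positivity
  have hl8 : 8 ≤ Real.log X := by linarith
  have hl2 : (2 : ℝ) ^ (B1 + B2) ≤ Real.log X := by linarith
  have hlogX : Real.log X ≤ Real.log ((2 * X : ℕ) : ℝ) := by
    apply Real.log_le_log hX0
    push_cast
    linarith
  have hlog2X : Real.log ((2 * X : ℕ) : ℝ) ≤ 2 * Real.log X := by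
    push_cast
    rw [Real.log_mul (by norm_num) hX0.ne']
    have := Real.log_le_log (by norm_num) hX2
    linarith
  have hl0 : 0 < Real.log X := by linarith
  have hl0' : 0 < Real.log ((2 * X : ℕ) : ℝ) := by linarith
  -- conditions
  have c1 : ∀ B, B ≤ B1 + B2 → Real.log ((2 * X : ℕ) : ℝ) ^ B ≤ P1 := by
    intro B hB
    have h1 : Real.log ((2 * X : ℕ) : ℝ) ^ B ≤ (2 * Real.log X) ^ B := by gcongr
    have h2 : (2 * Real.log X) ^ B ≤ (2 * Real.log X) ^ (B1 + B2) :=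
      pow_le_pow_right₀ (by linarith) hB
    have h3 : (2 * Real.log X) ^ (B1 + B2) ≤ Real.log X ^ (B1 + B2 + 1) := by
      rw [mul_pow, pow_succ, mul_comm]
      gcongr
    exact h1.trans (h2.trans (h3.trans hP1))
  have hP1one : (1 : ℝ) ≤ P1 := by
    refine le_trans ?_ hP1
    exact one_le_pow₀ (by linarith)
  have c2 : (P1 : ℝ) ≤ Real.log ((2 * X : ℕ) : ℝ) ^ B' := hP1'.trans (pow_le_pow_left₀ hl0.le hlogX B')
  have c3 : Real.log ((2 * X : ℕ) : ℝ) ^ B2 ≤ ((P1 ^ 8 : ℕ) : ℝ) := by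
    refine (c1 B2 (by omega)).trans ?_
    push_cast
    exact le_self_pow₀ hP1one (by norm_num)
  have c4 : ((P1 ^ 8 : ℕ) : ℝ) ≤ Real.log ((2 * X : ℕ) : ℝ) ^ (8 * B') := by
    rw [mul_comm 8 B', pow_mul, Nat.cast_pow]
    exact pow_le_pow_left₀ (Nat.cast_nonneg _) c2 8
  have c5 : (z : ℝ) ≤ Real.log ((2 * X : ℕ) : ℝ) ^ E := hzE.trans (pow_le_pow_left₀ hl0.le hlogX E)
  have c6 : (((2 * X : ℕ) : ℝ)) ^ θ' ≤ H := by
    refine le_trans ?_ hH
    push_cast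
    rw [Real.mul_rpow (by norm_num) hX0.le]
    have h1 := hX₅ X g5
    have h2 : (X : ℝ) ^ θ = (X : ℝ) ^ (θ - θ') * (X : ℝ) ^ θ' := by
      rw [← Real.rpow_add hX0]
      congr 1
      ring
    rw [h2]
    gcongr
  have l1 := hX₁ (2 * X) (by omega) P1 (c1 B1 (by omega)) c2 H c6 (by omega) α hMi
  have l2 := hX₂ (2 * X) (by omega) z c5 (P1 ^ 8) c3 c4 H c6 (by omega) α hMi
  have hV := hX₃ X g3 z hz hzE
  have hV0 : 0 < (Vz z)⁻¹ := inv_pos.2 (Pool.Agent.H373R2.T7.Vz_pos z)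
  -- the squares
  have h1 : ∀ u ∈ range X, ‖We z H α (u : ℤ)‖ ^ 2 ≤
      2 * ‖Wn H (2 * X) α (fun n => ArithmeticFunction.vonMangoldt n) (u + H)‖ ^ 2 +
      2 * Real.log X ^ 2 * ‖Wn H (2 * X) α (rg z) (u + H)‖ ^ 2 := by
    intro u hu
    rw [mem_range] at hu
    rw [We_eq z H X u α hu hHX]
    obtain ⟨a, ha⟩ : ∃ a, a = ‖Wn H (2 * X) α (fun n => ArithmeticFunction.vonMangoldt n) (u + H)‖ := ⟨_, rfl⟩
    obtain ⟨b, hb⟩ : ∃ b, b = ‖Wn H (2 * X) α (rg z) (u + H)‖ := ⟨_, rfl⟩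
    have h2 : ‖Wn H (2 * X) α (fun n => ArithmeticFunction.vonMangoldt n) (u + H) -
      (((Vz z)⁻¹ : ℝ) : ℂ) * Wn H (2 * X) α (rg z) (u + H)‖ ≤ a + Real.log X * b := by
      refine (norm_sub_le _ _).trans ?_
      rw [norm_mul, Complex.norm_real, Real.norm_eq_abs, abs_of_pos hV0, ← ha, ← hb]
      have hb0 : 0 ≤ b := by rw [hb]; positivity
      gcongr
    rw [← ha, ← hb]
    have ha0 : 0 ≤ a := by rw [ha]; positivity
    have hb0 : 0 ≤ b := by rw [hb]; positivity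
    calc _ ≤ (a + Real.log X * b) ^ 2 := by gcongr
      _ ≤ 2 * a ^ 2 + 2 * Real.log X ^ 2 * b ^ 2 := by nlinarith [sq_nonneg (a - Real.log X * b)]
  refine (sum_le_sum h1).trans ?_
  rw [sum_add_distrib, ← mul_sum, ← mul_sum]
  have s1 := (sum_shift X H hHX (fun x => ‖Wn H (2 * X) α (fun n => ArithmeticFunction.vonMangoldt n) x‖ ^ 2)
    (fun x => by positivity)).trans l1
  have s2 := (sum_shift X H hHX (fun x => ‖Wn H (2 * X) α (rg z) x‖ ^ 2) (fun x => by positivity)).trans l2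
  have k1 : ((2 * X : ℕ) : ℝ) * (H : ℝ) ^ 2 / Real.log ((2 * X : ℕ) : ℝ) ^ (A + 1) ≤
      2 * X * (H : ℝ) ^ 2 / Real.log X ^ (A + 1) := by
    push_cast at hlogX ⊢
    gcongr
  have k2 : ((2 * X : ℕ) : ℝ) * (H : ℝ) ^ 2 / Real.log ((2 * X : ℕ) : ℝ) ^ (A + 3) ≤
      2 * X * (H : ℝ) ^ 2 / Real.log X ^ (A + 3) := by
    push_cast at hlogX ⊢
    gcongr
  have s1' := s1.trans k1
  have s2' := s2.trans k2
  have s2'' : 2 * Real.log X ^ 2 * ∑ u ∈ range X, ‖Wn H (2 * X) α (rg z) (u + H)‖ ^ 2 ≤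
      2 * Real.log X ^ 2 * (2 * X * (H : ℝ) ^ 2 / Real.log X ^ (A + 3)) := by gcongr
  have e1 : 2 * Real.log X ^ 2 * (2 * X * (H : ℝ) ^ 2 / Real.log X ^ (A + 3)) =
      4 / Real.log X * (X * (H : ℝ) ^ 2 / Real.log X ^ A) := by
    field_simp
    ring
  have e2 : 2 * (2 * X * (H : ℝ) ^ 2 / Real.log X ^ (A + 1)) =
      4 / Real.log X * (X * (H : ℝ) ^ 2 / Real.log X ^ A) := by
    field_simp
    ring
  have h8 : 8 / Real.log X ≤ 1 := by rw [div_le_one hl0]; exact hl8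
  have h9 : 0 ≤ X * (H : ℝ) ^ 2 / Real.log X ^ A := by positivity
  have e3 : 8 / Real.log X = 4 / Real.log X + 4 / Real.log X := by ring
  nlinarith

end Pool.Agent.H43.MA.MIN2
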