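import Pool.Agent.H43.MA.Stm

/-! # MA-MMR: the sieve model on the minor arcs -/

set_option autoImplicit false

namespace Pool.Agent.H43.MA.MMR

open Finset Filter Topology

theorem ev (K : ℝ) (n : ℕ) (s : ℝ) (hs : 0 < s) :
    ∀ᶠ X : ℕ in atTop, K * Real.log X ^ n ≤ (X : ℝ) ^ s := by
  have h1 := isLittleO_log_rpow_rpow_atTop (s := s) (n : ℝ) hs
  have h2 := h1.comp_tendsto tendsto_natCast_atTop_atTop
  have h3 := h2.bound (c := 1 / (|K| + 1)) (by positivity)
  filter_upwards [h3, eventually_ge_atTop 1] with X hX hX1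
  simp only [Function.comp_apply, Real.rpow_natCast, Real.norm_eq_abs] at hX
  have h4 : 0 ≤ Real.log X := Real.log_natCast_nonneg X
  have h5 : (0 : ℝ) ≤ (X : ℝ) ^ s := by positivity
  rw [abs_of_nonneg (by positivity), abs_of_nonneg h5] at hX
  have h6 : (|K| + 1) * Real.log X ^ n ≤ (X : ℝ) ^ s := by
    have := mul_le_mul_of_nonneg_left hX (by positivity : (0 : ℝ) ≤ |K| + 1)
    rw [← mul_assoc, mul_one_div_cancel (by positivity), one_mul] at this
    exact this
  refine le_trans ?_ h6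
  apply mul_le_mul_of_nonneg_right _ (by positivity)
  have := le_abs_self K
  linarith

theorem ee_norm (t : ℝ) : ‖ee t‖ = 1 := by
  unfold ee
  exact Complex.norm_exp_ofReal_mul_I _

/-- order-convex finite sets of natural numbers are intervals -/
theorem convex_Ico (S : Finset ℕ) (h : ∀ a ∈ S, ∀ b ∈ S, ∀ m, a ≤ m → m ≤ b → m ∈ S) :
    ∃ A L : ℕ, S = Ico A (A + L) := by
  rcases S.eq_empty_or_nonempty with h0 | h0
  · exact ⟨0, 0, by simp [h0]⟩
  · refine ⟨S.min' h0, S.max' h0 + 1 - S.min' h0, ?_⟩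
    have h1 := S.min'_le _ (S.max'_mem h0)
    rw [show S.min' h0 + (S.max' h0 + 1 - S.min' h0) = S.max' h0 + 1 by omega]
    ext m
    rw [mem_Ico]
    constructor
    · intro hm
      exact ⟨S.min'_le m hm, Nat.lt_succ_of_le (S.le_max' m hm)⟩
    · rintro ⟨h2, h3⟩
      exact h _ (S.min'_mem h0) _ (S.max'_mem h0) m h2 (by omega)

theorem prime_dvd_primorial (z p : ℕ) (hp : p.Prime) : p ∣ primorial z ↔ p ≤ z := by
  unfold primorial
  rw [Prime.dvd_finsetProd_iff hp.prime]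
  constructor
  · rintro ⟨q, hq, hpq⟩
    rw [mem_filter, mem_range] at hq
    rw [(Nat.prime_dvd_prime_iff_eq hp hq.2).1 hpq]
    omega
  · intro h
    exact ⟨p, by rw [mem_filter, mem_range]; exact ⟨by omega, hp⟩, dvd_rfl⟩

/-- Moebius inversion -/
theorem rg_eq (z n : ℕ) (hn : 1 ≤ n) :
    rg z n = ∑ d ∈ (primorial z).divisors.filter (fun d => d ∣ n),
      (ArithmeticFunction.moebius d : ℝ) := by
  have h1 : (primorial z).divisors.filter (fun d => d ∣ n) = (Nat.gcd n (primorial z)).divisors := by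
    ext d
    rw [mem_filter, Nat.mem_divisors, Nat.mem_divisors, Nat.dvd_gcd_iff]
    have h2 : primorial z ≠ 0 := (primorial_pos z).ne'
    have h3 : Nat.gcd n (primorial z) ≠ 0 := by
      intro h0
      rw [Nat.gcd_eq_zero_iff] at h0
      omega
    tauto
  rw [h1]
  have h4 : (∑ d ∈ (Nat.gcd n (primorial z)).divisors, (ArithmeticFunction.moebius d : ℤ)) =
      if Nat.gcd n (primorial z) = 1 then 1 else 0 := by
    have h5 := congrArg (fun f : ArithmeticFunction ℤ => f (Nat.gcd n (primorial z)))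
      ArithmeticFunction.coe_zeta_mul_moebius
    simp only [ArithmeticFunction.one_apply] at h5
    rw [← h5, ArithmeticFunction.coe_zeta_mul_apply]
  have h6 : (∑ d ∈ (Nat.gcd n (primorial z)).divisors, (ArithmeticFunction.moebius d : ℝ)) =
      if Nat.gcd n (primorial z) = 1 then 1 else 0 := by
    have := congrArg (fun t : ℤ => (t : ℝ)) h4
    push_cast at this
    rw [this]
  rw [h6]
  unfold rg
  have h7 : (∀ p : ℕ, p.Prime → p ≤ z → ¬ p ∣ n) ↔ Nat.gcd n (primorial z) = 1 := by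
    constructor
    · intro h
      apply Nat.Coprime.symm
      apply Nat.coprime_of_dvd
      intro p hp h8 h9
      exact h p hp ((prime_dvd_primorial z p hp).1 h8) h9
    · intro h p hp hpz hpn
      have h8 := (prime_dvd_primorial z p hp).2 hpz
      have h9 := Nat.dvd_gcd hpn h8
      rw [h] at h9
      exact hp.one_lt.ne' (Nat.dvd_one.1 h9)
  by_cases h : Nat.gcd n (primorial z) = 1
  · rw [if_pos (h7.2 h), if_pos h]
  · rw [if_neg (fun h' => h (h7.1 h')), if_neg h]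

/-- the inner sum -/
theorem inner (hGEO : S_GEO) (H X d x : ℕ) (α : ℝ) (hd : 1 ≤ d) :
    ‖∑ n ∈ ((Icc 1 X).filter (fun n => n ≤ x ∧ x < n + H)).filter (fun n => d ∣ n), ee (α * n)‖ ≤
      mn (H / d + 1) (α * d) := by
  set S := (Icc 1 X).filter (fun k => d * k ≤ X ∧ d * k ≤ x ∧ x < d * k + H) with hS
  have h1 : ∑ n ∈ ((Icc 1 X).filter (fun n => n ≤ x ∧ x < n + H)).filter (fun n => d ∣ n),
      ee (α * n) = ∑ k ∈ S, ee (α * d * k) := by
    symm
    apply Finset.sum_bij (fun k _ => d * k)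
    · intro k hk
      rw [hS, mem_filter, mem_Icc] at hk
      rw [mem_filter, mem_filter, mem_Icc]
      exact ⟨⟨⟨Nat.mul_pos (by omega) (by omega), hk.2.1⟩, hk.2.2⟩, dvd_mul_right _ _⟩
    · intro k _ l _ h
      exact Nat.eq_of_mul_eq_mul_left (by omega) h
    · intro n hn
      rw [mem_filter, mem_filter, mem_Icc] at hn
      obtain ⟨k, hk⟩ := hn.2
      refine ⟨k, ?_, hk.symm⟩
      rw [hS, mem_filter, mem_Icc, ← hk]
      have hk1 : 1 ≤ k := by
        rcases Nat.eq_zero_or_pos k with h0 | h0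
        · rw [h0, mul_zero] at hk
          omega
        · exact h0
      have hk2 : k ≤ n := by
        rw [hk]
        exact Nat.le_mul_of_pos_left _ (by omega)
      exact ⟨⟨hk1, by omega⟩, hn.1.1.2, hn.1.2⟩
    · intro k _
      push_cast
      rw [mul_assoc]
  rw [h1]
  obtain ⟨A, L, hAL⟩ := convex_Ico S (by
    intro a ha b hb m h3 h4
    rw [hS, mem_filter, mem_Icc] at ha hb ⊢
    have h5 : d * a ≤ d * m := Nat.mul_le_mul_left _ h3
    have h6 : d * m ≤ d * b := Nat.mul_le_mul_left _ h4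
    omega)
  rw [hAL]
  apply hGEO.1
  rcases Nat.eq_zero_or_pos L with h0 | h0
  · rw [h0]
    exact Nat.zero_le _
  · have h2 : A ∈ S := by rw [hAL, mem_Ico]; omega
    have h3 : A + (L - 1) ∈ S := by rw [hAL, mem_Ico]; omega
    rw [hS, mem_filter] at h2 h3
    have h4 : d * (L - 1) < H := by
      have h5 := h3.2.2.1
      have h6 := h2.2.2.2
      rw [mul_add] at h5
      omega
    have h5 : L - 1 ≤ H / d := by
      rw [Nat.le_div_iff_mul_le (by omega), mul_comm]
      exact h4.le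
    exact Nat.le_add_of_sub_le h5

/-- the windows of the small divisors -/
theorem small (hGEO : S_GEO) (hMNB : S_MNB) (H X z x N0 : ℕ) (α η : ℝ)
    (hN0 : ∀ d : ℕ, ¬ (X : ℝ) ^ η < d → d ≤ N0) :
    ‖Wn H X α (fun n => ∑ d ∈ (primorial z).divisors.filter (fun d => d ∣ n ∧ ¬ (X : ℝ) ^ η < d),
      (ArithmeticFunction.moebius d : ℝ)) x‖ ≤ ∑ d ∈ Icc 1 N0, mn (H / d + 1) (α * d) := by
  classical
  have hmn0 : ∀ M t, 0 ≤ mn M t := hMNB.2.2.2.2.2.2.2.2.2.2.1
  have h1 : Wn H X α (fun n => ∑ d ∈ (primorial z).divisors.filter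
      (fun d => d ∣ n ∧ ¬ (X : ℝ) ^ η < d), (ArithmeticFunction.moebius d : ℝ)) x =
      ∑ d ∈ (primorial z).divisors.filter (fun d : ℕ => ¬ (X : ℝ) ^ η < d),
        ((ArithmeticFunction.moebius d : ℝ) : ℂ) *
        ∑ n ∈ ((Icc 1 X).filter (fun n => n ≤ x ∧ x < n + H)).filter (fun n => d ∣ n),
          ee (α * n) := by
    unfold Wn
    have h2 : ∀ n ∈ (Icc 1 X).filter (fun n => n ≤ x ∧ x < n + H),
        (((∑ d ∈ (primorial z).divisors.filter
          (fun d => d ∣ n ∧ ¬ (X : ℝ) ^ η < d), (ArithmeticFunction.moebius d : ℝ) : ℝ)) : ℂ) *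
          ee (α * n) =
        ∑ d ∈ (primorial z).divisors.filter (fun d : ℕ => ¬ (X : ℝ) ^ η < d),
          if d ∣ n then ((ArithmeticFunction.moebius d : ℝ) : ℂ) * ee (α * n) else 0 := by
      intro n _
      rw [← Finset.sum_filter, Finset.filter_filter, Complex.ofReal_sum, Finset.sum_mul]
      apply Finset.sum_congr _ (fun _ _ => rfl)
      ext d
      simp only [mem_filter]
      tauto
    rw [Finset.sum_congr rfl h2, Finset.sum_comm]
    refine Finset.sum_congr rfl fun d _ => ?_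
    rw [← Finset.sum_filter, Finset.mul_sum]
  rw [h1]
  refine (norm_sum_le _ _).trans ?_
  have h3 : ∀ d ∈ (primorial z).divisors.filter (fun d : ℕ => ¬ (X : ℝ) ^ η < d),
      ‖((ArithmeticFunction.moebius d : ℝ) : ℂ) *
        ∑ n ∈ ((Icc 1 X).filter (fun n => n ≤ x ∧ x < n + H)).filter (fun n => d ∣ n),
          ee (α * n)‖ ≤ mn (H / d + 1) (α * d) := by
    intro d hd
    rw [mem_filter, Nat.mem_divisors] at hd
    have hd1 : 1 ≤ d := Nat.pos_of_dvd_of_pos hd.1.1 (primorial_pos z)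
    have h4 := inner hGEO H X d x α hd1
    rw [norm_mul, Complex.norm_real, Real.norm_eq_abs]
    have h5 : |(ArithmeticFunction.moebius d : ℝ)| ≤ 1 := by
      have := ArithmeticFunction.abs_moebius_le_one (n := d)
      exact_mod_cast this
    calc |(ArithmeticFunction.moebius d : ℝ)| * _ ≤ 1 * mn (H / d + 1) (α * d) :=
          mul_le_mul h5 h4 (norm_nonneg _) (by norm_num)
      _ = _ := one_mul _
  refine (Finset.sum_le_sum h3).trans ?_
  apply Finset.sum_le_sum_of_subset_of_nonneg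
  · intro d hd
    rw [mem_filter, Nat.mem_divisors] at hd
    rw [mem_Icc]
    exact ⟨Nat.pos_of_dvd_of_pos hd.1.1 (primorial_pos z), hN0 d hd.2⟩
  · intro d _ _
    exact hmn0 _ _

/-- the sum of the kernels -/
theorem kern (hMNB : S_MNB) (C : ℝ) (hC1 : 1 ≤ C)
    (hC : ∀ (α : ℝ) (a : ℤ) (q : ℕ), 1 ≤ q → IsCoprime a (q : ℤ) → |α - a / q| ≤ 1 / (q : ℝ) ^ 2 →
      (∀ K M : ℕ, ∑ k ∈ range (K + 1), mn M (α * k) ≤ C * (K / q + 1) * (M + q * (1 + Real.log q))) ∧
      (∀ k : ℕ, 1 ≤ k → 2 * k ≤ q → 1 / (2 * q) ≤ dn (α * k)) ∧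
      (∀ K : ℕ, 2 * K ≤ q → ∑ k ∈ Icc 1 K, 1 / (2 * dn (α * k)) ≤ C * q * (1 + Real.log q)))
    (H X N0 q : ℕ) (D0 α : ℝ) (a : ℤ) (hq : 1 ≤ q) (hc : IsCoprime a (q : ℤ))
    (hα : |α - a / q| ≤ 1 / (q : ℝ) ^ 2) (hqX : q ≤ X) (hN0 : (N0 : ℝ) ≤ D0) (hN0X : N0 ≤ X)
    (hL : 1 ≤ Real.log X) :
    ∑ d ∈ Icc 1 N0, mn (H / d + 1) (α * d) ≤
      C * q * (2 * Real.log X) + 72 * C * Real.log X ^ 2 * (H / q + D0) := by
  classical
  obtain ⟨s1, s2, s3⟩ := hC α a q hq hc hα
  have hmn0 : ∀ M t, 0 ≤ mn M t := hMNB.2.2.2.2.2.2.2.2.2.2.1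
  have hmono : ∀ M M' t, M ≤ M' → mn M t ≤ mn M' t := hMNB.2.2.2.2.2.2.2.2.2.2.2.2.1
  have hmn : ∀ M t, 0 < dn t → mn M t ≤ 1 / (2 * dn t) := hMNB.2.2.2.2.2.2.2.2.2.2.2.2.2.1
  have hq0 : (0 : ℝ) < q := by exact_mod_cast (by omega : 0 < q)
  have hq1 : (1 : ℝ) ≤ q := by exact_mod_cast hq
  set L := Real.log X with hLdef
  have hlogq : Real.log q ≤ L := Real.log_le_log hq0 (by exact_mod_cast hqX)
  have hlogq0 : 0 ≤ Real.log q := Real.log_nonneg hq1
  have hD0 : 0 ≤ D0 := le_trans (Nat.cast_nonneg _) hN0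
  rw [← Finset.sum_filter_add_sum_filter_not (Icc 1 N0) (fun d => 2 * d ≤ q)]
  apply add_le_add
  · -- small d
    have h1 : ∀ d ∈ (Icc 1 N0).filter (fun d => 2 * d ≤ q),
        mn (H / d + 1) (α * d) ≤ 1 / (2 * dn (α * d)) := by
      intro d hd
      rw [mem_filter, mem_Icc] at hd
      have h2 := s2 d hd.1.1 hd.2
      exact hmn _ _ (lt_of_lt_of_le (by positivity) h2)
    refine (Finset.sum_le_sum h1).trans ?_
    have h3 : ∑ d ∈ (Icc 1 N0).filter (fun d => 2 * d ≤ q), 1 / (2 * dn (α * d)) ≤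
        ∑ d ∈ Icc 1 (q / 2), 1 / (2 * dn (α * d)) := by
      apply Finset.sum_le_sum_of_subset_of_nonneg
      · intro d hd
        rw [mem_filter, mem_Icc] at hd
        rw [mem_Icc]
        omega
      · intro d _ _
        have : 0 ≤ dn (α * d) := abs_nonneg _
        positivity
    refine h3.trans ((s3 (q / 2) (by omega)).trans ?_)
    have : 1 + Real.log q ≤ 2 * L := by linarith
    exact mul_le_mul_of_nonneg_left this (by positivity)
  · -- large d, dyadic blocks
    set T := (Icc 1 N0).filter (fun d => ¬ 2 * d ≤ q) with hT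
    have hmaps : ∀ d ∈ T, Nat.log 2 d ∈ range (Nat.log 2 N0 + 1) := by
      intro d hd
      rw [hT, mem_filter, mem_Icc] at hd
      rw [mem_range]
      have := Nat.log_mono_right (b := 2) hd.1.2
      omega
    rw [← Finset.sum_fiberwise_of_maps_to hmaps]
    have hblock : ∀ i ∈ range (Nat.log 2 N0 + 1),
        ∑ d ∈ T.filter (fun d => Nat.log 2 d = i), mn (H / d + 1) (α * d) ≤
          24 * C * L * (H / q + D0) := by
      intro i _
      rcases (T.filter (fun d => Nat.log 2 d = i)).eq_empty_or_nonempty with h0 | h0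
      · rw [h0, Finset.sum_empty]
        positivity
      · have hdd : ∀ d ∈ T.filter (fun d => Nat.log 2 d = i), 1 ≤ d ∧ d ≤ N0 ∧ q < 2 * d ∧
            2 ^ i ≤ d ∧ d < 2 ^ (i + 1) := by
          intro d hd
          rw [mem_filter, hT, mem_filter, mem_Icc] at hd
          have h1 : 2 ^ i ≤ d := by
            rw [← hd.2]
            exact Nat.pow_log_le_self 2 (by omega)
          have h2 : d < 2 ^ (i + 1) := by
            rw [← hd.2]
            exact Nat.lt_pow_succ_log_self (by norm_num) d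
          omega
        obtain ⟨d1, hd1⟩ := h0
        have e1 := hdd d1 hd1
        have hpos : (0 : ℝ) < 2 ^ i := by positivity
        have e2 : (q : ℝ) ≤ 4 * 2 ^ i := by
          have : q ≤ 4 * 2 ^ i := by
            have := e1.2.2.2.2
            rw [pow_succ] at this
            omega
          exact_mod_cast this
        have e3 : (2 : ℝ) ^ i ≤ D0 := by
          refine le_trans ?_ hN0
          exact_mod_cast (le_trans e1.2.2.2.1 e1.2.1)
        have h1 : ∑ d ∈ T.filter (fun d => Nat.log 2 d = i), mn (H / d + 1) (α * d) ≤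
            ∑ k ∈ range (2 ^ (i + 1) + 1), mn (H / 2 ^ i + 1) (α * k) := by
          have h2 : ∀ d ∈ T.filter (fun d => Nat.log 2 d = i), mn (H / d + 1) (α * d) ≤
              mn (H / 2 ^ i + 1) (α * d) := by
            intro d hd
            apply hmono
            have := Nat.div_le_div_left (a := H) (hdd d hd).2.2.2.1 (by positivity)
            exact Nat.add_le_add_right this 1
          refine (Finset.sum_le_sum h2).trans ?_
          apply Finset.sum_le_sum_of_subset_of_nonneg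
          · intro d hd
            rw [mem_range]
            have := (hdd d hd).2.2.2.2
            omega
          · intro k _ _
            exact hmn0 _ _
        refine h1.trans ((s1 (2 ^ (i + 1)) (H / 2 ^ i + 1)).trans ?_)
        have h3 : (((2 ^ (i + 1) : ℕ) : ℝ) / q + 1) ≤ 6 * (2 ^ i / q) := by
          have : (1 : ℝ) ≤ 4 * (2 ^ i / q) := by
            rw [← mul_div_assoc, one_le_div hq0]
            exact e2
          push_cast
          rw [pow_succ, mul_comm ((2 : ℝ) ^ i) 2, mul_div_assoc]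
          linarith
        have h4 : ((H / 2 ^ i + 1 : ℕ) : ℝ) ≤ H / 2 ^ i + 1 := by
          have : ((H / 2 ^ i : ℕ) : ℝ) ≤ (H : ℝ) / ((2 ^ i : ℕ) : ℝ) := Nat.cast_div_le
          push_cast at this ⊢
          linarith
        have h5 : 0 ≤ (q : ℝ) * (1 + Real.log q) := by positivity
        calc C * (((2 ^ (i + 1) : ℕ) : ℝ) / q + 1) * (((H / 2 ^ i + 1 : ℕ) : ℝ) +
              q * (1 + Real.log q))
            ≤ C * (6 * (2 ^ i / q)) * (H / 2 ^ i + 1 + q * (1 + Real.log q)) := by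
              gcongr
          _ = 6 * C * (H / q + 2 ^ i * (1 / q) + 2 ^ i * (1 + Real.log q)) := by
              field_simp
          _ ≤ 6 * C * (2 * L * (H / q) + D0 * (2 * L) + D0 * (2 * L)) := by
              have f1 : (H : ℝ) / q ≤ 2 * L * (H / q) := by
                have : (0 : ℝ) ≤ H / q := by positivity
                nlinarith
              have f2 : (2 : ℝ) ^ i * (1 / q) ≤ D0 * (2 * L) := by
                apply mul_le_mul e3 _ (by positivity) hD0
                rw [div_le_iff₀ hq0]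
                nlinarith
              have f3 : (2 : ℝ) ^ i * (1 + Real.log q) ≤ D0 * (2 * L) := by
                apply mul_le_mul e3 _ (by positivity) hD0
                linarith
              gcongr
          _ ≤ 24 * C * L * (H / q + D0) := by
              have : (0 : ℝ) ≤ C * L * (H / q) := by positivity
              nlinarith
    refine (Finset.sum_le_card_nsmul _ _ _ hblock).trans ?_
    rw [card_range, nsmul_eq_mul]
    have h6 : ((Nat.log 2 N0 + 1 : ℕ) : ℝ) ≤ 3 * L := by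
      have h7 : (Nat.log 2 N0 : ℝ) ≤ 2 * L := by
        have h8 : Nat.log 2 N0 ≤ Nat.log 2 X := Nat.log_mono_right hN0X
        have h9 : (2 : ℝ) ^ (Nat.log 2 X) ≤ X := by
          have hX0 : X ≠ 0 := by omega
          exact_mod_cast Nat.pow_log_le_self 2 hX0
        have h10 := Real.log_le_log (by positivity) h9
        rw [Real.log_pow, ← hLdef] at h10
        have h11 : (1 / 2 : ℝ) ≤ Real.log 2 := by
          have := Real.log_two_gt_d9
          linarith
        have h12 : (Nat.log 2 N0 : ℝ) ≤ (Nat.log 2 X : ℝ) := by exact_mod_cast h8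
        have h13 : (0 : ℝ) ≤ (Nat.log 2 X : ℝ) := Nat.cast_nonneg _
        nlinarith
      push_cast
      linarith
    calc ((Nat.log 2 N0 + 1 : ℕ) : ℝ) * (24 * C * L * (H / q + D0))
        ≤ 3 * L * (24 * C * L * (H / q + D0)) := by
          apply mul_le_mul_of_nonneg_right h6
          positivity
      _ = 72 * C * L ^ 2 * (H / q + D0) := by ring

theorem Wn_add (H N : ℕ) (α : ℝ) (c c1 c2 : ℕ → ℝ) (h : ∀ n, 1 ≤ n → c n = c1 n + c2 n) (x : ℕ) :
    Wn H N α c x = Wn H N α c1 x + Wn H N α c2 x := by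
  unfold Wn
  rw [← Finset.sum_add_distrib]
  refine Finset.sum_congr rfl fun n hn => ?_
  rw [mem_filter, mem_Icc] at hn
  rw [h n hn.1.1]
  push_cast
  ring

theorem main : S_MNB → S_GEO → S_SMN → S_TAIL → S_WSB → S_MMR := by
  intro hMNB hGEO hSMN hTAIL hWSB θ hθ A
  obtain ⟨C, hC1, hC⟩ := hSMN
  refine ⟨A + 10, ?_⟩
  intro B' E
  obtain ⟨c, hc0, X1, hX1⟩ := hTAIL (θ / 2) E (by positivity)
  set K : ℝ := (146 * C) ^ 2 with hK
  have hK0 : 0 < K := by positivity
  have e1 := ev 1 B' (θ / 2) (by positivity)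
  have e2 := ev 4 A c hc0
  have e3 : ∀ᶠ X : ℕ in atTop, max 1 (4 * K) ≤ Real.log X := by
    exact (Real.tendsto_log_atTop.comp tendsto_natCast_atTop_atTop).eventually_ge_atTop _
  obtain ⟨X₀, hX₀⟩ := eventually_atTop.1 (e1.and (e2.and (e3.and (eventually_ge_atTop (max X1 1)))))
  refine ⟨X₀, ?_⟩
  intro X hX z hz P hP1 hP2 H hH1 hH2 α hMi
  obtain ⟨f1, f2, f3, f4⟩ := hX₀ X hX
  have hXX1 : X1 ≤ X := le_trans (le_max_left _ _) f4
  have hX1' : 1 ≤ X := le_trans (le_max_right _ _) f4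
  have hXR : (1 : ℝ) ≤ X := by exact_mod_cast hX1'
  have hX0 : (0 : ℝ) < X := by linarith
  set L := Real.log X with hLdef
  have hL1 : 1 ≤ L := le_trans (le_max_left _ _) f3
  have hL4K : 4 * K ≤ L := le_trans (le_max_right _ _) f3
  have hL0 : 0 < L := by linarith
  have hPpos : (0 : ℝ) < P := lt_of_lt_of_le (by positivity) hP1
  have hPnat : 1 ≤ P := by exact_mod_cast (Nat.pos_of_ne_zero (by
    intro h0
    rw [h0] at hPpos
    simp at hPpos))
  obtain ⟨a, q, hcop, hPq, hqP, hα⟩ := hMi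
  have hq : 1 ≤ q := le_trans hPnat hPq
  have hq0 : (0 : ℝ) < q := by exact_mod_cast (by omega : 0 < q)
  have hqPr : (q : ℝ) * P ≤ H := by exact_mod_cast hqP
  have hHpos : (0 : ℝ) < H := lt_of_lt_of_le (by positivity) hqPr
  have hα' : |α - a / q| ≤ 1 / (q : ℝ) ^ 2 := by
    refine hα.trans ?_
    rw [div_le_div_iff₀ (by positivity) (by positivity)]
    nlinarith
  have hqX : q ≤ X := by
    have : q ≤ q * P := Nat.le_mul_of_pos_right _ (by omega)
    omega
  set η : ℝ := θ / 2 with hη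
  set D0 : ℝ := (X : ℝ) ^ η with hD0
  have hD0pos : 0 < D0 := Real.rpow_pos_of_pos hX0 _
  -- D0 is at most H / P
  have hD0H : D0 ≤ H / P := by
    rw [le_div_iff₀ hPpos]
    have h1 : (P : ℝ) ≤ (X : ℝ) ^ (θ / 2) := by
      refine hP2.trans ?_
      rw [one_mul] at f1
      exact f1
    calc D0 * P ≤ D0 * (X : ℝ) ^ (θ / 2) := mul_le_mul_of_nonneg_left h1 hD0pos.le
      _ = (X : ℝ) ^ θ := by
        rw [hD0, hη, ← Real.rpow_add hX0]
        congr 1
        ring
      _ ≤ H := hH1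
  have hN0 : ∀ d : ℕ, ¬ (X : ℝ) ^ η < d → d ≤ min ⌊D0⌋₊ X := by
    intro d hd
    have h1 : (d : ℝ) ≤ D0 := not_lt.1 hd
    have h2 : d ≤ ⌊D0⌋₊ := Nat.le_floor h1
    have h3 : D0 ≤ X := by
      refine hD0H.trans ?_
      rw [div_le_iff₀ hPpos]
      have : (H : ℝ) ≤ X := by exact_mod_cast hH2
      have h4 : (1 : ℝ) ≤ P := by exact_mod_cast hPnat
      nlinarith
    have h4 : d ≤ X := by exact_mod_cast h1.trans h3
    exact le_min h2 h4
  have hsum := kern hMNB C hC1 hC H X (min ⌊D0⌋₊ X) q D0 α a hq hcop hα' hqX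
    (by
      have : ((min ⌊D0⌋₊ X : ℕ) : ℝ) ≤ ((⌊D0⌋₊ : ℕ) : ℝ) := by exact_mod_cast min_le_left _ _
      exact this.trans (Nat.floor_le hD0pos.le)) (min_le_right _ _) hL1
  have hqHP : (q : ℝ) ≤ H / P := by
    rw [le_div_iff₀ hPpos]
    exact hqPr
  have hHq : (H : ℝ) / q ≤ H / P := by
    apply div_le_div_of_nonneg_left hHpos.le hPpos
    exact_mod_cast hPq
  have hS : ∑ d ∈ Icc 1 (min ⌊D0⌋₊ X), mn (H / d + 1) (α * d) ≤ 146 * C * L ^ 2 * (H / P) := by
    refine hsum.trans ?_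
    have hHP0 : (0 : ℝ) ≤ H / P := by positivity
    have g1 : C * q * (2 * L) ≤ 2 * C * L ^ 2 * (H / P) := by
      have : C * q * (2 * L) ≤ C * (H / P) * (2 * L) := by gcongr
      refine this.trans ?_
      have h5 : L ≤ L ^ 2 := by nlinarith
      have h6 : 0 ≤ 2 * C * (H / P) := by positivity
      nlinarith
    have g2 : 72 * C * L ^ 2 * (H / q + D0) ≤ 72 * C * L ^ 2 * (H / P + H / P) := by
      gcongr
    linarith
  -- the two parts
  set R1 : ℕ → ℝ := fun n => ∑ d ∈ (primorial z).divisors.filter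
    (fun d => d ∣ n ∧ ¬ (X : ℝ) ^ η < d), (ArithmeticFunction.moebius d : ℝ) with hR1
  set R2 : ℕ → ℝ := fun n => ∑ d ∈ (primorial z).divisors.filter
    (fun d => d ∣ n ∧ (X : ℝ) ^ η < d), (ArithmeticFunction.moebius d : ℝ) with hR2
  have hsplit : ∀ n, 1 ≤ n → rg z n = R1 n + R2 n := by
    intro n hn
    rw [rg_eq z n hn, hR1, hR2, ← Finset.sum_filter_add_sum_filter_not
      ((primorial z).divisors.filter (fun d => d ∣ n)) (fun d : ℕ => ¬ (X : ℝ) ^ η < d)]
    simp only [Finset.filter_filter, not_not]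
  have hR2b : ∀ n, R2 n ^ 2 ≤ ((((primorial z).divisors.filter
      (fun d => d ∣ n ∧ (X : ℝ) ^ η < d)).card : ℕ) : ℝ) ^ 2 := by
    intro n
    rw [← sq_abs (R2 n)]
    apply pow_le_pow_left₀ (abs_nonneg _)
    rw [hR2]
    refine (Finset.abs_sum_le_sum_abs _ _).trans ?_
    rw [Finset.card_eq_sum_ones, Nat.cast_sum]
    refine Finset.sum_le_sum fun d _ => ?_
    have := ArithmeticFunction.abs_moebius_le_one (n := d)
    rw [Nat.cast_one]
    exact_mod_cast this
  have hW2 : ∑ x ∈ range X, ‖Wn H X α R2 x‖ ^ 2 ≤ (H : ℝ) ^ 2 * (X : ℝ) ^ (1 - c) := by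
    have g1 : ∑ x ∈ range X, ‖Wn H X α R2 x‖ ^ 2 ≤ WS H X α R2 := by
      unfold WS
      apply Finset.sum_le_sum_of_subset_of_nonneg
      · intro x hx
        rw [mem_range] at hx ⊢
        omega
      · intro x _ _
        positivity
    refine g1.trans ((hWSB.2.1 H X α R2).trans ?_)
    apply mul_le_mul_of_nonneg_left _ (by positivity)
    exact (Finset.sum_le_sum fun n _ => hR2b n).trans (hX1 X hXX1 z hz)
  have hW1 : ∑ x ∈ range X, ‖Wn H X α R1 x‖ ^ 2 ≤ X * (146 * C * L ^ 2 * (H / P)) ^ 2 := by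
    have g1 : ∀ x ∈ range X, ‖Wn H X α R1 x‖ ^ 2 ≤ (146 * C * L ^ 2 * (H / P)) ^ 2 := by
      intro x _
      apply pow_le_pow_left₀ (norm_nonneg _)
      exact (small hGEO hMNB H X z x (min ⌊D0⌋₊ X) α η hN0).trans hS
    refine (Finset.sum_le_card_nsmul _ _ _ g1).trans (le_of_eq ?_)
    rw [card_range, nsmul_eq_mul]
  have htot : ∑ x ∈ range X, ‖Wn H X α (rg z) x‖ ^ 2 ≤
      2 * (X * (146 * C * L ^ 2 * (H / P)) ^ 2) + 2 * ((H : ℝ) ^ 2 * (X : ℝ) ^ (1 - c)) := by
    have g1 : ∀ x ∈ range X, ‖Wn H X α (rg z) x‖ ^ 2 ≤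
        2 * ‖Wn H X α R1 x‖ ^ 2 + 2 * ‖Wn H X α R2 x‖ ^ 2 := by
      intro x _
      rw [Wn_add H X α (rg z) R1 R2 hsplit x]
      have h1 := norm_add_le (Wn H X α R1 x) (Wn H X α R2 x)
      have h2 := pow_le_pow_left₀ (norm_nonneg _) h1 2
      nlinarith [sq_nonneg (‖Wn H X α R1 x‖ - ‖Wn H X α R2 x‖)]
    refine (Finset.sum_le_sum g1).trans ?_
    rw [Finset.sum_add_distrib, ← Finset.mul_sum, ← Finset.mul_sum]
    linarith
  refine htot.trans ?_
  rw [le_div_iff₀ (by positivity)]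
  -- first part
  have p1 : 2 * (X * (146 * C * L ^ 2 * (H / P)) ^ 2) * L ^ A ≤ (1 / 2) * (X * (H : ℝ) ^ 2) := by
    have g1 : (146 * C * L ^ 2 * ((H : ℝ) / P)) ^ 2 = K * L ^ 4 * H ^ 2 / P ^ 2 := by
      rw [hK]
      field_simp
    rw [g1]
    have g2 : (L ^ (A + 10)) ^ 2 ≤ (P : ℝ) ^ 2 := pow_le_pow_left₀ (by positivity) hP1 2
    have g3 : 2 * (X * (K * L ^ 4 * (H : ℝ) ^ 2 / P ^ 2)) * L ^ A =
        (X * (H : ℝ) ^ 2) * (2 * K * L ^ (A + 4) / P ^ 2) := by
      rw [pow_add]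
      field_simp
    rw [g3, mul_comm (1 / 2 : ℝ)]
    apply mul_le_mul_of_nonneg_left _ (by positivity)
    rw [div_le_iff₀ (by positivity)]
    have g4 : 4 * K * L ^ (A + 4) ≤ (L ^ (A + 10)) ^ 2 := by
      calc 4 * K * L ^ (A + 4) ≤ L * L ^ (A + 4) := by gcongr
        _ = L ^ (A + 5) := by ring
        _ ≤ L ^ (2 * (A + 10)) := pow_le_pow_right₀ hL1 (by omega)
        _ = (L ^ (A + 10)) ^ 2 := by rw [← pow_mul, mul_comm]
    linarith
  have p2 : 2 * ((H : ℝ) ^ 2 * (X : ℝ) ^ (1 - c)) * L ^ A ≤ (1 / 2) * (X * (H : ℝ) ^ 2) := by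
    have g1 : (X : ℝ) ^ (1 - c) * (X : ℝ) ^ c = X := by
      rw [← Real.rpow_add hX0]
      norm_num
    have g2 : 0 ≤ (X : ℝ) ^ (1 - c) := by positivity
    have g3 : (X : ℝ) ^ (1 - c) * (4 * L ^ A) ≤ X := by
      calc (X : ℝ) ^ (1 - c) * (4 * L ^ A) ≤ (X : ℝ) ^ (1 - c) * (X : ℝ) ^ c :=
            mul_le_mul_of_nonneg_left f2 g2
        _ = X := g1
    have g4 : (0 : ℝ) ≤ (H : ℝ) ^ 2 := by positivity
    nlinarith
  nlinarith

end Pool.Agent.H43.MA.MMR
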