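import Pool.Agent.H43.MA.Stm

/-! # Project MA: the basic facts on `dn` and `mn` -/

set_option autoImplicit false

namespace Pool.Agent.H43.MA.MNB

open Finset

theorem dn_norm (t : ℝ) : dn t = ‖(t : UnitAddCircle)‖ := by
  rw [UnitAddCircle.norm_eq, dn]

theorem dn_cont : Continuous dn := by
  have : dn = fun t : ℝ => ‖(t : UnitAddCircle)‖ := funext dn_norm
  rw [this]
  exact continuous_norm.comp (AddCircle.continuous_mk' 1)

theorem dn_per (t : ℝ) : dn (t + 1) = dn t := by
  rw [dn_norm, dn_norm, AddCircle.coe_add_period]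

theorem dn_neg (t : ℝ) : dn (-t) = dn t := by
  rw [dn_norm, dn_norm, AddCircle.coe_neg, norm_neg]

theorem dn_half (t : ℝ) : dn t ≤ 1 / 2 := abs_sub_round t

theorem dn_nonneg (t : ℝ) : 0 ≤ dn t := abs_nonneg _

theorem dn_le (t : ℝ) (n : ℤ) : dn t ≤ |t - n| := round_le t n

theorem dn_add (s t : ℝ) : dn (s + t) ≤ dn s + dn t := by
  rw [dn_norm, dn_norm, dn_norm, AddCircle.coe_add]
  exact norm_add_le _ _

theorem mn_zero (t : ℝ) : mn 0 t = 0 := by simp [mn]

theorem mn_eq (M : ℕ) (hM : 0 < M) (t : ℝ) : mn M t = (max (1 / (M : ℝ)) (2 * dn t))⁻¹ := by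
  have h : (0 : ℝ) < M := by exact_mod_cast hM
  unfold mn
  split_ifs with h1
  · have : 2 * dn t ≤ 1 / (M : ℝ) := by rw [le_div_iff₀ h]; exact h1
    rw [max_eq_left this]; simp
  · have : 1 / (M : ℝ) ≤ 2 * dn t := by rw [div_le_iff₀ h]; linarith
    rw [max_eq_right this, one_div]

theorem mn_cont (M : ℕ) : Continuous (mn M) := by
  rcases Nat.eq_zero_or_pos M with h | h
  · subst h
    have : mn 0 = fun _ => 0 := funext mn_zero
    rw [this]; exact continuous_const
  · have : mn M = fun t => (max (1 / (M : ℝ)) (2 * dn t))⁻¹ := funext (mn_eq M h)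
    rw [this]
    apply Continuous.inv₀
    · exact continuous_const.max (continuous_const.mul dn_cont)
    · intro t
      have : (0 : ℝ) < 1 / M := by positivity
      exact (lt_of_lt_of_le this (le_max_left _ _)).ne'

theorem mn_per (M : ℕ) (t : ℝ) : mn M (t + 1) = mn M t := by simp only [mn, dn_per]

theorem mn_neg (M : ℕ) (t : ℝ) : mn M (-t) = mn M t := by simp only [mn, dn_neg]

theorem mn_nonneg (M : ℕ) (t : ℝ) : 0 ≤ mn M t := by
  unfold mn
  have := dn_nonneg t
  split_ifs <;> positivity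

theorem mn_le (M : ℕ) (t : ℝ) : mn M t ≤ M := by
  unfold mn
  have h0 := dn_nonneg t
  split_ifs with h
  · exact le_rfl
  · push Not at h
    have h1 : 0 < dn t := by
      rcases h0.lt_or_eq with h2 | h2
      · exact h2
      · rw [← h2] at h; norm_num at h
    rw [div_le_iff₀ (by positivity)]
    linarith

theorem mn_le_inv (M : ℕ) (t : ℝ) (h : 0 < dn t) : mn M t ≤ 1 / (2 * dn t) := by
  unfold mn
  split_ifs with h1
  · rw [le_div_iff₀ (by positivity)]; linarith
  · exact le_rfl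

theorem le_mn (M : ℕ) (t b : ℝ) (h1 : b ≤ M) (h2 : dn t = 0 ∨ b ≤ 1 / (2 * dn t)) : b ≤ mn M t := by
  unfold mn
  split_ifs with h
  · exact h1
  · rcases h2 with h2 | h2
    · rw [h2] at h; norm_num at h
    · exact h2

theorem mn_mono (M M' : ℕ) (t : ℝ) (h : M ≤ M') : mn M t ≤ mn M' t := by
  apply le_mn
  · exact (mn_le M t).trans (by exact_mod_cast h)
  · rcases (dn_nonneg t).lt_or_eq with h1 | h1
    · right; exact mn_le_inv M t h1
    · left; exact h1.symm

theorem main : S_MNB := ⟨dn_cont, dn_per, dn_neg, dn_half, dn_nonneg, dn_le, dn_add, mn_cont, mn_per,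
  mn_neg, mn_nonneg, mn_le, mn_mono, mn_le_inv, le_mn⟩

end Pool.Agent.H43.MA.MNB
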