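import Pool.Agent.H43.MA.Stm

/-! # Project MA: supports and norms of the products of factors -/

set_option autoImplicit false

namespace Pool.Agent.H43.MA.NB

open Finset

theorem card_div_mul_le (d e : ℕ) : (d * e).divisors.card ≤ d.divisors.card * e.divisors.card := by
  classical
  rcases Nat.eq_zero_or_pos d with rfl | hd
  · simp
  rcases Nat.eq_zero_or_pos e with rfl | he
  · simp
  have : (d * e).divisors ⊆ (d.divisors ×ˢ e.divisors).image (fun p => p.1 * p.2) := by
    intro x hx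
    rw [Nat.mem_divisors] at hx
    obtain ⟨a, b, ha, hb, hab⟩ := (Nat.dvd_mul.mp hx.1)
    rw [Finset.mem_image]
    exact ⟨(a, b), by simp [Nat.mem_divisors, ha, hb, hd.ne', he.ne'], hab⟩
  calc _ ≤ _ := Finset.card_le_card this
    _ ≤ _ := Finset.card_image_le
    _ = _ := by rw [Finset.card_product]

theorem tau_step (N k : ℕ) : ∑ n ∈ Icc 1 N, (n.divisors.card : ℝ) ^ (k + 1) / n ≤
    (∑ n ∈ Icc 1 N, (n.divisors.card : ℝ) ^ k / n) ^ 2 := by
  classical
  have h1 : ∀ n ∈ Icc 1 N, (n.divisors.card : ℝ) ^ (k + 1) / n ≤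
      ∑ d ∈ n.divisors, ((d.divisors.card : ℝ) ^ k / d) * (((n / d).divisors.card : ℝ) ^ k / (n / d : ℕ)) := by
    intro n hn
    rw [Finset.mem_Icc] at hn
    have : ∀ d ∈ n.divisors, (n.divisors.card : ℝ) ^ k / n ≤
        ((d.divisors.card : ℝ) ^ k / d) * (((n / d).divisors.card : ℝ) ^ k / (n / d : ℕ)) := by
      intro d hd
      rw [Nat.mem_divisors] at hd
      obtain ⟨e, he⟩ := hd.1
      have hd0 : 0 < d := Nat.pos_of_ne_zero (by rintro rfl; omega)
      have hde : n / d = e := by rw [he]; exact Nat.mul_div_cancel_left e hd0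
      rw [hde, div_mul_div_comm, ← mul_pow, he]
      have := card_div_mul_le d e
      push_cast
      have he0 : 0 < e := Nat.pos_of_ne_zero (by rintro rfl; omega)
      have h2 : ((d * e).divisors.card : ℝ) ≤ d.divisors.card * e.divisors.card := by exact_mod_cast this
      gcongr
    calc (n.divisors.card : ℝ) ^ (k + 1) / n = ∑ d ∈ n.divisors, (n.divisors.card : ℝ) ^ k / n := by
          rw [Finset.sum_const, nsmul_eq_mul, pow_succ]; ring
      _ ≤ _ := Finset.sum_le_sum this
  refine (Finset.sum_le_sum h1).trans ?_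
  rw [sq, Finset.sum_mul_sum, Finset.sum_sigma', ← Finset.sum_product']
  have hinj : Set.InjOn (fun x : (_ : ℕ) × ℕ => ((x.2, x.1 / x.2) : ℕ × ℕ))
      (((Icc 1 N).sigma fun n => n.divisors : Finset ((_ : ℕ) × ℕ)) : Set ((_ : ℕ) × ℕ)) := by
    rintro ⟨n, d⟩ hx ⟨n', d'⟩ hx' h
    simp only [Finset.coe_sigma, Set.mem_sigma_iff, Finset.mem_coe, Nat.mem_divisors] at hx hx'
    simp only [Prod.mk.injEq] at h
    obtain ⟨rfl, h2⟩ := h
    have e1 := Nat.div_mul_cancel hx.2.1
    have e2 := Nat.div_mul_cancel hx'.2.1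
    have : n = n' := by rw [← e1, ← e2, h2]
    subst this
    rfl
  rw [← Finset.sum_image (f := fun p : ℕ × ℕ => ((p.1.divisors.card : ℝ) ^ k / p.1) *
    ((p.2.divisors.card : ℝ) ^ k / (p.2 : ℕ))) hinj]
  refine Finset.sum_le_sum_of_subset_of_nonneg ?_ (fun _ _ _ => by positivity)
  intro p hp
  rw [Finset.mem_image] at hp
  obtain ⟨⟨n, d⟩, hx, rfl⟩ := hp
  simp only [Finset.mem_sigma, Finset.mem_Icc, Nat.mem_divisors] at hx
  obtain ⟨⟨h1, h2⟩, h3, h4⟩ := hx
  have hd0 : 0 < d := Nat.pos_of_ne_zero (by rintro rfl; simp at h3; omega)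
  have hdn : d ≤ n := Nat.le_of_dvd (by omega) h3
  simp only [Finset.mem_product, Finset.mem_Icc]
  refine ⟨⟨hd0, hdn.trans h2⟩, Nat.div_pos hdn hd0, (Nat.div_le_self n d).trans h2⟩

theorem tau_all (N : ℕ) : ∀ k : ℕ, ∑ n ∈ Icc 1 N, (n.divisors.card : ℝ) ^ k / n ≤
    (∑ n ∈ Icc 1 N, (1 : ℝ) / n) ^ (2 ^ k) := by
  intro k
  induction k with
  | zero => simp
  | succ k ih =>
    refine (tau_step N k).trans ?_
    rw [pow_succ 2 k, pow_mul]
    exact pow_le_pow_left₀ (Finset.sum_nonneg fun _ _ => by positivity) ih 2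


theorem fc_supp (i : Fin 8) (d n : ℕ) (h : fc i d n ≠ 0) : 2 ^ d ≤ n ∧ n ≤ 2 ^ (d + 1) := by
  have key : 2 ^ d ≤ n ∧ n < 2 ^ (d + 1) := by
    by_contra hc
    apply h
    unfold fc
    split_ifs <;> simp [mu, sm, hc]
  exact ⟨key.1, key.2.le⟩

theorem sm_le (v d n : ℕ) (hn : 1 ≤ n) : |sm v d n| ≤ 1 + Real.log n := by
  have hl : 0 ≤ Real.log n := Real.log_nonneg (by exact_mod_cast hn)
  have h : sm v d n = 1 ∨ sm v d n = Real.log n ∨ sm v d n = 0 := by
    simp only [sm, ArithmeticFunction.coe_mk]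
    by_cases h1 : 2 ^ d ≤ n ∧ n < 2 ^ (d + 1)
    · by_cases h2 : v = 0
      · left; simp [h1, h2]
      · right; left; simp [h1, h2]
    · right; right; simp [h1]
  rcases h with h | h | h
  · rw [h, abs_one]; linarith
  · rw [h, abs_of_nonneg hl]; linarith
  · rw [h, abs_zero]; linarith

theorem fc_le (i : Fin 8) (d n : ℕ) (hn : 1 ≤ n) : |fc i d n| ≤ 1 + Real.log n := by
  have hl : 0 ≤ Real.log n := Real.log_nonneg (by exact_mod_cast hn)
  have h1 : |(ArithmeticFunction.moebius n : ℝ)| ≤ 1 := by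
    have := ArithmeticFunction.abs_moebius_le_one (n := n)
    exact_mod_cast this
  unfold fc
  split_ifs
  · simp only [mu, ArithmeticFunction.coe_mk]
    split_ifs
    · linarith
    · rw [abs_zero]; linarith
  · exact sm_le 0 d n hn
  · exact sm_le 1 d n hn

theorem supp (T : Finset (Fin 8)) (d : Fin 8 → ℕ) : ∀ n, (∏ i ∈ T, fc i (d i)) n ≠ 0 →
    ∏ i ∈ T, 2 ^ (d i) ≤ n ∧ n ≤ 2 ^ T.card * ∏ i ∈ T, 2 ^ (d i) := by
  induction T using Finset.induction_on with
  | empty =>
    intro n hn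
    rw [prod_empty, ArithmeticFunction.one_apply] at hn
    split_ifs at hn with h
    · subst h; simp
    · exact absurd rfl hn
  | insert a s ha ih =>
    intro n hn
    rw [prod_insert ha, ArithmeticFunction.mul_apply] at hn
    obtain ⟨p, hp, hp2⟩ := exists_ne_zero_of_sum_ne_zero hn
    rw [Nat.mem_divisorsAntidiagonal] at hp
    have h1 := fc_supp a (d a) p.1 (left_ne_zero_of_mul hp2)
    have h2 := ih p.2 (right_ne_zero_of_mul hp2)
    rw [prod_insert ha, card_insert_of_notMem ha, ← hp.1]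
    refine ⟨Nat.mul_le_mul h1.1 h2.1, (Nat.mul_le_mul h1.2 h2.2).trans (le_of_eq ?_)⟩
    ring

theorem bound (T : Finset (Fin 8)) (d : Fin 8 → ℕ) : ∀ n, 1 ≤ n →
    |(∏ i ∈ T, fc i (d i)) n| ≤ ((1 + Real.log n) * n.divisors.card) ^ T.card := by
  induction T using Finset.induction_on with
  | empty =>
    intro n hn
    rw [prod_empty, ArithmeticFunction.one_apply]
    split_ifs <;> simp
  | insert a s ha ih =>
    intro n hn
    rw [prod_insert ha, ArithmeticFunction.mul_apply, card_insert_of_notMem ha]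
    refine (abs_sum_le_sum_abs _ _).trans ?_
    have hl : 0 ≤ Real.log n := Real.log_nonneg (by exact_mod_cast hn)
    have h1 : ∀ p ∈ n.divisorsAntidiagonal, |fc a (d a) p.1 * (∏ i ∈ s, fc i (d i)) p.2| ≤
        (1 + Real.log n) * ((1 + Real.log n) * n.divisors.card) ^ s.card := by
      intro p hp
      rw [Nat.mem_divisorsAntidiagonal] at hp
      have hp1 : 1 ≤ p.1 := by
        rcases Nat.eq_zero_or_pos p.1 with h | h
        · rw [h, zero_mul] at hp; omega
        · exact h
      have hp2 : 1 ≤ p.2 := by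
        rcases Nat.eq_zero_or_pos p.2 with h | h
        · rw [h, mul_zero] at hp; omega
        · exact h
      have d1 : p.1 ∣ n := ⟨p.2, hp.1.symm⟩
      have d2 : p.2 ∣ n := ⟨p.1, by rw [mul_comm]; exact hp.1.symm⟩
      have l1 : Real.log p.1 ≤ Real.log n :=
        Real.log_le_log (by exact_mod_cast hp1) (by exact_mod_cast Nat.le_of_dvd (by omega) d1)
      have l2 : Real.log p.2 ≤ Real.log n :=
        Real.log_le_log (by exact_mod_cast hp2) (by exact_mod_cast Nat.le_of_dvd (by omega) d2)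
      have l20 : 0 ≤ Real.log p.2 := Real.log_nonneg (by exact_mod_cast hp2)
      have c2 : (p.2.divisors.card : ℝ) ≤ n.divisors.card := by
        exact_mod_cast card_le_card (Nat.divisors_subset_of_dvd (by omega) d2)
      rw [abs_mul]
      have a1 := fc_le a (d a) p.1 hp1
      have a2 := ih p.2 hp2
      have a3 : ((1 + Real.log p.2) * p.2.divisors.card) ^ s.card ≤
          ((1 + Real.log n) * n.divisors.card) ^ s.card := by
        apply pow_le_pow_left₀ (by positivity)
        apply mul_le_mul (by linarith) c2 (by positivity) (by linarith)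
      exact mul_le_mul (a1.trans (by linarith)) (a2.trans a3) (abs_nonneg _) (by linarith)
    refine (sum_le_sum h1).trans ?_
    rw [sum_const, nsmul_eq_mul, ← Nat.map_div_right_divisors, card_map]
    exact le_of_eq (by ring)

theorem main : S_NB := by
  obtain ⟨e, he⟩ : ∃ e : ℕ, ∀ N : ℕ, ∑ n ∈ Icc 1 N, (n.divisors.card : ℝ) ^ 16 / n ≤
    (∑ n ∈ Icc 1 N, (1 : ℝ) / n) ^ e := ⟨_, fun N => tau_all N 16⟩
  refine ⟨1, 16 + e, le_rfl, fun T d => ⟨supp T d, fun N hN => ?_⟩⟩
  have hN1 : (1 : ℝ) ≤ N := by exact_mod_cast hN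
  have hL : 0 ≤ Real.log N := Real.log_nonneg hN1
  set L := 1 + Real.log N with hLd
  have hL1 : 1 ≤ L := by linarith
  have hc : T.card ≤ 8 := by
    have := card_le_univ T
    simpa using this
  have hD1 : ∀ n ∈ Icc 1 N, (1 : ℝ) ≤ n.divisors.card := by
    intro n hn
    rw [mem_Icc] at hn
    have : 0 < n.divisors.card := card_pos.mpr ⟨1, Nat.one_mem_divisors.mpr (by omega)⟩
    exact_mod_cast this
  have hb : ∀ n ∈ Icc 1 N, |(∏ i ∈ T, fc i (d i)) n| ≤ (L * n.divisors.card) ^ 8 := by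
    intro n hn
    have h1 := hD1 n hn
    rw [mem_Icc] at hn
    have l1 : Real.log n ≤ Real.log N :=
      Real.log_le_log (by exact_mod_cast hn.1) (by exact_mod_cast hn.2)
    have l0 : 0 ≤ Real.log n := Real.log_nonneg (by exact_mod_cast hn.1)
    refine (bound T d n hn.1).trans ?_
    calc ((1 + Real.log n) * n.divisors.card) ^ T.card ≤ (L * n.divisors.card) ^ T.card := by
          apply pow_le_pow_left₀ (by positivity)
          apply mul_le_mul_of_nonneg_right _ (by positivity)
          linarith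
      _ ≤ (L * n.divisors.card) ^ 8 := by
          apply pow_le_pow_right₀ _ hc
          nlinarith
  have hS : ∑ n ∈ Icc 1 N, (L * (n.divisors.card : ℝ)) ^ 16 ≤ 1 * N * L ^ (16 + e) := by
    have h1 : ∀ n ∈ Icc 1 N, (L * (n.divisors.card : ℝ)) ^ 16 ≤
        L ^ 16 * N * ((n.divisors.card : ℝ) ^ 16 / n) := by
      intro n hn
      rw [mem_Icc] at hn
      have hn0 : (0 : ℝ) < n := by exact_mod_cast hn.1
      have : (n : ℝ) ≤ N := by exact_mod_cast hn.2
      rw [mul_pow, mul_assoc]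
      apply mul_le_mul_of_nonneg_left _ (by positivity)
      rw [mul_div_assoc', le_div_iff₀ hn0, mul_comm]
      exact mul_le_mul_of_nonneg_right this (by positivity)
    refine (sum_le_sum h1).trans ?_
    rw [← mul_sum]
    have h2 : ∑ n ∈ Icc 1 N, (n.divisors.card : ℝ) ^ 16 / n ≤ L ^ e := by
      refine (he N).trans ?_
      apply pow_le_pow_left₀ (sum_nonneg fun _ _ => by positivity)
      have h3 := harmonic_le_one_add_log N
      rw [harmonic_eq_sum_Icc] at h3
      push_cast at h3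
      simp only [one_div]
      exact h3
    calc L ^ 16 * N * ∑ n ∈ Icc 1 N, (n.divisors.card : ℝ) ^ 16 / n ≤ L ^ 16 * N * L ^ e :=
          mul_le_mul_of_nonneg_left h2 (by positivity)
      _ = 1 * N * L ^ (16 + e) := by rw [pow_add]; ring
  constructor
  · refine (sum_le_sum fun n hn => ?_).trans hS
    have h1 := hb n hn
    rw [← sq_abs]
    calc |(∏ i ∈ T, fc i (d i)) n| ^ 2 ≤ ((L * n.divisors.card) ^ 8) ^ 2 :=
          pow_le_pow_left₀ (abs_nonneg _) h1 2
      _ = _ := by rw [← pow_mul]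
  · refine (sum_le_sum fun n hn => ?_).trans hS
    refine (hb n hn).trans ?_
    apply pow_le_pow_right₀ _ (by norm_num)
    have := hD1 n hn
    nlinarith

end Pool.Agent.H43.MA.NB
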