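import Pool.Agent.H43.MA.Stm

/-! # MA-PARS: the mean square of the windows as an integral -/

set_option autoImplicit false

namespace Pool.Agent.H43.MA.PARS

open Finset

theorem ee_add (s t : ℝ) : ee (s + t) = ee s * ee t := by
  simp only [ee]
  rw [← Complex.exp_add]
  congr 1
  push_cast
  ring

theorem main : S_PARZ → S_PARS := by
  intro hP H N α c
  have h1 := hP ((range (N + H)).map Nat.castEmbedding) (fun x => Wn H N α c x.toNat)
  rw [Finset.sum_map] at h1
  simp only [Nat.castEmbedding_apply, Int.toNat_natCast] at h1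
  rw [WS, ← h1]
  refine intervalIntegral.integral_congr fun β _ => ?_
  rw [← mul_pow, ← norm_mul]
  congr 2
  rw [Finset.sum_map]
  simp only [Nat.castEmbedding_apply, Int.toNat_natCast, Int.cast_natCast]
  -- the double sum
  have h2 : (∑ n ∈ Icc 1 N, ((c n : ℝ) : ℂ) * ee ((α + β) * n)) * ∑ h ∈ range H, ee (β * h) =
      ∑ n ∈ Icc 1 N, ∑ x ∈ range (N + H), if n ≤ x ∧ x < n + H then
        ((c n : ℝ) : ℂ) * ee (α * n) * ee (β * x) else 0 := by
    rw [Finset.sum_mul]
    refine Finset.sum_congr rfl fun n hn => ?_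
    rw [Finset.mem_Icc] at hn
    rw [← Finset.sum_filter]
    have h3 : (range (N + H)).filter (fun x => n ≤ x ∧ x < n + H) = Ico n (n + H) := by
      ext x
      simp only [Finset.mem_filter, Finset.mem_range, Finset.mem_Ico]
      omega
    rw [h3, Finset.mul_sum, Finset.sum_Ico_eq_sum_range]
    have h4 : n + H - n = H := by omega
    rw [h4]
    refine Finset.sum_congr rfl fun h _ => ?_
    have h5 : ee ((α + β) * n) = ee (α * n) * ee (β * n) := by
      rw [← ee_add]; congr 1; ring
    have h6 : ee (β * ((n + h : ℕ) : ℝ)) = ee (β * n) * ee (β * h) := by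
      rw [← ee_add]; congr 1; push_cast; ring
    rw [h5, h6]
    ring
  rw [h2, Finset.sum_comm]
  refine Finset.sum_congr rfl fun x _ => ?_
  rw [Wn, Finset.sum_filter, Finset.sum_mul]
  refine Finset.sum_congr rfl fun n _ => ?_
  rw [ite_mul, zero_mul]

end Pool.Agent.H43.MA.PARS
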