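import Pool.Agent.H43.MA.Stm

/-! # MA-SMN: Vinogradov's lemma -/

set_option autoImplicit false

namespace Pool.Agent.H43.MA.SMN

open Finset

theorem dn_le (t : ℝ) (n : ℤ) : dn t ≤ |t - n| := by
  unfold dn
  exact round_le t n

theorem dn_nonneg (t : ℝ) : 0 ≤ dn t := abs_nonneg _

theorem dn_half (t : ℝ) : dn t ≤ 1 / 2 := by
  unfold dn
  exact abs_sub_round t

theorem two (α : ℝ) (a : ℤ) (q : ℕ) (hq : 1 ≤ q) (hc : IsCoprime a (q : ℤ))
    (h : |α - a / q| ≤ 1 / (q : ℝ) ^ 2) (k : ℕ) (hk : 1 ≤ k) (hkq : 2 * k ≤ q) :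
    1 / (2 * q) ≤ dn (α * k) := by
  have hq0 : (0 : ℝ) < q := by exact_mod_cast (by omega : 0 < q)
  set m : ℤ := round (α * k) with hm
  have h1 : a * k - m * q ≠ 0 := by
    intro h0
    have h2 : (q : ℤ) ∣ a * k := ⟨m, by linarith⟩
    have h3 : (q : ℤ) ∣ k := hc.symm.dvd_of_dvd_mul_left h2
    have h4 : q ∣ k := by exact_mod_cast h3
    have := Nat.le_of_dvd (by omega) h4
    omega
  have h2 : (1 : ℝ) ≤ |(a : ℝ) * k - m * q| := by
    have : (1 : ℤ) ≤ |a * k - m * q| := Int.one_le_abs h1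
    exact_mod_cast this
  have h3 : 1 / (q : ℝ) ≤ |(a : ℝ) / q * k - m| := by
    have : (a : ℝ) / q * k - m = ((a : ℝ) * k - m * q) / q := by field_simp
    rw [this, abs_div, abs_of_pos hq0]
    exact div_le_div_of_nonneg_right h2 hq0.le
  have h4 : |(α - a / q) * k| ≤ 1 / (2 * q) := by
    rw [abs_mul, Nat.abs_cast]
    have hk2 : (2 : ℝ) * k ≤ q := by exact_mod_cast hkq
    calc |α - a / q| * (k : ℝ) ≤ 1 / (q : ℝ) ^ 2 * (q / 2) := by
          apply mul_le_mul h (by linarith) (Nat.cast_nonneg _) (by positivity)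
      _ = 1 / (2 * q) := by field_simp
  unfold dn
  rw [← hm]
  have h5 : (a : ℝ) / q * k - m = (α * k - m) - (α - a / q) * k := by ring
  have h6 := abs_sub (α * k - m) ((α - a / q) * k)
  rw [← h5] at h6
  have h7 : (1 : ℝ) / q = 1 / (2 * q) + 1 / (2 * q) := by field_simp; norm_num
  linarith

/-- separation of the points -/
theorem sep (α : ℝ) (a : ℤ) (q : ℕ) (hq : 1 ≤ q) (hc : IsCoprime a (q : ℤ))
    (h : |α - a / q| ≤ 1 / (q : ℝ) ^ 2) (k l : ℕ) (hkl : k < l) (hkq : 2 * (l - k) ≤ q) :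
    1 / (2 * q) ≤ |(α * l - round (α * l)) - (α * k - round (α * k))| := by
  have h1 := two α a q hq hc h (l - k) (by omega) hkq
  refine h1.trans ?_
  have h2 := dn_le (α * ((l - k : ℕ) : ℝ)) (round (α * l) - round (α * k))
  refine h2.trans (le_of_eq ?_)
  rw [Nat.cast_sub hkl.le]
  push_cast
  congr 1
  ring

/-- the index -/
noncomputable def J (q : ℕ) (t : ℝ) : ℕ := ⌊2 * q * dn t⌋₊

theorem J_le (q : ℕ) (t : ℝ) : J q t ≤ q := by
  unfold J
  apply Nat.floor_le_of_le
  have := dn_half t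
  have hq : (0 : ℝ) ≤ q := Nat.cast_nonneg _
  nlinarith

theorem fib (α : ℝ) (a : ℤ) (q : ℕ) (hq : 1 ≤ q) (hc : IsCoprime a (q : ℤ))
    (h : |α - a / q| ≤ 1 / (q : ℝ) ^ 2) (S : Finset ℕ)
    (hS : ∀ k ∈ S, ∀ l ∈ S, k < l → 2 * (l - k) ≤ q) (j : ℕ) :
    (S.filter (fun k : ℕ => J q (α * k) = j)).card ≤ 2 := by
  classical
  have hq0 : (0 : ℝ) < q := by exact_mod_cast (by omega : 0 < q)
  -- two indices of the same sign and floor coincide
  have key : ∀ k ∈ S, ∀ l ∈ S, k < l → J q (α * k) = j → J q (α * l) = j →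
      ¬ ((0 ≤ α * k - round (α * k)) ↔ (0 ≤ α * l - round (α * l))) := by
    intro k hk l hl hkl h1 h2 hsgn
    have h3 := sep α a q hq hc h k l hkl (hS k hk l hl hkl)
    have h4 : |(α * l - round (α * l)) - (α * k - round (α * k))| =
        |dn (α * l) - dn (α * k)| := by
      unfold dn
      rcases le_or_gt 0 (α * k - round (α * k)) with h5 | h5
      · have h6 := hsgn.1 h5
        rw [abs_of_nonneg h5, abs_of_nonneg h6]
      · have h6 : α * l - round (α * l) < 0 := by
          by_contra h7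
          exact absurd (hsgn.2 (not_lt.1 h7)) (not_le.2 h5)
        rw [abs_of_neg h5, abs_of_neg h6, ← abs_neg]
        congr 1
        ring
    rw [h4] at h3
    unfold J at h1 h2
    have h5 := Nat.floor_le (a := 2 * (q : ℝ) * dn (α * k)) (by have := dn_nonneg (α * k); positivity)
    have h6 := Nat.lt_floor_add_one (2 * (q : ℝ) * dn (α * k))
    have h7 := Nat.floor_le (a := 2 * (q : ℝ) * dn (α * l)) (by have := dn_nonneg (α * l); positivity)
    have h8 := Nat.lt_floor_add_one (2 * (q : ℝ) * dn (α * l))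
    rw [h1] at h5 h6
    rw [h2] at h7 h8
    have h9 : |2 * (q : ℝ) * dn (α * l) - 2 * q * dn (α * k)| < 1 := by
      rw [abs_lt]
      constructor <;> linarith
    have h10 : |2 * (q : ℝ) * dn (α * l) - 2 * q * dn (α * k)| = 2 * q * |dn (α * l) - dn (α * k)| := by
      rw [← mul_sub, abs_mul, abs_of_pos (by positivity : (0 : ℝ) < 2 * q)]
    rw [h10] at h9
    have h11 : 2 * (q : ℝ) * (1 / (2 * q)) ≤ 2 * q * |dn (α * l) - dn (α * k)| :=
      mul_le_mul_of_nonneg_left h3 (by positivity)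
    have h12 : 2 * (q : ℝ) * (1 / (2 * q)) = 1 := by field_simp
    linarith
  have hone : ∀ P : Prop, ((S.filter (fun k : ℕ => J q (α * k) = j)).filter
      (fun k : ℕ => ((0 ≤ α * k - round (α * k)) ↔ P))).card ≤ 1 := by
    intro P
    rw [Finset.card_le_one]
    intro k hk l hl
    simp only [mem_filter] at hk hl
    rcases lt_trichotomy k l with h1 | h1 | h1
    · exact absurd (hk.2.trans hl.2.symm) (key k hk.1.1 l hl.1.1 h1 hk.1.2 hl.1.2)
    · exact h1
    · exact absurd (hl.2.trans hk.2.symm) (key l hl.1.1 k hk.1.1 h1 hl.1.2 hk.1.2)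
  rw [← Finset.card_filter_add_card_filter_not (s := S.filter (fun k : ℕ => J q (α * k) = j))
    (fun k : ℕ => 0 ≤ α * k - round (α * k))]
  have h1 := hone True
  have h2 := hone False
  simp only [iff_true, iff_false] at h1 h2
  omega

/-- sums over sets of small diameter -/
theorem sumS (α : ℝ) (a : ℤ) (q : ℕ) (hq : 1 ≤ q) (hc : IsCoprime a (q : ℤ))
    (h : |α - a / q| ≤ 1 / (q : ℝ) ^ 2) (S : Finset ℕ)
    (hS : ∀ k ∈ S, ∀ l ∈ S, k < l → 2 * (l - k) ≤ q) (W : ℕ → ℝ) (w : ℕ → ℝ) (hw : ∀ j, 0 ≤ w j)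
    (hW : ∀ k ∈ S, W k ≤ w (J q (α * k))) :
    ∑ k ∈ S, W k ≤ 2 * ∑ j ∈ range (q + 1), w j := by
  classical
  have h1 : ∑ k ∈ S, W k ≤ ∑ k ∈ S, w (J q (α * k)) := Finset.sum_le_sum hW
  refine h1.trans ?_
  have h2 : ∀ k ∈ S, J q (α * k) ∈ range (q + 1) := by
    intro k _
    rw [mem_range]
    have := J_le q (α * k)
    omega
  rw [← Finset.sum_fiberwise_of_maps_to h2, Finset.mul_sum]
  refine Finset.sum_le_sum fun j _ => ?_
  have h3 : ∀ k ∈ S.filter (fun k : ℕ => J q (α * k) = j), w (J q (α * k)) = w j := by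
    intro k hk
    rw [(mem_filter.1 hk).2]
  rw [Finset.sum_congr rfl h3, Finset.sum_const, nsmul_eq_mul]
  apply mul_le_mul_of_nonneg_right _ (hw j)
  exact_mod_cast fib α a q hq hc h S hS j

theorem harm (q : ℕ) (hq : 1 ≤ q) (w0 : ℝ) :
    ∑ j ∈ range (q + 1), (if j = 0 then w0 else (q : ℝ) / j) ≤ w0 + q * (1 + Real.log q) := by
  rw [Finset.sum_range_succ']
  simp only [if_true]
  have h1 : ∑ j ∈ range q, (if j + 1 = 0 then w0 else (q : ℝ) / ((j + 1 : ℕ) : ℝ)) =
      q * ((harmonic q : ℚ) : ℝ) := by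
    unfold harmonic
    push_cast
    rw [Finset.mul_sum]
    refine Finset.sum_congr rfl fun j _ => ?_
    simp [div_eq_mul_inv]
  rw [h1]
  have h2 := harmonic_le_one_add_log q
  have h3 : (q : ℝ) * ((harmonic q : ℚ) : ℝ) ≤ q * (1 + Real.log q) :=
    mul_le_mul_of_nonneg_left h2 (Nat.cast_nonneg _)
  linarith

theorem J_bound (q : ℕ) (t : ℝ) (hj : J q t ≠ 0) : 1 / (2 * dn t) ≤ q / (J q t : ℝ) := by
  have h1 := Nat.floor_le (a := 2 * (q : ℝ) * dn t) (by have := dn_nonneg t; positivity)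
  change ((J q t : ℕ) : ℝ) ≤ _ at h1
  have h2 : (0 : ℝ) < (J q t : ℝ) := by exact_mod_cast Nat.pos_of_ne_zero hj
  have h3 : 0 < dn t := by
    rcases (dn_nonneg t).lt_or_eq with h | h
    · exact h
    · rw [← h] at h1
      simp only [mul_zero] at h1
      linarith
  rw [div_le_div_iff₀ (by positivity) h2]
  linarith

theorem mn_bound (q M : ℕ) (t : ℝ) :
    mn M t ≤ (if J q t = 0 then (M : ℝ) else q / (J q t : ℝ)) := by
  split_ifs with hj
  · unfold mn
    split_ifs with h1
    · exact le_rfl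
    · push Not at h1
      have h3 : 0 < dn t := by
        rcases (dn_nonneg t).lt_or_eq with h | h
        · exact h
        · rw [← h] at h1
          simp at h1
          linarith
      rw [div_le_iff₀ (by positivity)]
      linarith
  · refine le_trans ?_ (J_bound q t hj)
    unfold mn
    split_ifs with h1
    · have h2 : 0 < dn t := by
        rcases (dn_nonneg t).lt_or_eq with h | h
        · exact h
        · exfalso
          apply hj
          unfold J
          rw [← h]
          simp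
      rw [le_div_iff₀ (by positivity)]
      linarith
    · exact le_rfl

theorem block (α : ℝ) (a : ℤ) (q : ℕ) (hq : 1 ≤ q) (hc : IsCoprime a (q : ℤ))
    (h : |α - a / q| ≤ 1 / (q : ℝ) ^ 2) (M : ℕ) (S : Finset ℕ)
    (hS : ∀ k ∈ S, ∀ l ∈ S, k < l → 2 * (l - k) ≤ q) :
    ∑ k ∈ S, mn M (α * k) ≤ 2 * (M + q * (1 + Real.log q)) := by
  refine (sumS α a q hq hc h S hS (fun k => mn M (α * k))
    (fun j => if j = 0 then (M : ℝ) else (q : ℝ) / j) ?_ ?_).trans ?_
  · intro j
    split_ifs <;> positivity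
  · intro k _
    exact mn_bound q M (α * k)
  · exact mul_le_mul_of_nonneg_left (harm q hq M) (by norm_num)

theorem main : S_SMN := by
  refine ⟨6, by norm_num, ?_⟩
  intro α a q hq hc h
  have hq0 : (0 : ℝ) < q := by exact_mod_cast (by omega : 0 < q)
  have hq1 : (1 : ℝ) ≤ q := by exact_mod_cast hq
  have hlog : 0 ≤ Real.log q := Real.log_nonneg hq1
  refine ⟨?_, fun k hk hkq => two α a q hq hc h k hk hkq, ?_⟩
  · intro K M
    classical
    -- blocks of length B
    set B : ℕ := q / 2 + 1 with hB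
    have hBpos : 0 < B := by omega
    have hmaps : ∀ k ∈ range (K + 1), k / B ∈ range (K / B + 1) := by
      intro k hk
      rw [mem_range] at hk ⊢
      have : k / B ≤ K / B := Nat.div_le_div_right (by omega)
      omega
    rw [← Finset.sum_fiberwise_of_maps_to hmaps]
    have h1 : ∀ i ∈ range (K / B + 1), ∑ k ∈ (range (K + 1)).filter (fun k => k / B = i),
        mn M (α * k) ≤ 2 * (M + q * (1 + Real.log q)) := by
      intro i _
      apply block α a q hq hc h M
      intro k hk l hl hkl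
      have hk' := (mem_filter.1 hk).2
      have hl' := (mem_filter.1 hl).2
      have h2 : l < (i + 1) * B := by
        rw [← Nat.div_lt_iff_lt_mul hBpos]
        omega
      have h3 : i * B ≤ k := by
        rw [← Nat.le_div_iff_mul_le hBpos]
        omega
      have h4 : l - k < B := by
        rw [add_mul, one_mul] at h2
        omega
      omega
    have h2 := Finset.sum_le_card_nsmul _ _ _ h1
    refine h2.trans ?_
    rw [card_range, nsmul_eq_mul]
    have h3 : ((K / B + 1 : ℕ) : ℝ) ≤ 3 * (K / q + 1) := by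
      have h4 : ((K / B : ℕ) : ℝ) ≤ (K : ℝ) / B := Nat.cast_div_le
      have h5 : (q : ℝ) / 2 ≤ B := by
        have : q ≤ 2 * B := by omega
        have : (q : ℝ) ≤ 2 * B := by exact_mod_cast this
        linarith
      have h6 : (K : ℝ) / B ≤ 2 * (K / q) := by
        have hBr : (0 : ℝ) < B := by exact_mod_cast hBpos
        rw [div_le_iff₀ hBr]
        calc (K : ℝ) = 2 * (K / q) * (q / 2) := by field_simp
          _ ≤ 2 * (K / q) * B := by
            apply mul_le_mul_of_nonneg_left h5 (by positivity)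
      have h7 : (0 : ℝ) ≤ K / q := by positivity
      push_cast
      linarith
    have h8 : 0 ≤ 2 * ((M : ℝ) + q * (1 + Real.log q)) := by positivity
    calc ((K / B + 1 : ℕ) : ℝ) * (2 * ((M : ℝ) + q * (1 + Real.log q)))
        ≤ 3 * (K / q + 1) * (2 * ((M : ℝ) + q * (1 + Real.log q))) :=
          mul_le_mul_of_nonneg_right h3 h8
      _ = 6 * (K / q + 1) * (M + q * (1 + Real.log q)) := by ring
  · intro K hK
    have h1 : ∑ k ∈ Icc 1 K, 1 / (2 * dn (α * k)) ≤ 2 * ∑ j ∈ range (q + 1),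
        (if j = 0 then (0 : ℝ) else (q : ℝ) / j) := by
      apply sumS α a q hq hc h (Icc 1 K)
      · intro k hk l hl hkl
        rw [mem_Icc] at hk hl
        omega
      · intro j
        split_ifs <;> positivity
      · intro k hk
        rw [mem_Icc] at hk
        have h2 := two α a q hq hc h k hk.1 (by omega)
        have h3 : J q (α * k) ≠ 0 := by
          unfold J
          have h4 : (1 : ℝ) ≤ 2 * q * dn (α * k) := by
            calc (1 : ℝ) = 2 * q * (1 / (2 * q)) := by field_simp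
              _ ≤ _ := mul_le_mul_of_nonneg_left h2 (by positivity)
          have := (Nat.one_le_floor_iff _).2 h4
          omega
        rw [if_neg h3]
        exact J_bound q _ h3
    refine h1.trans ?_
    have h2 := harm q hq 0
    have h3 : 0 ≤ (q : ℝ) * (1 + Real.log q) := by positivity
    linarith

end Pool.Agent.H43.MA.SMN
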