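import Pool.Agent.H43.MA.Stm2

/-! # MA-SU: all `α` -/

set_option autoImplicit false

namespace Pool.Agent.H43.MA.SU

open Finset Filter

/-- powers of the logarithm are small -/
theorem log_small (θ : ℝ) (hθ : 0 < θ) (k : ℕ) : ∃ X₀ : ℕ, ∀ X : ℕ, X₀ ≤ X →
    2 ≤ Real.log X ∧ Real.log X ^ k ≤ (X : ℝ) ^ θ := by
  have h1 : ∀ᶠ x : ℝ in atTop, ‖Real.log x ^ (k : ℝ)‖ ≤ 1 * ‖x ^ θ‖ :=
    (isLittleO_log_rpow_rpow_atTop (k : ℝ) hθ).bound one_pos
  have h2 : ∀ᶠ x : ℝ in atTop, 2 ≤ Real.log x := Real.tendsto_log_atTop.eventually_ge_atTop 2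
  have h3 := tendsto_natCast_atTop_atTop (R := ℝ) |>.eventually (h1.and h2)
  obtain ⟨X₀, hX⟩ := eventually_atTop.1 h3
  refine ⟨X₀, fun X hXX => ?_⟩
  obtain ⟨h4, h5⟩ := hX X hXX
  refine ⟨h5, ?_⟩
  rw [Real.rpow_natCast, one_mul, Real.norm_of_nonneg (by positivity),
    Real.norm_of_nonneg (Real.rpow_nonneg (Nat.cast_nonneg X) θ)] at h4
  exact h4

theorem main : S_MIN2 → S_MAJ → S_SU := by
  intro hmin hmaj θ hθ A
  obtain ⟨B, hB⟩ := hmin θ hθ A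
  obtain ⟨E₀, hE₀⟩ := hmaj θ (by linarith) A (8 * (B + 1))
  refine ⟨E₀, fun E₁ => ?_⟩
  obtain ⟨X₁, hX₁⟩ := hB (B + 1) E₁
  obtain ⟨X₂, hX₂⟩ := hE₀ E₁
  obtain ⟨X₃, hX₃⟩ := log_small θ (by linarith) (8 * (B + 1))
  refine ⟨max X₁ (max X₂ X₃), fun X hX z hz0 hz1 H hH hHX α => ?_⟩
  have hXa : X₁ ≤ X := (le_max_left _ _).trans hX
  have hXb : X₂ ≤ X := (le_max_left _ _).trans ((le_max_right _ _).trans hX)
  have hXc : X₃ ≤ X := (le_max_right _ _).trans ((le_max_right _ _).trans hX)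
  obtain ⟨hl2, hlX⟩ := hX₃ X hXc
  have hl1 : 1 ≤ Real.log X := by linarith
  have hz : 1 ≤ z := by
    have h1 : (1 : ℝ) ≤ z := (one_le_pow₀ hl1).trans hz0
    exact_mod_cast h1
  -- the number `P1`
  obtain ⟨P1, hP1⟩ : ∃ P1 : ℕ, P1 = ⌈Real.log X ^ B⌉₊ := ⟨_, rfl⟩
  have hP1a : Real.log X ^ B ≤ P1 := by rw [hP1]; exact Nat.le_ceil _
  have hP1b : (P1 : ℝ) ≤ Real.log X ^ (B + 1) := by
    have h1 : (P1 : ℝ) < Real.log X ^ B + 1 := by
      rw [hP1]; exact Nat.ceil_lt_add_one (by positivity)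
    have h2 : (1 : ℝ) ≤ Real.log X ^ B := one_le_pow₀ hl1
    rw [pow_succ]
    nlinarith
  have hP1c : 1 ≤ P1 := by
    have h1 : (1 : ℝ) ≤ P1 := (one_le_pow₀ hl1).trans hP1a
    exact_mod_cast h1
  obtain ⟨P, hP⟩ : ∃ P : ℕ, P = P1 ^ 8 := ⟨_, rfl⟩
  have hPpos : 1 ≤ P := by rw [hP]; exact Nat.one_le_pow _ _ hP1c
  have hPl : (P : ℝ) ≤ Real.log X ^ (8 * (B + 1)) := by
    rw [hP, mul_comm 8, pow_mul]
    push_cast
    gcongr
  have hPH : P ≤ H := by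
    have : (P : ℝ) ≤ H := hPl.trans (hlX.trans hH)
    exact_mod_cast this
  have hHpos : 0 < H := by omega
  have hH0 : (0 : ℝ) < H := by exact_mod_cast hHpos
  -- Dirichlet
  have hN : 0 < H / P := Nat.div_pos hPH (by omega)
  obtain ⟨x, hx1, hx2⟩ := Real.exists_rat_abs_sub_le_and_den_le α hN
  have hq0 : (0 : ℝ) < x.den := by exact_mod_cast x.den_pos
  have hxc : (x : ℝ) = x.num / x.den := Rat.cast_def x
  have hqP : x.den * P ≤ H := by
    calc x.den * P ≤ H / P * P := Nat.mul_le_mul_right _ hx2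
      _ ≤ H := Nat.div_mul_le_self _ _
  have happ : |α - x.num / x.den| ≤ (P : ℝ) / (x.den * H) := by
    rw [← hxc]
    refine hx1.trans ?_
    rw [div_le_div_iff₀ (by positivity) (by positivity), one_mul]
    have h1 : H ≤ P * (H / P + 1) := by
      have h2 := Nat.lt_mul_div_succ H (b := P) (by omega)
      exact h2.le
    have h3 : (H : ℝ) ≤ P * (((H / P : ℕ) : ℝ) + 1) := by exact_mod_cast h1
    nlinarith
  rcases le_total P x.den with h | h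
  · refine hX₁ X hXa z hz hz1 P1 hP1a hP1b H hH hHX α ?_
    rw [← hP]
    exact ⟨x.num, x.den, Rat.isCoprime_num_den x, h, hqP, happ⟩
  · exact hX₂ X hXb z hz0 hz1 P x.den x.den_pos h hPl x.num H hH hHX α happ

end Pool.Agent.H43.MA.SU
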