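import Pool.Agent.H43.MA.Stm

/-! # Project MA: bilinear sums in windows -/

set_option autoImplicit false

namespace Pool.Agent.H43.MA.TII

open Finset ComplexConjugate

theorem ee_add (s t : ℝ) : ee (s + t) = ee s * ee t := by
  unfold ee
  rw [← Complex.exp_add]
  congr 1
  push_cast
  ring

theorem ee_conj (t : ℝ) : conj (ee t) = ee (-t) := by
  unfold ee
  rw [← Complex.exp_conj, map_mul, Complex.conj_I, Complex.conj_ofReal]
  congr 1
  push_cast
  ring

theorem cnt (N H m r r' : ℕ) (h : m * r ≤ N) (h' : m * r' ≤ N) :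
    ((range (N + H)).filter (fun x => (m * r ≤ x ∧ x < m * r + H) ∧
      (m * r' ≤ x ∧ x < m * r' + H))).card = H - m * ((r : ℤ) - r').natAbs := by
  rcases le_total r r' with hr | hr
  · obtain ⟨k, rfl⟩ := Nat.exists_eq_add_of_le hr
    have hk : ((r : ℤ) - ((r + k : ℕ) : ℤ)).natAbs = k := by push_cast; omega
    rw [hk]
    have e : (range (N + H)).filter (fun x => (m * r ≤ x ∧ x < m * r + H) ∧
        (m * (r + k) ≤ x ∧ x < m * (r + k) + H)) = Ico (m * (r + k)) (m * r + H) := by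
      ext x
      simp only [mem_filter, mem_range, mem_Ico]
      rw [Nat.mul_add] at *
      omega
    rw [e, Nat.card_Ico, Nat.mul_add]
    omega
  · obtain ⟨k, rfl⟩ := Nat.exists_eq_add_of_le hr
    have hk : (((r' + k : ℕ) : ℤ) - (r' : ℤ)).natAbs = k := by push_cast; omega
    rw [hk]
    have e : (range (N + H)).filter (fun x => (m * (r' + k) ≤ x ∧ x < m * (r' + k) + H) ∧
        (m * r' ≤ x ∧ x < m * r' + H)) = Ico (m * (r' + k)) (m * r' + H) := by
      ext x
      simp only [mem_filter, mem_range, mem_Ico]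
      rw [Nat.mul_add] at *
      omega
    rw [e, Nat.card_Ico, Nat.mul_add]
    omega

/-- the inner sum -/
noncomputable def cm (H R : ℕ) (α : ℝ) (g : AF) (m x : ℕ) : ℂ :=
  ∑ r ∈ Icc 1 R, (if m * r ≤ x ∧ x < m * r + H then 1 else 0) * (((g r : ℝ) : ℂ) * ee (α * ((m * r : ℕ) : ℝ)))

theorem win (H N M M' R : ℕ) (α : ℝ) (f g : AF) (hM : 1 ≤ M) (hf : ∀ n, f n ≠ 0 → M ≤ n ∧ n ≤ M')
    (hg : ∀ n, g n ≠ 0 → n ≤ R) (hN : M' * R ≤ N) (x : ℕ) :
    Wn H N α (fun n => (f * g) n) x = ∑ m ∈ Icc M M', ((f m : ℝ) : ℂ) * cm H R α g m x := by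
  have h1 : ∀ n ∈ (Icc 1 N).filter (fun n => n ≤ x ∧ x < n + H),
      (((f * g) n : ℝ) : ℂ) * ee (α * n) = ∑ m ∈ Icc M M', ∑ r ∈ Icc 1 R,
        if m * r = n then (((f m : ℝ) : ℂ) * ((g r : ℝ) : ℂ)) * ee (α * ((m * r : ℕ) : ℝ)) else 0 := by
    intro n hn
    rw [mem_filter, mem_Icc] at hn
    have hn0 : n ≠ 0 := by omega
    rw [ArithmeticFunction.mul_apply, ← sum_product' (f := fun m r => if m * r = n then
      (((f m : ℝ) : ℂ) * ((g r : ℝ) : ℂ)) * ee (α * ((m * r : ℕ) : ℝ)) else 0), ← sum_filter]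
    push_cast
    rw [sum_mul]
    symm
    apply sum_subset_zero_on_sdiff
    · intro p hp
      rw [mem_filter] at hp
      rw [Nat.mem_divisorsAntidiagonal]
      exact ⟨hp.2, hn0⟩
    · intro p hp
      rw [mem_sdiff, Nat.mem_divisorsAntidiagonal, mem_filter, mem_product, mem_Icc, mem_Icc] at hp
      obtain ⟨⟨h1, -⟩, h2⟩ := hp
      by_cases hfz : f p.1 = 0
      · rw [hfz]; simp
      · by_cases hgz : g p.2 = 0
        · rw [hgz]; simp
        · exfalso
          apply h2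
          have hp2 : 1 ≤ p.2 := by
            rcases Nat.eq_zero_or_pos p.2 with h | h
            · rw [h] at h1; omega
            · exact h
          exact ⟨⟨hf _ hfz, hp2, hg _ hgz⟩, h1⟩
    · intro p hp
      rw [mem_filter] at hp
      rw [← hp.2]
      push_cast
      ring
  unfold Wn
  rw [sum_congr rfl h1, sum_comm]
  apply sum_congr rfl
  intro m hm
  rw [mem_Icc] at hm
  rw [sum_comm, cm, mul_sum]
  apply sum_congr rfl
  intro r hr
  rw [mem_Icc] at hr
  rw [sum_ite_eq]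
  have hmr : m * r ≤ N := (Nat.mul_le_mul hm.2 hr.2).trans hN
  have hmr1 : 1 ≤ m * r := Nat.mul_pos (by omega) (by omega)
  by_cases hx : m * r ≤ x ∧ x < m * r + H
  · rw [if_pos, if_pos hx]
    · ring
    · rw [mem_filter, mem_Icc]
      exact ⟨⟨hmr1, hmr⟩, hx⟩
  · rw [if_neg, if_neg hx]
    · ring
    · rw [mem_filter, mem_Icc]
      tauto

theorem sqs (H N R m : ℕ) (α : ℝ) (g : AF) (hN : m * R ≤ N) :
    (((∑ x ∈ range (N + H), ‖cm H R α g m x‖ ^ 2 : ℝ)) : ℂ) =
      ∑ r ∈ Icc 1 R, ∑ r' ∈ Icc 1 R, (((g r : ℝ) : ℂ) * ((g r' : ℝ) : ℂ)) *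
        ((((H - m * ((r : ℤ) - r').natAbs : ℕ) : ℝ) : ℂ) * ee (α * ((r : ℝ) - r') * m)) := by
  have h1 : ∀ x, ((‖cm H R α g m x‖ ^ 2 : ℝ) : ℂ) = ∑ r ∈ Icc 1 R, ∑ r' ∈ Icc 1 R,
      (if (m * r ≤ x ∧ x < m * r + H) ∧ (m * r' ≤ x ∧ x < m * r' + H) then (1 : ℂ) else 0) *
        ((((g r : ℝ) : ℂ) * ((g r' : ℝ) : ℂ)) * ee (α * ((r : ℝ) - r') * m)) := by
    intro x
    rw [← Complex.normSq_eq_norm_sq, ← Complex.mul_conj]
    unfold cm
    rw [map_sum, sum_mul_sum]
    refine sum_congr rfl fun r _ => sum_congr rfl fun r' _ => ?_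
    rw [map_mul, map_mul, Complex.conj_ofReal, ee_conj]
    have he : ee (α * ((r : ℝ) - r') * m) = ee (α * ((m * r : ℕ) : ℝ)) * ee (-(α * ((m * r' : ℕ) : ℝ))) := by
      rw [← ee_add]
      congr 1
      push_cast
      ring
    rw [he]
    by_cases h1 : m * r ≤ x ∧ x < m * r + H
    · by_cases h2 : m * r' ≤ x ∧ x < m * r' + H
      · simp only [h1, h2, and_self, if_true, map_one]; ring
      · simp only [h1, h2, and_false, if_false, if_true, map_zero]; ring
    · simp only [h1, false_and, if_false]; ring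
  push_cast [Complex.ofReal_sum]
  have h2 : ∀ x, ((‖cm H R α g m x‖ : ℝ) : ℂ) ^ 2 = ((‖cm H R α g m x‖ ^ 2 : ℝ) : ℂ) := by
    intro x; push_cast; rfl
  rw [sum_congr rfl fun x _ => (h2 x).trans (h1 x), sum_comm]
  apply sum_congr rfl
  intro r hr
  rw [sum_comm]
  apply sum_congr rfl
  intro r' hr'
  rw [mem_Icc] at hr hr'
  rw [← sum_mul, sum_boole, cnt N H m r r' ((Nat.mul_le_mul_left m hr.2).trans hN)
    ((Nat.mul_le_mul_left m hr'.2).trans hN)]
  push_cast
  ring

theorem main : S_MNB → S_GEO → S_TII := by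
  intro hB hG H N M M' R α f g hM hf hg hN
  obtain ⟨-, -, -, -, -, -, -, -, -, mneg, mnn, -, -, -, -⟩ := hB
  obtain ⟨-, G2⟩ := hG
  set F := ∑ n ∈ Icc 1 M', f n ^ 2 with hF
  set K := H / M with hK
  have hF0 : 0 ≤ F := sum_nonneg fun _ _ => sq_nonneg _
  -- Cauchy-Schwarz
  have h1 : WS H N α (fun n => (f * g) n) ≤ F * ∑ m ∈ Icc M M', ∑ x ∈ range (N + H), ‖cm H R α g m x‖ ^ 2 := by
    unfold WS
    rw [sum_comm (s := Icc M M'), mul_sum]
    apply sum_le_sum
    intro x _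
    rw [win H N M M' R α f g hM hf hg hN x]
    have h2 : ‖∑ m ∈ Icc M M', ((f m : ℝ) : ℂ) * cm H R α g m x‖ ≤
        ∑ m ∈ Icc M M', |f m| * ‖cm H R α g m x‖ := by
      refine (norm_sum_le _ _).trans (le_of_eq (sum_congr rfl fun m _ => ?_))
      rw [norm_mul, Complex.norm_real, Real.norm_eq_abs]
    calc ‖∑ m ∈ Icc M M', ((f m : ℝ) : ℂ) * cm H R α g m x‖ ^ 2
        ≤ (∑ m ∈ Icc M M', |f m| * ‖cm H R α g m x‖) ^ 2 := by gcongr
      _ ≤ (∑ m ∈ Icc M M', |f m| ^ 2) * ∑ m ∈ Icc M M', ‖cm H R α g m x‖ ^ 2 :=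
          sum_mul_sq_le_sq_mul_sq _ _ _
      _ ≤ F * ∑ m ∈ Icc M M', ‖cm H R α g m x‖ ^ 2 := by
          apply mul_le_mul_of_nonneg_right _ (sum_nonneg fun _ _ => sq_nonneg _)
          rw [hF]
          refine (le_of_eq (sum_congr rfl fun m _ => sq_abs _)).trans ?_
          exact sum_le_sum_of_subset_of_nonneg (Icc_subset_Icc hM le_rfl) fun _ _ _ => sq_nonneg _
  -- the inner sum
  have hin : ∀ r r' : ℕ, ‖∑ m ∈ Icc M M', (((H - m * ((r : ℤ) - r').natAbs : ℕ) : ℝ) : ℂ) *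
      ee (α * ((r : ℝ) - r') * m)‖ ≤
      if ((r : ℤ) - r').natAbs ≤ K then 2 * H * mn M' (α * (((r : ℤ) - r').natAbs : ℕ)) else 0 := by
    intro r r'
    set k := ((r : ℤ) - r').natAbs with hk
    split_ifs with h
    · have e : Icc M M' = Ico M (M + (M' + 1 - M)) := by
        ext y; simp only [mem_Icc, mem_Ico]; omega
      rw [e]
      have h3 := G2 (α * ((r : ℝ) - r')) H M (M' + 1 - M) M' (fun m => ((H - m * k : ℕ) : ℝ)) (by omega)
        (by positivity) (fun n _ => ⟨by positivity, by exact_mod_cast Nat.sub_le _ _⟩)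
        (Or.inr fun n _ m _ hnm => by
          exact_mod_cast Nat.sub_le_sub_left (Nat.mul_le_mul_right k hnm) H)
      refine h3.trans (le_of_eq ?_)
      congr 1
      rcases le_total r' r with hr | hr
      · have : (r : ℝ) - r' = (k : ℕ) := by
          have : (k : ℤ) = (r : ℤ) - r' := by omega
          exact_mod_cast this.symm
        rw [this]
      · have : (r : ℝ) - r' = -(k : ℕ) := by
          have h5 : -(k : ℤ) = (r : ℤ) - r' := by omega
          have h6 : (r : ℝ) - r' = (((r : ℤ) - r' : ℤ) : ℝ) := by push_cast; ring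
          rw [h6, ← h5]; push_cast; ring
        rw [this, mul_neg, mneg]
    · have : ∑ m ∈ Icc M M', (((H - m * k : ℕ) : ℝ) : ℂ) * ee (α * ((r : ℝ) - r') * m) = 0 := by
        apply sum_eq_zero
        intro m hm
        rw [mem_Icc] at hm
        have h4 : H < M * k := by
          have : H < M * (H / M + 1) := Nat.lt_mul_div_succ H (by omega)
          exact this.trans_le (Nat.mul_le_mul_left M (by omega))
        have h5 : M * k ≤ m * k := Nat.mul_le_mul_right k hm.1
        have : H - m * k = 0 := by omega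
        rw [this]; simp
      rw [this, norm_zero]
  -- the sum over `m` and `x`
  have h2 : ∑ m ∈ Icc M M', ∑ x ∈ range (N + H), ‖cm H R α g m x‖ ^ 2 ≤
      ∑ r ∈ Icc 1 R, ∑ r' ∈ Icc 1 R, (|g r| * |g r'|) *
        (if ((r : ℤ) - r').natAbs ≤ K then 2 * H * mn M' (α * (((r : ℤ) - r').natAbs : ℕ)) else 0) := by
    have h3 : (((∑ m ∈ Icc M M', ∑ x ∈ range (N + H), ‖cm H R α g m x‖ ^ 2 : ℝ)) : ℂ) =
        ∑ r ∈ Icc 1 R, ∑ r' ∈ Icc 1 R, (((g r : ℝ) : ℂ) * ((g r' : ℝ) : ℂ)) *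
          ∑ m ∈ Icc M M', ((((H - m * ((r : ℤ) - r').natAbs : ℕ) : ℝ) : ℂ) * ee (α * ((r : ℝ) - r') * m)) := by
      rw [Complex.ofReal_sum]
      rw [sum_congr rfl fun m hm => sqs H N R m α g
        ((Nat.mul_le_mul_right R (mem_Icc.mp hm).2).trans hN)]
      rw [sum_comm]
      refine sum_congr rfl fun r _ => ?_
      rw [sum_comm]
      refine sum_congr rfl fun r' _ => ?_
      rw [mul_sum]
    have h4 : ∑ m ∈ Icc M M', ∑ x ∈ range (N + H), ‖cm H R α g m x‖ ^ 2 =
        ‖(((∑ m ∈ Icc M M', ∑ x ∈ range (N + H), ‖cm H R α g m x‖ ^ 2 : ℝ)) : ℂ)‖ := by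
      rw [Complex.norm_real, Real.norm_of_nonneg]
      exact sum_nonneg fun _ _ => sum_nonneg fun _ _ => sq_nonneg _
    rw [h4, h3]
    refine (norm_sum_le _ _).trans (sum_le_sum fun r _ => (norm_sum_le _ _).trans
      (sum_le_sum fun r' _ => ?_))
    rw [norm_mul, norm_mul, Complex.norm_real, Complex.norm_real, Real.norm_eq_abs, Real.norm_eq_abs]
    exact mul_le_mul_of_nonneg_left (hin r r') (by positivity)
  -- symmetric sum
  set h : ℕ → ℝ := fun k => if k ≤ K then mn M' (α * k) else 0 with hh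
  have hh0 : ∀ k, 0 ≤ h k := by
    intro k; simp only [hh]; split_ifs
    · exact mnn _ _
    · exact le_rfl
  set S := ∑ k ∈ range (K + 1), mn M' (α * k) with hS
  have h5 : ∀ r : ℕ, ∑ r' ∈ Icc 1 R, h ((r : ℤ) - r').natAbs ≤ 2 * S := by
    intro r
    have h6 : ∀ r' : ℕ, h ((r : ℤ) - r').natAbs ≤ ∑ k ∈ range (K + 1),
        ((if r' + k = r then 1 else 0) + (if r' = r + k then 1 else 0)) * mn M' (α * k) := by
      intro r'
      set k := ((r : ℤ) - r').natAbs with hk
      by_cases hkK : k ≤ K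
      · have h7 : h k = mn M' (α * k) := by simp only [hh, if_pos hkK]
        rw [h7]
        have h8 : mn M' (α * k) ≤ ((if r' + k = r then 1 else 0) + (if r' = r + k then 1 else 0)) * mn M' (α * k) := by
          have h9 : (1 : ℝ) ≤ (if r' + k = r then 1 else 0) + (if r' = r + k then 1 else 0) := by
            rcases le_total r' r with hr | hr
            · have : r' + k = r := by omega
              rw [if_pos this]
              split_ifs <;> norm_num
            · have : r' = r + k := by omega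
              rw [if_pos this]
              split_ifs <;> norm_num
          nlinarith [mnn M' (α * k)]
        refine h8.trans ?_
        exact single_le_sum (f := fun k : ℕ => ((if r' + k = r then (1:ℝ) else 0) + (if r' = r + k then 1 else 0)) * mn M' (α * k))
          (fun i _ => mul_nonneg (by split_ifs <;> norm_num) (mnn _ _)) (mem_range.mpr (by omega))
      · have h7 : h k = 0 := by simp only [hh, if_neg hkK]
        rw [h7]
        exact sum_nonneg fun i _ => mul_nonneg (by split_ifs <;> norm_num) (mnn _ _)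
    refine (sum_le_sum fun r' _ => h6 r').trans ?_
    rw [sum_comm, hS, mul_sum]
    apply sum_le_sum
    intro k _
    rw [← sum_mul]
    apply mul_le_mul_of_nonneg_right _ (mnn _ _)
    rw [sum_add_distrib, sum_boole, sum_boole]
    have a1 : ((Icc 1 R).filter (fun r' => r' + k = r)).card ≤ 1 := by
      rw [card_le_one]
      intro a ha b hb
      rw [mem_filter] at ha hb
      omega
    have a2 : ((Icc 1 R).filter (fun r' => r' = r + k)).card ≤ 1 := by
      rw [card_le_one]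
      intro a ha b hb
      rw [mem_filter] at ha hb
      omega
    have a1' : (((Icc 1 R).filter (fun r' => r' + k = r)).card : ℝ) ≤ 1 := by exact_mod_cast a1
    have a2' : (((Icc 1 R).filter (fun r' => r' = r + k)).card : ℝ) ≤ 1 := by exact_mod_cast a2
    linarith
  have hsym : ∀ r r' : ℕ, ((r : ℤ) - r').natAbs = ((r' : ℤ) - r).natAbs := by intro r r'; omega
  have h6 : ∑ r ∈ Icc 1 R, ∑ r' ∈ Icc 1 R, (|g r| * |g r'|) *
        (if ((r : ℤ) - r').natAbs ≤ K then 2 * H * mn M' (α * (((r : ℤ) - r').natAbs : ℕ)) else 0) ≤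
      4 * H * (∑ n ∈ Icc 1 R, g n ^ 2) * S := by
    have h7 : ∀ r r' : ℕ, (|g r| * |g r'|) *
        (if ((r : ℤ) - r').natAbs ≤ K then 2 * H * mn M' (α * (((r : ℤ) - r').natAbs : ℕ)) else 0) ≤
        H * (g r ^ 2 * h ((r : ℤ) - r').natAbs) + H * (g r' ^ 2 * h ((r' : ℤ) - r).natAbs) := by
      intro r r'
      rw [hsym r' r]
      have e : (if ((r : ℤ) - r').natAbs ≤ K then 2 * H * mn M' (α * (((r : ℤ) - r').natAbs : ℕ)) else 0) =
          2 * H * h ((r : ℤ) - r').natAbs := by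
        simp only [hh]; split_ifs <;> ring
      rw [e]
      have h8 := hh0 ((r : ℤ) - r').natAbs
      have h9 : 2 * (|g r| * |g r'|) ≤ g r ^ 2 + g r' ^ 2 := by
        have := two_mul_le_add_sq |g r| |g r'|
        rw [sq_abs, sq_abs] at this
        linarith
      have h10 : (0 : ℝ) ≤ H * h ((r : ℤ) - r').natAbs := by positivity
      nlinarith
    refine (sum_le_sum fun r _ => sum_le_sum fun r' _ => h7 r r').trans ?_
    simp only [sum_add_distrib]
    have h8 : ∑ r ∈ Icc 1 R, ∑ r' ∈ Icc 1 R, (H : ℝ) * (g r ^ 2 * h ((r : ℤ) - r').natAbs) ≤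
        2 * H * (∑ n ∈ Icc 1 R, g n ^ 2) * S := by
      have : ∀ r ∈ Icc 1 R, ∑ r' ∈ Icc 1 R, (H : ℝ) * (g r ^ 2 * h ((r : ℤ) - r').natAbs) ≤
          2 * H * S * g r ^ 2 := by
        intro r _
        rw [← mul_sum, ← mul_sum]
        have h9 := h5 r
        have h10 : (0 : ℝ) ≤ H * g r ^ 2 := by positivity
        nlinarith
      refine (sum_le_sum this).trans ?_
      rw [← mul_sum]
      exact le_of_eq (by ring)
    have h9 : ∑ r ∈ Icc 1 R, ∑ r' ∈ Icc 1 R, (H : ℝ) * (g r' ^ 2 * h ((r' : ℤ) - r).natAbs) ≤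
        2 * H * (∑ n ∈ Icc 1 R, g n ^ 2) * S := by
      rw [sum_comm]
      exact h8
    linarith
  calc WS H N α (fun n => (f * g) n) ≤ F * ∑ m ∈ Icc M M', ∑ x ∈ range (N + H), ‖cm H R α g m x‖ ^ 2 := h1
    _ ≤ F * (4 * H * (∑ n ∈ Icc 1 R, g n ^ 2) * S) := mul_le_mul_of_nonneg_left (h2.trans h6) hF0
    _ = _ := by ring

end Pool.Agent.H43.MA.TII
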