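import Pool.Agent.H43.MA.Stm

/-! # MA-TIS: one smooth variable -/

set_option autoImplicit false

namespace Pool.Agent.H43.MA.TIS

open Finset

/-- order-convex finite sets of natural numbers are intervals -/
theorem convex_Ico (S : Finset ℕ) (h : ∀ a ∈ S, ∀ b ∈ S, ∀ m, a ≤ m → m ≤ b → m ∈ S) :
    ∃ A L : ℕ, S = Ico A (A + L) := by
  rcases S.eq_empty_or_nonempty with h0 | h0
  · exact ⟨0, 0, by simp [h0]⟩
  · refine ⟨S.min' h0, S.max' h0 + 1 - S.min' h0, ?_⟩
    have h1 := S.min'_le _ (S.max'_mem h0)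
    rw [show S.min' h0 + (S.max' h0 + 1 - S.min' h0) = S.max' h0 + 1 by omega]
    ext m
    rw [mem_Ico]
    constructor
    · intro hm
      exact ⟨S.min'_le m hm, Nat.lt_succ_of_le (S.le_max' m hm)⟩
    · rintro ⟨h2, h3⟩
      exact h _ (S.min'_mem h0) _ (S.max'_mem h0) m h2 (by omega)

theorem conv_eq (f g : AF) (W A B : ℕ) (hA : 1 ≤ A) (hf : ∀ n, f n ≠ 0 → n ≤ W)
    (hg : ∀ n, g n ≠ 0 → A ≤ n ∧ n < B) (n : ℕ) (hn : 1 ≤ n) :
    (f * g) n = ∑ w ∈ Icc 1 W, ∑ m ∈ Ico A B, if w * m = n then f w * g m else 0 := by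
  rw [ArithmeticFunction.mul_apply, ← Finset.sum_product', ← Finset.sum_filter]
  symm
  apply Finset.sum_subset
  · intro p hp
    rw [mem_filter, mem_product, mem_Icc, mem_Ico] at hp
    rw [Nat.mem_divisorsAntidiagonal]
    exact ⟨hp.2, by omega⟩
  · intro p hp hp'
    rw [Nat.mem_divisorsAntidiagonal] at hp
    by_contra h
    apply hp'
    rw [mem_filter, mem_product, mem_Icc, mem_Ico]
    have h1 : p.1 ≠ 0 := by
      intro h0
      rw [h0, zero_mul] at hp
      exact hp.2 hp.1.symm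
    refine ⟨⟨⟨Nat.one_le_iff_ne_zero.2 h1, hf _ (left_ne_zero_of_mul h)⟩,
      hg _ (right_ne_zero_of_mul h)⟩, hp.1⟩

theorem Wn_conv (H N W A B : ℕ) (α : ℝ) (f g : AF) (x : ℕ) (hA : 1 ≤ A)
    (hf : ∀ n, f n ≠ 0 → n ≤ W) (hg : ∀ n, g n ≠ 0 → A ≤ n ∧ n < B) (hN : W * B ≤ N) :
    Wn H N α (fun n => (f * g) n) x = ∑ w ∈ Icc 1 W, ((f w : ℝ) : ℂ) *
      ∑ m ∈ (Ico A B).filter (fun m => w * m ≤ x ∧ x < w * m + H),
        ((g m : ℝ) : ℂ) * ee (α * w * m) := by
  unfold Wn
  have h1 : ∀ n ∈ (Icc 1 N).filter (fun n => n ≤ x ∧ x < n + H),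
      (((f * g) n : ℝ) : ℂ) * ee (α * n) = ∑ w ∈ Icc 1 W, ∑ m ∈ Ico A B,
        if w * m = n then (((f w : ℝ) : ℂ) * ((g m : ℝ) : ℂ)) * ee (α * w * m) else 0 := by
    intro n hn
    rw [mem_filter, mem_Icc] at hn
    rw [conv_eq f g W A B hA hf hg n hn.1.1]
    push_cast
    rw [Finset.sum_mul]
    refine Finset.sum_congr rfl fun w _ => ?_
    rw [Finset.sum_mul]
    refine Finset.sum_congr rfl fun m _ => ?_
    split_ifs with h
    · rw [← h]
      push_cast
      rw [mul_assoc α]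
    · simp
  rw [Finset.sum_congr rfl h1, Finset.sum_comm]
  refine Finset.sum_congr rfl fun w hw => ?_
  rw [mem_Icc] at hw
  rw [Finset.sum_comm, Finset.mul_sum, Finset.sum_filter]
  refine Finset.sum_congr rfl fun m hm => ?_
  rw [mem_Ico] at hm
  rw [Finset.sum_ite_eq]
  have h2 : w * m ∈ (Icc 1 N).filter (fun n => n ≤ x ∧ x < n + H) ↔
      (w * m ≤ x ∧ x < w * m + H) := by
    rw [mem_filter, mem_Icc]
    constructor
    · exact fun h => h.2
    · intro h
      refine ⟨⟨Nat.mul_pos (by omega) (by omega), ?_⟩, h⟩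
      exact (Nat.mul_le_mul hw.2 hm.2.le).trans hN
  simp only [h2]
  split_ifs
  · ring
  · rfl

theorem sm_supp (v e n : ℕ) (h : sm v e n ≠ 0) : 2 ^ e ≤ n ∧ n < 2 ^ (e + 1) := by
  by_contra h1
  apply h
  change (if 2 ^ e ≤ n ∧ n < 2 ^ (e + 1) then (if v = 0 then (1 : ℝ) else Real.log n) else 0) = 0
  rw [if_neg h1]

theorem sm_val (v e n : ℕ) (h : 2 ^ e ≤ n ∧ n < 2 ^ (e + 1)) :
    sm v e n = if v = 0 then (1 : ℝ) else Real.log n := by
  change (if 2 ^ e ≤ n ∧ n < 2 ^ (e + 1) then (if v = 0 then (1 : ℝ) else Real.log n) else 0) = _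
  rw [if_pos h]

theorem main : S_MNB → S_GEO → S_SMN → S_TIS := by
  intro hMNB hGEO hSMN H N W v e q α a f hq hc hα hW hf hN
  obtain ⟨C, -, hC⟩ := hSMN
  obtain ⟨-, h2, -⟩ := hC α a q hq hc hα
  have hmn : ∀ M t, 0 < dn t → mn M t ≤ 1 / (2 * dn t) := hMNB.2.2.2.2.2.2.2.2.2.2.2.2.2.1
  have hq0 : (0 : ℝ) < q := by exact_mod_cast (by omega : 0 < q)
  have hlogN : 0 ≤ Real.log N := Real.log_natCast_nonneg N
  have key : ∀ x, ‖Wn H N α (fun n => (f * sm v e) n) x‖ ≤
      2 * (1 + Real.log N) * q * ∑ n ∈ Icc 1 W, |f n| := by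
    intro x
    rw [Wn_conv H N W (2 ^ e) (2 ^ (e + 1)) α f (sm v e) x Nat.one_le_two_pow hf (sm_supp v e) hN]
    refine (norm_sum_le _ _).trans ?_
    rw [Finset.mul_sum]
    refine Finset.sum_le_sum fun w hw => ?_
    rw [mem_Icc] at hw
    rw [norm_mul, Complex.norm_real, Real.norm_eq_abs, mul_comm]
    apply mul_le_mul_of_nonneg_right _ (abs_nonneg _)
    set S := (Ico (2 ^ e) (2 ^ (e + 1))).filter (fun m => w * m ≤ x ∧ x < w * m + H) with hS
    obtain ⟨A, L, hAL⟩ := convex_Ico S (by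
      intro a1 ha b hb m h3 h4
      rw [hS, mem_filter, mem_Ico] at ha hb ⊢
      have h5 : w * a1 ≤ w * m := Nat.mul_le_mul_left _ h3
      have h6 : w * m ≤ w * b := Nat.mul_le_mul_left _ h4
      omega)
    have hmem : ∀ m ∈ Ico A (A + L), 2 ^ e ≤ m ∧ m < 2 ^ (e + 1) := by
      intro m hm
      rw [← hAL, hS, mem_filter, mem_Ico] at hm
      exact hm.1
    have h7 := hGEO.2 (α * w) (1 + Real.log N) A L L (fun m => sm v e m) le_rfl (by positivity) ?_ ?_
    · rw [hAL]
      refine h7.trans ?_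
      have h8 := h2 w hw.1 (by omega)
      have h9 : 0 < dn (α * w) := lt_of_lt_of_le (by positivity) h8
      have h10 := hmn L (α * w) h9
      have h11 : 1 / (2 * dn (α * w)) ≤ q := by
        rw [div_le_iff₀ (by positivity)]
        have : (q : ℝ) * (2 * (1 / (2 * q))) ≤ q * (2 * dn (α * w)) := by
          apply mul_le_mul_of_nonneg_left _ hq0.le
          linarith
        have h12 : (q : ℝ) * (2 * (1 / (2 * q))) = 1 := by field_simp
        linarith
      apply mul_le_mul_of_nonneg_left (h10.trans h11) (by positivity)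
    · intro n hn
      have hn' := hmem n hn
      rw [sm_val v e n hn']
      have hn1 : 1 ≤ n := le_trans Nat.one_le_two_pow hn'.1
      have hnN : n ≤ N := by
        refine hn'.2.le.trans (le_trans ?_ hN)
        exact Nat.le_mul_of_pos_left _ (by omega)
      have h8 : 0 ≤ Real.log n := Real.log_natCast_nonneg n
      have h9 : Real.log n ≤ Real.log N := by
        apply Real.log_le_log
        · exact_mod_cast hn1
        · exact_mod_cast hnN
      split_ifs
      · exact ⟨by norm_num, by linarith⟩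
      · exact ⟨h8, by linarith⟩
    · left
      intro n hn m hm hnm
      have hn' := hmem n hn
      have hm' := hmem m hm
      rw [sm_val v e n hn', sm_val v e m hm']
      have hn1 : 1 ≤ n := le_trans Nat.one_le_two_pow hn'.1
      split_ifs
      · exact le_rfl
      · apply Real.log_le_log
        · exact_mod_cast hn1
        · exact_mod_cast hnm
  unfold WS
  have h3 : ∀ x ∈ range (N + H), ‖Wn H N α (fun n => (f * sm v e) n) x‖ ^ 2 ≤
      (2 * (1 + Real.log N) * q * ∑ n ∈ Icc 1 W, |f n|) ^ 2 := by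
    intro x _
    exact pow_le_pow_left₀ (norm_nonneg _) (key x) 2
  refine (Finset.sum_le_card_nsmul _ _ _ h3).trans (le_of_eq ?_)
  rw [card_range, nsmul_eq_mul]
  push_cast
  ring

end Pool.Agent.H43.MA.TIS
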