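import Pool.Agent.H43.MA.Stm

/-! # MA-WSB: Cauchy-Schwarz for the windows -/

set_option autoImplicit false

namespace Pool.Agent.H43.MA.WSB

open Finset

theorem ee_norm (t : ℝ) : ‖ee t‖ = 1 := by
  unfold ee
  exact Complex.norm_exp_ofReal_mul_I _

theorem Wn_sum (H N : ℕ) (α : ℝ) (ι : Type) (s : Finset ι) (c : ι → ℕ → ℝ) (x : ℕ) :
    Wn H N α (fun n => ∑ i ∈ s, c i n) x = ∑ i ∈ s, Wn H N α (c i) x := by
  unfold Wn
  rw [Finset.sum_comm]
  refine Finset.sum_congr rfl fun n _ => ?_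
  push_cast
  rw [Finset.sum_mul]

theorem Wn_smul (H N : ℕ) (α a : ℝ) (c : ℕ → ℝ) (x : ℕ) :
    Wn H N α (fun n => a * c n) x = (a : ℂ) * Wn H N α c x := by
  unfold Wn
  rw [Finset.mul_sum]
  refine Finset.sum_congr rfl fun n _ => ?_
  push_cast
  ring

theorem card_win (H N x : ℕ) : ((Icc 1 N).filter (fun n => n ≤ x ∧ x < n + H)).card ≤ H := by
  have h1 : (Icc 1 N).filter (fun n => n ≤ x ∧ x < n + H) ⊆ Ioc (x - H) x ∪ (if H ≤ x then ∅ else Icc 0 0) := by
    intro n hn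
    simp only [mem_filter, mem_Icc] at hn
    rw [mem_union]
    left
    rw [mem_Ioc]
    omega
  have h2 : (Icc 1 N).filter (fun n => n ≤ x ∧ x < n + H) ⊆ Ioc (x - H) x := by
    intro n hn
    simp only [mem_filter, mem_Icc] at hn
    rw [mem_Ioc]
    omega
  refine (Finset.card_le_card h2).trans ?_
  rw [Nat.card_Ioc]
  omega

theorem Wn_norm (H N : ℕ) (α : ℝ) (c : ℕ → ℝ) (x : ℕ) :
    ‖Wn H N α c x‖ ^ 2 ≤ H * ∑ n ∈ (Icc 1 N).filter (fun n => n ≤ x ∧ x < n + H), c n ^ 2 := by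
  have h1 : ‖Wn H N α c x‖ ≤ ∑ n ∈ (Icc 1 N).filter (fun n => n ≤ x ∧ x < n + H), |c n| := by
    unfold Wn
    refine (norm_sum_le _ _).trans (le_of_eq ?_)
    refine Finset.sum_congr rfl fun n _ => ?_
    rw [norm_mul, ee_norm, mul_one, Complex.norm_real, Real.norm_eq_abs]
  have h2 : (∑ n ∈ (Icc 1 N).filter (fun n => n ≤ x ∧ x < n + H), |c n|) ^ 2 ≤
      ((Icc 1 N).filter (fun n => n ≤ x ∧ x < n + H)).card *
        ∑ n ∈ (Icc 1 N).filter (fun n => n ≤ x ∧ x < n + H), |c n| ^ 2 :=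
    sq_sum_le_card_mul_sum_sq
  refine (pow_le_pow_left₀ (norm_nonneg _) h1 2).trans (h2.trans ?_)
  have h3 : ((((Icc 1 N).filter (fun n => n ≤ x ∧ x < n + H)).card : ℕ) : ℝ) ≤ H := by
    exact_mod_cast card_win H N x
  have h4 : ∀ n ∈ (Icc 1 N).filter (fun n => n ≤ x ∧ x < n + H), |c n| ^ 2 = c n ^ 2 :=
    fun n _ => sq_abs _
  rw [Finset.sum_congr rfl h4]
  exact mul_le_mul_of_nonneg_right h3 (Finset.sum_nonneg fun n _ => sq_nonneg _)

theorem main : S_WSB := by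
  refine ⟨?_, ?_, ?_, ?_⟩
  · intro H N α ι s c
    unfold WS
    rw [Finset.sum_comm, Finset.mul_sum]
    refine Finset.sum_le_sum fun x _ => ?_
    rw [Wn_sum]
    refine (pow_le_pow_left₀ (norm_nonneg _) (norm_sum_le _ _) 2).trans ?_
    exact sq_sum_le_card_mul_sum_sq
  · intro H N α c
    unfold WS
    have h1 : ∑ x ∈ range (N + H), ‖Wn H N α c x‖ ^ 2 ≤ ∑ x ∈ range (N + H),
        H * ∑ n ∈ (Icc 1 N).filter (fun n => n ≤ x ∧ x < n + H), c n ^ 2 :=
      Finset.sum_le_sum fun x _ => Wn_norm H N α c x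
    refine h1.trans ?_
    rw [← Finset.mul_sum, sq, mul_assoc]
    apply mul_le_mul_of_nonneg_left _ (Nat.cast_nonneg _)
    simp_rw [Finset.sum_filter]
    rw [Finset.sum_comm, Finset.mul_sum]
    refine Finset.sum_le_sum fun n _ => ?_
    rw [← Finset.sum_filter, Finset.sum_const, nsmul_eq_mul]
    apply mul_le_mul_of_nonneg_right _ (sq_nonneg _)
    have h2 : (range (N + H)).filter (fun x => n ≤ x ∧ x < n + H) ⊆ Ico n (n + H) := by
      intro x hx
      simp only [mem_filter, mem_range] at hx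
      rw [mem_Ico]
      exact hx.2
    have h3 := Finset.card_le_card h2
    rw [Nat.card_Ico, Nat.add_sub_cancel_left] at h3
    exact_mod_cast h3
  · intro H N α a c
    unfold WS
    rw [Finset.mul_sum]
    refine Finset.sum_congr rfl fun x _ => ?_
    rw [Wn_smul, norm_mul, mul_pow, Complex.norm_real, Real.norm_eq_abs, sq_abs]
  · intro H N α c
    unfold WS
    exact Finset.sum_nonneg fun x _ => sq_nonneg _

end Pool.Agent.H43.MA.WSB
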