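import Pool.Agent.H43.MA.PARZ
import Pool.Agent.H43.MA.PARS
import Pool.Agent.H43.MA.WSB
import Pool.Agent.H43.MA.TII
import Pool.Agent.H43.MA.SMN
import Pool.Agent.H43.MA.TIS
import Pool.Agent.H43.MA.DIR
import Pool.Agent.H43.MA.CELL
import Pool.Agent.H43.MA.GI
import Pool.Agent.H43.MA.D2I
import Pool.Agent.H43.MA.D2M
import Pool.Agent.H43.MA.D2
import Pool.Agent.H43.MA.NB
import Pool.Agent.H43.MA.DEC
import Pool.Agent.H43.MA.BOX
import Pool.Agent.H43.MA.LMI
import Pool.Agent.H43.MA.TAIL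
import Pool.Agent.H43.MA.MMR
import Pool.Agent.H43.MA.MNB
import Pool.Agent.H43.MA.GEO
import Pool.Agent.H43.MA.MIN2
import Pool.Agent.H43.MA.MAJ
import Pool.Agent.H43.MA.SU
import Pool.Agent.H43.MA.BIL
import Pool.Agent.H43.MA.Bilx
import Pool.Agent.H43.X6.Chn6

/-! # Project MA (helper43): the chain -/

set_option autoImplicit false

namespace Pool.Agent.H43.MA

theorem c_GEO : S_GEO := GEO.main MNB.main
theorem c_D2I : S_D2I := D2I.main MNB.main (DIR.main MNB.main) (CELL.main MNB.main) (GI.main MNB.main)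
theorem c_PARS : S_PARS := PARS.main PARZ.main
theorem c_D2M : S_D2M := D2M.main MNB.main c_GEO c_PARS c_D2I
theorem c_D2 : S_D2 := D2.main WSB.main c_D2M
theorem c_BOX : S_BOX := BOX.main WSB.main (TII.main MNB.main c_GEO) SMN.main (TIS.main MNB.main c_GEO SMN.main) c_D2 NB.main
  MNB.main
theorem c_LMI : S_LMI := LMI.main WSB.main DEC.main c_BOX NB.main
theorem c_MMR : S_MMR := MMR.main MNB.main c_GEO SMN.main TAIL.main WSB.main
theorem c_MIN2 : S_MIN2 := MIN2.main c_LMI c_MMR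
theorem c_MAJ : S_MAJ := MAJ.main (fun _ h => Pool.Agent.H43.X6.c_SIe6 h)
theorem c_SU : S_SU := SU.main c_MIN2 c_MAJ
theorem c_BIL : S_BIL := BIL.main PARZ.main c_SU
theorem c_BILX : S_BILX := bilx c_BIL

end Pool.Agent.H43.MA
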