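import Pool.Agent.H43.MA.Dfs
import Pool.Agent.H43.G.R_seed8.Y877.SxM

/-! # Project MA (helper43): the number of the prime-indexed primes (from `Y877/SxP.lean` and `CommonSummand.lean`) -/

set_option autoImplicit false

namespace Pool.Agent.H43.MA.Fin

open Finset
open Pool.Agent.H373R2.T7 (ev_L' ev_log')

lemma pi_low : ∃ x0 : ℕ, ∀ x : ℕ, x0 ≤ x → (x : ℝ) / (2 * Real.log x) ≤ (Nat.primeCounting x : ℝ) := by
  obtain ⟨n1, hn1⟩ := ev_log' 1 1
  refine ⟨max n1 400, fun x hx => ?_⟩
  have b1 := hn1 x ((le_max_left _ _).trans hx)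
  have b2 : 400 ≤ x := (le_max_right _ _).trans hx
  rw [one_mul, pow_one] at b1
  have hxr : (400 : ℝ) ≤ x := by exact_mod_cast b2
  have hx0 : (0 : ℝ) < x := by linarith
  have hL0 : 0 < Real.log x := Real.log_pos (by linarith)
  have hss : √(x : ℝ) * √(x : ℝ) = x := Real.mul_self_sqrt hx0.le
  have hs20 : (20 : ℝ) ≤ √(x : ℝ) := by
    apply Real.le_sqrt_of_sq_le
    linarith
  have h1 : Real.log ((x : ℝ) + 1) ≤ 2 * Real.log x := by
    have h2 : (x : ℝ) + 1 ≤ x ^ 2 := by
      have : (400 : ℝ) * x ≤ x * x := mul_le_mul_of_nonneg_right hxr hx0.le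
      rw [sq]
      linarith
    have := Real.log_le_log (by linarith) h2
    rwa [Real.log_pow, Nat.cast_ofNat] at this
  have h3 : 20 * √(x : ℝ) ≤ x := by
    calc 20 * √(x : ℝ) ≤ √(x : ℝ) * √(x : ℝ) := mul_le_mul_of_nonneg_right hs20 (Real.sqrt_nonneg _)
      _ = x := hss
  have hlog2 : (0.69 : ℝ) < Real.log 2 := by
    have := Real.log_two_gt_d9
    linarith
  have h4 : (x : ℝ) * 0.69 ≤ x * Real.log 2 := mul_le_mul_of_nonneg_left hlog2.le hx0.le
  refine le_trans ?_ (Chebyshev.pi_ge x)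
  rw [div_le_div_iff₀ (by positivity) hL0]
  have h5 : (x : ℝ) / 2 ≤ x * Real.log 2 - Real.log (x + 1) := by linarith
  have h6 := mul_le_mul_of_nonneg_right h5 (by positivity : 0 ≤ 2 * Real.log x)
  linarith

lemma PP_succ (j x : ℕ) : (PP j (Nat.primeCounting x)).card ≤ (PP (j + 1) x).card := by
  classical
  apply card_le_card_of_injOn (fun q => Nat.nth Nat.Prime (q - 1))
  · intro q hq
    rw [mem_coe] at hq
    unfold PP at hq
    rw [mem_filter, mem_Icc] at hq
    obtain ⟨⟨hq1, hq2⟩, hq3⟩ := hq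
    have hlt : q - 1 < Nat.primeCounting x := by omega
    have hle : Nat.nth Nat.Prime (q - 1) < x + 1 := Nat.nth_lt_of_lt_count hlt
    have hpp : (Nat.nth Nat.Prime (q - 1)).Prime := Nat.prime_nth_prime _
    have hpi : Nat.primeCounting (Nat.nth Nat.Prime (q - 1)) = q := by
      have h7 : Nat.primeCounting (Nat.nth Nat.Prime (q - 1)) =
        Nat.count Nat.Prime (Nat.nth Nat.Prime (q - 1) + 1) := rfl
      rw [h7, Nat.count_succ, if_pos hpp]
      have h8 : Nat.count Nat.Prime (Nat.nth Nat.Prime (q - 1)) = q - 1 := Nat.primeCounting'_nth_eq (q - 1)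
      omega
    rw [mem_coe]
    unfold PP
    rw [mem_filter, mem_Icc]
    refine ⟨⟨hpp.one_lt.le, (by omega : Nat.nth Nat.Prime (q - 1) ≤ x)⟩, ?_⟩
    intro i hi
    rcases Nat.eq_zero_or_pos i with h0 | h0
    · subst h0
      exact hpp
    · obtain ⟨i', rfl⟩ : ∃ i', i = i' + 1 := ⟨i - 1, by omega⟩
      rw [Function.iterate_succ_apply, hpi]
      exact hq3 i' (by omega)
  · intro a ha b hb hab
    rw [mem_coe] at ha hb
    unfold PP at ha hb
    rw [mem_filter, mem_Icc] at ha hb
    have := Nat.nth_injective Nat.infinite_setOfPred_prime hab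
    omega

lemma PP_zero (x : ℕ) : (PP 0 x).card = Nat.primeCounting x := by
  classical
  rw [← Nat.primesLE_card_eq_primeCounting]
  congr 1
  unfold PP
  ext q
  rw [Nat.mem_primesLE, mem_filter, mem_Icc]
  constructor
  · rintro ⟨⟨_, a⟩, b⟩
    exact ⟨a, b 0 le_rfl⟩
  · rintro ⟨a, b⟩
    refine ⟨⟨b.one_lt.le, a⟩, fun i hi => ?_⟩
    have : i = 0 := by omega
    subst this
    exact b

lemma PP_low (j : ℕ) : ∃ x0 : ℕ, ∀ x : ℕ, x0 ≤ x →
    (x : ℝ) / (2 * Real.log x) ^ (j + 1) ≤ ((PP j x).card : ℝ) := by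
  induction j with
  | zero =>
    obtain ⟨x1, h1⟩ := pi_low
    refine ⟨x1, fun x hx => ?_⟩
    rw [PP_zero, zero_add, pow_one]
    exact h1 x hx
  | succ j ih =>
    obtain ⟨x1, h1⟩ := pi_low
    obtain ⟨x2, h2⟩ := ih
    obtain ⟨x3, h3⟩ := ev_log' 1 (2 * (x2 + 4))
    refine ⟨max x1 (max x3 9), fun x hx => ?_⟩
    have b1 := h1 x ((le_max_left _ _).trans hx)
    have b2 := h3 x (((le_max_left _ _).trans (le_max_right _ _)).trans hx)
    have b3 : 9 ≤ x := ((le_max_right _ _).trans (le_max_right _ _)).trans hx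
    have hxr : (9 : ℝ) ≤ x := by exact_mod_cast b3
    have hx0 : (0 : ℝ) < x := by linarith
    have hL0 : 0 < Real.log x := Real.log_pos (by linarith)
    rw [pow_one] at b2
    have hss : √(x : ℝ) * √(x : ℝ) = x := Real.mul_self_sqrt hx0.le
    have hs1 : 1 ≤ √(x : ℝ) := by
      apply Real.le_sqrt_of_sq_le
      linarith
    have hbig : (x2 : ℝ) + 4 ≤ x / (2 * Real.log x) := by
      rw [le_div_iff₀ (by positivity)]
      have h3 : √(x : ℝ) ≤ x := by
        calc √(x : ℝ) = √(x : ℝ) * 1 := (mul_one _).symm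
          _ ≤ √(x : ℝ) * √(x : ℝ) := mul_le_mul_of_nonneg_left hs1 (Real.sqrt_nonneg _)
          _ = x := hss
      linarith
    set m := Nat.primeCounting x with hm
    have hx2m : x2 ≤ m := by
      have : (x2 : ℝ) ≤ m := by linarith
      exact_mod_cast this
    have hm4 : (4 : ℝ) ≤ m := by
      have : (0 : ℝ) ≤ x2 := Nat.cast_nonneg _
      linarith
    have hmx : m ≤ x := by
      rw [hm, ← PP_zero]
      refine (card_le_card (filter_subset _ _)).trans ?_
      rw [Nat.card_Icc, Nat.add_sub_cancel]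
    have hmxr : (m : ℝ) ≤ x := by exact_mod_cast hmx
    have hlm0 : 0 < Real.log m := Real.log_pos (by linarith)
    have hlm : Real.log m ≤ Real.log x := Real.log_le_log (by linarith) hmxr
    have k1 := h2 m hx2m
    have k2 : ((PP j m).card : ℝ) ≤ (PP (j + 1) x).card := by exact_mod_cast PP_succ j x
    refine le_trans ?_ (k1.trans k2)
    calc (x : ℝ) / (2 * Real.log x) ^ (j + 1 + 1)
        = (x / (2 * Real.log x)) / (2 * Real.log x) ^ (j + 1) := by
          rw [pow_succ _ (j + 1)]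
          field_simp
      _ ≤ m / (2 * Real.log x) ^ (j + 1) := div_le_div_of_nonneg_right b1 (by positivity)
      _ ≤ m / (2 * Real.log m) ^ (j + 1) := by
          apply div_le_div_of_nonneg_left (by positivity) (by positivity)
          exact pow_le_pow_left₀ (by positivity) (by linarith) _

end Pool.Agent.H43.MA.Fin
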