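import Pool.Agent.H43.MA.Fin3
import Pool.Agent.H43.MA.Fin4
import Pool.Agent.H43.MA.Ppl

/-! # Project MA (helper43): summands in short intervals, several windows -/

set_option autoImplicit false

namespace Pool.Agent.H43.MA.Fin

open Finset Filter
open Pool.Agent.H373R2.T7 (ev_L' ev_log' Vz)

/-- the conditions on the windows `(g i, g i + G i]` -/
def Windows {k : ℕ} (C x y : ℕ) (g G : Fin k → ℕ) : Prop :=
  ∀ i, x ≤ primorial y * g i ∧ primorial y * (g i + G i) ≤ 2 * x ∧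
    (x : ℝ) ≤ primorial y * G i * Real.log x ^ C

theorem outA (hB : S_BILX) (θ : ℝ) (hθ : 1 / 3 < θ) (k j A C : ℕ) (ε : ℝ) (hε : 0 < ε) (hε1 : ε ≤ 1) : ∃ K₀ : ℕ, ∀ K₁ : ℕ,
    ∃ x₀ : ℕ, ∀ x : ℕ, x₀ ≤ x →
    ∀ y : ℕ, K₀ * Real.log (Real.log x) ≤ y → y ≤ K₁ * Real.log (Real.log x) →
    ∀ Y : ℕ, (x : ℝ) ^ θ ≤ Y → Y ≤ x → ∀ g G : Fin k → ℕ, Windows C x y g G →
    (∀ (a : ℕ) (S : Finset ℕ), a + Y ≤ x → S ⊆ Ioc a (a + Y) → (∀ p ∈ S, p.Prime) →
      (Y : ℝ) ≤ S.card * Real.log x ^ A → ((Exc ε S x y g G).card : ℝ) ≤ ε * ∏ i, (G i : ℝ)) ∧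
    (Y : ℝ) / (2 * Real.log Y) ^ (j + 1) ≤ ((PP j Y).card : ℝ) ∧
    ((Exc ε (PP j Y) x y g G).card : ℝ) ≤ ε * ∏ i, (G i : ℝ) := by
  classical
  have h2k : (0 : ℝ) < ε / 2 ^ k := by positivity
  have h2k1 : ε / 2 ^ k ≤ 1 := by
    rw [div_le_one (by positivity)]
    exact hε1.trans (one_le_pow₀ (by norm_num))
  obtain ⟨K₀, hK₀⟩ := stepA hB θ hθ (max A (j + 2) + k) C (ε / 2 ^ k) h2k h2k1
  refine ⟨K₀, fun K₁ => ?_⟩
  obtain ⟨n1, hn1⟩ := PP_low j
  obtain ⟨n2, hn2⟩ := hK₀ K₁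
  obtain ⟨n3, hn3⟩ := ev_L' (max 3 (2 ^ (j + 1)))
  obtain ⟨n4, hn4⟩ : ∃ n4 : ℕ, ∀ x : ℕ, n4 ≤ x → (n1 : ℝ) ≤ (x : ℝ) ^ θ :=
    eventually_atTop.1 (((tendsto_rpow_atTop (show 0 < θ by linarith)).comp
      (tendsto_natCast_atTop_atTop (R := ℝ))).eventually_ge_atTop (n1 : ℝ))
  refine ⟨max n4 (max n2 (max n3 1)), fun x hx y hy1 hy2 Y hY1 hY2 g G hW => ?_⟩
  have b1 : n4 ≤ x := le_trans (le_max_left _ _) hx
  have b2 : n2 ≤ x := le_trans (le_trans (le_max_left _ _) (le_max_right _ _)) hx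
  have b3 : n3 ≤ x := le_trans (le_trans (le_trans (le_max_left _ _) (le_max_right _ _)) (le_max_right _ _)) hx
  have b4 : 1 ≤ x := le_trans (le_trans (le_trans (le_max_right _ _) (le_max_right _ _)) (le_max_right _ _)) hx
  have hL := hn3 x b3
  have hL3 : 3 ≤ Real.log x := (le_max_left _ _).trans hL
  have hLj : 2 ^ (j + 1) ≤ Real.log x := (le_max_right _ _).trans hL
  have hL1 : 1 ≤ Real.log x := by linarith
  have hx0 : (0 : ℝ) < x := by exact_mod_cast b4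
  have hY0 : (0 : ℝ) < Y := lt_of_lt_of_le (by positivity) hY1
  have hYn : n1 ≤ Y := by
    have : (n1 : ℝ) ≤ Y := (hn4 x b1).trans hY1
    exact_mod_cast this
  have hlow := hn1 Y hYn
  have key : ∀ (a : ℕ) (S : Finset ℕ), a + Y ≤ x → S ⊆ Ioc a (a + Y) → (∀ p ∈ S, p.Prime) →
      (Y : ℝ) ≤ S.card * Real.log x ^ (max A (j + 2)) → ((Exc ε S x y g G).card : ℝ) ≤ ε * ∏ i, (G i : ℝ) := by
    intro a S ha hS hSp hSc
    refine multiG x y ((Ioc a (a + Y)).filter Nat.Prime) (Y : ℝ)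
      (fun g0 G0 => x ≤ primorial y * g0 ∧ primorial y * (g0 + G0) ≤ 2 * x ∧
        (x : ℝ) ≤ primorial y * G0 * Real.log x ^ C) hL3 k (max A (j + 2)) ε hε hε1 ?_ S ?_ hSc g G (fun i => hW i)
    · intro S' hS' hc g0 G0 hw
      exact hn2 x b2 y hy1 hy2 a Y hY1 ha S' (hS'.trans (filter_subset _ _)) (fun s hs => (mem_filter.1 (hS' hs)).2) hc g0 G0
        hw.1 hw.2.1 hw.2.2
    · intro s hs
      exact mem_filter.2 ⟨hS hs, hSp s hs⟩
  refine ⟨fun a S ha hS hSp hSc => key a S ha hS hSp (hSc.trans ?_), hlow, key 0 (PP j Y) (by omega) ?_ ?_ ?_⟩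
  · apply mul_le_mul_of_nonneg_left _ (Nat.cast_nonneg _)
    exact pow_le_pow_right₀ hL1 (le_max_left _ _)
  · intro p hp
    unfold PP at hp
    rw [mem_filter, mem_Icc] at hp
    rw [mem_Ioc]
    omega
  · intro p hp
    unfold PP at hp
    exact (mem_filter.1 hp).2 0 (Nat.zero_le _)
  · have hYx : (Y : ℝ) ≤ x := by exact_mod_cast hY2
    have hlY : Real.log Y ≤ Real.log x := Real.log_le_log hY0 hYx
    have hlY0 : 0 < Real.log Y := by
      have h1 : Real.log ((x : ℝ) ^ θ) ≤ Real.log Y := Real.log_le_log (by positivity) hY1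
      rw [Real.log_rpow hx0] at h1
      have : 0 < θ * Real.log x := by
        apply mul_pos <;> linarith
      linarith
    rw [div_le_iff₀ (by positivity)] at hlow
    have hc0 : (0 : ℝ) ≤ (PP j Y).card := Nat.cast_nonneg _
    calc (Y : ℝ) ≤ (PP j Y).card * (2 * Real.log Y) ^ (j + 1) := hlow
      _ ≤ (PP j Y).card * (2 * Real.log x) ^ (j + 1) := by gcongr
      _ = (PP j Y).card * (2 ^ (j + 1) * Real.log x ^ (j + 1)) := by rw [mul_pow]
      _ ≤ (PP j Y).card * (Real.log x * Real.log x ^ (j + 1)) := by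
          apply mul_le_mul_of_nonneg_left _ hc0
          exact mul_le_mul_of_nonneg_right hLj (by positivity)
      _ = (PP j Y).card * Real.log x ^ (j + 2) := by rw [pow_succ' _ (j + 1)]
      _ ≤ (PP j Y).card * Real.log x ^ (max A (j + 2)) := by
          apply mul_le_mul_of_nonneg_left _ hc0
          exact pow_le_pow_right₀ hL1 (le_max_right _ _)

end Pool.Agent.H43.MA.Fin
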