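import Pool.Agent.H43.MA.Fin5
import Pool.Agent.H43.MA.Fin4

/-! # Project MA (helper43): short windows, several windows -/

set_option autoImplicit false

namespace Pool.Agent.H43.MA.Fin

open Finset Filter
open Pool.Agent.H373R2.T7 (ev_L' ev_log' Vz Vz_pos Vz_le_one)

/-- the conditions on the windows `(g i, g i + G i]` -/
def Short {k : ℕ} (θ : ℝ) (x y : ℕ) (g G : Fin k → ℕ) : Prop :=
  ∀ i, x ≤ primorial y * g i ∧ primorial y * (g i + G i) ≤ 2 * x ∧ (x : ℝ) ^ θ ≤ primorial y * G i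

lemma repD_card {k : ℕ} (S : Finset ℕ) (hS : ∀ p ∈ S, p.Prime) (a : Fin k → ℕ) : (Rep S a).card ≤ (RepD S a).card + (2 * k + 1) := by
  classical
  have h1 : Rep S a ⊆ RepD S a ∪ ({2} ∪ (univ.image (fun i => a i - 2) ∪ univ.image (fun i => a i / 2))) := by
    intro p hp
    unfold Rep at hp
    rw [mem_filter] at hp
    obtain ⟨hpS, hp2⟩ := hp
    have hpp := hS p hpS
    rw [mem_union, mem_union, mem_union]
    by_cases h : p = 2
    · right; left; exact mem_singleton.2 h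
    by_cases h3 : ∃ i, p = a i - 2
    · right; right; left
      obtain ⟨i, hi⟩ := h3
      exact mem_image.2 ⟨i, mem_univ _, hi.symm⟩
    by_cases h4 : ∃ i, p = a i / 2
    · right; right; right
      obtain ⟨i, hi⟩ := h4
      exact mem_image.2 ⟨i, mem_univ _, hi.symm⟩
    left
    push Not at h3 h4
    unfold RepD
    rw [mem_filter]
    refine ⟨hpS, hpp.odd_of_ne_two h, fun i => ⟨hp2 i, (hp2 i).odd_of_ne_two ?_, ?_⟩⟩
    · intro h5
      have := h3 i
      omega
    · intro h5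
      have h6 := h4 i
      have h7 := hpp.pos
      omega
  have h2 := (card_le_card h1).trans ((card_union_le _ _).trans (Nat.add_le_add_left ((card_union_le _ _).trans
    (Nat.add_le_add_left (card_union_le _ _) _)) _))
  have h3 : (univ.image (fun i : Fin k => a i - 2)).card ≤ k := card_image_le.trans (by simp)
  have h4 : (univ.image (fun i : Fin k => a i / 2)).card ≤ k := card_image_le.trans (by simp)
  rw [card_singleton] at h2
  omega

theorem outB (hB : S_BILX) (θ : ℝ) (hθ : 1 / 3 < θ) (k A : ℕ) (ε : ℝ) (hε : 0 < ε) (hε1 : ε ≤ 1) : ∃ K₀ : ℕ, ∀ K₁ : ℕ,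
    ∃ x₀ : ℕ, ∀ x : ℕ, x₀ ≤ x →
    ∀ y : ℕ, K₀ * Real.log (Real.log x) ≤ y → y ≤ K₁ * Real.log (Real.log x) →
    ∀ g G : Fin k → ℕ, Short θ x y g G → ∀ S : Finset ℕ, S ⊆ Icc 1 x → (∀ p ∈ S, p.Prime) →
      (x : ℝ) ≤ S.card * Real.log x ^ A → ((ExcD ε S x y g G).card : ℝ) ≤ ε * ∏ i, (G i : ℝ) := by
  classical
  have h2k : (0 : ℝ) < ε / 2 / 2 ^ k := by positivity
  have h2k1 : ε / 2 / 2 ^ k ≤ 1 := by
    rw [div_le_one (by positivity)]
    have : (1 : ℝ) ≤ 2 ^ k := one_le_pow₀ (by norm_num)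
    linarith
  obtain ⟨K₀, hK₀⟩ := stepB hB θ hθ (A + k) (ε / 2 / 2 ^ k) h2k h2k1
  refine ⟨K₀, fun K₁ => ?_⟩
  obtain ⟨n2, hn2⟩ := hK₀ K₁
  obtain ⟨n3, hn3⟩ := ev_L' 3
  obtain ⟨n4, hn4⟩ := ev_log' (A + k) ((2 * k + 1) * 2 / ε)
  refine ⟨max n4 (max n2 (max n3 1)), fun x hx y hy1 hy2 g G hW S hS hSp hSc => ?_⟩
  have b1 : n4 ≤ x := le_trans (le_max_left _ _) hx
  have b2 : n2 ≤ x := le_trans (le_trans (le_max_left _ _) (le_max_right _ _)) hx
  have b3 : n3 ≤ x := le_trans (le_trans (le_trans (le_max_left _ _) (le_max_right _ _)) (le_max_right _ _)) hx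
  have b4 : 1 ≤ x := le_trans (le_trans (le_trans (le_max_right _ _) (le_max_right _ _)) (le_max_right _ _)) hx
  have hL3 := hn3 x b3
  have h4 := hn4 x b1
  set L := Real.log x with hLd
  have hL0 : 0 < L := by linarith
  have hx1 : (1 : ℝ) ≤ x := by exact_mod_cast b4
  have hx0 : (0 : ℝ) < x := by linarith
  have key : ((Exc (ε / 2) S x y g G).card : ℝ) ≤ ε / 2 * ∏ i, (G i : ℝ) := by
    refine multiG x y ((Icc 1 x).filter Nat.Prime) (x : ℝ)
      (fun g0 G0 => x ≤ primorial y * g0 ∧ primorial y * (g0 + G0) ≤ 2 * x ∧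
        (x : ℝ) ^ θ ≤ primorial y * G0) hL3 k A (ε / 2) (by positivity) (by linarith) ?_ S ?_ hSc g G (fun i => hW i)
    · intro S' hS' hc g0 G0 hw
      exact hn2 x b2 y hy1 hy2 S' (hS'.trans (filter_subset _ _)) (fun s hs => (mem_filter.1 (hS' hs)).2) hc g0 G0
        hw.1 hw.2.1 hw.2.2
    · intro s hs
      exact mem_filter.2 ⟨hS hs, hSp s hs⟩
  have hV : V y = Vz y := rfl
  have hV0 : 0 < V y := by rw [hV]; exact Vz_pos y
  have hV1 : V y ≤ 1 := by rw [hV]; exact Vz_le_one y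
  have hsub : ExcD ε S x y g G ⊆ Exc (ε / 2) S x y g G := by
    intro m hm
    unfold ExcD at hm
    unfold Exc
    rw [mem_filter] at hm ⊢
    refine ⟨hm.1, ?_⟩
    have h5 : ((Rep S (fun i => primorial y * (g i + m i))).card : ℝ) ≤
        (RepD S (fun i => primorial y * (g i + m i))).card + (2 * k + 1) := by
      exact_mod_cast repD_card S hSp _
    have h6 : (2 * k + 1 : ℝ) ≤ ε / 2 * (S.card / (V y * L) ^ k) := by
      have h7 : (V y * L) ^ k ≤ L ^ k := by
        apply pow_le_pow_left₀ (by positivity)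
        nlinarith
      have h8 : √(x : ℝ) ≤ x := by
        have hs : √(x : ℝ) * √(x : ℝ) = x := Real.mul_self_sqrt hx0.le
        have hs1 : 1 ≤ √(x : ℝ) := by
          apply Real.le_sqrt_of_sq_le
          linarith
        nlinarith
      have h9 : (2 * k + 1) * 2 / ε * L ^ (A + k) ≤ S.card * L ^ A := h4.trans (h8.trans hSc)
      have h10 : (2 * k + 1) * 2 / ε * L ^ k ≤ S.card := by
        have h11 : (2 * k + 1) * 2 / ε * L ^ (A + k) = ((2 * k + 1) * 2 / ε * L ^ k) * L ^ A := by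
          rw [pow_add]; ring
        rw [h11] at h9
        exact le_of_mul_le_mul_right h9 (by positivity)
      have h12 : (2 * k + 1 : ℝ) * 2 / ε ≤ S.card / (V y * L) ^ k := by
        rw [le_div_iff₀ (by positivity)]
        exact (mul_le_mul_of_nonneg_left h7 (by positivity)).trans h10
      have h13 := mul_le_mul_of_nonneg_left h12 (show 0 ≤ ε / 2 by positivity)
      refine le_trans (le_of_eq ?_) h13
      field_simp
    have h14 := hm.2
    have h15 : (1 - ε / 2) * ((S.card : ℝ) / (V y * L) ^ k) = (1 - ε) * (S.card / (V y * L) ^ k) +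
        ε / 2 * (S.card / (V y * L) ^ k) := by ring
    rw [h15]
    linarith
  have hG0 : (0 : ℝ) ≤ ∏ i, (G i : ℝ) := prod_nonneg fun i _ => Nat.cast_nonneg _
  calc ((ExcD ε S x y g G).card : ℝ) ≤ (Exc (ε / 2) S x y g G).card := by exact_mod_cast card_le_card hsub
    _ ≤ ε / 2 * ∏ i, (G i : ℝ) := key
    _ ≤ ε * ∏ i, (G i : ℝ) := by
        apply mul_le_mul_of_nonneg_right _ hG0
        linarith

end Pool.Agent.H43.MA.Fin
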