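import Pool.Agent.H43.MA.FinC
import Pool.Agent.H43.MA.FinH
import Pool.Agent.H43.MA.Dfs

/-! # Project MA (helper43): chains with small defects -/

set_option autoImplicit false

namespace Pool.Agent.H43.MA.Fin

open Finset Filter
open Pool.Agent.H373R2.T7 (ev_L' ev_log' Vz Vz_pos Vz_le_one)

/-- the `i`-th member is prime -/
def PrC (M g i m s : ℕ) : Prop := (2 ^ (i + 1) * (s + 1) - 1 + M * (g + m)).Prime

open Classical in
theorem outC (hB : S_BILX) (θ : ℝ) (hθ : 1 / 3 < θ) (k A : ℕ) (ε : ℝ) (hε : 0 < ε) (hε1 : ε ≤ 1) : ∃ K₀ : ℕ, ∀ K₁ : ℕ,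
    ∃ x₀ : ℕ, ∀ x : ℕ, x₀ ≤ x →
    ∀ y : ℕ, K₀ * Real.log (Real.log x) ≤ y → y ≤ K₁ * Real.log (Real.log x) →
    ∀ S : Finset ℕ, S ⊆ Icc 1 x → (∀ s ∈ S, ∀ i : Fin k, ∀ q : ℕ, q.Prime → q ≤ y → ¬ q ∣ 2 ^ ((i : ℕ) + 1) * (s + 1) - 1) →
      (x : ℝ) ≤ S.card * Real.log x ^ A →
    ∀ g G : Fin k → ℕ, (∀ i, primorial y * (g i + G i) ≤ x ∧ (x : ℝ) ^ θ ≤ primorial y * G i) →
    (((Fintype.piFinset fun i => Icc 1 (G i)).filter (fun m =>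
      ((S.filter (fun s => ∀ i : Fin k, PrC (primorial y) (g i) i (m i) s)).card : ℝ) <
        (1 - ε) * (S.card / (V y * Real.log x) ^ k))).card : ℝ) ≤ ε * ∏ i, (G i : ℝ) := by
  have h2k : (0 : ℝ) < ε / 2 ^ k := by positivity
  have h2k1 : ε / 2 ^ k ≤ 1 := by
    rw [div_le_one (by positivity)]
    exact hε1.trans (one_le_pow₀ (by norm_num))
  obtain ⟨K₀, hK₀⟩ := stepC hB θ hθ (A + k) (2 ^ k) Nat.one_le_two_pow (ε / 2 ^ k) h2k h2k1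
  refine ⟨K₀, fun K₁ => ?_⟩
  obtain ⟨n2, hn2⟩ := hK₀ K₁
  obtain ⟨n3, hn3⟩ := ev_L' 3
  refine ⟨max n2 n3, fun x hx y hy1 hy2 S hS hSr hSc g G hW => ?_⟩
  have b2 : n2 ≤ x := le_trans (le_max_left _ _) hx
  have b3 : n3 ≤ x := le_trans (le_max_right _ _) hx
  have hL3 := hn3 x b3
  have hV : V y = Vz y := rfl
  have hV0 : 0 < V y := by rw [hV]; exact Vz_pos y
  have hV1 : V y ≤ 1 := by rw [hV]; exact Vz_le_one y
  have hstep : ∀ (i : Fin k) (S' : Finset ℕ), S' ⊆ ((Icc 1 x).filter (fun s => ∀ i : Fin k, ∀ q : ℕ, q.Prime → q ≤ y →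
      ¬ q ∣ 2 ^ ((i : ℕ) + 1) * (s + 1) - 1)) → (x : ℝ) ≤ S'.card * Real.log x ^ (A + k) →
      (((Icc 1 (G i)).filter (fun m => ((S'.filter (PrC (primorial y) (g i) i m)).card : ℝ) <
        (1 - ε / 2 ^ k) * (S'.card / (V y * Real.log x)))).card : ℝ) ≤ ε / 2 ^ k * G i := by
    intro i S' hS' hc
    have h := hn2 x b2 y hy1 hy2 (2 ^ ((i : ℕ) + 1)) Nat.one_le_two_pow (Nat.pow_le_pow_right (by norm_num) i.isLt) S'
      (hS'.trans (filter_subset _ _)) (fun s hs => (mem_filter.1 (hS' hs)).2 i) hc (g i) (G i) (hW i).1 (hW i).2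
    have e1 : ∀ m : ℕ, (S'.filter (PrC (primorial y) (g i) i m)) =
        S'.filter (fun s => (2 ^ ((i : ℕ) + 1) * (s + 1) - 1 + primorial y * (g i + m)).Prime) := by
      intro m
      ext s
      rw [mem_filter, mem_filter]
      exact Iff.rfl
    rw [← hV] at h
    simp only [e1]
    exact h
  exact multiH (Real.log x) (V y) ((Icc 1 x).filter (fun s => ∀ i : Fin k, ∀ q : ℕ, q.Prime → q ≤ y →
      ¬ q ∣ 2 ^ ((i : ℕ) + 1) * (s + 1) - 1)) (x : ℝ) hL3 hV0 hV1 k A ε hε hε1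
    (fun i m => PrC (primorial y) (g i) i m) G hstep S (fun s hs => mem_filter.2 ⟨hS hs, hSr s hs⟩) hSc

end Pool.Agent.H43.MA.Fin
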