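import Pool.Agent.H43.MA.OutC

/-! # Project MA (helper43): chains with small defects, step by step -/

set_option autoImplicit false

namespace Pool.Agent.H43.MA.Fin

open Finset Filter

/-- total defects of the steps `m 0, m 1, …`: `tot m 0 = 0`, `tot m (i + 1) = 2 * tot m i + m i` -/
def tot (m : ℕ → ℕ) : ℕ → ℕ
  | 0 => 0
  | i + 1 => 2 * tot m i + m i

/-- extension of a vector by zeros -/
def ext0 {k : ℕ} (m : Fin k → ℕ) (i : ℕ) : ℕ := if h : i < k then m ⟨i, h⟩ else 0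

lemma ext0_fin {k : ℕ} (m : Fin k → ℕ) (i : Fin k) : ext0 m i = m i := by
  unfold ext0
  rw [dif_pos i.isLt]

lemma tot_le (m : ℕ → ℕ) (B : ℕ) (i : ℕ) (h : ∀ j < i, m j ≤ B) : tot m i + B ≤ 2 ^ i * B := by
  induction i with
  | zero => simp [tot]
  | succ i ih =>
    have h1 := ih (fun j hj => h j (by omega))
    have h2 := h i (by omega)
    rw [tot, pow_succ]
    nlinarith

lemma tot_add (m m' : ℕ → ℕ) (i : ℕ) : tot (fun j => m j + m' j) i = tot m i + tot m' i := by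
  induction i with
  | zero => simp [tot]
  | succ i ih => simp only [tot, ih]; ring

lemma tot_inj (m m' : ℕ → ℕ) (k : ℕ) (h : ∀ i < k, tot m (i + 1) = tot m' (i + 1)) : ∀ i < k, m i = m' i := by
  intro i hi
  have h1 : tot m i = tot m' i := by
    rcases Nat.eq_zero_or_pos i with h0 | h0
    · subst h0; rfl
    · have := h (i - 1) (by omega)
      rwa [show i - 1 + 1 = i by omega] at this
  have h2 := h i hi
  rw [tot, tot, h1] at h2
  omega

lemma tot_pos (m : ℕ → ℕ) (i : ℕ) (h : 1 ≤ m i) : 1 ≤ tot m (i + 1) := by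
  rw [tot]; omega

/-- there is a sequence of primes `q 0 = p`, `q (i + 1) = 2 * q i + 1 + M * d i`, `i < k` -/
def NearChain {k : ℕ} (M : ℕ) (d : Fin k → ℕ) (p : ℕ) : Prop :=
  ∃ q : ℕ → ℕ, q 0 = p ∧ (∀ i : Fin k, q (i + 1) = 2 * q i + 1 + M * d i) ∧ ∀ i ≤ k, (q i).Prime

lemma near_of {k : ℕ} (M : ℕ) (g m : Fin k → ℕ) (p : ℕ) (hp : p.Prime)
    (h : ∀ i : Fin k, PrC M (tot (ext0 g) (i + 1)) i (tot (ext0 m) (i + 1)) p) :
    NearChain M (fun i => g i + m i) p := by
  refine ⟨fun i => 2 ^ i * (p + 1) - 1 + M * (tot (ext0 g) i + tot (ext0 m) i), ?_, ?_, ?_⟩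
  · simp [tot]
  · intro i
    have h1 : 1 ≤ 2 ^ (i : ℕ) * (p + 1) := Nat.succ_le_of_lt (by positivity)
    simp only [tot, pow_succ, ext0_fin]
    have h2 : 2 ^ (i : ℕ) * 2 * (p + 1) = 2 * (2 ^ (i : ℕ) * (p + 1)) := by ring
    rw [h2]
    obtain ⟨t, ht⟩ := Nat.exists_eq_add_of_le h1
    rw [ht]
    have h3 : 2 * (1 + t) - 1 = 2 * t + 1 := by omega
    have h4 : 1 + t - 1 = t := by omega
    rw [h3, h4]
    ring
  · intro i hi
    rcases Nat.eq_zero_or_pos i with h0 | h0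
    · subst h0
      simpa [tot] using hp
    · have h1 := h ⟨i - 1, by omega⟩
      unfold PrC at h1
      simp only at h1
      rw [show i - 1 + 1 = i by omega] at h1
      exact h1

open Classical in
theorem outD (hB : S_BILX) (θ : ℝ) (hθ : 1 / 3 < θ) (k A : ℕ) (ε : ℝ) (hε : 0 < ε) (hε1 : ε ≤ 1) : ∃ K₀ : ℕ, ∀ K₁ : ℕ,
    ∃ x₀ : ℕ, ∀ x : ℕ, x₀ ≤ x →
    ∀ y : ℕ, K₀ * Real.log (Real.log x) ≤ y → y ≤ K₁ * Real.log (Real.log x) →
    ∀ S : Finset ℕ, S ⊆ Icc 1 x → (∀ s ∈ S, s.Prime) →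
      (∀ s ∈ S, ∀ i : Fin k, ∀ q : ℕ, q.Prime → q ≤ y → ¬ q ∣ 2 ^ ((i : ℕ) + 1) * (s + 1) - 1) →
      (x : ℝ) ≤ S.card * Real.log x ^ A →
    ∀ (g : Fin k → ℕ) (G : ℕ), (∀ i, 2 ^ k * (primorial y * (g i + G)) ≤ x) → (x : ℝ) ^ θ ≤ primorial y * G →
    (((Fintype.piFinset fun _ : Fin k => Icc 1 G).filter (fun m =>
      ((S.filter (fun s => NearChain (primorial y) (fun i => g i + m i) s)).card : ℝ) <
        (1 - ε) * (S.card / (V y * Real.log x) ^ k))).card : ℝ) ≤ ε * (G : ℝ) ^ k := by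
  have h2k : (0 : ℝ) < ε / 2 ^ (k * k) := by positivity
  have h2k1 : ε / 2 ^ (k * k) ≤ 1 := by
    rw [div_le_one (by positivity)]
    exact hε1.trans (one_le_pow₀ (by norm_num))
  have h2k2 : ε / 2 ^ (k * k) ≤ ε := by
    apply div_le_self hε.le
    exact one_le_pow₀ (by norm_num)
  obtain ⟨K₀, hK₀⟩ := outC hB θ hθ k A (ε / 2 ^ (k * k)) h2k h2k1
  refine ⟨K₀, fun K₁ => ?_⟩
  obtain ⟨n2, hn2⟩ := hK₀ K₁
  refine ⟨n2, fun x hx y hy1 hy2 S hS hSp hSr hSc g G hW1 hW2 => ?_⟩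
  set M := primorial y with hM
  have hV0 : 0 < V y := Pool.Agent.H373R2.T7.Vz_pos y
  have h := hn2 x hx y hy1 hy2 S hS hSr hSc (fun i => tot (ext0 g) (i + 1)) (fun _ => 2 ^ k * G) (by
    intro i
    have hpk : (2 : ℕ) ^ ((i : ℕ) + 1) ≤ 2 ^ k := Nat.pow_le_pow_right (by norm_num) i.isLt
    constructor
    · have : Nonempty (Fin k) := ⟨i⟩
      obtain ⟨j, -, hj⟩ := Finset.exists_mem_eq_sup (univ : Finset (Fin k)) univ_nonempty g
      have h1 := tot_le (ext0 g) (g j) (i + 1) (by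
        intro l hl
        unfold ext0
        rw [dif_pos (by omega), ← hj]
        exact le_sup (f := g) (mem_univ _))
      have h2 : 2 ^ ((i : ℕ) + 1) * g j ≤ 2 ^ k * g j := Nat.mul_le_mul_right _ hpk
      have h3 := hW1 j
      calc primorial y * (tot (ext0 g) (i + 1) + 2 ^ k * G) ≤ primorial y * (2 ^ k * g j + 2 ^ k * G) := by
            apply Nat.mul_le_mul_left
            omega
        _ = 2 ^ k * (primorial y * (g j + G)) := by ring
        _ ≤ x := h3
    · have h1 : (primorial y : ℝ) * G ≤ primorial y * ((2 ^ k * G : ℕ) : ℝ) := by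
        apply mul_le_mul_of_nonneg_left _ (Nat.cast_nonneg _)
        push_cast
        have h2 : (1 : ℝ) ≤ 2 ^ k := one_le_pow₀ (by norm_num)
        have h3 : (0 : ℝ) ≤ G := Nat.cast_nonneg _
        nlinarith
      exact hW2.trans h1)
  refine le_trans ?_ (h.trans (le_of_eq ?_))
  · rw [Nat.cast_le]
    refine card_le_card_of_injOn (fun m => fun i : Fin k => tot (ext0 m) (i + 1)) ?_ ?_
    · intro m hm
      rw [mem_coe] at hm ⊢
      rw [mem_filter, Fintype.mem_piFinset] at hm ⊢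
      obtain ⟨hm1, hm2⟩ := hm
      refine ⟨?_, ?_⟩
      · intro i
        have h1 := hm1 i
        rw [mem_Icc] at h1 ⊢
        refine ⟨tot_pos _ _ (by rw [ext0_fin]; exact h1.1), ?_⟩
        have h2 := tot_le (ext0 m) G (i + 1) (by
          intro j hj
          have := hm1 ⟨j, by omega⟩
          rw [mem_Icc] at this
          unfold ext0
          rw [dif_pos (by omega)]
          exact this.2)
        have h3 : 2 ^ ((i : ℕ) + 1) * G ≤ 2 ^ k * G := Nat.mul_le_mul_right _ (Nat.pow_le_pow_right (by norm_num) i.isLt)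
        show tot (ext0 m) (i + 1) ≤ 2 ^ k * G
        omega
      · refine lt_of_le_of_lt ?_ (lt_of_lt_of_le hm2 ?_)
        · rw [Nat.cast_le]
          apply card_le_card
          intro s hs
          rw [mem_filter] at hs ⊢
          exact ⟨hs.1, near_of _ _ _ _ (hSp s hs.1) hs.2⟩
        · have hZ : (0 : ℝ) ≤ (S.card : ℝ) / (V y * Real.log x) ^ k := by
            apply div_nonneg (Nat.cast_nonneg _)
            apply pow_nonneg
            exact mul_nonneg hV0.le (Real.log_natCast_nonneg x)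
          exact mul_le_mul_of_nonneg_right (by linarith) hZ
    · intro m _ m' _ hmm
      funext i
      have h1 := tot_inj (ext0 m) (ext0 m') k (fun j hj => congrFun hmm ⟨j, hj⟩) i i.isLt
      rwa [ext0_fin, ext0_fin] at h1
  · rw [prod_const, card_univ, Fintype.card_fin]
    push_cast
    rw [mul_pow, ← pow_mul]
    field_simp

end Pool.Agent.H43.MA.Fin
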