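import Pool.Agent.H43.MA.Stm

/-! # MA-PARZ: Parseval for trigonometric polynomials -/

set_option autoImplicit false

namespace Pool.Agent.H43.MA.PARZ

open Finset

theorem ee_add (s t : ℝ) : ee (s + t) = ee s * ee t := by
  simp only [ee]
  rw [← Complex.exp_add]
  congr 1
  push_cast
  ring

theorem norm_ee (t : ℝ) : ‖ee t‖ = 1 := by
  simp only [ee]
  exact Complex.norm_exp_ofReal_mul_I _

theorem conj_ee (t : ℝ) : (starRingEnd ℂ) (ee t) = ee (-t) := by
  simp only [ee]
  rw [← Complex.exp_conj]
  congr 1
  rw [map_mul, Complex.conj_ofReal, Complex.conj_I]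
  push_cast
  ring

theorem continuous_ee : Continuous ee := by
  unfold ee
  fun_prop

theorem int_ee (k : ℤ) : ∫ β in (0 : ℝ)..1, ee (β * k) = if k = 0 then 1 else 0 := by
  by_cases hk : k = 0
  · subst hk
    simp [ee]
  · rw [if_neg hk]
    have hc : (2 * Real.pi * k * Complex.I : ℂ) ≠ 0 := by
      simp [Real.pi_ne_zero, hk]
    have h1 : ∀ β : ℝ, ee (β * k) = Complex.exp ((2 * Real.pi * k * Complex.I : ℂ) * β) := by
      intro β
      simp only [ee]
      congr 1
      push_cast
      ring
    simp_rw [h1]
    rw [integral_exp_mul_complex hc]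
    have h2 : Complex.exp ((2 * Real.pi * k * Complex.I : ℂ) * (1 : ℝ)) = 1 := by
      have := Complex.exp_int_mul_two_pi_mul_I k
      rw [← this]
      congr 1
      push_cast
      ring
    rw [h2]
    simp

theorem main : S_PARZ := by
  intro s a
  have h0 : ∀ β : ℝ, (((‖∑ n ∈ s, a n * ee (β * n)‖ ^ 2 : ℝ)) : ℂ) =
      ∑ n ∈ s, ∑ m ∈ s, (a n * (starRingEnd ℂ) (a m)) * ee (β * ((n - m : ℤ) : ℝ)) := by
    intro β
    rw [Complex.ofReal_pow, ← Complex.mul_conj', map_sum, Finset.sum_mul_sum]
    refine Finset.sum_congr rfl fun n _ => Finset.sum_congr rfl fun m _ => ?_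
    rw [map_mul, conj_ee]
    have : ee (β * ((n - m : ℤ) : ℝ)) = ee (β * n) * ee (-(β * m)) := by
      rw [← ee_add]
      congr 1
      push_cast
      ring
    rw [this]
    ring
  have h1 : ((∫ β in (0 : ℝ)..1, ‖∑ n ∈ s, a n * ee (β * n)‖ ^ 2 : ℝ) : ℂ) =
      ((∑ n ∈ s, ‖a n‖ ^ 2 : ℝ) : ℂ) := by
    rw [← intervalIntegral.integral_ofReal]
    simp_rw [h0]
    have hint : ∀ n m : ℤ, IntervalIntegrable
        (fun β : ℝ => (a n * (starRingEnd ℂ) (a m)) * ee (β * ((n - m : ℤ) : ℝ)))
        MeasureTheory.volume 0 1 := by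
      intro n m
      apply Continuous.intervalIntegrable
      exact continuous_const.mul (continuous_ee.comp (continuous_id.mul continuous_const))
    rw [intervalIntegral.integral_finsetSum]
    · rw [Complex.ofReal_sum]
      refine Finset.sum_congr rfl fun n hn => ?_
      rw [intervalIntegral.integral_finsetSum]
      · simp_rw [intervalIntegral.integral_const_mul, int_ee]
        rw [Finset.sum_eq_single n]
        · rw [sub_self, if_pos rfl, mul_one, Complex.mul_conj']
          push_cast
          rfl
        · intro m _ hm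
          rw [if_neg (by rw [sub_eq_zero]; exact hm.symm), mul_zero]
        · intro h; exact absurd hn h
      · intro m _
        exact hint n m
    · intro n _
      apply Continuous.intervalIntegrable
      apply continuous_finsetSum
      intro m _
      exact continuous_const.mul (continuous_ee.comp (continuous_id.mul continuous_const))
  exact_mod_cast h1

end Pool.Agent.H43.MA.PARZ
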