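import Pool.Agent.H43.MA.Stm3

/-! # Project MA, part CH: a finite product -/

set_option autoImplicit false

namespace Pool.Agent.H43.MA.PRD

open Finset Pool.Agent.H43.MA

theorem pow_le {x : ℝ} {n : ℕ} (hx0 : 0 ≤ x) (hx1 : x ≤ 1) (hn : (n : ℝ) * x ≤ 1) :
    (1 - x) ^ n ≤ 1 - n * x / 2 := by
  have h1 : 1 + (n : ℝ) * x ≤ (1 + x) ^ n := one_add_mul_le_pow (by linarith) n
  have h2 : (1 - x) ^ n * (1 + x) ^ n ≤ 1 := by
    rw [← mul_pow]
    exact pow_le_one₀ (by nlinarith) (by nlinarith)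
  have h3 : 0 ≤ (1 - x) ^ n := pow_nonneg (by linarith) n
  have h4 : (1 - x) ^ n * (1 + (n : ℝ) * x) ≤ 1 := (mul_le_mul_of_nonneg_left h1 h3).trans h2
  have hnx : 0 ≤ (n : ℝ) * x := by positivity
  have h5 : 1 ≤ (1 - (n : ℝ) * x / 2) * (1 + (n : ℝ) * x) := by nlinarith
  have h6 : 0 < 1 + (n : ℝ) * x := by linarith
  exact le_of_mul_le_mul_right (h4.trans h5) h6

theorem factor (k q : ℕ) (hq : 1 ≤ q) :
    (1 - 1 / (q : ℝ)) ^ (2 * k + 2) * q ≤
      (if q ≤ 2 * k + 2 then (q : ℝ) else 1) * ((max 1 (q - (k + 1)) : ℕ) : ℝ) := by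
  have hq0 : (0 : ℝ) < q := by exact_mod_cast hq
  have hq1 : (1 : ℝ) ≤ q := by exact_mod_cast hq
  have hx0 : 0 ≤ 1 / (q : ℝ) := by positivity
  have hx1 : 1 / (q : ℝ) ≤ 1 := by rw [div_le_one hq0]; exact hq1
  split_ifs with h
  · have h1 : (1 - 1 / (q : ℝ)) ^ (2 * k + 2) ≤ 1 := pow_le_one₀ (by linarith) (by linarith)
    have h2 : (1 : ℝ) ≤ ((max 1 (q - (k + 1)) : ℕ) : ℝ) := by exact_mod_cast le_max_left _ _
    calc (1 - 1 / (q : ℝ)) ^ (2 * k + 2) * q ≤ 1 * q := mul_le_mul_of_nonneg_right h1 hq0.le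
      _ = q * 1 := by ring
      _ ≤ _ := mul_le_mul_of_nonneg_left h2 hq0.le
  · rw [one_mul]
    rw [not_le] at h
    have h1 := pow_le (n := 2 * k + 2) hx0 hx1 (by
      rw [mul_one_div, div_le_one hq0]
      exact_mod_cast h.le)
    have h2 : (1 - 1 / (q : ℝ)) ^ (2 * k + 2) * q ≤ (q : ℝ) - (k + 1) := by
      refine (mul_le_mul_of_nonneg_right h1 hq0.le).trans (le_of_eq ?_)
      push_cast
      field_simp
    refine h2.trans ?_
    have h3 : ((q - (k + 1) : ℕ) : ℝ) = (q : ℝ) - (k + 1) := by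
      rw [Nat.cast_sub (by omega)]
      push_cast
      ring
    rw [← h3]
    exact_mod_cast le_max_right _ _

theorem main : S_PRD := by
  classical
  intro k
  set M : ℝ := ∏ q ∈ Icc 1 (2 * k + 2), (q : ℝ) with hM
  have hM0 : 0 < M := Finset.prod_pos fun q hq => by
    rw [Finset.mem_Icc] at hq
    exact_mod_cast hq.1
  refine ⟨1 / M, by positivity, fun y => ?_⟩
  set P := (Icc 1 y).filter Nat.Prime with hP
  have hprim : ((primorial y : ℕ) : ℝ) = ∏ q ∈ P, (q : ℝ) := by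
    unfold primorial
    rw [Nat.cast_prod]
    refine Finset.prod_congr ?_ fun _ _ => rfl
    ext q
    simp only [hP, Finset.mem_filter, Finset.mem_range, Finset.mem_Icc]
    constructor
    · rintro ⟨h1, h2⟩
      exact ⟨⟨h2.one_lt.le, by omega⟩, h2⟩
    · rintro ⟨⟨h1, h2⟩, h3⟩
      exact ⟨by omega, h3⟩
  have h1 : V y ^ (2 * k + 2) * (primorial y : ℕ) ≤ M * ∏ q ∈ P, ((max 1 (q - (k + 1)) : ℕ) : ℝ) := by
    rw [hprim]
    unfold V
    rw [← Finset.prod_pow, ← Finset.prod_mul_distrib]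
    have hfac : ∀ q ∈ P, 1 ≤ q := fun q hq => (Finset.mem_Icc.1 (Finset.mem_filter.1 hq).1).1
    calc ∏ q ∈ P, ((1 - 1 / (q : ℝ)) ^ (2 * k + 2) * q)
        ≤ ∏ q ∈ P, ((if q ≤ 2 * k + 2 then (q : ℝ) else 1) * ((max 1 (q - (k + 1)) : ℕ) : ℝ)) := by
          refine Finset.prod_le_prod (fun q hq => ?_) fun q hq => factor k q (hfac q hq)
          have hq1 : (1 : ℝ) ≤ q := by exact_mod_cast hfac q hq
          have : 1 / (q : ℝ) ≤ 1 := by rw [div_le_one (by linarith)]; exact hq1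
          exact mul_nonneg (pow_nonneg (by linarith) _) (by linarith)
      _ = (∏ q ∈ P, (if q ≤ 2 * k + 2 then (q : ℝ) else 1)) *
            ∏ q ∈ P, ((max 1 (q - (k + 1)) : ℕ) : ℝ) := Finset.prod_mul_distrib
      _ ≤ M * ∏ q ∈ P, ((max 1 (q - (k + 1)) : ℕ) : ℝ) := by
          refine mul_le_mul_of_nonneg_right ?_ (Finset.prod_nonneg fun _ _ => Nat.cast_nonneg _)
          rw [← Finset.prod_filter]
          have hsub : P.filter (fun q => q ≤ 2 * k + 2) ⊆ Icc 1 (2 * k + 2) := by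
            intro q hq
            rw [Finset.mem_filter] at hq
            exact Finset.mem_Icc.2 ⟨hfac q hq.1, hq.2⟩
          rw [hM, ← Finset.prod_sdiff hsub]
          have h2 : (1 : ℝ) ≤ ∏ q ∈ Icc 1 (2 * k + 2) \ P.filter (fun q => q ≤ 2 * k + 2), (q : ℝ) :=
            Finset.prod_induction _ (fun x => 1 ≤ x)
              (fun a b ha hb => one_le_mul_of_one_le_of_one_le ha hb) le_rfl (fun q hq => by
                have := (Finset.mem_Icc.1 (Finset.mem_sdiff.1 hq).1).1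
                exact_mod_cast this)
          exact le_mul_of_one_le_left (Finset.prod_nonneg fun q _ => Nat.cast_nonneg q) h2
  calc 1 / M * V y ^ (2 * k + 2) * (primorial y : ℕ)
      = 1 / M * (V y ^ (2 * k + 2) * (primorial y : ℕ)) := by ring
    _ ≤ 1 / M * (M * ∏ q ∈ P, ((max 1 (q - (k + 1)) : ℕ) : ℝ)) :=
        mul_le_mul_of_nonneg_left h1 (by positivity)
    _ = _ := by field_simp

end Pool.Agent.H43.MA.PRD
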