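import Mathlib

/-!
# Project MA (helper43): exponential sums over primes, averaged over short intervals of length `X ^ (1/3 + ε)`

Definitions and statements (light part: only Mathlib). Each statement has a complete proof in its docstring. The
statements named there may be used as hypotheses: a stub `S_X (from S_Y, S_Z)` is proved by
`theorem main : S_Y → S_Z → S_X`. Put the proof of `S_XXX` in `Pool/Agent/H43/MA/XXX.lean`, namespace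
`Pool.Agent.H43.MA.XXX`, theorem `main`.
-/

set_option autoImplicit false

namespace Pool.Agent.H43.MA

open Finset

abbrev AF := ArithmeticFunction ℝ

/-- `e(t) = exp (2 π i t)` -/
noncomputable def ee (t : ℝ) : ℂ := Complex.exp ((2 * Real.pi * t : ℝ) * Complex.I)

/-- distance to the nearest integer -/
noncomputable def dn (t : ℝ) : ℝ := |t - round t|

/-- `min (M, 1 / (2 ‖t‖))` -/
noncomputable def mn (M : ℕ) (t : ℝ) : ℝ := if 2 * dn t * M ≤ 1 then (M : ℝ) else 1 / (2 * dn t)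

/-- the window `(x - H, x]` of the sum of `c n e(α n)`, `n ≤ N` -/
noncomputable def Wn (H N : ℕ) (α : ℝ) (c : ℕ → ℝ) (x : ℕ) : ℂ :=
  ∑ n ∈ (Icc 1 N).filter (fun n => n ≤ x ∧ x < n + H), ((c n : ℝ) : ℂ) * ee (α * n)

/-- mean square of the windows -/
noncomputable def WS (H N : ℕ) (α : ℝ) (c : ℕ → ℝ) : ℝ := ∑ x ∈ range (N + H), ‖Wn H N α c x‖ ^ 2

/-- dyadic piece of the Moebius function -/
noncomputable def mu (d : ℕ) : AF :=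
  ⟨fun n => if 2 ^ d ≤ n ∧ n < 2 ^ (d + 1) then (ArithmeticFunction.moebius n : ℝ) else 0, by simp⟩

/-- dyadic piece of `1` (`v = 0`) or `log` (`v ≠ 0`) -/
noncomputable def sm (v d : ℕ) : AF :=
  ⟨fun n => if 2 ^ d ≤ n ∧ n < 2 ^ (d + 1) then (if v = 0 then 1 else Real.log n) else 0, by simp⟩

/-- the unit mass at `m` -/
noncomputable def sg (m : ℕ) : AF := ⟨fun n => if n = m ∧ n ≠ 0 then 1 else 0, by simp⟩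

/-- the factors of a box -/
noncomputable def fc (i : Fin 8) (d : ℕ) : AF := if i.val < 4 then mu d else if i.val < 7 then sm 0 d else sm 1 d

/-- boxes -/
noncomputable def bx (d : Fin 8 → ℕ) : AF := ∏ i, fc i (d i)

/-- minor arcs -/
def Mi (P H : ℕ) (α : ℝ) : Prop :=
  ∃ (a : ℤ) (q : ℕ), IsCoprime a (q : ℤ) ∧ P ≤ q ∧ q * P ≤ H ∧ |α - a / q| ≤ P / (q * H)

/-- integers without prime factors up to `z` -/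
noncomputable def rg (z n : ℕ) : ℝ := open Classical in if ∀ p : ℕ, p.Prime → p ≤ z → ¬ p ∣ n then 1 else 0

/-- the kernel at the fractions with denominator `r` -/
noncomputable def gr (D D2 r : ℕ) (u : ℝ) : ℝ := (D2 : ℝ) ^ 2 / (1 + (D * D2 * dn u / r) ^ 2)

/-- **MNB** basic facts. `dn` is continuous with period 1 and even, `dn t ≤ 1/2`, `dn t ≤ |t - n|` for all integers `n`;
`mn M t = min (M, 1/(2 dn t))` (for `dn t = 0` it is `M`): continuous, period 1, nonnegative, `≤ M`, monotone in `M`. -/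
def S_MNB : Prop := Continuous dn ∧ (∀ t, dn (t + 1) = dn t) ∧ (∀ t, dn (-t) = dn t) ∧ (∀ t, dn t ≤ 1 / 2) ∧ (∀ t, 0 ≤ dn t) ∧
  (∀ (t : ℝ) (n : ℤ), dn t ≤ |t - n|) ∧ (∀ s t : ℝ, dn (s + t) ≤ dn s + dn t) ∧
  (∀ M, Continuous (mn M)) ∧ (∀ M t, mn M (t + 1) = mn M t) ∧
  (∀ M t, mn M (-t) = mn M t) ∧ (∀ M t, 0 ≤ mn M t) ∧ (∀ M t, mn M t ≤ M) ∧ (∀ M M' t, M ≤ M' → mn M t ≤ mn M' t) ∧
  (∀ M t, 0 < dn t → mn M t ≤ 1 / (2 * dn t)) ∧ ∀ (M : ℕ) (t b : ℝ), b ≤ M → (dn t = 0 ∨ b ≤ 1 / (2 * dn t)) → b ≤ mn M t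

/-- **GEO** geometric sums (from MNB). (1) `|∑_{n ∈ [A, A+L)} e(tn)| = |sin (π t L) / sin (π t)| ≤ min (L, 1/(2‖t‖))` because
`|sin (π t)| = sin (π ‖t‖) ≥ 2 ‖t‖`. (2) Abel summation: for a monotone weight with values in `[0, B]` the sum is at most
`2 B` times the largest sum of `e(tn)` over a subinterval (`B` for nonincreasing weights, write a nondecreasing weight as
`ω(last) - (ω(last) - ω n)`). -/
def S_GEO : Prop := (∀ (t : ℝ) (A L M : ℕ), L ≤ M → ‖∑ n ∈ Ico A (A + L), ee (t * n)‖ ≤ mn M t) ∧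
  ∀ (t B : ℝ) (A L M : ℕ) (ω : ℕ → ℝ), L ≤ M → 0 ≤ B → (∀ n ∈ Ico A (A + L), 0 ≤ ω n ∧ ω n ≤ B) →
    ((∀ n ∈ Ico A (A + L), ∀ m ∈ Ico A (A + L), n ≤ m → ω n ≤ ω m) ∨
      (∀ n ∈ Ico A (A + L), ∀ m ∈ Ico A (A + L), n ≤ m → ω m ≤ ω n)) →
    ‖∑ n ∈ Ico A (A + L), ((ω n : ℝ) : ℂ) * ee (t * n)‖ ≤ 2 * B * mn M t

/-- **PARZ** Parseval for trigonometric polynomials: expand the square, `∫_0^1 e(β k) dβ = 0` for integers `k ≠ 0`. -/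
def S_PARZ : Prop := ∀ (s : Finset ℤ) (a : ℤ → ℂ),
  ∫ β in (0 : ℝ)..1, ‖∑ n ∈ s, a n * ee (β * n)‖ ^ 2 = ∑ n ∈ s, ‖a n‖ ^ 2

/-- **PARS** (from PARZ). `∑_{x < N + H} Wn(x) e(βx) = (∑_{n ≤ N} c n e((α + β) n)) (∑_{h < H} e(βh))` (put `x = n + h`), and
Parseval. -/
def S_PARS : Prop := ∀ (H N : ℕ) (α : ℝ) (c : ℕ → ℝ), WS H N α c =
  ∫ β in (0 : ℝ)..1, ‖∑ n ∈ Icc 1 N, ((c n : ℝ) : ℂ) * ee ((α + β) * n)‖ ^ 2 * ‖∑ h ∈ range H, ee (β * h)‖ ^ 2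

/-- **WSB** Cauchy-Schwarz. (2): a window has at most `H` elements `n` and every `n` lies in `H` windows. -/
def S_WSB : Prop := (∀ (H N : ℕ) (α : ℝ) (ι : Type) (s : Finset ι) (c : ι → ℕ → ℝ),
    WS H N α (fun n => ∑ i ∈ s, c i n) ≤ s.card * ∑ i ∈ s, WS H N α (c i)) ∧
  (∀ (H N : ℕ) (α : ℝ) (c : ℕ → ℝ), WS H N α c ≤ H ^ 2 * ∑ n ∈ Icc 1 N, c n ^ 2) ∧
  (∀ (H N : ℕ) (α a : ℝ) (c : ℕ → ℝ), WS H N α (fun n => a * c n) = a ^ 2 * WS H N α c) ∧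
  ∀ (H N : ℕ) (α : ℝ) (c : ℕ → ℝ), 0 ≤ WS H N α c

/-- **TII** bilinear sums (from MNB, GEO). Proof. As `M' R ≤ N`, `Wn(x) = ∑_m f(m) ∑_r g(r) e(α m r) 1[m r ≤ x < m r + H]`, with
`m ∈ [M, M']`, `1 ≤ r ≤ R`. Cauchy-Schwarz over `m`: `|Wn(x)|² ≤ (∑ f²) ∑_{m ∈ [M, M']} |∑_r g(r) e(α m r) 1[…]|²`. Sum over `x`: the
number of `x` with `m r ≤ x < m r + H`, `m r' ≤ x < m r' + H` is `(H - m |r - r'|)_+` (all such `x` are `< N + H`), so the sum is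
`∑_{r, r'} g(r) g(r') ∑_{m ∈ [M, M']} e(α m (r - r')) (H - m |r - r'|)_+`. For `k = |r - r'|` the weight
`m ↦ (H - m k)_+` is nonincreasing with values in `[0, H]`, and zero if `k > H / M`; the inner sum is
`≤ 2 H mn M' (α k)` in absolute value by GEO (`M' - M + 1 ≤ M'` terms; `mn` is even). Finally `∑_{r, r' : |r - r'| = k} |g(r) g(r')|
≤ 2 ∑ g²`. -/
def S_TII : Prop := ∀ (H N M M' R : ℕ) (α : ℝ) (f g : AF), 1 ≤ M → (∀ n, f n ≠ 0 → M ≤ n ∧ n ≤ M') →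
  (∀ n, g n ≠ 0 → n ≤ R) → M' * R ≤ N →
  WS H N α (fun n => (f * g) n) ≤ 4 * H * (∑ n ∈ Icc 1 M', f n ^ 2) * (∑ n ∈ Icc 1 R, g n ^ 2) *
    ∑ k ∈ range (H / M + 1), mn M' (α * k)

/-- **SMN** Vinogradov's lemma (classical; perhaps in the library). (1) Split `[0, K]` into `K/q + 1` blocks of length `q`;
in a block `α k = α k₀ + a j/q + O(1/q)`, so apart from at most `C` values of `j` the distances `‖αk‖` are at least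
`c i / q`, each `i ≥ 1` at most `C` times. (2) `‖a k/q‖ ≥ 1/q` as `q ∤ k`, `|α k - a k/q| ≤ k/q² ≤ 1/(2q)`. (3) From (2): the
residues `a k` are different, so apart from a bounded number of `k` (each contributing at most `q`) the distances are at
least `c i/q`, each `i` at most twice. -/
def S_SMN : Prop := ∃ C : ℝ, 1 ≤ C ∧ ∀ (α : ℝ) (a : ℤ) (q : ℕ), 1 ≤ q → IsCoprime a (q : ℤ) → |α - a / q| ≤ 1 / (q : ℝ) ^ 2 →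
  (∀ K M : ℕ, ∑ k ∈ range (K + 1), mn M (α * k) ≤ C * (K / q + 1) * (M + q * (1 + Real.log q))) ∧
  (∀ k : ℕ, 1 ≤ k → 2 * k ≤ q → 1 / (2 * q) ≤ dn (α * k)) ∧
  (∀ K : ℕ, 2 * K ≤ q → ∑ k ∈ Icc 1 K, 1 / (2 * dn (α * k)) ≤ C * q * (1 + Real.log q))

/-- **TIS** one smooth variable (from MNB, GEO, SMN). `Wn(x) = ∑_{w ≤ W} f(w) ∑_m sm v e m e(α w m) 1[w m ≤ x < w m + H]`; the
`m` of the inner sum form an interval inside `[2^e, 2^(e+1))`, the weight is monotone with values in `[0, 1 + log N]`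
(if `W ≥ 1` then `m ≤ 2^(e+1) ≤ N`), so by GEO it is at most `2 (1 + log N) · 1/(2 dn (α w)) ≤ 2 (1 + log N) q` by SMN (2). -/
def S_TIS : Prop := ∀ (H N W v e q : ℕ) (α : ℝ) (a : ℤ) (f : AF), 1 ≤ q → IsCoprime a (q : ℤ) →
  |α - a / q| ≤ 1 / (q : ℝ) ^ 2 → 2 * W ≤ q → (∀ n, f n ≠ 0 → n ≤ W) → W * 2 ^ (e + 1) ≤ N →
  WS H N α (fun n => (f * sm v e) n) ≤ (N + H) * (2 * (1 + Real.log N) * q * ∑ n ∈ Icc 1 W, |f n|) ^ 2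

/-- **DIR** (from MNB). Proof. Dirichlet: `|γ - b/r| ≤ 1/(8 D r)`, `1 ≤ r ≤ 8 D`, `(b, r) = 1`
(`Real.exists_int_int_abs_mul_sub_le` or the rational version); `η = |γ - b/r|`, so `dn (r γ) = r η ≤ 1/(8D)`. For
`D ≤ d < 2D`: `d η < 1/(4r)`. If `r ∤ d` then `dn (γ d) ≥ ‖b d/r‖ - 1/(4r) ≥ (3/4) ‖b d / r‖`, and over a block of `r` consecutive
`d` the sum of `1/(2 · (3/4) ‖b d/r‖)` over `r ∤ d` is `≤ C r (1 + log r)`; there are at most `D/r + 1` blocks, total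
`≤ C (D + r)(1 + log r) ≤ C' D (1 + log D)`. If `r ∣ d` then `dn (γ d) = d η ≥ D η` (as `dη < 1/2`), the term is `≤ min (D2, 1/(2Dη))`;
there is no such `d` if `r ≥ 2D`, and at most `D/r + 1 ≤ 3 D/r` if `r < 2D`. Finally `min (D2, 1/(2Dη))² ≤ 2 D2²/(1 + (D D2 η)²)`
and `(x + y)² ≤ 2x² + 2y²`. -/
def S_DIR : Prop := ∃ C : ℝ, 1 ≤ C ∧ ∀ (D D2 : ℕ) (γ : ℝ), 1 ≤ D → 1 ≤ D2 → ∃ r : ℕ, 1 ≤ r ∧ dn (r * γ) ≤ 1 / (8 * D) ∧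
  (∑ d ∈ Ico D (2 * D), mn D2 (γ * d)) ^ 2 ≤
    C * ((if r < 2 * D then ((D : ℝ) / r) ^ 2 * gr D D2 r (r * γ) else 0) + (D * (1 + Real.log D)) ^ 2)

/-- **CELL** (from MNB). (1) On `[j/k, (j+1)/k]` one has `dn β ≥ min (j, k - 1 - j)/k`, so
`mn H β ≤ min (H, k/(2 min (j, k-1-j)))`; and `∫_{j/k}^{(j+1)/k} g (k (α + β)) dβ = (1/k) ∫_0^1 g` by periodicity. Sum over `j`:
at most 4 values of `j` with `min (j, k-1-j) ≤ 1`... use `H` for `min = 0`, and `∑_{i ≥ 1} min (H, k/(2i))² ≤ ∑ min (H², k²/(4 i²)) ≤ C H k`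
(the terms `i ≤ k/H` give `H k`, the others `k² · H/k`). (2) periodicity. (3) `(mn H β)² ≤ min (H², 1/(4β²))` on `[0, 1/2]` and
symmetry. -/
def S_CELL : Prop := ∃ C : ℝ, 1 ≤ C ∧ (∀ (H k : ℕ) (α : ℝ) (g : ℝ → ℝ), 1 ≤ H → 1 ≤ k → Continuous g → (∀ u, 0 ≤ g u) →
    (∀ u, g (u + 1) = g u) →
    ∫ β in (0 : ℝ)..1, mn H β ^ 2 * g (k * (α + β)) ≤ C * ((H : ℝ) ^ 2 / k + H) * ∫ u in (0 : ℝ)..1, g u) ∧
  (∀ (k : ℕ) (α : ℝ) (g : ℝ → ℝ), 1 ≤ k → Continuous g → (∀ u, g (u + 1) = g u) →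
    ∫ β in (0 : ℝ)..1, g (k * (α + β)) = ∫ u in (0 : ℝ)..1, g u) ∧
  ∀ H : ℕ, ∫ β in (0 : ℝ)..1, mn H β ^ 2 ≤ 2 * H

/-- **GI** (from MNB). `dn u = u` on `[0, 1/2]` and `1 - u` on `[1/2, 1]`; the integral is
`2 ∫_0^{1/2} D2²/(1 + (D D2 u/r)²) du = 2 D2² · r/(D D2) · arctan (D D2/(2r)) ≤ π D2 r/D`. -/
def S_GI : Prop := ∀ D D2 r : ℕ, 1 ≤ D → 1 ≤ D2 → 1 ≤ r → Continuous (gr D D2 r) ∧ (∀ u, 0 ≤ gr D D2 r u) ∧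
  (∀ u, gr D D2 r (u + 1) = gr D D2 r u) ∧ ∫ u in (0 : ℝ)..1, gr D D2 r u ≤ Real.pi * (D2 * r / D)

/-- **D2I** the integral for two smooth variables (from MNB, DIR, CELL, GI). Proof. Put `γ = m (α + β)` in DIR. For every `β` there
is `r ≥ 1` with `dn (r m (α + β)) ≤ 1/(8D)` and `F² ≤ C ([r < 2D] (D/r)² gr D D2 r (r m (α + β)) + D² (1 + log D)²)`.
If `r < Q1` then `mn H β ≤ 2 q r m`: let `c = round (r m (α + β))`, `k = round β`. `c/(rm) - k ≠ a/q` because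
`1 ≤ r m < q` and `(a, q) = 1`, so `|a/q + k - c/(rm)| ≥ 1/(q r m)`, and
`dn β = |β - k| ≥ 1/(qrm) - |α - a/q| - |α + β - c/(rm)| ≥ 1/(qrm) - Q0/(qH) - 1/(8 D r m) ≥ 1/(4 q r m)` as `2 Q1 m Q0 ≤ H`, `q ≤ 2D`.
Hence for all `β`, summing over all possible `r`,
`(mn H β)² F² ≤ C (∑_{r < Q1} (2qrm)² (D/r)² gr D D2 r (r m (α + β)) + ∑_{Q1 ≤ r < 2D} (mn H β)² (D/r)² gr D D2 r (r m (α + β)) +
(mn H β)² D² (1 + log D)²)` (all terms `≥ 0`). Integrate with CELL (`k = r m`) and GI. First sum: `≤ ∑_{r < Q1} 4 π q² m² D D2 r ≤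
4 π (q m Q1)² D D2`. Second: `≤ C ∑ π D D2 (H²/(r² m) + H/r) ≤ C' D D2 (H²/Q1 + H (1 + log (2D)))`. Third: `≤ 2 H D² (1 + log D)²`,
`D² ≤ D D2`. -/
def S_D2I : Prop := ∃ C : ℝ, 1 ≤ C ∧ ∀ (H m D D2 q Q0 Q1 : ℕ) (α : ℝ) (a : ℤ), 1 ≤ m → 1 ≤ D → D ≤ D2 → 1 ≤ Q0 → 1 ≤ Q1 →
  IsCoprime a (q : ℤ) → Q1 * m < q → q * Q0 ≤ H → q ≤ 2 * D → 2 * Q1 * m * Q0 ≤ H → |α - a / q| ≤ Q0 / (q * H) →
  ∫ β in (0 : ℝ)..1, mn H β ^ 2 * (∑ d ∈ Ico D (2 * D), mn D2 (m * (α + β) * d)) ^ 2 ≤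
    C * (1 + Real.log D) ^ 2 * (D * D2) * (H + (H : ℝ) ^ 2 / Q1 + (m * Q1 * q) ^ 2)

/-- **D2M** two smooth variables and one integer (from MNB, GEO, PARS, D2I). Proof. PARS with `c = sg m * (sm v e * sm w e2)`:
`∑_{n ≤ N} c n e(γ n) = ∑_{d1} sm v e d1 ∑_{d2} sm w e2 d2 e(γ m d1 d2)` (all products are `≤ N`), by GEO (monotone weights
`≤ 1 + log N`) at most `2 (1 + log N)² ∑_{d ∈ [2^e, 2^(e+1))} mn (2^e2) (m γ d)`. The second factor of PARS is `≤ mn H β`. Now D2I with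
`D = 2^e`, `D2 = 2^e2`, `log D ≤ log N`. -/
def S_D2M : Prop := ∃ C : ℝ, 1 ≤ C ∧ ∀ (H N m v w e e2 q Q0 Q1 : ℕ) (α : ℝ) (a : ℤ), 1 ≤ m → e ≤ e2 →
  m * (2 ^ (e + 1) * 2 ^ (e2 + 1)) ≤ N → 1 ≤ Q0 → 1 ≤ Q1 → IsCoprime a (q : ℤ) → Q1 * m < q → q * Q0 ≤ H → q ≤ 2 * 2 ^ e →
  2 * Q1 * m * Q0 ≤ H → |α - a / q| ≤ Q0 / (q * H) →
  WS H N α (fun n => (sg m * (sm v e * sm w e2)) n) ≤
    C * (1 + Real.log N) ^ 6 * (2 ^ e * 2 ^ e2) * (H + (H : ℝ) ^ 2 / Q1 + (m * Q1 * q) ^ 2)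

/-- **D2** two smooth variables (from WSB, D2M). `f = ∑_{m ∈ [1, W]} f(m) sg m`; WSB (Cauchy-Schwarz over `m`, `W` terms) and D2M. -/
def S_D2 : Prop := ∃ C : ℝ, 1 ≤ C ∧ ∀ (H N W v w e e2 q Q0 Q1 : ℕ) (α : ℝ) (a : ℤ) (f : AF), (∀ n, f n ≠ 0 → n ≤ W) → e ≤ e2 →
  W * (2 ^ (e + 1) * 2 ^ (e2 + 1)) ≤ N → 1 ≤ Q0 → 1 ≤ Q1 → IsCoprime a (q : ℤ) → Q1 * W < q → q * Q0 ≤ H → q ≤ 2 * 2 ^ e →
  2 * Q1 * W * Q0 ≤ H → |α - a / q| ≤ Q0 / (q * H) →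
  WS H N α (fun n => (f * (sm v e * sm w e2)) n) ≤ C * (1 + Real.log N) ^ 6 * (W * ∑ n ∈ Icc 1 W, f n ^ 2) *
    (2 ^ e * 2 ^ e2) * (H + (H : ℝ) ^ 2 / Q1 + (W * Q1 * q) ^ 2)

/-- **NB** supports and norms of the products of factors. Proof. Support: a product of numbers `n_i ∈ [2^(d i), 2^(d i + 1))`.
Norms: `|fc i d n| ≤ 1 + log n`, so `|∏ …| ≤ (1 + log n)^8 (ζ^8)(n)` where `ζ^8(n)` is the number of factorisations into 8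
factors (for `|T| < 8` it is smaller), and `∑_{n ≤ N} ((ζ^8) n)² ≤ C N (1 + log N)^E` (moments of divisor functions: in the
library, e.g. `Pool.Agent.helper24_UT.II.tau_sum`, used in `Pool/Agent/H43/SL/HB.lean` and `Pool/Agent/H43/X6/TAU.lean`; or by induction
from `(fg)² ` and submultiplicativity). `L¹` from `L²` and Cauchy-Schwarz or `|x| ≤ 1 + x²`. -/
def S_NB : Prop := ∃ (C : ℝ) (E : ℕ), 1 ≤ C ∧ ∀ (T : Finset (Fin 8)) (d : Fin 8 → ℕ),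
  (∀ n, (∏ i ∈ T, fc i (d i)) n ≠ 0 → ∏ i ∈ T, 2 ^ (d i) ≤ n ∧ n ≤ 2 ^ T.card * ∏ i ∈ T, 2 ^ (d i)) ∧
  ∀ N : ℕ, 1 ≤ N → ∑ n ∈ Icc 1 N, ((∏ i ∈ T, fc i (d i)) n) ^ 2 ≤ C * N * (1 + Real.log N) ^ E ∧
    ∑ n ∈ Icc 1 N, |(∏ i ∈ T, fc i (d i)) n| ≤ C * N * (1 + Real.log N) ^ E

/-- **DEC** Heath-Brown's identity in boxes. Proof. `Pool.Agent.H43.SLF.hb` (file `Pool/Agent/H43/SL/HB.lean`) with `z = 2^s - 1`:
`Λ = 4 m l - 6 m² ζ l + 4 m³ ζ² l - m⁴ ζ³ l` on `[1, X]`, where `m` is `μ` restricted to `[1, z]`, i.e. `m = ∑_{d < s} mu d` (dyadic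
pieces; `z < 2^s ≤ z + 1`), and on `[1, X]` one can replace `ζ` by `∑_{d ≤ L} sm 0 d`, `l` by `∑_{d ≤ L} sm 1 d`, `L = Nat.log 2 X`. Expand the
products; `mu 0 = sm 0 0 = 1`, so a term with `j` Moebius factors is a sum of boxes with `d i = 0` for `j ≤ i < 4` and for
`3 + j ≤ i < 7`. `a d = ∑_j c_j [d has this shape and d i < s for i < 4]`, `|c_j| ≤ 6`, sum of `|c_j|` is 15. -/
def S_DEC : Prop := ∀ X s : ℕ, 2 ≤ X → X ≤ (2 ^ s - 1) ^ 4 → s ≤ Nat.log 2 X + 1 → ∃ a : (Fin 8 → ℕ) → ℝ, (∀ d, |a d| ≤ 15) ∧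
  (∀ d, a d ≠ 0 → ∀ i : Fin 8, i.val < 4 → d i < s) ∧
  ∀ n : ℕ, 1 ≤ n → n ≤ X → ArithmeticFunction.vonMangoldt n =
    ∑ d ∈ Fintype.piFinset (fun _ : Fin 8 => range (Nat.log 2 X + 1)), a d * bx d n

/-- **BOX** one box on the minor arcs (from WSB, TII, SMN, TIS, D2, NB). Let `P = P1^8`, `D_i = 2^(d i)`, `∏ D_i ≤ X`, `N = 256 X`,
`L = log X`; all powers of `P1 ≤ L^B'` are smaller than any power of `X`. From `Mi`: `q ≥ P`, `q P ≤ H`, `|α - a/q| ≤ P/(qH) ≤ 1/q²`.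
(i) Some `i` has `P1 ≤ D_i`, `D_i P1 ≤ H`. TII with `f = fc i (d i)`, `M = D_i`, `M' = 2 D_i`, `g` the product of the others,
`R = 2^7 ∏_{j ≠ i} D_j`, `M' R ≤ N`; norms by NB: `‖f‖² ‖g‖² ≤ C X L^k`; by SMN `∑_{k ≤ H/M} mn M' (αk) ≤ C (H/(M q) + 1)(M' + q (1 + log q)) ≤
C' L (H/q + H/M + M' + q) ≤ C'' L H/P1`. Good if `P1 ≥ L^B`, `B` large in terms of `A` and the exponent of NB.
(ii) No such `i`; `T` = set of the `i` with `D_i < P1`, `Π = ∏_T D_i`. If `Π ≥ P1`: TII with `f = ∏_T fc i (d i)`, `M = Π`,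
`M' = 2^|T| Π ≤ 256 P1^8`, as in (i).
(iii) `Π < P1`. The `i ∉ T` are large: `D_i P1 > H`. Their number is at most 2, because `(H/P1)³ > X`; and they have `i ≥ 4`
because `2^(d i) ≤ X^(1/4) + 1 < H/P1` for `i < 4`; so they are smooth factors (`fc i = sm 0` or `sm 1`). `f = ∏_T fc i (d i)`, `W = 2^|T| Π ≤ 256 P1`.
None: the box is supported on `n ≤ 256 P1`: WSB (2) and NB. One: TIS (`2W ≤ P ≤ q`, `q ≤ H/P`), `≤ 2N (2 (1+log N) (H/P) C P1 L^k)²`.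
Two (order them, `e ≤ e2`): D2 with `Q0 = P = P1^8`, `Q1 = P1^3`: `Q1 W ≤ 256 P1^4 < P ≤ q`, `q ≤ H/P ≤ 2 D_i`, `2 Q1 W Q0 ≤ H`, bound
`C L^k W² X (H + H²/P1³ + (256 P1^4 H/P1^8)²) ≤ C' L^k X H²/P1`. -/
def S_BOX : Prop := ∀ θ : ℝ, 1 / 3 < θ → ∀ A : ℕ, ∃ B : ℕ, ∀ B' : ℕ, ∃ X₀ : ℕ, ∀ X : ℕ, X₀ ≤ X → ∀ P1 : ℕ,
  Real.log X ^ B ≤ P1 → (P1 : ℝ) ≤ Real.log X ^ B' → ∀ H : ℕ, (X : ℝ) ^ θ ≤ H → H ≤ X → ∀ α : ℝ, Mi (P1 ^ 8) H α →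
  ∀ d : Fin 8 → ℕ, (∀ i : Fin 8, i.val < 4 → (2 : ℝ) ^ (d i) ≤ (X : ℝ) ^ (1 / 4 : ℝ) + 1) → 2 ^ (∑ i, d i) ≤ X →
  WS H (256 * X) α (fun n => bx d n) ≤ X * (H : ℝ) ^ 2 / Real.log X ^ A

/-- **LMI** primes on the minor arcs (from WSB, DEC, BOX, NB). Proof. DEC with the least `s` with `X ≤ (2^s - 1)^4`; then
`2^(s-1) ≤ X^(1/4) + 1`, so `2^(d i) ≤ X^(1/4) + 1` for `i < 4` if `a d ≠ 0`. For `x < X` the window `Wn H X α Λ x` only contains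
`n ≤ x < X`, so it is the sum over `d` of `a d Wn H (256 X) α (bx d) x`; boxes with `∏ 2^(d i) > X` vanish on `n ≤ X` (NB). There are
`(log2 X + 1)^8` boxes: Cauchy-Schwarz, `|a d| ≤ 15`, BOX with a larger `A`. -/
def S_LMI : Prop := ∀ θ : ℝ, 1 / 3 < θ → ∀ A : ℕ, ∃ B : ℕ, ∀ B' : ℕ, ∃ X₀ : ℕ, ∀ X : ℕ, X₀ ≤ X → ∀ P1 : ℕ,
  Real.log X ^ B ≤ P1 → (P1 : ℝ) ≤ Real.log X ^ B' → ∀ H : ℕ, (X : ℝ) ^ θ ≤ H → H ≤ X → ∀ α : ℝ, Mi (P1 ^ 8) H α →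
  ∑ x ∈ range X, ‖Wn H X α (fun n => ArithmeticFunction.vonMangoldt n) x‖ ^ 2 ≤ X * (H : ℝ) ^ 2 / Real.log X ^ A

/-- **TAIL** squarefree `z`-smooth divisors larger than `X^η`, `z ≤ log^E X`, are rare in the mean square. Proof. Let `t n` be the number of
them. Rankin: with `δ = 1/(2E + 2)`, `∑_{d > X^η, d ∣ primorial z} 1/d ≤ X^(-ηδ) ∏_{p ≤ z} (1 + p^(δ - 1)) ≤ X^(-ηδ) exp (z^δ (1 + log z))`
and `z^δ ≤ (log X)^(1/2)`, so this is `≤ X^(-ηδ/2)` for large `X`; `∑_{n ≤ X} t n ≤ X · X^(-ηδ/2)`. Cauchy-Schwarz: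
`∑ t² ≤ (∑ t)^(1/2) (∑ t³)^(1/2)`, `t ≤ τ` and `∑_{n ≤ X} τ(n)³ ≤ C X (1 + log X)^E'` (library: `tau_sum`, see NB). So
`∑ t² ≤ X^(1 - c)`. -/
def S_TAIL : Prop := ∀ (η : ℝ) (E : ℕ), 0 < η → ∃ c : ℝ, 0 < c ∧ ∃ X₀ : ℕ, ∀ X : ℕ, X₀ ≤ X → ∀ z : ℕ, (z : ℝ) ≤ Real.log X ^ E →
  ∑ n ∈ Icc 1 X, ((((primorial z).divisors.filter (fun d => d ∣ n ∧ (X : ℝ) ^ η < d)).card : ℕ) : ℝ) ^ 2 ≤ (X : ℝ) ^ (1 - c)

/-- **MMR** the sieve model on the minor arcs (from MNB, GEO, SMN, TAIL, WSB (2)). Proof. `rg z n = ∑_{d ∣ n, d ∣ primorial z} μ(d)`; split at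
`D0 = X^(θ/2)`. The part `d > D0` is at most `t n` of TAIL in absolute value, its windows have mean square `≤ H² X^(1-c)` (Cauchy-Schwarz, as
WSB (2)). The part `d ≤ D0`: for every `x` the window is at most
`∑_{d ≤ D0} |∑_{k : d k ≤ x < d k + H, k ≤ X/d} e(α d k)| ≤ ∑_{d ≤ D0} mn (H/d + 1) (α d)` (GEO). For `2d ≤ q` the sum is `≤ C q (1 + log q)`
by SMN (3). For `2^i ≤ d < 2^(i+1)`, `2^i ≥ q/4`: SMN (1) with `K = 2^(i+1)`, `M = H/2^i + 1`: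
`≤ C (2^(i+1)/q + 1)(H/2^i + 1 + q (1 + log q)) ≤ C' (H/q + 2^i (1 + log q))`. At most `2 log X` values of `i`. Total
`≤ C'' log² X (H/P + X^(θ/2) + q)`, `q ≤ H/P`, `X^(θ/2) ≤ H/P` for large `X`. So `B = A + 10` works, independent of `E`. -/
def S_MMR : Prop := ∀ θ : ℝ, 0 < θ → ∀ A : ℕ, ∃ B : ℕ, ∀ B' E : ℕ, ∃ X₀ : ℕ, ∀ X : ℕ, X₀ ≤ X → ∀ z : ℕ,
  (z : ℝ) ≤ Real.log X ^ E → ∀ P : ℕ, Real.log X ^ B ≤ P → (P : ℝ) ≤ Real.log X ^ B' → ∀ H : ℕ, (X : ℝ) ^ θ ≤ H → H ≤ X →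
  ∀ α : ℝ, Mi P H α → ∑ x ∈ range X, ‖Wn H X α (rg z) x‖ ^ 2 ≤ X * (H : ℝ) ^ 2 / Real.log X ^ A

end Pool.Agent.H43.MA
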