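import Pool.Agent.H43.MA.Ppl
import Pool.Agent.H43.G.R_seed8.H442R2.EHI.Fourier

/-!
# Project MA (helper43), part CH: the number of the primes `p ≤ x` for which the numbers `2 ^ i (p + 1) - 1` (`1 ≤ i ≤ k`) have no
prime factor `≤ y`

Put the proof of `S_XXX` in `Pool/Agent/H43/MA/XXX.lean`, namespace `Pool.Agent.H43.MA.XXX`, theorem `main`.
-/

set_option autoImplicit false

namespace Pool.Agent.H43.MA

open Finset

/-- `c` and the `2 ^ i (c + 1) - 1`, `1 ≤ i ≤ k`, have no prime factor `≤ y` -/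
def GoodC (k y c : ℕ) : Prop := ∀ q : ℕ, q.Prime → q ≤ y → ¬ q ∣ c ∧ ∀ i ∈ Icc 1 k, ¬ q ∣ 2 ^ i * (c + 1) - 1

open Classical in
/-- **CRT** (120 lines). Lower bound for the number of the good classes modulo `primorial y`. Induction on `y`: if `y + 1` is not
prime, `primorial (y + 1) = primorial y` and `GoodC k (y + 1) c ↔ GoodC k y c`. If `q = y + 1` is prime, `primorial (y + 1) = q * primorial y`,
coprime; `GoodC` depends on `c` modulo `M` only (`q ∣ 2 ^ i (c + 1) - 1 ↔ 2 ^ i (c + 1) ≡ 1 [MOD q]`, as `2 ^ i (c + 1) ≥ 1`), and by the Chinese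
remainder theorem (`Nat.chineseRemainder`) the pairs (good class modulo `M`, good class modulo `q`) inject into the good classes modulo
`q M`. Good classes modulo `q`: `-1`, i.e. `q - 1`, is good (`2 ^ i q - 1 ≡ -1`), so there is at least one; the bad ones are `0` and for each `i`, `q` odd, the
only `b < q` with `2 ^ i (b + 1) ≡ 1` (`2` is invertible); for `q = 2` the bad class is `0` only (`2 ^ i (c + 1) - 1` is odd). So at most `k + 1` bad ones. -/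
def S_CRT : Prop := ∀ k y : ℕ, ∏ q ∈ (Icc 1 y).filter Nat.Prime, max 1 (q - (k + 1)) ≤
  ((range (primorial y)).filter (fun c => GoodC k y c)).card

/-- **PRD** (60 lines). For `q > 2 k + 2`: `(q - (k + 1)) / q = 1 - t`, `t = (k + 1)/q ≤ 1/2`, `1 - t ≥ (1 - 1/q)^(2k+2)` (Bernoulli in the form
`(1 - 1/q)^(2k+2) ≤ 1 / (1 + 1/q)^(2k+2) ≤ 1/(1 + 2t) ≤ 1 - t`, the last for `t ≤ 1/2`). For `q ≤ 2 k + 2`: factor `≥ 1/q ≥ (1/q) (1 - 1/q)^(2k+2)`, put
`c = ∏_{q ≤ 2k+2} 1/q` or `1/(2k+2)!`. `primorial y = ∏ q`. (`V y = ∏ (1 - 1/q)` over the primes `≤ y`.) -/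
def S_PRD : Prop := ∀ k : ℕ, ∃ c : ℝ, 0 < c ∧ ∀ y : ℕ, c * V y ^ (2 * k + 2) * primorial y ≤
  ∏ q ∈ (Icc 1 y).filter Nat.Prime, ((max 1 (q - (k + 1)) : ℕ) : ℝ)

open Classical in
/-- **ALL** (from CRT, PRD; 120 lines). `M = primorial y ≤ L^(2 K₁)` (`Pool.Agent.Y877.SX.primorial_le_log`, see its use in `MA/Fin3.lean`), `L = log x`. The primes in the good classes
`c < M` (all coprime to `M`) modulo `M` are all counted; by `Pool.Agent.H442R2.EHI.sw U K` (Siegel-Walfisz, `K = 2 K₁`, `U = 2 K₁ + 2 k + 6`) each class has at least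
`pi1 x / φ(M) - x / L^U ≥ (x / (2 L)) / M - x / L^U` of them (`Fin.pi_low` in `MA/Ppl.lean`, `pi1 x = primeCounting x`), in total
`≥ N/M · x/(2L) - M x / L^U ≥ c V^(2k+2) x/(2L) - x/L^(2k+6)`, and `V y ≥ 1/L`
(`V y = Vz y` by `rfl`; `Pool.Agent.H373R2.T7.Vz_inv_small`, see `MA/Rgb.lean`, or `Vz y ≥ Vz z`). -/
def S_ALL : Prop := ∀ k K₁ : ℕ, ∃ x₀ : ℕ, ∀ x : ℕ, x₀ ≤ x → ∀ y : ℕ, (y : ℝ) ≤ K₁ * Real.log (Real.log x) →
  (x : ℝ) ≤ (((Icc 1 x).filter (fun p => p.Prime ∧ ∀ q : ℕ, q.Prime → q ≤ y → ∀ i ∈ Icc 1 k, ¬ q ∣ 2 ^ i * (p + 1) - 1)).card : ℝ) *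
    Real.log x ^ (2 * k + 4)

end Pool.Agent.H43.MA
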