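import Pool.Agent.H43.MA.Stm

/-! # MA-TAIL: large smooth divisors are rare -/

set_option autoImplicit false

namespace Pool.Agent.H43.MA.TAIL

open Finset

/-- the primes up to `z` -/
def ps (z : ℕ) : Finset ℕ := (range (z + 1)).filter Nat.Prime

theorem mem_ps (z p : ℕ) : p ∈ ps z ↔ p ≤ z ∧ p.Prime := by
  unfold ps
  rw [mem_filter, mem_range, Nat.lt_succ_iff]

theorem primorial_eq (z : ℕ) : primorial z = ∏ p ∈ ps z, p := rfl

theorem sqf (z : ℕ) : Squarefree (primorial z) := by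
  rw [primorial_eq]
  apply Finset.squarefree_prod_of_pairwise_isCoprime
  · intro p hp q hq hpq
    have h1 := (mem_ps z p).1 hp
    have h2 := (mem_ps z q).1 hq
    exact Nat.coprime_iff_isRelPrime.1 ((Nat.coprime_primes h1.2 h2.2).2 hpq)
  · intro p hp
    exact ((mem_ps z p).1 hp).2.squarefree

/-- the divisors counted by `t` -/
theorem lemA (z n : ℕ) (hn : 1 ≤ n) (Y δ : ℝ) (hY : 0 < Y) (hδ : 0 ≤ δ) :
    ((((primorial z).divisors.filter (fun d => d ∣ n ∧ Y < d)).card : ℕ) : ℝ) ≤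
      Y ^ (-δ) * ∏ p ∈ (ps z).filter (fun p => p ∣ n), (1 + (p : ℝ) ^ δ) := by
  classical
  set D := (primorial z).divisors.filter (fun d => d ∣ n ∧ Y < d) with hD
  have hDd : ∀ d ∈ D, d ∣ primorial z ∧ d ∣ n ∧ Y < (d : ℝ) := by
    intro d hd
    rw [hD, mem_filter, Nat.mem_divisors] at hd
    exact ⟨hd.1.1, hd.2.1, hd.2.2⟩
  have h1 : ((D.card : ℕ) : ℝ) ≤ ∑ d ∈ D, Y ^ (-δ) * (d : ℝ) ^ δ := by
    rw [Finset.card_eq_sum_ones, Nat.cast_sum]
    refine Finset.sum_le_sum fun d hd => ?_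
    have hd' := hDd d hd
    rw [Real.rpow_neg hY.le, Nat.cast_one, inv_mul_eq_div, one_le_div (Real.rpow_pos_of_pos hY _)]
    exact Real.rpow_le_rpow hY.le hd'.2.2.le hδ
  refine h1.trans ?_
  rw [← Finset.mul_sum]
  apply mul_le_mul_of_nonneg_left _ (Real.rpow_nonneg hY.le _)
  have h2 : ∀ d ∈ D, (d : ℝ) ^ δ = ∏ p ∈ d.primeFactors, (p : ℝ) ^ δ := by
    intro d hd
    have hs : Squarefree d := (sqf z).squarefree_of_dvd (hDd d hd).1
    have h3 : ((∏ p ∈ d.primeFactors, p : ℕ) : ℝ) = (d : ℝ) := by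
      rw [Nat.prod_primeFactors_of_squarefree hs]
    rw [← h3]
    push_cast
    rw [← Real.finsetProd_rpow _ _ (fun i _ => Nat.cast_nonneg i)]
  rw [Finset.sum_congr rfl h2]
  have hinj : Set.InjOn (fun d : ℕ => d.primeFactors) (D : Set ℕ) := by
    intro d hd d' hd' h
    have hs : Squarefree d := (sqf z).squarefree_of_dvd (hDd d hd).1
    have hs' : Squarefree d' := (sqf z).squarefree_of_dvd (hDd d' hd').1
    rw [← Nat.prod_primeFactors_of_squarefree hs, ← Nat.prod_primeFactors_of_squarefree hs']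
    have h' : d.primeFactors = d'.primeFactors := h
    rw [h']
  rw [← Finset.sum_image (f := fun A : Finset ℕ => ∏ p ∈ A, (p : ℝ) ^ δ) hinj, Finset.prod_one_add]
  apply Finset.sum_le_sum_of_subset_of_nonneg
  · intro A hA
    rw [mem_image] at hA
    obtain ⟨d, hd, rfl⟩ := hA
    rw [mem_powerset]
    intro p hp
    have hd' := hDd d hd
    rw [Nat.mem_primeFactors] at hp
    rw [mem_filter, mem_ps]
    refine ⟨⟨?_, hp.1⟩, hp.2.1.trans hd'.2.1⟩
    have h4 : p ∣ primorial z := hp.2.1.trans hd'.1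
    rw [primorial_eq] at h4
    obtain ⟨q, hq, hpq⟩ := (Prime.dvd_finsetProd_iff hp.1.prime _).1 h4
    rw [mem_ps] at hq
    rw [(Nat.prime_dvd_prime_iff_eq hp.1 hq.2).1 hpq]
    exact hq.1
  · intro A _ _
    exact Finset.prod_nonneg fun p _ => Real.rpow_nonneg (Nat.cast_nonneg _) _

theorem sumprod (z X : ℕ) (g : ℕ → ℝ) (hg : ∀ p, 0 ≤ g p) :
    ∑ n ∈ Icc 1 X, ∏ p ∈ (ps z).filter (fun p => p ∣ n), (1 + g p) ≤
      X * ∏ p ∈ ps z, (1 + g p / p) := by
  classical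
  have h1 : ∀ n ∈ Icc 1 X, ∏ p ∈ (ps z).filter (fun p => p ∣ n), (1 + g p) =
      ∑ A ∈ (ps z).powerset, if (∀ p ∈ A, p ∣ n) then ∏ p ∈ A, g p else 0 := by
    intro n _
    rw [Finset.prod_one_add, ← Finset.sum_filter]
    apply Finset.sum_congr _ (fun _ _ => rfl)
    ext A
    rw [mem_powerset, mem_filter, mem_powerset]
    constructor
    · intro h
      refine ⟨fun p hp => (mem_filter.1 (h hp)).1, fun p hp => (mem_filter.1 (h hp)).2⟩
    · rintro ⟨h2, h3⟩ p hp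
      exact mem_filter.2 ⟨h2 hp, h3 p hp⟩
  rw [Finset.sum_congr rfl h1, Finset.sum_comm, Finset.prod_one_add, Finset.mul_sum]
  refine Finset.sum_le_sum fun A hA => ?_
  rw [mem_powerset] at hA
  rw [← Finset.sum_filter, Finset.sum_const, nsmul_eq_mul, Finset.prod_div_distrib]
  have h2 : ((Icc 1 X).filter (fun n => ∀ p ∈ A, p ∣ n)).card ≤ X / ∏ p ∈ A, p := by
    rw [← Nat.Ioc_filter_dvd_card_eq_div]
    apply Finset.card_le_card
    intro n hn
    rw [mem_filter, mem_Icc] at hn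
    rw [mem_filter, mem_Ioc]
    refine ⟨by omega, ?_⟩
    apply Finset.prod_primes_dvd
    · intro p hp
      exact ((mem_ps z p).1 (hA hp)).2.prime
    · exact hn.2
  have h3 : (((Icc 1 X).filter (fun n => ∀ p ∈ A, p ∣ n)).card : ℝ) ≤
      (X : ℝ) / ((∏ p ∈ A, p : ℕ) : ℝ) := by
    have h4 : (((Icc 1 X).filter (fun n => ∀ p ∈ A, p ∣ n)).card : ℝ) ≤
      ((X / ∏ p ∈ A, p : ℕ) : ℝ) := by exact_mod_cast h2
    exact h4.trans Nat.cast_div_le
  have h5 : 0 ≤ ∏ p ∈ A, g p := Finset.prod_nonneg fun p _ => hg p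
  refine (mul_le_mul_of_nonneg_right h3 h5).trans (le_of_eq ?_)
  push_cast
  ring

theorem prodbound (z : ℕ) (δ : ℝ) (hδ : 0 ≤ δ) :
    ∏ p ∈ ps z, (1 + (1 + 2 * (p : ℝ) ^ δ) / p) ≤
      Real.exp (3 * (z : ℝ) ^ δ * (1 + Real.log z)) := by
  have h1 : ∏ p ∈ ps z, (1 + (1 + 2 * (p : ℝ) ^ δ) / p) ≤
      ∏ p ∈ ps z, Real.exp ((1 + 2 * (p : ℝ) ^ δ) / p) := by
    apply Finset.prod_le_prod
    · intro p _
      positivity
    · intro p _
      rw [add_comm]
      exact Real.add_one_le_exp _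
  refine h1.trans ?_
  rw [← Real.exp_sum]
  apply Real.exp_le_exp.2
  have h2 : ∑ p ∈ ps z, (1 + 2 * (p : ℝ) ^ δ) / p ≤ ∑ p ∈ ps z, 3 * (z : ℝ) ^ δ * (1 / (p : ℝ)) := by
    refine Finset.sum_le_sum fun p hp => ?_
    rw [mem_ps] at hp
    have hp1 : (1 : ℝ) ≤ p := by exact_mod_cast hp.2.one_lt.le
    have hpz : (p : ℝ) ≤ z := by exact_mod_cast hp.1
    have h3 : (1 : ℝ) ≤ (p : ℝ) ^ δ := Real.one_le_rpow hp1 hδ
    have h4 : (p : ℝ) ^ δ ≤ (z : ℝ) ^ δ := Real.rpow_le_rpow (by linarith) hpz hδ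
    rw [mul_one_div]
    apply div_le_div_of_nonneg_right _ (by linarith)
    linarith
  refine h2.trans ?_
  rw [← Finset.mul_sum]
  apply mul_le_mul_of_nonneg_left _ (by positivity)
  have h5 : ∑ p ∈ ps z, (1 / (p : ℝ)) ≤ ((harmonic z : ℚ) : ℝ) := by
    rw [harmonic_eq_sum_Icc]
    push_cast
    have h6 : ps z ⊆ Icc 1 z := by
      intro p hp
      rw [mem_ps] at hp
      rw [mem_Icc]
      exact ⟨hp.2.one_lt.le, hp.1⟩
    refine le_trans (Finset.sum_le_sum_of_subset_of_nonneg h6 (fun i _ _ => by positivity)) ?_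
    simp
  exact h5.trans (harmonic_le_one_add_log z)

theorem main : S_TAIL := by
  intro η E hη
  set δ : ℝ := 1 / (2 * E + 2) with hδ
  have hδ0 : 0 < δ := by positivity
  set K : ℝ := 6 * (1 + 4 * E) / (η * δ) with hK
  have hK0 : 0 < K := by positivity
  refine ⟨η * δ / 2, by positivity, ⌈Real.exp (max 1 (K ^ 4))⌉₊, ?_⟩
  intro X hX z hz
  have hX1 : Real.exp (max 1 (K ^ 4)) ≤ X := Nat.ceil_le.1 hX
  have hXpos : (0 : ℝ) < X := lt_of_lt_of_le (Real.exp_pos _) hX1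
  have hL : max 1 (K ^ 4) ≤ Real.log X := (Real.le_log_iff_exp_le hXpos).2 hX1
  set L := Real.log X with hLdef
  have hL1 : 1 ≤ L := le_trans (le_max_left _ _) hL
  have hLK : K ^ 4 ≤ L := le_trans (le_max_right _ _) hL
  have hL0 : 0 < L := by linarith
  set Y : ℝ := (X : ℝ) ^ η with hY
  have hYpos : 0 < Y := Real.rpow_pos_of_pos hXpos _
  -- pointwise
  have h1 : ∀ n ∈ Icc 1 X, ((((primorial z).divisors.filter (fun d => d ∣ n ∧ Y < d)).card : ℕ) : ℝ) ^ 2 ≤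
      Y ^ (-δ) * ∏ p ∈ (ps z).filter (fun p => p ∣ n), (1 + (1 + 2 * (p : ℝ) ^ δ)) := by
    intro n hn
    rw [mem_Icc] at hn
    have e1 := lemA z n hn.1 Y δ hYpos hδ0.le
    have e2 := lemA z n hn.1 Y 0 hYpos le_rfl
    rw [neg_zero, Real.rpow_zero, one_mul] at e2
    rw [sq]
    refine (mul_le_mul e1 e2 (Nat.cast_nonneg _) ?_).trans (le_of_eq ?_)
    · apply mul_nonneg (Real.rpow_nonneg hYpos.le _)
      exact Finset.prod_nonneg fun p _ => by positivity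
    · rw [mul_assoc, ← Finset.prod_mul_distrib]
      congr 1
      refine Finset.prod_congr rfl fun p _ => ?_
      rw [Real.rpow_zero]
      ring
  have h2 : ∑ n ∈ Icc 1 X, ((((primorial z).divisors.filter (fun d => d ∣ n ∧ Y < d)).card : ℕ) : ℝ) ^ 2 ≤
      Y ^ (-δ) * (X * Real.exp (3 * (z : ℝ) ^ δ * (1 + Real.log z))) := by
    refine (Finset.sum_le_sum h1).trans ?_
    rw [← Finset.mul_sum]
    apply mul_le_mul_of_nonneg_left _ (Real.rpow_nonneg hYpos.le _)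
    refine (sumprod z X (fun p => 1 + 2 * (p : ℝ) ^ δ) (fun p => by positivity)).trans ?_
    exact mul_le_mul_of_nonneg_left (prodbound z δ hδ0.le) hXpos.le
  refine h2.trans ?_
  -- asymptotics
  have hz0 : (0 : ℝ) ≤ z := Nat.cast_nonneg z
  have e1 : (z : ℝ) ^ δ ≤ L ^ (1 / 2 : ℝ) := by
    have : (z : ℝ) ^ δ ≤ (L ^ E) ^ δ := Real.rpow_le_rpow hz0 hz hδ0.le
    refine this.trans ?_
    rw [← Real.rpow_natCast, ← Real.rpow_mul hL0.le]
    apply Real.rpow_le_rpow_of_exponent_le hL1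
    rw [hδ, mul_one_div, div_le_div_iff₀ (by positivity) (by norm_num)]
    linarith
  have e2 : 1 + Real.log z ≤ (1 + 4 * E) * L ^ (1 / 4 : ℝ) := by
    have f1 : Real.log z ≤ E * Real.log L := by
      rcases Nat.eq_zero_or_pos z with h0 | h0
      · rw [h0, Nat.cast_zero, Real.log_zero]
        have := Real.log_nonneg hL1
        positivity
      · rw [← Real.log_pow]
        apply Real.log_le_log _ hz
        exact_mod_cast h0
    have f2 : Real.log L ≤ L ^ (1 / 4 : ℝ) / (1 / 4) := Real.log_le_rpow_div hL0.le (by norm_num)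
    have f3 : 1 ≤ L ^ (1 / 4 : ℝ) := Real.one_le_rpow hL1 (by norm_num)
    have f4 : (E : ℝ) * Real.log L ≤ E * (L ^ (1 / 4 : ℝ) / (1 / 4)) :=
      mul_le_mul_of_nonneg_left f2 (Nat.cast_nonneg _)
    linarith
  have e3 : 3 * (z : ℝ) ^ δ * (1 + Real.log z) ≤ η * δ / 2 * L := by
    have f0 : 0 ≤ 1 + Real.log z := by
      have := Real.log_natCast_nonneg z
      linarith
    have f1 : 3 * (z : ℝ) ^ δ * (1 + Real.log z) ≤
        3 * L ^ (1 / 2 : ℝ) * ((1 + 4 * E) * L ^ (1 / 4 : ℝ)) := by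
      apply mul_le_mul _ e2 f0 (by positivity)
      linarith
    refine f1.trans ?_
    have f2 : K ≤ L ^ (1 / 4 : ℝ) := by
      have : (K ^ 4) ^ (1 / 4 : ℝ) ≤ L ^ (1 / 4 : ℝ) :=
        Real.rpow_le_rpow (by positivity) hLK (by norm_num)
      rw [← Real.rpow_natCast, ← Real.rpow_mul hK0.le] at this
      norm_num at this
      exact this
    have f3 : L ^ (1 / 2 : ℝ) * L ^ (1 / 4 : ℝ) * L ^ (1 / 4 : ℝ) = L := by
      rw [← Real.rpow_add hL0, ← Real.rpow_add hL0]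
      norm_num
    have f4 : η * δ * K = 6 * (1 + 4 * E) := by
      rw [hK]
      field_simp
    calc 3 * L ^ (1 / 2 : ℝ) * ((1 + 4 * E) * L ^ (1 / 4 : ℝ))
        = η * δ / 2 * K * (L ^ (1 / 2 : ℝ) * L ^ (1 / 4 : ℝ)) := by
          have : η * δ / 2 * K = 3 * (1 + 4 * E) := by linarith
          rw [this]
          ring
      _ ≤ η * δ / 2 * L ^ (1 / 4 : ℝ) * (L ^ (1 / 2 : ℝ) * L ^ (1 / 4 : ℝ)) := by
          gcongr
      _ = η * δ / 2 * (L ^ (1 / 2 : ℝ) * L ^ (1 / 4 : ℝ) * L ^ (1 / 4 : ℝ)) := by ring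
      _ = η * δ / 2 * L := by rw [f3]
  have e4 : Real.exp (3 * (z : ℝ) ^ δ * (1 + Real.log z)) ≤ (X : ℝ) ^ (η * δ / 2) := by
    rw [Real.rpow_def_of_pos hXpos]
    apply Real.exp_le_exp.2
    rw [← hLdef]
    linarith
  have e5 : Y ^ (-δ) = (X : ℝ) ^ (-(η * δ)) := by
    rw [hY, ← Real.rpow_mul hXpos.le]
    congr 1
    ring
  rw [e5]
  calc (X : ℝ) ^ (-(η * δ)) * (X * Real.exp (3 * (z : ℝ) ^ δ * (1 + Real.log z)))
      ≤ (X : ℝ) ^ (-(η * δ)) * (X * (X : ℝ) ^ (η * δ / 2)) := by gcongr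
    _ = (X : ℝ) ^ (1 - η * δ / 2) := by
      nth_rewrite 2 [← Real.rpow_one (X : ℝ)]
      rw [← Real.rpow_add hXpos, ← Real.rpow_add hXpos]
      congr 1
      ring

end Pool.Agent.H43.MA.TAIL
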